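import Pool.Agent.Work.MP_0890ba_co.DS.Defs
import Pool.Agent.Work.MP_0890ba_co.BD.Struct

/-!
# The two arcs of a link between two adjacent vertices are separated
-/

set_option linter.unusedSectionVars false

namespace DS

open Finset Classical BDP

variable {V : Type}

namespace Ar3

/-- The vertices `w (i + a)` with `p ≤ a < q`. -/
def seg {k : ℕ} (w : ZMod k → V) (i : ZMod k) (p q : ℕ) : Set V :=
  {x | ∃ a : ℕ, p ≤ a ∧ a < q ∧ w (i + a) = x}

theorem seg_conn {G : SimpleGraph V} {v : V} {k : ℕ} {w : ZMod k → V} (hw : Link G v k w)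
    (i : ZMod k) (p q : ℕ) : Conn G (seg w i p q) := by
  refine Conn.of_center (c := w (i + p)) ?_
  rintro x ⟨a, hpa, haq, rfl⟩
  induction a, hpa using Nat.le_induction with
  | base => exact SimpleGraph.Reachable.refl _
  | succ a hpa ih =>
    refine (ih (by omega)).trans ?_
    have h1 : (res G (seg w i p q)).Adj (w (i + a)) (w (i + (a + 1 : ℕ))) := by
      refine ⟨?_, ⟨a, hpa, by omega, rfl⟩, ⟨a + 1, by omega, haq, rfl⟩⟩
      have := hw.adj (i + a)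
      rwa [add_assoc, ← Nat.cast_succ] at this
    exact h1.reachable

theorem inj_nat {G : SimpleGraph V} {v : V} {k : ℕ} {w : ZMod k → V} (hw : Link G v k w)
    (i : ZMod k) {a b : ℕ} (ha : a < k) (hb : b < k) (h : w (i + a) = w (i + b)) : a = b := by
  have h1 := add_left_cancel (hw.inj h)
  rw [ZMod.natCast_eq_natCast_iff'] at h1
  rwa [Nat.mod_eq_of_lt ha, Nat.mod_eq_of_lt hb] at h1

theorem ne_w {G : SimpleGraph V} {v : V} {k : ℕ} {w : ZMod k → V} (hw : Link G v k w)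
    (i : ZMod k) : v ≠ w i := ((hw.nb _).2 ⟨i, rfl⟩).ne

/-- The core: `Y` is connected, contains `w (i + m)`, sees `w i` and meets no other vertex of the
link. -/
theorem core {G : SimpleGraph V} (h5 : ¬BDP.HasK5Minor G) {v : V} {k : ℕ}
    {w : ZMod k → V} (hw : Link G v k w) (i : ZMod k) (m : ℕ) (hm2 : 2 ≤ m) (hmk : m + 2 ≤ k)
    {Y : Set V} (hY : Conn G Y) (hyY : w (i + m) ∈ Y) (hvY : v ∉ Y)
    (hYw : ∀ a : ℕ, a < k → w (i + a) ∈ Y → a = m) (hxY : Adjs G {w i} Y)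
    (a b : ℕ) (ha : 1 ≤ a) (ham : a < m) (hb : m < b) (hbk : b < k) :
    ¬(BDP.res G {z | z ≠ v ∧ z ≠ w i ∧ z ∉ Y}).Reachable (w (i + a)) (w (i + b)) := by
  intro hr
  set W : Set V := {z | z ≠ v ∧ z ≠ w i ∧ z ∉ Y} with hW
  set A : Set V := seg w i 1 m with hA
  have hi0 : w i = w (i + (0 : ℕ)) := by simp
  have hAW : ∀ a : ℕ, 1 ≤ a → a < k → a ≠ m → w (i + a) ∈ W := by
    intro a h1 h2 h3
    refine ⟨(ne_w hw _).symm, fun h => ?_, fun h => h3 (hYw a h2 h)⟩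
    rw [hi0] at h
    have := inj_nat hw i h2 (by omega) h
    omega
  have hBA : ∀ b : ℕ, m < b → b < k → w (i + b) ∈ W \ A := by
    intro b h1 h2
    refine ⟨hAW b (by omega) h2 (by omega), ?_⟩
    rintro ⟨a, h3, h4, h5⟩
    have := inj_nat hw i (by omega) h2 h5
    omega
  obtain ⟨u, hu, t, htA, -, hut⟩ := enter hr.symm (hBA b hb hbk) ⟨a, ha, ham, rfl⟩
  set C : Set V := cmp G (W \ A) (w (i + b)) with hC
  have hCW : C ⊆ W \ A := comp_subset (hBA b hb hbk)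
  have hBC : ∀ b' : ℕ, m < b' → b' < k → w (i + b') ∈ C := by
    intro b' h1 h2
    have h3 : seg w i (m + 1) k ⊆ W \ A := by
      rintro x ⟨c, h4, h5, rfl⟩
      exact hBA c (by omega) h5
    exact (seg_conn hw i (m + 1) k).subset_comp h3 (k := w (i + b)) ⟨b, hb, hbk, rfl⟩
      ⟨b', h1, h2, rfl⟩
  have hx1 : G.Adj (w i) (w (i + (1 : ℕ))) := by
    have := hw.adj i
    simpa using this
  have hk1 : G.Adj (w i) (w (i + (k - 1 : ℕ))) := by
    have h1 := hw.adj (i + (k - 1 : ℕ))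
    have h2 : i + ((k - 1 : ℕ) : ZMod k) + 1 = i := by
      have h3 : ((k - 1 : ℕ) : ZMod k) + 1 = ((k - 1 + 1 : ℕ) : ZMod k) := by push_cast; ring
      rw [add_assoc, h3, Nat.sub_add_cancel (by omega), ZMod.natCast_self, add_zero]
    rw [h2] at h1
    exact h1.symm
  have hm1 : G.Adj (w (i + m)) (w (i + (m - 1 : ℕ))) := by
    have h1 := hw.adj (i + (m - 1 : ℕ))
    have h2 : i + ((m - 1 : ℕ) : ZMod k) + 1 = i + m := by
      have h3 : ((m - 1 : ℕ) : ZMod k) + 1 = ((m - 1 + 1 : ℕ) : ZMod k) := by push_cast; ring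
      rw [add_assoc, h3, Nat.sub_add_cancel (by omega)]
    rw [h2] at h1
    exact h1.symm
  have hm2' : G.Adj (w (i + m)) (w (i + (m + 1 : ℕ))) := by
    have h1 := hw.adj (i + m)
    rwa [add_assoc, ← Nat.cast_succ] at h1
  have hv : ∀ j, G.Adj v (w j) := fun j => (hw.nb _).2 ⟨j, rfl⟩
  have hdis : ∀ {S T : Set V}, (∀ s ∈ S, s ∉ T) → Disjoint S T := fun h =>
    Set.disjoint_left.2 fun s h1 h2 => h s h1 h2
  have hAW' : ∀ x ∈ A, x ∈ W := by
    rintro x ⟨c, h1, h2, rfl⟩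
    exact hAW c h1 (by omega) (by omega)
  refine h5 (mkK5 (cn_sing G v) (cn_sing G (w i)) ⟨hY, _, hyY⟩ ⟨seg_conn hw i 1 m, _, htA⟩
    ⟨conn_component _ _, _, hu⟩ ?_ ?_ ?_ ?_ ?_ ?_ ?_ ?_ ?_ ?_ ?_ ?_ ?_ ?_ ?_ ?_ ?_ ?_ ?_ ?_)
  · exact Set.disjoint_singleton.2 (hv i).ne
  · exact Set.disjoint_singleton_left.2 hvY
  · exact Set.disjoint_singleton_left.2 fun h => (hAW' _ h).1 rfl
  · exact Set.disjoint_singleton_left.2 fun h => (hCW h).1.1 rfl
  · refine Set.disjoint_singleton_left.2 fun h => ?_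
    rw [hi0] at h
    have := hYw 0 (by omega) h
    omega
  · exact Set.disjoint_singleton_left.2 fun h => (hAW' _ h).2.1 rfl
  · exact Set.disjoint_singleton_left.2 fun h => (hCW h).1.2.1 rfl
  · exact hdis fun s h1 h2 => (hAW' _ h2).2.2 h1
  · exact hdis fun s h1 h2 => (hCW h2).1.2.2 h1
  · exact hdis fun s h1 h2 => (hCW h2).2 h1
  · exact adjs_of (hv i)
  · exact ⟨v, rfl, _, hyY, hv _⟩
  · exact ⟨v, rfl, _, ⟨a, ha, ham, rfl⟩, hv _⟩
  · exact ⟨v, rfl, _, hBC b hb hbk, hv _⟩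
  · exact hxY
  · exact ⟨_, rfl, _, ⟨1, le_rfl, by omega, rfl⟩, hx1⟩
  · exact ⟨_, rfl, _, hBC (k - 1) (by omega) (by omega), hk1⟩
  · exact ⟨_, hyY, _, ⟨m - 1, by omega, by omega, rfl⟩, hm1⟩
  · exact ⟨_, hyY, _, hBC (m + 1) (by omega) (by omega), hm2'⟩
  · exact ⟨t, htA, u, hu, hut.symm⟩

end Ar3

/-- The two arcs of the link between two adjacent vertices of the link are separated. -/
theorem arcs₃ [Fintype V] {G : SimpleGraph V} (h5 : ¬BDP.HasK5Minor G) {v : V} {k : ℕ}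
    {w : ZMod k → V} (hw : Link G v k w) (i : ZMod k) (m : ℕ) (hm2 : 2 ≤ m) (hmk : m + 2 ≤ k)
    (h : G.Adj (w i) (w (i + m))) (a b : ℕ) (ha : 1 ≤ a) (ham : a < m) (hb : m < b) (hbk : b < k) :
    ¬(BDP.res G {v, w i, w (i + m)}ᶜ).Reachable (w (i + a)) (w (i + b)) := by
  have h1 := Ar3.core h5 hw i m hm2 hmk (Y := {w (i + m)}) (conn_sing G _) rfl
    (fun h => (Ar3.ne_w hw _) h)
    (fun a ha h => Ar3.inj_nat hw i ha (by omega) h) (adjs_of h) a b ha ham hb hbk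
  have h2 : ({v, w i, w (i + m)}ᶜ : Set V) = {z | z ≠ v ∧ z ≠ w i ∧ z ∉ ({w (i + m)} : Set V)} := by
    ext z
    simp
  rw [h2]
  exact h1

/-- ... and also between two vertices of the link with a common neighbour outside. -/
theorem Ar3.arcs4 [Fintype V] {G : SimpleGraph V} (h5 : ¬BDP.HasK5Minor G) {v : V} {k : ℕ}
    {w : ZMod k → V} (hw : Link G v k w) (i : ZMod k) (m : ℕ) (hm2 : 2 ≤ m) (hmk : m + 2 ≤ k)
    {q : V} (hqv : q ≠ v) (hqn : ¬G.Adj v q) (h1 : G.Adj (w i) q) (h2 : G.Adj (w (i + m)) q)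
    (a b : ℕ) (ha : 1 ≤ a) (ham : a < m) (hb : m < b) (hbk : b < k) :
    ¬(BDP.res G {v, w i, w (i + m), q}ᶜ).Reachable (w (i + a)) (w (i + b)) := by
  have hqw : ∀ j, w j ≠ q := fun j h => hqn (h ▸ (hw.nb _).2 ⟨j, rfl⟩)
  have h3 := Ar3.core h5 hw i m hm2 hmk (Y := insert (w (i + m)) {q})
    (conn_ins (conn_sing G q) rfl h2) (Or.inl rfl)
    (by
      rintro (h | h)
      · exact Ar3.ne_w hw _ h
      · exact hqv h.symm)
    (by
      rintro a ha (h | h)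
      · exact Ar3.inj_nat hw i ha (by omega) h
      · exact absurd h (hqw _))
    ⟨_, rfl, q, Or.inr rfl, h1⟩ a b ha ham hb hbk
  have h4 : ({v, w i, w (i + m), q}ᶜ : Set V) =
      {z | z ≠ v ∧ z ≠ w i ∧ z ∉ (insert (w (i + m)) {q} : Set V)} := by
    ext z
    simp
  rw [h4]
  exact h3

end DS
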