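import Pool.Agent.Work.MP_0890ba_co.DS.Defs
import Pool.Agent.Work.MP_0890ba_co.BD.Struct

/-!
# Arcs of a link between two vertices with a common neighbour outside
-/

set_option linter.unusedSectionVars false

namespace DS

open BDP

variable {V : Type}

namespace A4

variable {G : SimpleGraph V} {k : ℕ} {w : ZMod k → V}

theorem cast_inj {a b : ℕ} (ha : a < k) (hb : b < k) (h : (a : ZMod k) = b) : a = b := by
  rw [ZMod.natCast_eq_natCast_iff', Nat.mod_eq_of_lt ha, Nat.mod_eq_of_lt hb] at h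
  exact h

theorem w_inj (hw : Function.Injective w) {i : ZMod k} {a b : ℕ} (ha : a < k) (hb : b < k)
    (h : w (i + a) = w (i + b)) : a = b :=
  cast_inj ha hb (add_left_cancel (hw h))

/-- The part of the link from `w (i + s)` to `w (i + t)`. -/
def arc (w : ZMod k → V) (i : ZMod k) (s t : ℕ) : Set V := {u | ∃ j : ℕ, s ≤ j ∧ j ≤ t ∧ w (i + j) = u}

theorem arc_conn (hadj : ∀ i, G.Adj (w i) (w (i + 1))) (i : ZMod k) (s n : ℕ) :
    Conn G (arc w i s (s + n)) := by
  induction n with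
  | zero =>
    have h : arc w i s (s + 0) = {w (i + s)} := by
      ext u
      constructor
      · rintro ⟨j, h1, h2, rfl⟩
        have : j = s := by omega
        rw [this]
        rfl
      · rintro rfl
        exact ⟨s, le_rfl, le_rfl, rfl⟩
    rw [h]
    exact conn_sing G _
  | succ n ih =>
    have h : arc w i s (s + (n + 1)) = insert (w (i + ((s + n + 1 : ℕ) : ZMod k)))
        (arc w i s (s + n)) := by
      ext u
      constructor
      · rintro ⟨j, h1, h2, rfl⟩
        by_cases h3 : j = s + n + 1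
        · left
          rw [h3]
        · right
          exact ⟨j, h1, by omega, rfl⟩
      · rintro (rfl | ⟨j, h1, h2, rfl⟩)
        · exact ⟨s + n + 1, by omega, by omega, rfl⟩
        · exact ⟨j, h1, by omega, rfl⟩
    rw [h]
    refine conn_ins ih (b := w (i + ((s + n : ℕ) : ZMod k))) ⟨s + n, by omega, le_rfl, rfl⟩ ?_
    have h1 := hadj (i + ((s + n : ℕ) : ZMod k))
    have h2 : i + ((s + n : ℕ) : ZMod k) + 1 = i + ((s + n + 1 : ℕ) : ZMod k) := by
      push_cast
      ring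
    rw [h2] at h1
    exact h1.symm

theorem arc_conn' (hadj : ∀ i, G.Adj (w i) (w (i + 1))) (i : ZMod k) {s t : ℕ} (h : s ≤ t) :
    Conn G (arc w i s t) := by
  obtain ⟨n, rfl⟩ := Nat.exists_eq_add_of_le h
  exact arc_conn hadj i s n

end A4

open A4

/-- The two arcs of the link between two vertices of the link with a common neighbour outside are
separated. -/
theorem arcs₄ [Fintype V] {G : SimpleGraph V} (h5 : ¬BDP.HasK5Minor G) {v : V} {k : ℕ}
    {w : ZMod k → V} (hw : Link G v k w) (i : ZMod k) (m : ℕ) (hm2 : 2 ≤ m) (hmk : m + 2 ≤ k)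
    {q : V} (hqv : q ≠ v) (hqn : ¬G.Adj v q) (h1 : G.Adj (w i) q) (h2 : G.Adj (w (i + m)) q)
    (a b : ℕ) (ha : 1 ≤ a) (ham : a < m) (hb : m < b) (hbk : b < k) :
    ¬(BDP.res G {v, w i, w (i + m), q}ᶜ).Reachable (w (i + a)) (w (i + b)) := by
  intro hr
  apply h5
  have hnb : ∀ j, G.Adj v (w j) := fun j => (hw.nb _).2 ⟨j, rfl⟩
  have hne : ∀ j, w j ≠ v := fun j h => (hnb j).ne h.symm
  have hq : ∀ j, w j ≠ q := fun j h => hqn (h ▸ hnb j)
  have hi0 : w i = w (i + ((0 : ℕ) : ZMod k)) := by simp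
  have inj : ∀ {c d : ℕ}, c < k → d < k → w (i + c) = w (i + d) → c = d := fun hc hd h =>
    w_inj hw.inj hc hd h
  -- the two arcs
  set X : Set V := {v, w i, w (i + m), q}ᶜ with hX
  set D : Set V := arc w i (m + 1) (k - 1) with hD
  have hXw : ∀ c : ℕ, c < k → c ≠ 0 → c ≠ m → w (i + c) ∈ X := by
    intro c hc h0 hm
    rw [hX]
    simp only [Set.mem_compl_iff, Set.mem_insert_iff, Set.mem_singleton_iff, not_or]
    refine ⟨hne _, ?_, ?_, hq _⟩
    · intro h
      rw [hi0] at h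
      exact h0 (inj hc (by omega) h)
    · intro h
      exact hm (inj hc (by omega) h)
  have hDn : ∀ c : ℕ, c ≤ m → w (i + c) ∉ D := by
    rintro c hc ⟨j, hj1, hj2, hj3⟩
    have := inj (by omega) (by omega) hj3
    omega
  have hvX : v ∉ X := by
    rw [hX]
    simp
  have hiX : w i ∉ X := by
    rw [hX]
    simp
  have hmX : w (i + m) ∉ X := by
    rw [hX]
    simp
  have hqX : q ∉ X := by
    rw [hX]
    simp
  have haX : w (i + a) ∈ X \ D := ⟨hXw a (by omega) (by omega) (by omega), hDn a (by omega)⟩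
  have hbD : w (i + b) ∈ D := ⟨b, by omega, by omega, rfl⟩
  obtain ⟨u, hu, u', hu', -, huu⟩ := enter hr haX hbD
  set C : Set V := cmp G (X \ D) (w (i + a)) with hC
  have hCX : C ⊆ X \ D := comp_subset haX
  -- the first arc is inside the component
  have harc : ∀ c : ℕ, 1 ≤ c → c < m → w (i + c) ∈ C := by
    intro c hc1 hc2
    have h3 : Conn G (arc w i 1 (m - 1)) := arc_conn' hw.adj i (by omega)
    have h4 : arc w i 1 (m - 1) ⊆ X \ D := by
      rintro - ⟨j, hj1, hj2, rfl⟩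
      exact ⟨hXw j (by omega) (by omega) (by omega), hDn j (by omega)⟩
    exact (h3 _ ⟨a, ha, by omega, rfl⟩ _ ⟨c, hc1, by omega, rfl⟩).mono (res_mono h4)
  have hDC : Conn G D := arc_conn' hw.adj i (by omega)
  have hvD : v ∉ D := by
    rintro ⟨j, -, -, hj⟩
    exact hne _ hj
  have hqD : q ∉ D := by
    rintro ⟨j, -, -, hj⟩
    exact hq _ hj
  have hiD : w i ∉ D := by
    rw [hi0]
    exact hDn 0 (by omega)
  refine mkK5 (A0 := {v}) (A1 := insert (w i) {q}) (A2 := {w (i + m)}) (A3 := C) (A4 := D)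
    (cn_sing G v) ⟨conn_ins (conn_sing G q) rfl h1, ⟨_, Set.mem_insert _ _⟩⟩ (cn_sing G _)
    ⟨conn_component _ _, ⟨_, mem_comp_self _ _⟩⟩ ⟨hDC, ⟨_, hbD⟩⟩ ?_ ?_ ?_ ?_ ?_ ?_ ?_ ?_ ?_ ?_
    ?_ ?_ ?_ ?_ ?_ ?_ ?_ ?_ ?_ ?_
  · rw [Set.disjoint_singleton_left]
    rintro (h | h)
    · exact hne _ h.symm
    · exact hqv h.symm
  · rw [Set.disjoint_singleton_left]
    intro h
    exact hne _ h.symm
  · rw [Set.disjoint_singleton_left]
    exact fun h => hvX (hCX h).1
  · rw [Set.disjoint_singleton_left]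
    exact hvD
  · rw [Set.disjoint_singleton_right]
    rintro (h | h)
    · rw [hi0] at h
      have := inj (by omega) (by omega) h
      omega
    · exact hq _ h
  · rw [Set.disjoint_left]
    rintro z (rfl | rfl) hz
    · exact hiX (hCX hz).1
    · exact hqX (hCX hz).1
  · rw [Set.disjoint_left]
    rintro z (rfl | rfl) hz
    · exact hiD hz
    · exact hqD hz
  · rw [Set.disjoint_singleton_left]
    exact fun h => hmX (hCX h).1
  · rw [Set.disjoint_singleton_left]
    exact hDn m le_rfl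
  · rw [Set.disjoint_left]
    exact fun z hz => (hCX hz).2
  · exact ⟨v, rfl, w i, Set.mem_insert _ _, hnb i⟩
  · exact ⟨v, rfl, _, rfl, hnb _⟩
  · exact ⟨v, rfl, _, mem_comp_self _ _, hnb _⟩
  · exact ⟨v, rfl, _, hbD, hnb _⟩
  · exact ⟨q, Or.inr rfl, _, rfl, h2.symm⟩
  · refine ⟨w i, Or.inl rfl, w (i + ((1 : ℕ) : ZMod k)), harc 1 le_rfl (by omega), ?_⟩
    have h3 := hw.adj i
    rwa [Nat.cast_one]
  · refine ⟨w i, Or.inl rfl, w (i + ((k - 1 : ℕ) : ZMod k)), ⟨k - 1, by omega, le_rfl, rfl⟩, ?_⟩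
    have h3 := hw.adj (i + ((k - 1 : ℕ) : ZMod k))
    have h4 : i + ((k - 1 : ℕ) : ZMod k) + 1 = i := by
      have h5 : (((k - 1 : ℕ) : ZMod k)) + 1 = ((k - 1 + 1 : ℕ) : ZMod k) := by push_cast; ring
      rw [add_assoc, h5, Nat.sub_add_cancel (by omega), ZMod.natCast_self, add_zero]
    rw [h4] at h3
    exact h3.symm
  · refine ⟨_, rfl, w (i + ((m - 1 : ℕ) : ZMod k)), harc (m - 1) (by omega) (by omega), ?_⟩
    have h3 := hw.adj (i + ((m - 1 : ℕ) : ZMod k))
    have h4 : i + ((m - 1 : ℕ) : ZMod k) + 1 = i + (m : ZMod k) := by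
      have h5 : (((m - 1 : ℕ) : ZMod k)) + 1 = ((m - 1 + 1 : ℕ) : ZMod k) := by push_cast; ring
      rw [add_assoc, h5, Nat.sub_add_cancel (by omega)]
    rw [h4] at h3
    exact h3.symm
  · refine ⟨_, rfl, w (i + ((m + 1 : ℕ) : ZMod k)), ⟨m + 1, le_rfl, by omega, rfl⟩, ?_⟩
    have h3 := hw.adj (i + (m : ZMod k))
    have h4 : i + (m : ZMod k) + 1 = i + ((m + 1 : ℕ) : ZMod k) := by
      push_cast
      ring
    rw [h4] at h3
    exact h3
  · exact ⟨u, hu, u', hu', huu⟩

end DS
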