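import Pool.Agent.Work.MP_0890ba_co.DS.Defs
import Pool.Agent.Work.MP_0890ba_co.BD.Par

/-!
# Straight line drawings have an abstract dual

The sides of an edge are described by the parities of the numbers of edges above them, for all even
sets of edges.
-/

set_option linter.unusedSectionVars false

namespace DS

open Finset Classical BDP Pool.Agent.Work.MP_0890ba_co

namespace Brd

/-- Going through the sectors on one side of a vertex. -/
lemma tele {E M : Type} [AddCommGroup M] (k : E → ℝ) (z : E → M) (S : M → ZMod 2)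
    (R : Finset E) : (∀ e ∈ R, ∀ e' ∈ R, k e = k e' → e = e') → ∀ A : M,
    ∑ e ∈ R, (S (A + ∑ e' ∈ R.filter (fun e' => k e < k e'), z e') +
      S (A + ∑ e' ∈ R.filter (fun e' => k e < k e'), z e' + z e)) =
      S A + S (A + ∑ e ∈ R, z e) := by
  induction R using Finset.induction_on_max_value k with
  | empty =>
    intro _ A
    rw [sum_empty, sum_empty, add_zero]
    exact (CharTwo.add_self_eq_zero _).symm
  | insert m s hm hmax ih =>
    intro hinj A
    have h1 : (insert m s).filter (fun e' => k m < k e') = ∅ := by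
      rw [filter_eq_empty_iff]
      intro x hx
      rcases mem_insert.1 hx with rfl | hx
      · exact lt_irrefl _
      · exact not_lt.2 (hmax x hx)
    have h2 : ∀ x ∈ s, ∑ e' ∈ (insert m s).filter (fun e' => k x < k e'), z e' =
        z m + ∑ e' ∈ s.filter (fun e' => k x < k e'), z e' := by
      intro x hx
      have h3 : k x < k m := lt_of_le_of_ne (hmax x hx) fun h4 => hm
        (hinj x (mem_insert_of_mem hx) m (mem_insert_self m s) h4 ▸ hx)
      rw [filter_insert, if_pos h3, sum_insert (fun h4 => hm (mem_filter.1 h4).1)]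
    rw [sum_insert hm, h1, sum_empty, add_zero, sum_insert hm]
    have h4 : ∑ x ∈ s, (S (A + ∑ e' ∈ (insert m s).filter (fun e' => k x < k e'), z e') +
        S (A + ∑ e' ∈ (insert m s).filter (fun e' => k x < k e'), z e' + z x)) =
        S (A + z m) + S (A + z m + ∑ e ∈ s, z e) := by
      rw [← ih (fun e he e' he' => hinj e (mem_insert_of_mem he) e' (mem_insert_of_mem he'))
        (A + z m)]
      refine sum_congr rfl fun x hx => ?_
      rw [h2 x hx, ← add_assoc]
    rw [h4, ← add_assoc A]
    have h5 : ∀ a b c : ZMod 2, a + b + (b + c) = a + c := by decide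
    exact h5 _ _ _

section drawing

variable {V : Type}

/-- The slope of the edge from `v` to `w`, seen from `v`. -/
noncomputable def sl (f : V → ℝ × ℝ) (v w : V) : ℝ :=
  ((f w).2 - (f v).2) / |(f w).1 - (f v).1|

variable {f : V → ℝ × ℝ}

lemma sl_right {v w : V} (h : (f v).1 < (f w).1) (t : ℝ) :
    ht (f v) (f w) t = (f v).2 + sl f v w * (t - (f v).1) := by
  unfold ht sl
  rw [abs_of_pos (by linarith)]

lemma sl_left {v w : V} (h : (f w).1 < (f v).1) (t : ℝ) :
    ht (f w) (f v) t = (f v).2 + sl f v w * ((f v).1 - t) := by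
  unfold ht sl
  rw [abs_of_neg (by linarith), neg_sub]
  have h1 : (f v).1 - (f w).1 ≠ 0 := by linarith
  field_simp
  ring

lemma up_right {v w x : V} (h : (f v).1 < (f w).1) (h1 : (f v).1 < (f x).1)
    (h2 : (f x).1 < (f w).1) :
    up (f v) (f w) (f x) = if sl f v x < sl f v w then 1 else 0 := by
  rw [up_eq h h1 h2]
  refine if_congr ?_ rfl rfl
  have h3 : (f x).2 = (f v).2 + sl f v x * ((f x).1 - (f v).1) := by
    rw [← sl_right h1, ht_right h1]
  rw [sl_right h, h3, add_lt_add_iff_left, mul_lt_mul_iff_left₀ (by linarith)]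

lemma dn_right {v w x : V} (h : (f v).1 < (f w).1) (h1 : (f v).1 < (f x).1)
    (h2 : (f x).1 < (f w).1) :
    dn (f v) (f w) (f x) = if sl f v w < sl f v x then 1 else 0 := by
  rw [dn_eq h h1 h2]
  refine if_congr ?_ rfl rfl
  have h3 : (f x).2 = (f v).2 + sl f v x * ((f x).1 - (f v).1) := by
    rw [← sl_right h1, ht_right h1]
  rw [sl_right h, h3, add_lt_add_iff_left, mul_lt_mul_iff_left₀ (by linarith)]

lemma up_left {v w x : V} (h : (f w).1 < (f v).1) (h1 : (f w).1 < (f x).1)
    (h2 : (f x).1 < (f v).1) :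
    up (f w) (f v) (f x) = if sl f v x < sl f v w then 1 else 0 := by
  rw [up_eq h h1 h2]
  refine if_congr ?_ rfl rfl
  have h3 : (f x).2 = (f v).2 + sl f v x * ((f v).1 - (f x).1) := by
    rw [← sl_left h2, ht_left]
  rw [sl_left h, h3, add_lt_add_iff_left, mul_lt_mul_iff_left₀ (by linarith)]

lemma dn_left {v w x : V} (h : (f w).1 < (f v).1) (h1 : (f w).1 < (f x).1)
    (h2 : (f x).1 < (f v).1) :
    dn (f w) (f v) (f x) = if sl f v w < sl f v x then 1 else 0 := by
  rw [dn_eq h h1 h2]
  refine if_congr ?_ rfl rfl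
  have h3 : (f x).2 = (f v).2 + sl f v x * ((f v).1 - (f x).1) := by
    rw [← sl_left h2, ht_left]
  rw [sl_left h, h3, add_lt_add_iff_left, mul_lt_mul_iff_left₀ (by linarith)]

lemma up_out {v w x : V} (h : (f v).1 < (f w).1)
    (h1 : (f x).1 ≤ (f v).1 ∨ (f w).1 ≤ (f x).1) : up (f v) (f w) (f x) = 0 := by
  refine up_eq_zero fun h2 => ?_
  obtain ⟨h3, h4⟩ := (btw_iff h _).1 h2
  rcases h1 with h1 | h1 <;> linarith

lemma dn_out {v w x : V} (h : (f v).1 < (f w).1)
    (h1 : (f x).1 ≤ (f v).1 ∨ (f w).1 ≤ (f x).1) : dn (f v) (f w) (f x) = 0 := by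
  refine dn_eq_zero fun h2 => ?_
  obtain ⟨h3, h4⟩ := (btw_iff h _).1 h2
  rcases h1 with h1 | h1 <;> linarith

/-- The slopes of two edges on the same side are different. -/
lemma sl_ne {G : SimpleGraph V} (hf : IsPlaneDrawing G f)
    (hg : ∀ v w, v ≠ w → (f v).1 ≠ (f w).1) {v w x : V} (hw : G.Adj v w) (hx : G.Adj v x)
    (hwx : w ≠ x) (hs : 0 < ((f w).1 - (f v).1) * ((f x).1 - (f v).1)) :
    sl f v w ≠ sl f v x := by
  have key : ∀ {w x : V}, G.Adj v w → G.Adj v x → w ≠ x →
      0 < ((f w).1 - (f v).1) * ((f x).1 - (f v).1) →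
      |(f w).1 - (f v).1| < |(f x).1 - (f v).1| → sl f v w ≠ sl f v x := by
    intro w x hw hx hwx hs hlt heq
    have hmem : f w ∈ segment ℝ (f v) (f x) := by
      rcases lt_or_gt_of_ne (hg v w hw.ne) with h1 | h1
      · have h2 : (f v).1 < (f x).1 := by
          by_contra h3
          have h4 : ((f w).1 - (f v).1) * ((f x).1 - (f v).1) ≤ 0 :=
            mul_nonpos_of_nonneg_of_nonpos (by linarith) (by linarith)
          linarith
        rw [abs_of_pos (by linarith), abs_of_pos (by linarith)] at hlt
        have h3 : ht (f v) (f x) (f w).1 = (f w).2 := by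
          rw [sl_right h2, ← heq, ← sl_right h1, ht_right h1]
        have h4 := mem_segment_ht h2 (t := (f w).1) h1.le (by linarith)
        rw [h3] at h4
        exact h4
      · have h2 : (f x).1 < (f v).1 := by
          by_contra h3
          have h4 : ((f w).1 - (f v).1) * ((f x).1 - (f v).1) ≤ 0 :=
            mul_nonpos_of_nonpos_of_nonneg (by linarith) (by linarith)
          linarith
        rw [abs_of_neg (by linarith), abs_of_neg (by linarith)] at hlt
        have h3 : ht (f x) (f v) (f w).1 = (f w).2 := by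
          rw [sl_left h2, ← heq, ← sl_left h1, ht_left]
        have h4 := mem_segment_ht h2 (t := (f w).1) (by linarith) h1.le
        rw [h3, segment_symm] at h4
        exact h4
    rcases hf.vertex v x w hx hmem with h | h
    · exact hw.ne h.symm
    · exact hwx h
  have hne : |(f w).1 - (f v).1| ≠ |(f x).1 - (f v).1| := by
    intro h
    rcases abs_eq_abs.1 h with h1 | h1
    · exact hg w x hwx (by linarith)
    · rw [h1] at hs
      nlinarith [mul_self_nonneg ((f x).1 - (f v).1)]
  rcases lt_or_gt_of_ne hne with h | h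
  · exact key hw hx hwx hs h
  · exact (key hx hw hwx.symm (by rwa [mul_comm]) h).symm

variable {G : SimpleGraph V}

/-- The edges, directed to the right. -/
abbrev Ed (G : SimpleGraph V) (f : V → ℝ × ℝ) : Type :=
  {p : V × V // G.Adj p.1 p.2 ∧ (f p.1).1 < (f p.2).1}

/-- An edge `c d` starts at `v` and is higher there than the edge `v w`; in addition it passes
above `v`, if it does. -/
noncomputable def hi (f : V → ℝ × ℝ) (v w a b : V) : ZMod 2 :=
  up (f a) (f b) (f v) + if a = v ∧ sl f v w < sl f v b then 1 else 0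

/-- The contribution of an edge to the numbers of edges above both ends of another edge. -/
lemma contrib (hf : IsPlaneDrawing G f) (hg : ∀ v w, v ≠ w → (f v).1 ≠ (f w).1)
    (e e' : Ed G f) :
    hi f e.1.1 e.1.2 e'.1.1 e'.1.2 + hi f e.1.2 e.1.1 e'.1.2 e'.1.1 =
      dn (f e.1.1) (f e.1.2) (f e'.1.1) + dn (f e.1.1) (f e.1.2) (f e'.1.2) := by
  obtain ⟨⟨a, b⟩, hab, hlt⟩ := e
  obtain ⟨⟨c, d⟩, hcd, hlt'⟩ := e'
  simp only at hab hlt hcd hlt' ⊢
  unfold hi
  rw [up_comm (f d) (f c) (f b)]
  by_cases hca : c = a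
  · subst hca
    rw [up_out hlt' (Or.inl le_rfl), dn_out hlt (Or.inl le_rfl), zero_add, zero_add]
    by_cases hdb : d = b
    · subst hdb
      rw [up_out hlt (Or.inr le_rfl), dn_out hlt (Or.inr le_rfl), if_neg fun h => lt_irrefl _ h.2,
        if_neg fun h => lt_irrefl _ h.2]
      simp
    · rw [if_neg (show ¬(d = b ∧ sl f b c < sl f b c) from fun h => hdb h.1), add_zero]
      rcases lt_or_gt_of_ne (hg d b hdb) with h1 | h1
      · rw [up_out hlt' (Or.inr h1.le), dn_right hlt hlt' h1, add_zero]
        simp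
      · rw [dn_out hlt (Or.inr h1.le), up_right hlt' hlt h1]
        simp only [true_and]
        exact CharTwo.add_self_eq_zero _
  · rw [if_neg fun h => hca h.1, add_zero]
    by_cases hdb : d = b
    · subst hdb
      rw [up_out hlt' (Or.inr le_rfl), dn_out hlt (Or.inr le_rfl), add_zero, zero_add]
      rcases lt_or_gt_of_ne (hg c a hca) with h1 | h1
      · rw [dn_out hlt (Or.inl h1.le), up_left hlt' h1 hlt]
        simp only [true_and]
        exact CharTwo.add_self_eq_zero _
      · rw [up_out hlt' (Or.inl h1.le), dn_left hlt h1 hlt', zero_add]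
        simp
    · rw [if_neg fun h => hdb h.1, add_zero]
      by_cases hcb : c = b
      · subst hcb
        rw [up_out hlt' (Or.inl hlt.le), up_out hlt' (Or.inl le_rfl), dn_out hlt (Or.inr le_rfl),
          dn_out hlt (Or.inr hlt'.le)]
      · by_cases hda : d = a
        · subst hda
          rw [up_out hlt' (Or.inr le_rfl), up_out hlt' (Or.inr hlt.le),
            dn_out hlt (Or.inl hlt'.le), dn_out hlt (Or.inl le_rfl)]
        · have h1 := edge_edge hf hg hcd hab hca hcb hda hdb
          have h2 : ∀ x y z w : ZMod 2, x + y + z + w = 0 → x + y = z + w := by decide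
          exact h2 _ _ _ _ h1

end drawing

section plane

variable {V : Type} [Fintype V] {G : SimpleGraph V} {f : V → ℝ × ℝ} [Fintype (Ed G f)]

/-- The left end. -/
def sE (e : Ed G f) : V := e.1.1

/-- The right end. -/
def tE (e : Ed G f) : V := e.1.2

/-- All vertices are even. -/
def Ev (Z : Ed G f → ZMod 2) : Prop := ∀ v, bd sE tE Z v = 0

/-- The number of edges of `Z` above `e`, near the left end. -/
noncomputable def side (Z : Ed G f → ZMod 2) (e : Ed G f) : ZMod 2 :=
  ∑ e' : Ed G f, Z e' * hi f (sE e) (tE e) (sE e') (tE e')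

/-- The number of edges of `Z` above `e`, near the right end. -/
noncomputable def side' (Z : Ed G f → ZMod 2) (e : Ed G f) : ZMod 2 :=
  ∑ e' : Ed G f, Z e' * hi f (tE e) (sE e) (tE e') (sE e')

lemma sum_bd (Z : Ed G f → ZMod 2) (d : V → ZMod 2) :
    ∑ e', Z e' * (d (sE e') + d (tE e')) = ∑ w, d w * bd sE tE Z w := by
  unfold bd
  simp only [mul_sum]
  rw [sum_comm]
  refine sum_congr rfl fun e' _ => ?_
  have h1 : ∀ w, d w * (Z e' * ((if sE e' = w then 1 else 0) + (if tE e' = w then 1 else 0))) =
      Z e' * (if sE e' = w then d w else 0) + Z e' * (if tE e' = w then d w else 0) := by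
    intro w
    split_ifs <;> ring
  simp only [h1]
  rw [sum_add_distrib, ← mul_sum, ← mul_sum, sum_ite_eq, sum_ite_eq, if_pos (mem_univ _),
    if_pos (mem_univ _), mul_add]

/-- The number of edges above an edge does not change along the edge. -/
lemma side_eq (hf : IsPlaneDrawing G f) (hg : ∀ v w, v ≠ w → (f v).1 ≠ (f w).1)
    {Z : Ed G f → ZMod 2} (hZ : Ev Z) (e : Ed G f) : side Z e = side' Z e := by
  have h1 : side Z e + side' Z e = 0 := by
    unfold side side'
    rw [← sum_add_distrib]
    have h2 : ∀ e' : Ed G f, Z e' * hi f (sE e) (tE e) (sE e') (tE e') +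
        Z e' * hi f (tE e) (sE e) (tE e') (sE e') =
        Z e' * (dn (f e.1.1) (f e.1.2) (f (sE e')) + dn (f e.1.1) (f e.1.2) (f (tE e'))) := by
      intro e'
      rw [← mul_add]
      congr 1
      exact contrib hf hg e e'
    simp only [h2]
    rw [sum_bd Z fun w => dn (f e.1.1) (f e.1.2) (f w)]
    exact sum_eq_zero fun w _ => by rw [hZ w, mul_zero]
  have h3 : ∀ a b : ZMod 2, a + b = 0 → a = b := by decide
  exact h3 _ _ h1

/-- The descriptions of the sides. -/
abbrev Fc (G : SimpleGraph V) (f : V → ℝ × ℝ) : Type := (Ed G f → ZMod 2) → ZMod 2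

/-- The upper side. -/
noncomputable def lE (e : Ed G f) : Fc G f := fun Z => if Ev Z then side Z e else 0

/-- The difference between the sides. -/
noncomputable def zE (e : Ed G f) : Fc G f := fun Z => if Ev Z then Z e else 0

/-- The lower side. -/
noncomputable def rE (e : Ed G f) : Fc G f := lE e + zE e

/-- The sector above a vertex. -/
noncomputable def aE (v : V) : Fc G f := fun Z =>
  if Ev Z then ∑ e' : Ed G f, Z e' * up (f (sE e')) (f (tE e')) (f v) else 0

lemma lE_left {v : V} {e : Ed G f} (he : sE e = v) :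
    lE e = aE v + ∑ e' ∈ (univ.filter fun e' : Ed G f => sE e' = v).filter
      (fun e' => sl f v (tE e) < sl f v (tE e')), zE e' := by
  funext Z
  rw [Pi.add_apply, Finset.sum_apply]
  unfold lE aE zE
  by_cases hZ : Ev Z
  · simp only [if_pos hZ]
    unfold side hi
    simp only [mul_add]
    rw [sum_add_distrib, he, filter_filter, sum_filter]
    congr 1
    refine sum_congr rfl fun e' _ => ?_
    split_ifs <;> simp
  · simp only [if_neg hZ]
    simp

lemma lE_right (hf : IsPlaneDrawing G f) (hg : ∀ v w, v ≠ w → (f v).1 ≠ (f w).1) {v : V}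
    {e : Ed G f} (he : tE e = v) :
    lE e = aE v + ∑ e' ∈ (univ.filter fun e' : Ed G f => tE e' = v).filter
      (fun e' => sl f v (sE e) < sl f v (sE e')), zE e' := by
  funext Z
  rw [Pi.add_apply, Finset.sum_apply]
  unfold lE aE zE
  by_cases hZ : Ev Z
  · simp only [if_pos hZ]
    rw [side_eq hf hg hZ]
    unfold side' hi
    simp only [mul_add]
    rw [sum_add_distrib, he, filter_filter, sum_filter]
    congr 1
    · refine sum_congr rfl fun e' _ => ?_
      rw [up_comm]
    · refine sum_congr rfl fun e' _ => ?_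
      split_ifs <;> simp
  · simp only [if_neg hZ]
    simp

lemma even_aux (hf : IsPlaneDrawing G f) (hg : ∀ v w, v ≠ w → (f v).1 ≠ (f w).1)
    (S : Fc G f → ZMod 2) (v : V) : bd (sE (G := G) (f := f)) tE (cut lE rE S) v = 0 := by
  have h1 : bd (sE (G := G) (f := f)) tE (cut lE rE S) v =
      ∑ e ∈ univ.filter (fun e : Ed G f => sE e = v), (S (lE e) + S (rE e)) +
      ∑ e ∈ univ.filter (fun e : Ed G f => tE e = v), (S (lE e) + S (rE e)) := by
    unfold bd cut
    rw [sum_filter, sum_filter, ← sum_add_distrib]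
    refine sum_congr rfl fun e _ => ?_
    split_ifs <;> ring
  have h2 : ∑ e ∈ univ.filter (fun e : Ed G f => sE e = v), (S (lE e) + S (rE e)) =
      S (aE v) + S (aE v + ∑ e ∈ univ.filter (fun e : Ed G f => sE e = v), zE e) := by
    rw [← tele (fun e : Ed G f => sl f v (tE e)) zE S _ ?_ (aE v)]
    · refine sum_congr rfl fun e he => ?_
      unfold rE
      rw [lE_left (mem_filter.1 he).2]
    · intro e he e' he' hk
      by_contra hne
      have h3 : e.1.1 = v := (mem_filter.1 he).2
      have h4 : e'.1.1 = v := (mem_filter.1 he').2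
      have h5 := e.2
      have h6 := e'.2
      rw [h3] at h5
      rw [h4] at h6
      refine sl_ne hf hg h5.1 h6.1 (fun h7 => hne (Subtype.ext (Prod.ext (h3.trans h4.symm) h7)))
        (mul_pos (by linarith [h5.2]) (by linarith [h6.2])) hk
  have h3 : ∑ e ∈ univ.filter (fun e : Ed G f => tE e = v), (S (lE e) + S (rE e)) =
      S (aE v) + S (aE v + ∑ e ∈ univ.filter (fun e : Ed G f => tE e = v), zE e) := by
    rw [← tele (fun e : Ed G f => sl f v (sE e)) zE S _ ?_ (aE v)]
    · refine sum_congr rfl fun e he => ?_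
      unfold rE
      rw [lE_right hf hg (mem_filter.1 he).2]
    · intro e he e' he' hk
      by_contra hne
      have h3 : e.1.2 = v := (mem_filter.1 he).2
      have h4 : e'.1.2 = v := (mem_filter.1 he').2
      have h5 := e.2
      have h6 := e'.2
      rw [h3] at h5
      rw [h4] at h6
      refine sl_ne hf hg h5.1.symm h6.1.symm
        (fun h7 => hne (Subtype.ext (Prod.ext h7 (h3.trans h4.symm))))
        (mul_pos_of_neg_of_neg (by linarith [h5.2]) (by linarith [h6.2])) hk
  have h4 : ∑ e ∈ univ.filter (fun e : Ed G f => sE e = v), zE e =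
      ∑ e ∈ univ.filter (fun e : Ed G f => tE e = v), zE e := by
    funext Z
    rw [Finset.sum_apply, Finset.sum_apply]
    unfold zE
    by_cases hZ : Ev Z
    · simp only [if_pos hZ]
      have h5 := hZ v
      unfold bd at h5
      simp only [mul_add, mul_ite, mul_one, mul_zero] at h5
      rw [sum_add_distrib, ← sum_filter, ← sum_filter] at h5
      have h6 : ∀ a b : ZMod 2, a + b = 0 → a = b := by decide
      exact h6 _ _ h5
    · simp only [if_neg hZ]
      simp
  rw [h1, h2, h3, h4]
  exact CharTwo.add_self_eq_zero _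

end plane

end Brd

open Brd in
/-- A graph with a straight line drawing has an abstract dual. -/
theorem pln_of_planar {V : Type} [Finite V] {G : SimpleGraph V} (h : Planar G) : Pln G := by
  obtain ⟨f₀, hf₀⟩ := h
  obtain ⟨f, hf, hg⟩ := exists_generic hf₀
  have i1 : Fintype V := Fintype.ofFinite V
  have i2 : Fintype (Ed G f) := Fintype.ofFinite _
  refine ⟨Ed G f, Fc G f, i2, inferInstance, sE, tE, lE, rE, ⟨even_aux hf hg, fun Z hZ => ?_⟩, ?_⟩
  · refine ⟨fun g => g Z, ?_⟩
    funext e
    have h2 : zE e Z = Z e := if_pos (show Ev Z from hZ)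
    show lE e Z + (lE e Z + zE e Z) = Z e
    rw [h2]
    have h1 : ∀ a b : ZMod 2, a + (a + b) = b := by decide
    exact h1 _ _
  · intro u v huv
    rcases lt_or_gt_of_ne (hg u v huv.ne) with h1 | h1
    · exact ⟨⟨(u, v), huv, h1⟩, Or.inl ⟨rfl, rfl⟩⟩
    · exact ⟨⟨(v, u), huv.symm, h1⟩, Or.inr ⟨rfl, rfl⟩⟩

end DS
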