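import Pool.Agent.Work.MP_0890ba_co.DS.Defs

/-!
# Links of vertices: rotation, reflection, the link of a neighbour
-/

set_option linter.unusedSectionVars false

namespace DS

open Finset Classical

variable {V : Type} {G : SimpleGraph V}

theorem Link.neZero {v : V} {k : ℕ} {w : ZMod k → V} (h : Link G v k w) : NeZero k :=
  ⟨by have := h.three; omega⟩

theorem Link.rot {v : V} {k : ℕ} {w : ZMod k → V} (h : Link G v k w) (i : ZMod k) :
    Link G v k fun j => w (j + i) where
  three := h.three
  inj := fun a b hab => add_right_cancel (h.inj hab)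
  nb := fun u => by
    rw [h.nb]
    constructor
    · rintro ⟨j, rfl⟩
      exact ⟨j - i, by simp⟩
    · rintro ⟨j, rfl⟩
      exact ⟨j + i, rfl⟩
  adj := fun j => by
    rw [show j + 1 + i = j + i + 1 by ring]
    exact h.adj _

theorem CLink.rot {v : V} {k : ℕ} {w : ZMod k → V} (h : CLink G v k w) (i : ZMod k) :
    CLink G v k fun j => w (j + i) where
  toLink := h.toLink.rot i
  cl := fun a b hab => by
    rcases h.cl _ _ hab with h1 | h1
    · exact Or.inl (add_right_cancel (h1.trans (by ring : a + i + 1 = a + 1 + i)))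
    · exact Or.inr (add_right_cancel (h1.trans (by ring : b + i + 1 = b + 1 + i)))

theorem Link.refl {v : V} {k : ℕ} {w : ZMod k → V} (h : Link G v k w) :
    Link G v k fun j => w (-j) where
  three := h.three
  inj := fun a b hab => neg_injective (h.inj hab)
  nb := fun u => by
    rw [h.nb]
    constructor
    · rintro ⟨j, rfl⟩
      exact ⟨-j, by simp⟩
    · rintro ⟨j, rfl⟩
      exact ⟨-j, rfl⟩
  adj := fun j => by
    have := (h.adj (-(j + 1))).symm
    rwa [show -(j + 1) + 1 = -j by ring] at this

theorem CLink.refl {v : V} {k : ℕ} {w : ZMod k → V} (h : CLink G v k w) :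
    CLink G v k fun j => w (-j) where
  toLink := h.toLink.refl
  cl := fun a b hab => by
    rcases h.cl _ _ hab with h1 | h1
    · right
      linear_combination h1
    · left
      linear_combination h1

/-- The degree is the length of the link. -/
theorem Link.dg_eq {v : V} {k : ℕ} {w : ZMod k → V} (h : Link G v k w) : dg G v = k := by
  have := h.neZero
  have h1 : G.neighborSet v = Set.range w := by
    ext u
    rw [SimpleGraph.mem_neighborSet, h.nb, Set.mem_range]
  unfold dg
  rw [h1, ← Set.image_univ, Set.ncard_image_of_injective _ h.inj, Set.ncard_univ,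
    Nat.card_eq_fintype_card, ZMod.card]

theorem Link.adj_nb {v : V} {k : ℕ} {w : ZMod k → V} (h : Link G v k w) (i : ZMod k) :
    G.Adj v (w i) := (h.nb _).2 ⟨i, rfl⟩

theorem Link.ne {v : V} {k : ℕ} {w : ZMod k → V} (h : Link G v k w) (i : ZMod k) : w i ≠ v :=
  (h.adj_nb i).ne'

theorem Link.one_ne {v : V} {k : ℕ} {w : ZMod k → V} (h : Link G v k w) :
    (1 : ZMod k) ≠ -1 := by
  have := h.neZero
  have h3 := h.three
  intro h1
  have h2 : ((2 : ℕ) : ZMod k) = 0 := by
    push_cast
    linear_combination h1
  rw [ZMod.natCast_eq_zero_iff] at h2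
  exact absurd (Nat.le_of_dvd (by norm_num) h2) (by omega)

/-- The link of the neighbour `w i`, starting at `c`: the next one is `w (i + 1)` and the last one
is `w (i - 1)`. -/
theorem leaf {c : V} {k k' : ℕ} {w : ZMod k → V} {y : ZMod k' → V} (hw : CLink G c k w)
    (i : ZMod k) (hy : CLink G (w i) k' y) :
    ∃ y' : ZMod k' → V, CLink G (w i) k' y' ∧ y' 0 = c ∧ y' 1 = w (i + 1) ∧
      y' (-1) = w (i - 1) := by
  obtain ⟨j, hj⟩ := (hy.nb c).1 (hw.adj_nb i).symm
  have h1 := hy.rot j
  have hc : y (0 + j) = c := by rw [zero_add, hj]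
  -- a neighbour of `c` and of `w i`
  have key : ∀ x, G.Adj c x → G.Adj (w i) x → x = w (i + 1) ∨ x = w (i - 1) := by
    intro x hx hx'
    obtain ⟨a, rfl⟩ := (hw.nb x).1 hx
    rcases hw.cl _ _ hx' with h | h
    · exact Or.inl (by rw [h])
    · exact Or.inr (by rw [h, add_sub_cancel_right])
  have ha : G.Adj c (y (1 + j)) := by
    have := h1.adj 0
    rwa [hc, zero_add] at this
  have hb : G.Adj c (y (-1 + j)) := by
    have := h1.adj (-1)
    rw [neg_add_cancel, hc] at this
    exact this.symm
  have hne : y (1 + j) ≠ y (-1 + j) := fun h => hy.one_ne (h1.inj h)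
  have ha' := key _ ha (h1.adj_nb 1)
  have hb' := key _ hb (h1.adj_nb (-1))
  rcases ha' with ha' | ha'
  · refine ⟨fun x => y (x + j), h1, hc, ha', ?_⟩
    rcases hb' with hb' | hb'
    · exact absurd (ha'.trans hb'.symm) hne
    · exact hb'
  · refine ⟨fun x => y (-x + j), h1.refl, ?_, ?_, ?_⟩
    · simp only [neg_zero]
      exact hc
    · rcases hb' with hb' | hb'
      · exact hb'
      · exact absurd (ha'.trans hb'.symm) hne
    · simp only [neg_neg]
      exact ha'

end DS
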