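import Pool.Agent.Work.MP_0890ba_co.DS.Defs

/-!
# Planar graphs by abstract duality: minors, pendant vertices, ears
-/

set_option linter.unusedSectionVars false

namespace DS

open Finset Classical

variable {V W : Type}

theorem Pln.mono {G H : SimpleGraph V} (hH : Pln H) (h : G ≤ H) : Pln G := by
  obtain ⟨E, F, i1, i2, s, t, l, r, hp, ha⟩ := hH
  exact ⟨E, F, i1, i2, s, t, l, r, hp, fun u v huv => ha u v (h huv)⟩

namespace MinorAux

variable {E F : Type} [Fintype E]

theorem two (a : ZMod 2) : a + a = 0 := CharTwo.add_self_eq_zero a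

theorem bd_zero (s t : E → V) (v : V) : bd s t (fun _ => 0) v = 0 := by
  simp [bd]

theorem bd_add (s t : E → V) (Z Z' : E → ZMod 2) (v : V) :
    bd s t (fun e => Z e + Z' e) v = bd s t Z v + bd s t Z' v := by
  simp only [bd, ← sum_add_distrib]
  exact sum_congr rfl fun e _ => by ring

theorem bd_mul (s t : E → V) (a : ZMod 2) (Z : E → ZMod 2) (v : V) :
    bd s t (fun e => a * Z e) v = a * bd s t Z v := by
  simp only [bd, mul_sum]
  exact sum_congr rfl fun e _ => by ring

theorem bd_sum {ι : Type} (A : Finset ι) (s t : E → V) (Z : ι → E → ZMod 2) (v : V) :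
    bd s t (fun e => ∑ i ∈ A, Z i e) v = ∑ i ∈ A, bd s t (Z i) v := by
  simp only [bd, sum_mul]
  rw [sum_comm]

theorem bd_single (s t : E → V) (e₀ : E) (v : V) :
    bd s t (fun e => if e = e₀ then 1 else 0) v =
      (if s e₀ = v then 1 else 0) + (if t e₀ = v then 1 else 0) := by
  simp only [bd, ite_mul, one_mul, zero_mul]
  rw [sum_ite_eq' univ e₀]
  simp

/-- A path inside `K` has the boundary consisting of its two ends. -/
theorem path {G : SimpleGraph V} {s t : E → V} (ha : ∀ u v, G.Adj u v → ∃ e, Joins s t e u v)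
    {K : Set V} {x y : V} (p : (BDP.res G K).Walk x y) :
    ∃ Y : E → ZMod 2, (∀ e, Y e ≠ 0 → s e ∈ K ∧ t e ∈ K) ∧
      ∀ v, bd s t Y v = (if x = v then 1 else 0) + (if y = v then 1 else 0) := by
  induction p with
  | nil => exact ⟨fun _ => 0, fun e h => absurd rfl h, fun v => by rw [bd_zero, two]⟩
  | @cons a b c hab q ih =>
    obtain ⟨Y, hY, hb⟩ := ih
    obtain ⟨e₀, he⟩ := ha a b hab.1
    have hb₀ : ∀ v : V, ((if s e₀ = v then 1 else 0) + (if t e₀ = v then 1 else 0) : ZMod 2) =
        (if a = v then 1 else 0) + (if b = v then 1 else 0) := by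
      intro v
      rcases he with ⟨h1, h2⟩ | ⟨h1, h2⟩
      · rw [h1, h2]
      · rw [h1, h2, add_comm]
    refine ⟨fun e => (if e = e₀ then 1 else 0) + Y e, fun e h => ?_, fun v => ?_⟩
    · by_cases h1 : e = e₀
      · rw [h1]
        rcases he with ⟨h2, h3⟩ | ⟨h2, h3⟩
        · rw [h2, h3]
          exact ⟨hab.2.1, hab.2.2⟩
        · rw [h2, h3]
          exact ⟨hab.2.2, hab.2.1⟩
      · refine hY e fun h2 => h ?_
        simp only [h1, if_false, h2, add_zero]
    · rw [bd_add, bd_single, hb v, hb₀ v]
      have h3 := two (if b = v then (1 : ZMod 2) else 0)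
      linear_combination h3

end MinorAux

open MinorAux

theorem Pln.minor [Fintype V] {G : SimpleGraph V} {H : SimpleGraph W} (hG : Pln G)
    (B : W → Set V) (hB : ∀ w, BDP.Conn G (B w)) (hd : ∀ w w', w ≠ w' → Disjoint (B w) (B w'))
    (ha : ∀ w w', H.Adj w w' → ∃ u ∈ B w, ∃ v ∈ B w', G.Adj u v) : Pln H := by
  obtain ⟨E, F, i1, i2, s, t, l, r, hp, hadj⟩ := hG
  have huniq : ∀ {v : V} {w w' : W}, v ∈ B w → v ∈ B w' → w = w' := by
    intro v w w' h1 h2
    by_contra h
    exact Set.disjoint_left.1 (hd w w' h) h1 h2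
  -- the new edges
  let N : E → Prop := fun e => ∃ w w', w ≠ w' ∧ s e ∈ B w ∧ t e ∈ B w'
  let T : E → Prop := fun e => ∃ w, s e ∈ B w ∧ t e ∈ B w
  let q : F → Quot (fun a b : F => ∃ e, ¬N e ∧ ¬T e ∧ l e = a ∧ r e = b) := Quot.mk _
  choose s' hs' using fun e : {e // N e} => e.2
  choose t' ht' using hs'
  have hst : ∀ e : {e // N e}, s' e ≠ t' e ∧ s e.1 ∈ B (s' e) ∧ t e.1 ∈ B (t' e) := ht'
  have : Finite (Quot (fun a b : F => ∃ e, ¬N e ∧ ¬T e ∧ l e = a ∧ r e = b)) :=
    Finite.of_surjective q Quot.exists_rep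
  -- sums over a branch set
  have hsum : ∀ (Z : E → ZMod 2) (Z' : {e // N e} → ZMod 2), (∀ e : {e // N e}, Z' e = Z e.1) →
      (∀ e, ¬N e → ¬T e → Z e = 0) → ∀ w,
      ∑ v ∈ univ.filter (· ∈ B w), bd s t Z v = bd s' t' Z' w := by
    intro Z Z' hZ hZ0 w
    simp only [bd]
    rw [sum_comm]
    have h1 : ∀ e, ∑ v ∈ univ.filter (· ∈ B w),
        Z e * ((if s e = v then 1 else 0) + (if t e = v then 1 else 0)) =
        Z e * ((if s e ∈ B w then 1 else 0) + (if t e ∈ B w then 1 else 0)) := by
      intro e
      rw [← mul_sum, sum_add_distrib, sum_ite_eq, sum_ite_eq]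
      simp
    rw [sum_congr rfl fun e _ => h1 e]
    rw [← Fintype.sum_subtype_add_sum_subtype N]
    have h2 : ∑ e : {e // ¬N e},
        Z e.1 * ((if s e.1 ∈ B w then 1 else 0) + (if t e.1 ∈ B w then 1 else 0)) = 0 := by
      refine sum_eq_zero fun e _ => ?_
      by_cases h3 : T e.1
      · obtain ⟨w', h4, h5⟩ := h3
        by_cases h6 : w' = w
        · subst h6
          rw [if_pos h4, if_pos h5, two, mul_zero]
        · rw [if_neg fun h7 => h6 (huniq h4 h7), if_neg fun h7 => h6 (huniq h5 h7), add_zero,
            mul_zero]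
      · rw [hZ0 e.1 e.2 h3, zero_mul]
    rw [h2, add_zero]
    refine sum_congr rfl fun e _ => ?_
    rw [hZ e]
    have h4 := hst e
    have h5 : (s e.1 ∈ B w) = (s' e = w) := by
      apply propext
      exact ⟨fun h => huniq h4.2.1 h, fun h => h ▸ h4.2.1⟩
    have h6 : (t e.1 ∈ B w) = (t' e = w) := by
      apply propext
      exact ⟨fun h => huniq h4.2.2 h, fun h => h ▸ h4.2.2⟩
    simp only [h5, h6]
  refine ⟨{e // N e}, Quot (fun a b : F => ∃ e, ¬N e ∧ ¬T e ∧ l e = a ∧ r e = b), inferInstance,
    Fintype.ofFinite _, s', t', fun e => q (l e.1), fun e => q (r e.1), ⟨fun S w => ?_,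
    fun Z' hZ' => ?_⟩, fun w w' hww => ?_⟩
  · -- even
    have h1 := hsum (cut l r fun f => S (q f)) (cut (fun e => q (l e.1)) (fun e => q (r e.1)) S)
      (fun e => rfl) (fun e h2 h3 => ?_) w
    · rw [← h1]
      exact sum_eq_zero fun v _ => hp.even _ v
    · have h4 : q (l e) = q (r e) := Quot.sound ⟨e, h2, h3, rfl, rfl⟩
      simp only [cut, h4]
      exact two _
  · -- dual
    let Z₀ : E → ZMod 2 := fun e => if h : N e then Z' ⟨e, h⟩ else 0
    have hZ₀ : ∀ e : {e // N e}, Z' e = Z₀ e.1 := fun e => by
      simp only [Z₀, dif_pos e.2]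
    have hZ₁ : ∀ e, ¬N e → Z₀ e = 0 := fun e he => by simp only [Z₀, dif_neg he]
    let g : V → ZMod 2 := bd s t Z₀
    have hgw : ∀ w, ∑ v ∈ univ.filter (· ∈ B w), g v = 0 := by
      intro w
      rw [← hZ' w]
      exact hsum Z₀ Z' hZ₀ (fun e h1 _ => hZ₁ e h1) w
    have hg0 : ∀ v, (∀ w, v ∉ B w) → g v = 0 := by
      intro v hv
      refine sum_eq_zero fun e _ => ?_
      by_cases he : N e
      · obtain ⟨w, w', -, h1, h2⟩ := he
        have h3 : s e ≠ v := fun h => hv w (h ▸ h1)
        have h4 : t e ≠ v := fun h => hv w' (h ▸ h2)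
        rw [if_neg h3, if_neg h4, add_zero, mul_zero]
      · rw [hZ₁ e he, zero_mul]
    -- base points
    have hbase : ∀ w, (B w).Nonempty → ∃ b, b ∈ B w := fun w h => h
    let base : W → V → V := fun w v => if h : (B w).Nonempty then h.choose else v
    have hbs : ∀ w v, v ∈ B w → base w v ∈ B w := by
      intro w v hv
      have h : (B w).Nonempty := ⟨v, hv⟩
      simp only [base, dif_pos h]
      exact h.choose_spec
    have hbe : ∀ w v v', v ∈ B w → base w v = base w v' := by
      intro w v v' hv
      have h : (B w).Nonempty := ⟨v, hv⟩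
      simp only [base, dif_pos h]
    -- the class and the base point of a vertex
    have hY : ∀ v, ∃ (Y : E → ZMod 2), (∀ e, Y e ≠ 0 → T e) ∧ ∀ u, bd s t Y u =
        if h : ∃ w, v ∈ B w then (if v = u then 1 else 0) +
          (if base h.choose v = u then 1 else 0) else 0 := by
      intro v
      by_cases h : ∃ w, v ∈ B w
      · have h1 := h.choose_spec
        obtain ⟨p⟩ := hB h.choose v h1 (base h.choose v) (hbs _ v h1)
        obtain ⟨Y, hY1, hY2⟩ := path hadj p
        refine ⟨Y, fun e he => ⟨h.choose, hY1 e he⟩, fun u => ?_⟩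
        rw [hY2 u, dif_pos h]
      · exact ⟨fun _ => 0, fun e he => absurd rfl he, fun u => by rw [bd_zero, dif_neg h]⟩
    choose Y hY1 hY2 using hY
    let Y' : E → ZMod 2 := fun e => ∑ v, g v * Y v e
    have hY'T : ∀ e, ¬T e → Y' e = 0 := by
      intro e he
      refine sum_eq_zero fun v _ => ?_
      have h1 : Y v e = 0 := by
        by_contra h
        exact he (hY1 v e h)
      rw [h1, mul_zero]
    have hNT : ∀ e, N e → ¬T e := by
      rintro e ⟨w, w', h1, h2, h3⟩ ⟨w'', h4, h5⟩
      exact h1 ((huniq h2 h4).trans (huniq h5 h3))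
    have hbd : ∀ u, bd s t Y' u = g u := by
      intro u
      rw [show bd s t Y' u = ∑ v, g v * bd s t (Y v) u by
        simp only [Y']
        rw [bd_sum]
        exact sum_congr rfl fun v _ => bd_mul _ _ _ _ _]
      by_cases hu : ∃ w, u ∈ B w
      · obtain ⟨w, hw⟩ := hu
        have h1 : ∀ v, g v * bd s t (Y v) u = (if v = u then g v else 0) +
            (if v ∈ B w then (if base w u = u then g v else 0) else 0) := by
          intro v
          rw [hY2 v u]
          by_cases hv : ∃ w', v ∈ B w'
          · rw [dif_pos hv]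
            have hv1 := hv.choose_spec
            by_cases hvw : v ∈ B w
            · have h2 : hv.choose = w := huniq hv1 hvw
              rw [if_pos hvw, h2, ← hbe w u v hw]
              split_ifs <;> ring
            · have h2 : base hv.choose v ≠ u := by
                intro h3
                have h4 := hbs hv.choose v hv1
                rw [h3] at h4
                exact hvw (huniq h4 hw ▸ hv1)
              rw [if_neg hvw, if_neg h2]
              split_ifs <;> ring
          · have h2 : v ≠ u := fun h => hv ⟨w, h ▸ hw⟩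
            have h3 : v ∉ B w := fun h => hv ⟨w, h⟩
            rw [dif_neg hv, if_neg h2, if_neg h3]
            ring
        rw [sum_congr rfl fun v _ => h1 v, sum_add_distrib, sum_ite_eq', if_pos (mem_univ u)]
        rw [← sum_filter]
        by_cases h3 : base w u = u
        · simp only [h3, if_true]
          rw [hgw w, add_zero]
        · simp only [h3, if_false, sum_const_zero, add_zero]
      · have h1 : ∀ v, g v * bd s t (Y v) u = 0 := by
          intro v
          rw [hY2 v u]
          by_cases hv : ∃ w', v ∈ B w'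
          · rw [dif_pos hv]
            have hv1 := hv.choose_spec
            have h2 : v ≠ u := fun h => hu (h ▸ hv)
            have h4 := hbs hv.choose v hv1
            have h3 : base hv.choose v ≠ u := fun h => hu ⟨hv.choose, by rwa [h] at h4⟩
            rw [if_neg h2, if_neg h3, add_zero, mul_zero]
          · rw [dif_neg hv, mul_zero]
        rw [sum_eq_zero fun v _ => h1 v, hg0 u fun w hw => hu ⟨w, hw⟩]
    obtain ⟨S, hS⟩ := hp.dual (fun e => Z₀ e + Y' e) fun v => by
      rw [bd_add, hbd v]
      exact two _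
    have hSD : ∀ e, ¬N e → ¬T e → S (l e) = S (r e) := by
      intro e h1 h2
      have h3 := congrFun hS e
      simp only [cut, hZ₁ e h1, hY'T e h2, add_zero] at h3
      have h4 := two (S (r e))
      linear_combination h3 - h4
    refine ⟨fun f => Quot.lift S (fun a b hab => ?_) f, funext fun e => ?_⟩
    · obtain ⟨e, h1, h2, h3, h4⟩ := hab
      rw [← h3, ← h4]
      exact hSD e h1 h2
    · have h3 := congrFun hS e.1
      simp only [cut, hY'T e.1 (hNT e.1 e.2), add_zero] at h3
      rw [hZ₀ e, ← h3]
      rfl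
  · obtain ⟨u, hu, v, hv, huv⟩ := ha w w' hww
    obtain ⟨e, he⟩ := hadj u v huv
    rcases he with ⟨h1, h2⟩ | ⟨h1, h2⟩
    · have hN : N e := ⟨w, w', hww.ne, h1 ▸ hu, h2 ▸ hv⟩
      refine ⟨⟨e, hN⟩, Or.inl ⟨?_, ?_⟩⟩
      · exact huniq (hst ⟨e, hN⟩).2.1 (h1 ▸ hu)
      · exact huniq (hst ⟨e, hN⟩).2.2 (h2 ▸ hv)
    · have hN : N e := ⟨w', w, hww.ne.symm, h1 ▸ hv, h2 ▸ hu⟩
      refine ⟨⟨e, hN⟩, Or.inr ⟨?_, ?_⟩⟩
      · exact huniq (hst ⟨e, hN⟩).2.1 (h1 ▸ hv)
      · exact huniq (hst ⟨e, hN⟩).2.2 (h2 ▸ hu)

theorem Pln.pendant {G : SimpleGraph V} {H : SimpleGraph (Option V)} (hG : Pln G) (x : V)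
    (h1 : ∀ u v, H.Adj (some u) (some v) → G.Adj u v)
    (h2 : ∀ u, H.Adj none (some u) → u = x) : Pln H := by
  obtain ⟨E, F, i1, i2, s, t, l, r, hp, hadj⟩ := hG
  let s' : Option E → Option V := fun e => e.elim none fun e => some (s e)
  let t' : Option E → Option V := fun e => e.elim (some x) fun e => some (t e)
  let l' : Option E → Option F := fun e => e.elim none fun e => some (l e)
  let r' : Option E → Option F := fun e => e.elim none fun e => some (r e)
  have hbs : ∀ (Z : Option E → ZMod 2) (v : V), bd s' t' Z (some v) =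
      bd s t (fun e => Z (some e)) v + Z none * (if x = v then 1 else 0) := by
    intro Z v
    simp only [bd, Fintype.sum_option, s', t', Option.elim_none, Option.elim_some,
      Option.some.injEq, reduceCtorEq, if_false, zero_add]
    rw [add_comm]
  have hbn : ∀ (Z : Option E → ZMod 2), bd s' t' Z none = Z none := by
    intro Z
    simp only [bd, Fintype.sum_option, s', t', Option.elim_none, Option.elim_some,
      reduceCtorEq, if_false, if_true, add_zero, mul_one, mul_zero, sum_const_zero]
  refine ⟨Option E, Option F, inferInstance, inferInstance, s', t', l', r', ⟨fun S v => ?_,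
    fun Z hZ => ?_⟩, fun u v huv => ?_⟩
  · have h3 : cut l' r' S none = 0 := two _
    cases v with
    | none => rw [hbn, h3]
    | some v =>
      rw [hbs, h3, zero_mul, add_zero]
      exact hp.even (fun f => S (some f)) v
  · have h3 : Z none = 0 := by rw [← hbn Z, hZ]
    obtain ⟨S, hS⟩ := hp.dual (fun e => Z (some e)) fun v => by
      have h4 := hZ (some v)
      rwa [hbs, h3, zero_mul, add_zero] at h4
    refine ⟨fun f => f.elim 0 S, funext fun e => ?_⟩
    cases e with
    | none => rw [h3]; exact two _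
    | some e => exact congrFun hS e
  · cases u with
    | none =>
      cases v with
      | none => exact absurd huv (H.loopless.irrefl none)
      | some v => exact ⟨none, Or.inl ⟨rfl, by rw [h2 v huv]; rfl⟩⟩
    | some u =>
      cases v with
      | none => exact ⟨none, Or.inr ⟨rfl, by rw [h2 u huv.symm]; rfl⟩⟩
      | some v =>
        obtain ⟨e, he⟩ := hadj u v (h1 u v huv)
        refine ⟨some e, ?_⟩
        rcases he with ⟨h3, h4⟩ | ⟨h3, h4⟩
        · exact Or.inl ⟨congrArg some h3, congrArg some h4⟩
        · exact Or.inr ⟨congrArg some h3, congrArg some h4⟩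

theorem Pln.ear {G : SimpleGraph V} {H : SimpleGraph (Option V)} (hG : Pln G) (x y : V)
    (hxy : G.Adj x y) (h1 : ∀ u v, H.Adj (some u) (some v) → G.Adj u v)
    (h2 : ∀ u, H.Adj none (some u) → u = x ∨ u = y) : Pln H := by
  obtain ⟨E, F, i1, i2, s, t, l, r, hp, hadj⟩ := hG
  obtain ⟨e₀, he₀⟩ := hadj x y hxy
  let s' : E ⊕ Bool → Option V := Sum.elim (fun e => some (s e)) fun _ => none
  let t' : E ⊕ Bool → Option V := Sum.elim (fun e => some (t e)) fun b => some (if b then x else y)
  let l' : E ⊕ Bool → Option F := Sum.elim (fun e => some (l e)) fun _ => none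
  let r' : E ⊕ Bool → Option F := Sum.elim (fun e => if e = e₀ then none else some (r e))
    fun _ => some (r e₀)
  have hbs : ∀ (Z : E ⊕ Bool → ZMod 2) (v : V), bd s' t' Z (some v) =
      bd s t (fun e => Z (Sum.inl e)) v + (Z (Sum.inr true) * (if x = v then 1 else 0) +
        Z (Sum.inr false) * (if y = v then 1 else 0)) := by
    intro Z v
    simp only [bd, Fintype.sum_sum_type, s', t', Sum.elim_inl, Sum.elim_inr,
      Option.some.injEq, reduceCtorEq, if_false, zero_add, Fintype.sum_bool, if_true,
      Bool.false_eq_true]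
  have hbn : ∀ (Z : E ⊕ Bool → ZMod 2), bd s' t' Z none =
      Z (Sum.inr true) + Z (Sum.inr false) := by
    intro Z
    simp only [bd, Fintype.sum_sum_type, s', t', Sum.elim_inl, Sum.elim_inr,
      reduceCtorEq, if_false, if_true, add_zero, mul_one, mul_zero, sum_const_zero, zero_add,
      Fintype.sum_bool]
  have hends : ∀ v : V, ((if s e₀ = v then 1 else 0) + (if t e₀ = v then 1 else 0) : ZMod 2) =
      (if x = v then 1 else 0) + (if y = v then 1 else 0) := by
    intro v
    rcases he₀ with ⟨h3, h4⟩ | ⟨h3, h4⟩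
    · rw [h3, h4]
    · rw [h3, h4, add_comm]
  refine ⟨E ⊕ Bool, Option F, inferInstance, inferInstance, s', t', l', r', ⟨fun S v => ?_,
    fun Z hZ => ?_⟩, fun u v huv => ?_⟩
  · have h3 : ∀ b, cut l' r' S (Sum.inr b) = S none + S (some (r e₀)) := fun b => rfl
    cases v with
    | none => rw [hbn, h3, h3]; exact two _
    | some v =>
      have h4 : (fun e => cut l' r' S (Sum.inl e)) = fun e =>
          cut l r (fun f => S (some f)) e + (S none + S (some (r e₀))) *
            (if e = e₀ then 1 else 0) := by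
        funext e
        simp only [cut, l', r', Sum.elim_inl]
        by_cases h5 : e = e₀
        · rw [if_pos h5, if_pos h5, h5]
          have h6 := two (S (some (r e₀)))
          linear_combination -h6
        · rw [if_neg h5, if_neg h5]
          ring
      rw [hbs, h3, h3, h4, bd_add, bd_mul, bd_single, hends, hp.even]
      have h6 := two ((S none + S (some (r e₀))) * ((if x = v then 1 else 0) +
        (if y = v then 1 else 0)))
      linear_combination h6
  · have h3 : Z (Sum.inr true) = Z (Sum.inr false) := by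
      have h4 := hZ none
      rw [hbn] at h4
      have h5 := two (Z (Sum.inr false))
      linear_combination h4 - h5
    obtain ⟨S, hS⟩ := hp.dual (fun e => Z (Sum.inl e) + Z (Sum.inr false) *
        (if e = e₀ then 1 else 0)) fun v => by
      have h4 := hZ (some v)
      rw [hbs, h3] at h4
      rw [bd_add, bd_mul, bd_single, hends]
      linear_combination h4
    refine ⟨fun f => f.elim (S (r e₀) + Z (Sum.inr false)) S, funext fun e => ?_⟩
    cases e with
    | inl e =>
      have h5 := congrFun hS e
      simp only [cut] at h5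
      simp only [cut, l', r', Sum.elim_inl, Option.elim_some]
      by_cases h6 : e = e₀
      · rw [if_pos h6, Option.elim_none]
        rw [if_pos h6, h6] at h5
        rw [h6]
        have h7 := two (Z (Sum.inr false))
        linear_combination h5 + h7
      · rw [if_neg h6, Option.elim_some]
        rw [if_neg h6] at h5
        linear_combination h5
    | inr b =>
      simp only [cut, l', r', Sum.elim_inr, Option.elim_some, Option.elim_none]
      have h7 := two (S (r e₀))
      cases b with
      | true => rw [h3]; linear_combination h7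
      | false => linear_combination h7
  · cases u with
    | none =>
      cases v with
      | none => exact absurd huv (H.loopless.irrefl none)
      | some v =>
        rcases h2 v huv with h3 | h3
        · exact ⟨Sum.inr true, Or.inl ⟨rfl, by rw [h3]; rfl⟩⟩
        · exact ⟨Sum.inr false, Or.inl ⟨rfl, by rw [h3]; rfl⟩⟩
    | some u =>
      cases v with
      | none =>
        rcases h2 u huv.symm with h3 | h3
        · exact ⟨Sum.inr true, Or.inr ⟨rfl, by rw [h3]; rfl⟩⟩
        · exact ⟨Sum.inr false, Or.inr ⟨rfl, by rw [h3]; rfl⟩⟩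
      | some v =>
        obtain ⟨e, he⟩ := hadj u v (h1 u v huv)
        refine ⟨Sum.inl e, ?_⟩
        rcases he with ⟨h3, h4⟩ | ⟨h3, h4⟩
        · exact Or.inl ⟨congrArg some h3, congrArg some h4⟩
        · exact Or.inr ⟨congrArg some h3, congrArg some h4⟩

end DS
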