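import Pool.Agent.Work.MP_0890ba_co.DS.Euler
import Pool.Agent.Work.MP_0890ba_co.DS.Minor

/-!
# Graphs with an abstract dual have no minor with five pairwise adjacent vertices
-/

set_option linter.unusedSectionVars false

namespace DS

open Finset Classical

variable {V W : Type}

theorem Eul.conn_of_induce {G : SimpleGraph V} {A : Set V} (h : (G.induce A).Connected) :
    BDP.Conn G A := by
  intro x hx y hy
  let φ : G.induce A →g BDP.res G A :=
    { toFun := fun v => v.1
      map_rel' := fun {a b} hab => ⟨hab, a.2, b.2⟩ }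
  exact (h.preconnected ⟨x, hx⟩ ⟨y, hy⟩).map φ

theorem Pln.notK5 [Fintype V] {G : SimpleGraph V} (h : Pln G) : ¬BDP.HasK5Minor G := by
  rintro ⟨A, hc, hd, ha⟩
  have h5 : Pln (⊤ : SimpleGraph (Fin 5)) :=
    h.minor A (fun i => Eul.conn_of_induce (hc i)) hd fun i j hij => ha i j hij.ne
  have h1 := h5.sum_dg (by simp)
  have h2 : ∀ v : Fin 5, dg (⊤ : SimpleGraph (Fin 5)) v = 4 := by
    intro v
    unfold dg
    rw [SimpleGraph.neighborSet_top, Set.ncard_eq_toFinset_card', Set.toFinset_compl,
      Finset.card_compl]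
    simp
  simp only [h2, Finset.sum_const, Finset.card_univ, Fintype.card_fin] at h1
  norm_num at h1

end DS
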