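import Pool.Agent.Work.MP_0890ba_co.DS.Defs
import Pool.Agent.Work.MP_0890ba_co.BD.Pl.LawOps

/-!
# Laws of independent sets: thinning, transfer, glueing

`thin`: every vertex of the random set is kept independently, so that the marginals are exact.
`transfer`: vertices of `H` are replaced by independent classes of vertices of `G`.
`glue`: two laws with the same trace on the common part are joined, conditionally independently.
-/

set_option linter.unusedSectionVars false

namespace DS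

open Finset Classical

variable {V W : Type}

/-- The law as a structure. -/
def IsLaw.law [Fintype V] {G : SimpleGraph V} {X : Set V} {μ : Finset V → ℝ} (h : IsLaw G X μ) :
    BDP.Lw.Law V := ⟨μ, h.nonneg, h.sum⟩

lemma isLaw_of [Fintype V] {G : SimpleGraph V} {X : Set V} (L : BDP.Lw.Law V)
    (h1 : L.As fun I => ∀ v ∈ I, v ∈ X) (h2 : L.As (BDP.Lw.Ind G)) : IsLaw G X L.w :=
  ⟨L.nonneg, L.total, h1, h2⟩

namespace LawAux

open BDP.Lw

lemma ite_iff {a b : Prop} {da : Decidable a} {db : Decidable b} (h : a ↔ b) (x y : ℝ) :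
    @ite ℝ a da x y = @ite ℝ b db x y := by
  by_cases ha : a
  · rw [if_pos ha, if_pos (h.1 ha)]
  · rw [if_neg ha, if_neg fun hb => ha (h.2 hb)]

/-- Thinning of one vertex by a coin. -/
lemma coin [Fintype V] (μ : Law V) (a : V) {q : ℝ} (h0 : 0 ≤ q) (h1 : q ≤ 1) :
    ∃ ν : Law V, (∀ P : Finset V → Prop, μ.As P → (∀ I, P I → P (I \ {a})) → ν.As P) ∧
      (∀ E : Finset V → Prop, (∀ I, E (I \ {a}) → E I) → ν.pr E ≤ μ.pr E) ∧
      (∀ E : Finset V → Prop, (∀ I, E (I \ {a}) ↔ E I) → ν.pr E = μ.pr E) ∧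
      ∀ E : Finset V → Prop, (∀ I, ¬E (I \ {a})) → ν.pr E = q * μ.pr E := by
  have t0 : ∀ _ : Finset V, 0 ≤ 1 - q := fun _ => by linarith
  have t1 : ∀ _ : Finset V, 1 - q ≤ 1 := fun _ => by linarith
  refine ⟨μ.alt (fun _ => 1 - q) t0 t1 fun I => I \ {a},
    fun P hP hS => Law.as_alt hP fun I hI _ => hS I (hP I hI), fun E hE => ?_,
    fun E hE => Law.pr_alt_of_iff fun I _ => hE I, fun E hE => ?_⟩
  · rw [Law.pr_alt]
    unfold Law.pr
    refine sum_le_sum fun I _ => ?_
    have hw := μ.nonneg I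
    by_cases h : E I
    · rw [if_pos h, if_pos h]
      by_cases h' : E (I \ {a})
      · rw [if_pos h']
        exact le_of_eq (by ring)
      · rw [if_neg h']
        nlinarith
    · rw [if_neg h, if_neg h, if_neg fun h' => h (hE I h')]
      simp
  · rw [Law.pr_alt]
    unfold Law.pr
    rw [mul_sum]
    refine sum_congr rfl fun I _ => ?_
    rw [if_neg (hE I)]
    by_cases h : E I
    · rw [if_pos h, if_pos h]
      ring
    · rw [if_neg h, if_neg h]
      ring

lemma thin_set [Fintype V] (μ : Law V) {q : V → ℝ} (h0 : ∀ v, 0 ≤ q v)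
    (h1 : ∀ v, q v ≤ μ.mg v) (S : Finset V) : ∃ ν : Law V,
      (∀ P : Finset V → Prop, μ.As P → (∀ I J, P I → J ⊆ I → P J) → ν.As P) ∧
      (∀ E : Finset V → Prop, (∀ I J, E J → J ⊆ I → E I) → ν.pr E ≤ μ.pr E) ∧
      (∀ v ∈ S, ν.mg v = q v) ∧ (∀ v ∉ S, ν.mg v = μ.mg v) ∧
      ∀ a c, a ≠ c → (if a ∈ S then μ.mg a else 1) * (if c ∈ S then μ.mg c else 1) *
        ν.pr (fun I => a ∈ I ∧ c ∈ I) = (if a ∈ S then q a else 1) * (if c ∈ S then q c else 1) *
        μ.pr (fun I => a ∈ I ∧ c ∈ I) := by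
  induction S using Finset.induction_on with
  | empty =>
    refine ⟨μ, fun P hP _ => hP, fun E _ => le_rfl, fun v hv => absurd hv (notMem_empty v),
      fun v _ => rfl, fun a c _ => ?_⟩
    simp
  | insert b S hb ih =>
    obtain ⟨ν, n1, n2, n3, n4, n5⟩ := ih
    have hle : q b ≤ μ.mg b := h1 b
    have hm : 0 ≤ μ.mg b := μ.pr_nonneg _
    set r : ℝ := if μ.mg b = 0 then 0 else q b / μ.mg b with hr
    have r0 : 0 ≤ r := by
      rw [hr]
      split_ifs
      · exact le_rfl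
      · exact div_nonneg (h0 b) hm
    have r1 : r ≤ 1 := by
      rw [hr]
      split_ifs with h
      · exact zero_le_one
      · exact div_le_one_of_le₀ hle hm
    have rq : r * μ.mg b = q b := by
      rw [hr]
      split_ifs with h
      · have := h0 b
        rw [h] at hle
        linarith
      · exact div_mul_cancel₀ _ h
    obtain ⟨ρ, p1, p2, p3, p4⟩ := coin ν b r0 r1
    have hb1 : ρ.mg b = r * ν.mg b :=
      p4 (fun I => b ∈ I) fun I h => (mem_sdiff.1 h).2 (mem_singleton_self b)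
    have hmem : ∀ v, v ≠ b → ∀ I : Finset V, v ∈ I \ {b} ↔ v ∈ I := fun v hv I =>
      ⟨fun h => (mem_sdiff.1 h).1, fun h => mem_sdiff.2 ⟨h, fun h' => hv (mem_singleton.1 h')⟩⟩
    have hv1 : ∀ v, v ≠ b → ρ.mg v = ν.mg v := fun v hv => p3 (fun I => v ∈ I) fun I => hmem v hv I
    refine ⟨ρ, fun P hP hs => p1 P (n1 P hP hs) fun I hI => hs I _ hI sdiff_subset,
      fun E hE => (p2 E fun I h => hE I _ h sdiff_subset).trans (n2 E hE), ?_, ?_, ?_⟩
    · intro v hv
      rcases mem_insert.1 hv with rfl | hv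
      · rw [hb1, n4 v hb, rq]
      · rw [hv1 v fun h => hb (h ▸ hv), n3 v hv]
    · intro v hv
      rw [hv1 v fun h => hv (h ▸ mem_insert_self _ _), n4 v fun h => hv (mem_insert_of_mem h)]
    · intro a c hac
      have h5 := n5 a c hac
      by_cases hab : a = b
      · have hcb : c ≠ b := fun h => hac (hab.trans h.symm)
        have e1 : ρ.pr (fun I => a ∈ I ∧ c ∈ I) = r * ν.pr (fun I => a ∈ I ∧ c ∈ I) :=
          p4 _ fun I h => (mem_sdiff.1 h.1).2 (mem_singleton.2 hab)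
        have haS : a ∉ S := hab ▸ hb
        have e2 : (if c ∈ insert b S then μ.mg c else 1) = if c ∈ S then μ.mg c else 1 := by
          simp [mem_insert, hcb]
        have e3 : (if c ∈ insert b S then q c else 1) = if c ∈ S then q c else 1 := by
          simp [mem_insert, hcb]
        have hain : a ∈ insert b S := hab ▸ mem_insert_self b S
        have f1 : (if a ∈ insert b S then μ.mg a else 1) = μ.mg a := if_pos hain
        have f2 : (if a ∈ insert b S then q a else 1) = q a := if_pos hain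
        rw [f1, f2, e1, e2, e3]
        rw [if_neg haS, if_neg haS] at h5
        have rqa : r * μ.mg a = q a := hab ▸ rq
        calc μ.mg a * (if c ∈ S then μ.mg c else 1) * (r * ν.pr fun I => a ∈ I ∧ c ∈ I)
            = (r * μ.mg a) * (1 * (if c ∈ S then μ.mg c else 1) *
                ν.pr fun I => a ∈ I ∧ c ∈ I) := by ring
          _ = q a * (if c ∈ S then q c else 1) * μ.pr fun I => a ∈ I ∧ c ∈ I := by
            rw [h5, rqa]
            ring
      · by_cases hcb : c = b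
        · have e1 : ρ.pr (fun I => a ∈ I ∧ c ∈ I) = r * ν.pr (fun I => a ∈ I ∧ c ∈ I) :=
            p4 _ fun I h => (mem_sdiff.1 h.2).2 (mem_singleton.2 hcb)
          have hcS : c ∉ S := hcb ▸ hb
          have e2 : (if a ∈ insert b S then μ.mg a else 1) = if a ∈ S then μ.mg a else 1 := by
            simp [mem_insert, hab]
          have e3 : (if a ∈ insert b S then q a else 1) = if a ∈ S then q a else 1 := by
            simp [mem_insert, hab]
          have hcin : c ∈ insert b S := hcb ▸ mem_insert_self b S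
          have f1 : (if c ∈ insert b S then μ.mg c else 1) = μ.mg c := if_pos hcin
          have f2 : (if c ∈ insert b S then q c else 1) = q c := if_pos hcin
          rw [f1, f2, e1, e2, e3]
          rw [if_neg hcS, if_neg hcS] at h5
          have rqc : r * μ.mg c = q c := hcb ▸ rq
          calc (if a ∈ S then μ.mg a else 1) * μ.mg c * (r * ν.pr fun I => a ∈ I ∧ c ∈ I)
              = (r * μ.mg c) * ((if a ∈ S then μ.mg a else 1) * 1 *
                  ν.pr fun I => a ∈ I ∧ c ∈ I) := by ring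
            _ = (if a ∈ S then q a else 1) * q c * μ.pr fun I => a ∈ I ∧ c ∈ I := by
              rw [h5, rqc]
              ring
        · have e1 : ρ.pr (fun I => a ∈ I ∧ c ∈ I) = ν.pr (fun I => a ∈ I ∧ c ∈ I) :=
            p3 _ fun I => and_congr (hmem a hab I) (hmem c hcb I)
          rw [e1]
          simp only [mem_insert, hab, hcb, false_or]
          exact h5

end LawAux

theorem thin [Fintype V] {G : SimpleGraph V} {X : Set V} {μ : Finset V → ℝ} (h : IsLaw G X μ)
    (q : V → ℝ) (h0 : ∀ v, 0 ≤ q v) (h1 : ∀ v, q v ≤ marg μ v) :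
    ∃ μ', IsLaw G X μ' ∧ (∀ v, marg μ' v = q v) ∧ (∀ K : Set V, hit μ' K ≤ hit μ K) ∧
      (∀ I, μ' I ≠ 0 → ∃ I', μ I' ≠ 0 ∧ I ⊆ I') ∧
      ∀ a c, a ≠ c → marg μ a * marg μ c * pr μ' (fun I => a ∈ I ∧ c ∈ I) =
        q a * q c * pr μ (fun I => a ∈ I ∧ c ∈ I) := by
  obtain ⟨ν, n1, n2, n3, -, n5⟩ := LawAux.thin_set h.law h0 h1 univ
  refine ⟨ν.w, isLaw_of ν (n1 _ (fun I hI => h.sub I hI) fun I J hI hJ v hv => hI v (hJ hv))
    (n1 _ (fun I hI => h.ind I hI) fun I J hI hJ => BDP.Lw.Law.ind_sub hI hJ),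
    fun v => n3 v (mem_univ v),
    fun K => n2 (fun I => ∃ v ∈ I, v ∈ K) fun I J hE hJ => ?_,
    n1 (fun I => ∃ I', μ I' ≠ 0 ∧ I ⊆ I') (fun I hI => ⟨I, hI, Subset.refl I⟩)
      fun I J hI hJ => ?_, fun a c hac => ?_⟩
  · obtain ⟨v, hv, hK⟩ := hE
    exact ⟨v, hJ hv, hK⟩
  · obtain ⟨I', h1, h2⟩ := hI
    exact ⟨I', h1, hJ.trans h2⟩
  · have := n5 a c hac
    rw [if_pos (mem_univ a), if_pos (mem_univ c), if_pos (mem_univ a), if_pos (mem_univ c)] at this
    exact this

theorem transfer [Fintype V] [Fintype W] {G : SimpleGraph V} {H : SimpleGraph W} {X : Set W}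
    {ν : Finset W → ℝ} (h : IsLaw H X ν) (K : W → Finset V)
    (hd : ∀ w w', w ≠ w' → Disjoint (K w) (K w'))
    (hi : ∀ w, ∀ u ∈ K w, ∀ v ∈ K w, ¬G.Adj u v)
    (ha : ∀ w w', w ≠ w' → ∀ u ∈ K w, ∀ v ∈ K w', G.Adj u v → H.Adj w w') :
    ∃ μ, IsLaw G {v | ∃ w ∈ X, v ∈ K w} μ ∧ (∀ w, ∀ v ∈ K w, marg μ v = marg ν w) ∧
      (∀ w, ∀ u ∈ K w, ∀ v ∈ K w, ∀ I, μ I ≠ 0 → (u ∈ I ↔ v ∈ I)) ∧
      (∀ w, hit μ (K w) ≤ marg ν w) ∧
      ∀ w w', H.Adj w w' → ∀ u ∈ K w, ∀ v ∈ K w', ∀ I, μ I ≠ 0 → u ∈ I → v ∉ I := by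
  have key : ∀ w, ∀ v ∈ K w, ∀ J : Finset W, v ∈ J.biUnion K ↔ w ∈ J := by
    intro w v hv J
    rw [mem_biUnion]
    constructor
    · rintro ⟨w', hw', hv'⟩
      by_cases hww : w = w'
      · rw [hww]
        exact hw'
      · exact absurd hv' (disjoint_left.1 (hd w w' hww) hv)
    · exact fun hw => ⟨w, hw, hv⟩
  set L : BDP.Lw.Law V := BDP.Lw.Law.map h.law (fun J : Finset W => J.biUnion K) with hL
  have hpr : ∀ E : Finset V → Prop, pr L.w E = pr ν fun J => E (J.biUnion K) := fun E =>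
    BDP.Lw.Law.pr_map h.law (fun J : Finset W => J.biUnion K) E
  have has : ∀ {P : Finset V → Prop}, (∀ J, ν J ≠ 0 → P (J.biUnion K)) → ∀ I, L.w I ≠ 0 → P I :=
    fun {P} hP => BDP.Lw.Law.as_map h.law (fun J : Finset W => J.biUnion K) hP
  refine ⟨L.w, isLaw_of L (has fun J hJ v hv => ?_) (has fun J hJ => ?_), ?_, ?_, ?_, ?_⟩
  · obtain ⟨w, hw, hv⟩ := mem_biUnion.1 hv
    exact ⟨w, h.sub J hJ w hw, hv⟩
  · intro u hu v hv huv
    obtain ⟨w, hw, hu⟩ := mem_biUnion.1 hu
    obtain ⟨w', hw', hv⟩ := mem_biUnion.1 hv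
    by_cases hww : w = w'
    · subst hww
      exact hi w u hu v hv huv
    · exact h.ind J hJ w hw w' hw' (ha w w' hww u hu v hv huv)
  · intro w v hv
    unfold marg
    rw [hpr]
    unfold pr
    exact sum_congr rfl fun J _ => LawAux.ite_iff (key w v hv J) _ _
  · intro w u hu v hv
    exact has (P := fun I => u ∈ I ↔ v ∈ I) fun J _ => (key w u hu J).trans (key w v hv J).symm
  · intro w
    unfold hit
    rw [hpr]
    refine BDP.Lw.Law.pr_mono h.law fun J _ hE => ?_
    obtain ⟨v, hv, hvK⟩ := hE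
    exact (key w v hvK J).1 hv
  · intro w w' hww u hu v hv
    exact has (P := fun I => u ∈ I → v ∉ I) fun J hJ h1 h2 =>
      h.ind J hJ w ((key w u hu J).1 h1) w' ((key w' v hv J).1 h2) hww

namespace LawAux

lemma pr_congr [Fintype V] {G : SimpleGraph V} {X : Set V} {μ : Finset V → ℝ}
    (h : IsLaw G X μ) {E F : Finset V → Prop} (hEF : ∀ I, μ I ≠ 0 → (E I ↔ F I)) :
    pr μ E = pr μ F := BDP.Lw.Law.pr_congr h.law hEF

/-- The product law, conditioned on equal traces. -/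
lemma glue_aux [Fintype V] {G : SimpleGraph V} {A B : Set V} {μ ν : Finset V → ℝ}
    (hμ : IsLaw G A μ) (hν : IsLaw G B ν) (tr : Finset V → Finset V)
    (htr : ∀ T : Finset V, pr μ (fun I => tr I = T) = pr ν (fun I => tr I = T)) :
    ∃ p : Finset V × Finset V → ℝ, (∀ x, 0 ≤ p x) ∧
      (∀ x, p x ≠ 0 → μ x.1 ≠ 0 ∧ ν x.2 ≠ 0 ∧ tr x.1 = tr x.2) ∧
      (∀ E : Finset V → Prop, (∑ x, if E x.1 then p x else 0) = pr μ E) ∧
      ∀ E : Finset V → Prop, (∑ x, if E x.2 then p x else 0) = pr ν E := by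
  set m : Finset V → ℝ := fun T => pr μ fun I => tr I = T with hm
  have hm' : ∀ T, m T = pr ν fun I => tr I = T := fun T => htr T
  have m0 : ∀ T, 0 ≤ m T := fun T => hμ.law.pr_nonneg _
  have le1 : ∀ I, μ I ≤ m (tr I) := fun I => hμ.law.w_le_pr (E := fun J => tr J = tr I) rfl
  have le2 : ∀ I, ν I ≤ m (tr I) := fun I => by
    rw [hm']
    exact hν.law.w_le_pr (E := fun J => tr J = tr I) rfl
  have d1 : ∀ I, μ I * (m (tr I) / m (tr I)) = μ I := fun I => by
    by_cases h0 : m (tr I) = 0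
    · have : μ I = 0 := le_antisymm (h0 ▸ le1 I) (hμ.nonneg I)
      rw [this, zero_mul]
    · rw [div_self h0, mul_one]
  have d2 : ∀ I, ν I * (m (tr I) / m (tr I)) = ν I := fun I => by
    by_cases h0 : m (tr I) = 0
    · have : ν I = 0 := le_antisymm (h0 ▸ le2 I) (hν.nonneg I)
      rw [this, zero_mul]
    · rw [div_self h0, mul_one]
  refine ⟨fun x => if tr x.1 = tr x.2 then μ x.1 * ν x.2 / m (tr x.1) else 0, fun x => ?_,
    fun x hx => ?_, fun E => ?_, fun E => ?_⟩
  · show 0 ≤ if tr x.1 = tr x.2 then μ x.1 * ν x.2 / m (tr x.1) else 0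
    split_ifs
    · exact div_nonneg (mul_nonneg (hμ.nonneg _) (hν.nonneg _)) (m0 _)
    · exact le_rfl
  · have hx' : (if tr x.1 = tr x.2 then μ x.1 * ν x.2 / m (tr x.1) else 0) ≠ 0 := hx
    by_cases ht : tr x.1 = tr x.2
    · rw [if_pos ht] at hx'
      refine ⟨fun h => hx' ?_, fun h => hx' ?_, ht⟩
      · rw [h]
        simp
      · rw [h]
        simp
    · rw [if_neg ht] at hx'
      exact absurd rfl hx'
  · rw [Fintype.sum_prod_type]
    unfold pr
    refine sum_congr rfl fun I _ => ?_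
    show (∑ J, if E I then (if tr I = tr J then μ I * ν J / m (tr I) else 0) else 0) = _
    by_cases hE : E I
    · simp only [hE, if_true]
      have : ∀ J, (if tr I = tr J then μ I * ν J / m (tr I) else 0) =
          (μ I / m (tr I)) * if tr J = tr I then ν J else 0 := fun J => by
        by_cases ht : tr I = tr J
        · rw [if_pos ht, if_pos ht.symm]
          ring
        · rw [if_neg ht, if_neg fun h => ht h.symm, mul_zero]
      rw [sum_congr rfl fun J _ => this J, ← mul_sum]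
      have e : (∑ J, if tr J = tr I then ν J else 0) = m (tr I) := by
        rw [hm' (tr I)]
        exact sum_congr rfl fun J _ => ite_iff Iff.rfl _ _
      rw [e]
      calc μ I / m (tr I) * m (tr I) = μ I * (m (tr I) / m (tr I)) := by ring
        _ = μ I := d1 I
    · simp only [hE, if_false, sum_const_zero]
  · rw [Fintype.sum_prod_type, sum_comm]
    unfold pr
    refine sum_congr rfl fun J _ => ?_
    show (∑ I, if E J then (if tr I = tr J then μ I * ν J / m (tr I) else 0) else 0) = _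
    by_cases hE : E J
    · simp only [hE, if_true]
      have : ∀ I, (if tr I = tr J then μ I * ν J / m (tr I) else 0) =
          (ν J / m (tr J)) * if tr I = tr J then μ I else 0 := fun I => by
        by_cases ht : tr I = tr J
        · rw [if_pos ht, if_pos ht, ht]
          ring
        · rw [if_neg ht, if_neg ht, mul_zero]
      rw [sum_congr rfl fun I _ => this I, ← mul_sum]
      have e : (∑ I, if tr I = tr J then μ I else 0) = m (tr J) :=
        sum_congr rfl fun J _ => ite_iff Iff.rfl _ _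
      rw [e]
      calc ν J / m (tr J) * m (tr J) = ν J * (m (tr J) / m (tr J)) := by ring
        _ = ν J := d2 J
    · simp only [hE, if_false, sum_const_zero]

end LawAux

theorem glue [Fintype V] {G : SimpleGraph V} {A B : Set V} {μ ν : Finset V → ℝ}
    (hμ : IsLaw G A μ) (hν : IsLaw G B ν) (hAB : ∀ u ∈ A \ B, ∀ v ∈ B \ A, ¬G.Adj u v)
    (htr : ∀ T : Finset V, pr μ (fun I => I.filter (· ∈ A ∩ B) = T) =
      pr ν (fun I => I.filter (· ∈ A ∩ B) = T)) :
    ∃ ρ, IsLaw G (A ∪ B) ρ ∧ (∀ v ∈ A, marg ρ v = marg μ v) ∧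
      ∀ v ∈ B, marg ρ v = marg ν v := by
  obtain ⟨p, p0, p1, p2, p3⟩ := LawAux.glue_aux hμ hν (fun I => I.filter (· ∈ A ∩ B)) htr
  have hs : ∑ x, p x = 1 := by
    have := p2 fun _ => True
    simp only [if_true] at this
    rw [this]
    exact hμ.law.pr_true
  have hA : ∀ x, p x ≠ 0 → ∀ v ∈ x.1, v ∈ A := fun x hx => hμ.sub _ (p1 x hx).1
  have hB : ∀ x, p x ≠ 0 → ∀ v ∈ x.2, v ∈ B := fun x hx => hν.sub _ (p1 x hx).2.1
  have h12 : ∀ x, p x ≠ 0 → ∀ v ∈ x.1, v ∈ B → v ∈ x.2 := fun x hx v hv hvB => by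
    have h1 : v ∈ x.1.filter (· ∈ A ∩ B) := mem_filter.2 ⟨hv, hA x hx v hv, hvB⟩
    have h2 : x.1.filter (· ∈ A ∩ B) = x.2.filter (· ∈ A ∩ B) := (p1 x hx).2.2
    rw [h2] at h1
    exact (mem_filter.1 h1).1
  have h21 : ∀ x, p x ≠ 0 → ∀ v ∈ x.2, v ∈ A → v ∈ x.1 := fun x hx v hv hvA => by
    have h1 : v ∈ x.2.filter (· ∈ A ∩ B) := mem_filter.2 ⟨hv, hvA, hB x hx v hv⟩
    have h2 : x.1.filter (· ∈ A ∩ B) = x.2.filter (· ∈ A ∩ B) := (p1 x hx).2.2
    rw [← h2] at h1
    exact (mem_filter.1 h1).1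
  set L : BDP.Lw.Law V := BDP.Lw.Law.ofProb p p0 hs fun x => x.1 ∪ x.2 with hL
  have hpr : ∀ E : Finset V → Prop, pr L.w E = ∑ x, if E (x.1 ∪ x.2) then p x else 0 := fun E =>
    BDP.Lw.Law.pr_ofProb p p0 hs (fun x => x.1 ∪ x.2) E
  refine ⟨L.w, isLaw_of L (BDP.Lw.Law.as_ofProb p p0 hs _ fun x hx v hv => ?_)
    (BDP.Lw.Law.as_ofProb p p0 hs _ fun x hx u hu v hv huv => ?_), fun v hv => ?_, fun v hv => ?_⟩
  · rcases mem_union.1 hv with hv | hv
    · exact Or.inl (hA x hx v hv)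
    · exact Or.inr (hB x hx v hv)
  · have i1 := hμ.ind _ (p1 x hx).1
    have i2 := hν.ind _ (p1 x hx).2.1
    have main : ∀ u ∈ x.1, ∀ v ∈ x.2, ¬G.Adj u v := by
      intro u hu v hv huv
      by_cases huB : u ∈ B
      · exact i2 u (h12 x hx u hu huB) v hv huv
      · by_cases hvA : v ∈ A
        · exact i1 u hu v (h21 x hx v hv hvA) huv
        · exact hAB u ⟨hA x hx u hu, huB⟩ v ⟨hB x hx v hv, hvA⟩ huv
    rcases mem_union.1 hu with hu | hu
    · rcases mem_union.1 hv with hv | hv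
      · exact i1 u hu v hv huv
      · exact main u hu v hv huv
    · rcases mem_union.1 hv with hv | hv
      · exact main v hv u hu huv.symm
      · exact i2 u hu v hv huv
  · show pr L.w (fun I => v ∈ I) = pr μ fun I => v ∈ I
    rw [hpr, ← p2]
    refine sum_congr rfl fun x _ => ?_
    by_cases hx : p x = 0
    · rw [hx]
      simp
    · have : v ∈ x.1 ∪ x.2 ↔ v ∈ x.1 := by
        rw [mem_union]
        exact ⟨fun h => h.elim id fun h => h21 x hx v h hv, Or.inl⟩
      exact LawAux.ite_iff this _ _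
  · show pr L.w (fun I => v ∈ I) = pr ν fun I => v ∈ I
    rw [hpr, ← p3]
    refine sum_congr rfl fun x _ => ?_
    by_cases hx : p x = 0
    · rw [hx]
      simp
    · have : v ∈ x.1 ∪ x.2 ↔ v ∈ x.2 := by
        rw [mem_union]
        exact ⟨fun h => h.elim (fun h => h12 x hx v h hv) id, Or.inr⟩
      exact LawAux.ite_iff this _ _

theorem glue_clique [Fintype V] {G : SimpleGraph V} {A B : Set V} {μ ν : Finset V → ℝ}
    (hμ : IsLaw G A μ) (hν : IsLaw G B ν) (hAB : ∀ u ∈ A \ B, ∀ v ∈ B \ A, ¬G.Adj u v)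
    (h1 : ∀ I, μ I ≠ 0 → ∀ u ∈ A ∩ B, ∀ v ∈ A ∩ B, u ≠ v → u ∈ I → v ∉ I)
    (h2 : ∀ I, ν I ≠ 0 → ∀ u ∈ A ∩ B, ∀ v ∈ A ∩ B, u ≠ v → u ∈ I → v ∉ I)
    (hm : ∀ v ∈ A ∩ B, marg μ v = marg ν v) :
    ∃ ρ, IsLaw G (A ∪ B) ρ ∧ (∀ v ∈ A, marg ρ v = marg μ v) ∧
      ∀ v ∈ B, marg ρ v = marg ν v := by
  refine glue hμ hν hAB ?_
  have tot : ∀ {X : Set V} {μ : Finset V → ℝ}, IsLaw G X μ →
      ∑ T, pr μ (fun I => I.filter (· ∈ A ∩ B) = T) = 1 := by
    intro X μ h
    unfold pr
    rw [sum_comm, ← h.sum]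
    refine sum_congr rfl fun I _ => ?_
    have : ∀ T : Finset V, @ite ℝ ((fun I : Finset V => I.filter (· ∈ A ∩ B) = T) I)
        (propDecidable _) (μ I) 0 = if I.filter (· ∈ A ∩ B) = T then μ I else 0 :=
      fun T => LawAux.ite_iff Iff.rfl _ _
    rw [sum_congr rfl fun T _ => this T, sum_ite_eq univ (I.filter (· ∈ A ∩ B)) fun _ => μ I]
    simp
  have one : ∀ {X : Set V} {μ : Finset V → ℝ}, IsLaw G X μ →
      (∀ I, μ I ≠ 0 → ∀ u ∈ A ∩ B, ∀ v ∈ A ∩ B, u ≠ v → u ∈ I → v ∉ I) →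
      ∀ T : Finset V, T.Nonempty → pr μ (fun I => I.filter (· ∈ A ∩ B) = T) =
        if ∃ v ∈ A ∩ B, T = {v} then (if h : T.Nonempty then marg μ h.choose else 0) else 0 := by
    intro X μ h hI T hT
    by_cases hv : ∃ v ∈ A ∩ B, T = {v}
    · rw [if_pos hv, dif_pos hT]
      obtain ⟨v, hv, rfl⟩ := hv
      have hc : hT.choose = v := mem_singleton.1 hT.choose_spec
      rw [hc]
      refine LawAux.pr_congr h fun I hI0 => ?_
      constructor
      · intro h3
        have : v ∈ I.filter (· ∈ A ∩ B) := by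
          rw [h3]
          exact mem_singleton_self v
        exact (mem_filter.1 this).1
      · intro h3
        ext u
        rw [mem_filter, mem_singleton]
        constructor
        · rintro ⟨hu, huAB⟩
          by_contra hne
          exact hI I hI0 u huAB v hv hne hu h3
        · rintro rfl
          exact ⟨h3, hv⟩
    · rw [if_neg hv]
      refine h.law.pr_eq_zero fun I hI0 h3 => hv ?_
      obtain ⟨v, hvT⟩ := hT
      rw [← h3] at hvT
      refine ⟨v, (mem_filter.1 hvT).2, ?_⟩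
      rw [← h3]
      ext u
      rw [mem_filter, mem_singleton]
      constructor
      · rintro ⟨hu, huAB⟩
        by_contra hne
        exact hI I hI0 u huAB v (mem_filter.1 hvT).2 hne hu (mem_filter.1 hvT).1
      · rintro rfl
        exact mem_filter.1 hvT
  have ne : ∀ T : Finset V, T.Nonempty → pr μ (fun I => I.filter (· ∈ A ∩ B) = T) =
      pr ν (fun I => I.filter (· ∈ A ∩ B) = T) := by
    intro T hT
    rw [one hμ h1 T hT, one hν h2 T hT]
    by_cases hv : ∃ v ∈ A ∩ B, T = {v}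
    · rw [if_pos hv, if_pos hv, dif_pos hT, dif_pos hT]
      obtain ⟨v, hv, rfl⟩ := hv
      have hc : hT.choose = v := mem_singleton.1 hT.choose_spec
      rw [hc]
      exact hm v hv
    · rw [if_neg hv, if_neg hv]
  intro T
  rcases T.eq_empty_or_nonempty with rfl | hT
  · have e1 := tot hμ
    have e2 := tot hν
    rw [← add_sum_erase univ _ (mem_univ (∅ : Finset V))] at e1 e2
    have e3 : ∑ T ∈ univ.erase (∅ : Finset V), pr μ (fun I => I.filter (· ∈ A ∩ B) = T) =
        ∑ T ∈ univ.erase (∅ : Finset V), pr ν (fun I => I.filter (· ∈ A ∩ B) = T) :=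
      sum_congr rfl fun T hT => ne T (nonempty_iff_ne_empty.2 (mem_erase.1 hT).1)
    linarith
  · exact ne T hT

end DS
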