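import Pool.Agent.Work.MP_0890ba_co.DS.Minor
import Pool.Agent.Work.MP_0890ba_co.DS.Law

/-!
# Minimal counterexamples: existence, small graphs, connectivity
-/

set_option linter.unusedSectionVars false

namespace DS

open Finset Classical

variable {V W : Type}

theorem need_nonneg (G : SimpleGraph V) (z v : V) : 0 ≤ need G z v := by
  unfold need kap; split_ifs <;> norm_num

theorem need_mono {G G' : SimpleGraph V} (h : G ≤ G') (z v : V) : need G z v ≤ need G' z v := by
  unfold need kap
  by_cases h1 : G.Adj z v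
  · rw [if_pos h1, if_pos (h h1)]
  · rw [if_neg h1]; split_ifs <;> norm_num

theorem need_le (G : SimpleGraph V) (z v : V) : need G z v ≤ 101 / 400 := by
  unfold need kap; split_ifs <;> norm_num

theorem marg_nonneg [Fintype V] {G : SimpleGraph V} {X : Set V} {μ : Finset V → ℝ}
    (h : IsLaw G X μ) (v : V) : 0 ≤ marg μ v := by
  unfold marg pr
  refine Finset.sum_nonneg fun I _ => ?_
  split_ifs
  · exact h.nonneg I
  · exact le_rfl

theorem Fine.mono [Fintype V] {G G' : SimpleGraph V} {z : V} (h : G ≤ G') (hf : Fine G' z) :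
    Fine G z := by
  obtain ⟨μ, hμ, hm⟩ := hf
  have hl : IsLaw G {z}ᶜ μ :=
    ⟨hμ.nonneg, hμ.sum, hμ.sub, fun I hI u hu v hv hadj => hμ.ind I hI u hu v hv (h hadj)⟩
  obtain ⟨μ', hμ', hm', -⟩ := thin hl (fun v => if v = z then 0 else need G z v)
    (fun v => by split_ifs <;> [exact le_rfl; exact need_nonneg G z v])
    (fun v => by
      split_ifs with hv
      · exact marg_nonneg hl v
      · rw [hm v hv]; exact need_mono h z v)
  exact ⟨μ', hμ', fun v hv => by rw [hm', if_neg hv]⟩

theorem exists_min (h : ∃ (V : Type) (_ : Fintype V) (G : SimpleGraph V) (z : V),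
    Pln G ∧ ¬Fine G z) :
    ∃ (V : Type) (_ : Fintype V) (G : SimpleGraph V) (z : V), Min G z := by
  have hP : ∃ n : ℕ, ∃ (V : Type) (_ : Fintype V) (G : SimpleGraph V) (z : V),
      Fintype.card V = n ∧ Pln G ∧ ¬Fine G z := by
    obtain ⟨V, hV, G, z, h1, h2⟩ := h
    exact ⟨_, V, hV, G, z, rfl, h1, h2⟩
  obtain ⟨V, hV, G, z, hn, h1, h2⟩ := Nat.find_spec hP
  obtain ⟨G', hle, hG'⟩ := (Set.toFinite {G' : SimpleGraph V | Pln G'}).exists_le_maximal
    (a := G) h1
  refine ⟨V, hV, G', z, hG'.1, fun hf => h2 (hf.mono hle), fun G'' h3 h4 => ?_, ?_⟩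
  · exact le_antisymm (hG'.2 h4 h3) h3
  · intro W _ H y hW hH
    by_contra hf
    exact Nat.find_min hP (m := Fintype.card W) (by rw [← hn]; exact hW) ⟨W, _, H, y, rfl, hH, hf⟩

theorem Min.use [Fintype V] {G : SimpleGraph V} {z : V} (hm : Min G z) [Fintype W]
    (H : SimpleGraph W) (y : W) (hW : Fintype.card W < Fintype.card V) (hH : Pln H)
    (K : W → Finset V) (hy : K y = ∅) (hd : ∀ w w', w ≠ w' → Disjoint (K w) (K w'))
    (hi : ∀ w, ∀ u ∈ K w, ∀ v ∈ K w, ¬G.Adj u v)
    (ha : ∀ w w', w ≠ w' → ∀ u ∈ K w, ∀ v ∈ K w', G.Adj u v → H.Adj w w') :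
    ∃ μ, IsLaw G {v | ∃ w, v ∈ K w} μ ∧ (∀ w, w ≠ y → ∀ v ∈ K w, marg μ v = need H y w) ∧
      (∀ w, ∀ u ∈ K w, ∀ v ∈ K w, ∀ I, μ I ≠ 0 → (u ∈ I ↔ v ∈ I)) ∧
      (∀ w, w ≠ y → hit μ (K w) ≤ need H y w) ∧
      ∀ w w', H.Adj w w' → ∀ u ∈ K w, ∀ v ∈ K w', ∀ I, μ I ≠ 0 → u ∈ I → v ∉ I := by
  obtain ⟨ν, hν, hmν⟩ := hm.small W H y hW hH
  obtain ⟨μ, hμ, h1, h2, h3, h4⟩ := transfer hν K hd hi ha
  have hset : {v | ∃ w ∈ ({y}ᶜ : Set W), v ∈ K w} = {v | ∃ w, v ∈ K w} := by
    ext v
    constructor
    · rintro ⟨w, -, hw⟩; exact ⟨w, hw⟩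
    · rintro ⟨w, hw⟩
      refine ⟨w, fun hwy => ?_, hw⟩
      rw [Set.mem_singleton_iff.mp hwy, hy] at hw
      simp at hw
  rw [hset] at hμ
  exact ⟨μ, hμ, fun w hw v hv => by rw [h1 w v hv, hmν w hw], h2,
    fun w hw => by rw [← hmν w hw]; exact h3 w, h4⟩

/-! ### Few vertices -/

theorem fine_of_sum [Fintype V] {G : SimpleGraph V} {z : V}
    (h : ∑ v ∈ univ.erase z, need G z v ≤ 1) : Fine G z := by
  set q := need G z with hq
  set T := (univ : Finset V).erase z with hT
  let μ : Finset V → ℝ := fun I =>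
    (if I = ∅ then 1 - ∑ v ∈ T, q v else 0) + ∑ v ∈ T, if I = {v} then q v else 0
  have hne : ∀ I, μ I ≠ 0 → I = ∅ ∨ ∃ v ∈ T, I = {v} := by
    intro I hI
    by_contra hcon
    push Not at hcon
    apply hI
    simp only [μ]
    rw [if_neg (by simpa [Finset.nonempty_iff_ne_empty] using hcon.1), zero_add]
    exact Finset.sum_eq_zero fun v hv => if_neg (hcon.2 v hv)
  have hlaw : IsLaw G {z}ᶜ μ := by
    refine ⟨fun I => ?_, ?_, fun I hI v hv => ?_, fun I hI u hu v hv hadj => ?_⟩
    · refine add_nonneg ?_ (Finset.sum_nonneg fun v _ => ?_)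
      · split_ifs
        · linarith
        · exact le_rfl
      · split_ifs
        · exact need_nonneg G z v
        · exact le_rfl
    · simp only [μ]
      rw [Finset.sum_add_distrib, Finset.sum_ite_eq' univ ∅, if_pos (mem_univ _),
        Finset.sum_comm]
      have : ∀ v ∈ T, ∑ I : Finset V, (if I = {v} then q v else 0) = q v := fun v _ => by
        rw [Finset.sum_ite_eq' univ ({v} : Finset V), if_pos (mem_univ _)]
      rw [Finset.sum_congr rfl this]
      ring
    · rcases hne I hI with rfl | ⟨u, hu, rfl⟩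
      · simp at hv
      · rw [Finset.mem_singleton] at hv
        rw [hv]
        simpa [hT] using hu
    · rcases hne I hI with rfl | ⟨x, -, rfl⟩
      · simp at hu
      · rw [Finset.mem_singleton] at hu hv
        rw [hu, hv] at hadj
        exact G.loopless.irrefl x hadj
  refine ⟨μ, hlaw, fun v hv => ?_⟩
  have hvT : v ∈ T := by simpa [hT] using hv
  unfold marg pr
  have h1 : ∀ I : Finset V, (if v ∈ I then μ I else 0) = if I = {v} then q v else 0 := by
    intro I
    by_cases hvI : v ∈ I
    · rw [if_pos hvI]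
      by_cases hI : I = {v}
      · rw [if_pos hI]
        simp only [μ]
        rw [if_neg (by rw [hI]; simp), zero_add]
        rw [Finset.sum_eq_single_of_mem v hvT]
        · rw [if_pos hI]
        · intro u _ huv
          refine if_neg fun hc => huv ?_
          rw [hI] at hc
          exact (Finset.singleton_injective hc).symm
      · rw [if_neg hI]
        by_contra hc
        rcases hne I hc with rfl | ⟨x, -, rfl⟩
        · simp at hvI
        · rw [Finset.mem_singleton] at hvI
          exact hI (by rw [hvI])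
    · rw [if_neg hvI, if_neg]
      rintro rfl
      simp at hvI
  refine (Finset.sum_congr rfl fun I _ => (by convert h1 I :
    _ = if I = {v} then q v else 0)).trans ?_
  rw [Finset.sum_ite_eq' univ ({v} : Finset V), if_pos (mem_univ _)]

theorem Min.card [Fintype V] {G : SimpleGraph V} {z : V} (hm : Min G z) :
    5 ≤ Fintype.card V := by
  by_contra hc
  push Not at hc
  refine hm.bad (fine_of_sum ?_)
  have h1 : ∑ v ∈ univ.erase z, need G z v ≤ ∑ _v ∈ univ.erase z, (101 / 400 : ℝ) :=
    Finset.sum_le_sum fun v _ => need_le G z v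
  rw [Finset.sum_const, Finset.card_erase_of_mem (mem_univ z), Finset.card_univ, nsmul_eq_mul] at h1
  have h2 : ((Fintype.card V - 1 : ℕ) : ℝ) ≤ 3 := by
    exact_mod_cast (by omega : Fintype.card V - 1 ≤ 3)
  linarith

/-! ### Planarity of small changes -/

theorem conn_subsingleton {G : SimpleGraph V} {K : Set V} (h : ∀ x ∈ K, ∀ y ∈ K, x = y) :
    BDP.Conn G K := fun x hx y hy => by
  rw [h x hx y hy]

theorem pln_of_comap [Fintype W] {G : SimpleGraph V} (f : W → V) (hf : Function.Bijective f)
    (h : Pln (G.comap f)) : Pln G := by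
  refine h.minor (fun v => {w | f w = v}) (fun v => conn_subsingleton fun x hx y hy =>
    hf.1 (hx.trans hy.symm)) (fun v v' hv => Set.disjoint_left.mpr fun w h1 h2 =>
      hv (h1.symm.trans h2)) fun v v' hv => ?_
  obtain ⟨w, rfl⟩ := hf.2 v
  obtain ⟨w', rfl⟩ := hf.2 v'
  exact ⟨w, rfl, w', rfl, hv⟩

theorem pln_induce [Fintype V] {G : SimpleGraph V} (h : Pln G) (A : Set V) :
    Pln (G.induce A) := by
  refine h.minor (fun a => {a.1}) (fun a => conn_subsingleton fun x hx y hy =>
    hx.trans hy.symm) (fun a b hab => Set.disjoint_singleton.mpr fun hc => hab (Subtype.ext hc))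
    fun a b hab => ⟨a.1, rfl, b.1, rfl, hab⟩

/-- The bijection `Option (V - z) → V`. -/
noncomputable def opt (z : V) : Option {v : V // v ≠ z} → V := fun o => o.elim z Subtype.val

theorem opt_bij (z : V) : Function.Bijective (opt z) := by
  constructor
  · rintro (_ | a) (_ | b) h
    · rfl
    · exact absurd h.symm b.2
    · exact absurd h a.2
    · exact congrArg some (Subtype.ext h)
  · intro v
    by_cases hv : v = z
    · exact ⟨none, hv.symm⟩
    · exact ⟨some ⟨v, hv⟩, rfl⟩

theorem Min.pendant [Fintype V] {G : SimpleGraph V} {z : V} (hm : Min G z) {x : V} (hx : x ≠ z)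
    (hN : ∀ u, G.Adj z u → u = x) : G.Adj z x := by
  have hp : Pln (G ⊔ SimpleGraph.edge z x) := by
    refine pln_of_comap (opt z) (opt_bij z) ?_
    refine (pln_induce hm.pl {v | v ≠ z}).pendant (V := {v : V // v ≠ z}) ⟨x, hx⟩ ?_ ?_
    · rintro ⟨u, hu⟩ ⟨v, hv⟩ h
      rcases h with h | h
      · exact h
      · rw [SimpleGraph.edge_adj] at h
        rcases h.1 with ⟨h1, -⟩ | ⟨-, h1⟩
        · exact absurd h1 hu
        · exact absurd h1 hv
    · rintro ⟨u, hu⟩ h
      rcases h with h | h
      · exact Subtype.ext (hN u h)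
      · rw [SimpleGraph.edge_adj] at h
        rcases h.1 with ⟨-, h1⟩ | ⟨-, h1⟩
        · exact Subtype.ext h1
        · exact absurd h1 hu
  have he := hm.max _ le_sup_left hp
  rw [← he]
  exact Or.inr (by rw [SimpleGraph.edge_adj]; exact ⟨Or.inl ⟨rfl, rfl⟩, hx.symm⟩)

theorem Min.ear [Fintype V] {G : SimpleGraph V} {z : V} (hm : Min G z) {x y : V} (hx : x ≠ z)
    (hy : y ≠ z) (hxy : G.Adj x y) (hN : ∀ u, G.Adj z u → u = x ∨ u = y) : G.Adj z y := by
  have hp : Pln (G ⊔ SimpleGraph.edge z y) := by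
    refine pln_of_comap (opt z) (opt_bij z) ?_
    refine (pln_induce hm.pl {v | v ≠ z}).ear (V := {v : V // v ≠ z}) ⟨x, hx⟩ ⟨y, hy⟩ hxy ?_ ?_
    · rintro ⟨u, hu⟩ ⟨v, hv⟩ h
      rcases h with h | h
      · exact h
      · rw [SimpleGraph.edge_adj] at h
        rcases h.1 with ⟨h1, -⟩ | ⟨-, h1⟩
        · exact absurd h1 hu
        · exact absurd h1 hv
    · rintro ⟨u, hu⟩ h
      rcases h with h | h
      · exact (hN u h).imp Subtype.ext Subtype.ext
      · rw [SimpleGraph.edge_adj] at h
        rcases h.1 with ⟨-, h1⟩ | ⟨-, h1⟩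
        · exact Or.inr (Subtype.ext h1)
        · exact absurd h1 hu
  have he := hm.max _ le_sup_left hp
  rw [← he]
  exact Or.inr (by rw [SimpleGraph.edge_adj]; exact ⟨Or.inl ⟨rfl, rfl⟩, hy.symm⟩)

/-! ### Laws on the sides of a separation -/

/-- The side which contains `z`. -/
theorem Min.side [Fintype V] {G : SimpleGraph V} {z : V} (hm : Min G z) {A : Set V} (hz : z ∈ A)
    (hA : A ≠ Set.univ) :
    ∃ μ, IsLaw G (A \ {z}) μ ∧ ∀ v ∈ A, v ≠ z → marg μ v = need G z v := by
  have hcard : Fintype.card A < Fintype.card V := by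
    obtain ⟨x, hx⟩ := (Set.ne_univ_iff_exists_notMem A).mp hA
    exact Fintype.card_subtype_lt hx
  obtain ⟨μ, hμ, h1, -⟩ := hm.use (G.induce A) ⟨z, hz⟩ hcard (pln_induce hm.pl A)
    (fun w => if w.1 = z then ∅ else {w.1}) (if_pos rfl)
    (fun w w' hw => by
      split_ifs
      · exact Finset.disjoint_empty_left _
      · exact Finset.disjoint_empty_left _
      · exact Finset.disjoint_empty_right _
      · exact Finset.disjoint_singleton.mpr fun hc => hw (Subtype.ext hc))
    (fun w u hu v hv => by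
      split_ifs at hu hv
      · simp at hu
      · rw [Finset.mem_singleton] at hu hv
        rw [hu, hv]
        exact G.loopless.irrefl _)
    (fun w w' hw u hu v hv hadj => by
      split_ifs at hu hv
      · simp at hu
      · simp at hu
      · simp at hv
      · rw [Finset.mem_singleton] at hu hv
        rw [hu, hv] at hadj
        exact hadj)
  have hset : {v | ∃ w : A, v ∈ (if w.1 = z then ∅ else {w.1} : Finset V)} = A \ {z} := by
    ext v
    constructor
    · rintro ⟨w, hw⟩
      split_ifs at hw with hwz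
      · simp at hw
      · rw [Finset.mem_singleton] at hw
        rw [hw]
        exact ⟨w.2, hwz⟩
    · rintro ⟨hv, hvz⟩
      exact ⟨⟨v, hv⟩, by rw [if_neg (show ¬v = z from hvz)]; simp⟩
  rw [hset] at hμ
  refine ⟨μ, hμ, fun v hv hvz => ?_⟩
  rw [h1 ⟨v, hv⟩ (fun hc => hvz (congrArg Subtype.val hc)) v (by rw [if_neg hvz]; simp)]
  rfl

/-- A side which does not contain `z`; at most one vertex of it is adjacent to `z`. -/
theorem Min.side' [Fintype V] {G : SimpleGraph V} {z : V} (hm : Min G z) {B : Set V} (hz : z ∉ B)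
    {x : V} (hx : x ∈ B) (hN : ∀ u ∈ B, G.Adj z u → u = x) {y : V} (hy : y ∉ B) (hyz : y ≠ z) :
    ∃ μ, IsLaw G B μ ∧ ∀ v ∈ B, marg μ v = need G z v := by
  let f : Option B → V := fun o => o.elim z Subtype.val
  have hcard : Fintype.card (Option B) < Fintype.card V := by
    have hfi : Function.Injective f := by
      rintro (_ | a) (_ | b) h
      · rfl
      · exact absurd (show b.1 = z from h.symm) (fun hc => hz (hc ▸ b.2))
      · exact absurd (show a.1 = z from h) (fun hc => hz (hc ▸ a.2))
      · exact congrArg some (Subtype.ext h)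
    refine Fintype.card_lt_of_injective_of_notMem f hfi (b := y) ?_
    rintro ⟨_ | a, ha⟩
    · exact hyz (show z = y from ha).symm
    · exact hy ((show a.1 = y from ha) ▸ a.2)
  have hp : Pln (G.comap f) :=
    (pln_induce hm.pl B).pendant (V := B) ⟨x, hx⟩ (fun u v h => h)
      fun u h => Subtype.ext (hN u.1 u.2 h)
  obtain ⟨μ, hμ, h1, -⟩ := hm.use (G.comap f) none hcard hp
    (fun w => w.elim ∅ fun v => {v.1}) rfl
    (fun w w' hw => by
      rcases w with _ | w
      · exact Finset.disjoint_empty_left _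
      · rcases w' with _ | w'
        · exact Finset.disjoint_empty_right _
        · exact Finset.disjoint_singleton.mpr fun hc => hw (congrArg some (Subtype.ext hc)))
    (fun w u hu v hv => by
      rcases w with _ | w
      · exact absurd hu (Finset.notMem_empty _)
      · rw [Finset.mem_singleton.mp hu, Finset.mem_singleton.mp hv]
        exact G.loopless.irrefl _)
    (fun w w' hw u hu v hv hadj => by
      rcases w with _ | w
      · exact absurd hu (Finset.notMem_empty _)
      · rcases w' with _ | w'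
        · exact absurd hv (Finset.notMem_empty _)
        · rw [Finset.mem_singleton.mp hu, Finset.mem_singleton.mp hv] at hadj
          exact hadj)
  have hset : {v | ∃ w : Option B, v ∈ (w.elim ∅ fun v => {v.1} : Finset V)} = B := by
    ext v
    constructor
    · rintro ⟨_ | w, hw⟩
      · exact absurd hw (Finset.notMem_empty _)
      · rw [Finset.mem_singleton.mp hw]
        exact w.2
    · intro hv
      exact ⟨some ⟨v, hv⟩, Finset.mem_singleton_self _⟩
  rw [hset] at hμ
  refine ⟨μ, hμ, fun v hv => ?_⟩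
  rw [h1 (some ⟨v, hv⟩) (by simp) v (Finset.mem_singleton_self _)]
  rfl

/-- Two laws which meet in at most one vertex. -/
theorem Min.noglue [Fintype V] {G : SimpleGraph V} {z : V} (hm : Min G z) {A B : Set V}
    {μ ν : Finset V → ℝ} (hμ : IsLaw G A μ) (hν : IsLaw G B ν) (hU : A ∪ B = {z}ᶜ)
    (hI : ∀ u ∈ A ∩ B, ∀ v ∈ A ∩ B, u = v) (hAB : ∀ u ∈ A \ B, ∀ v ∈ B \ A, ¬G.Adj u v)
    (h1 : ∀ v ∈ A, marg μ v = need G z v) (h2 : ∀ v ∈ B, marg ν v = need G z v) : False := by
  obtain ⟨ρ, hρ, h3, h4⟩ := glue_clique hμ hν hAB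
    (fun I _ u hu v hv huv => absurd (hI u hu v hv) huv)
    (fun I _ u hu v hv huv => absurd (hI u hu v hv) huv)
    (fun v hv => (h1 v hv.1).trans (h2 v hv.2).symm)
  rw [hU] at hρ
  refine hm.bad ⟨ρ, hρ, fun v hv => ?_⟩
  have : v ∈ A ∪ B := by rw [hU]; exact hv
  rcases this with hv' | hv'
  · rw [h3 v hv', h1 v hv']
  · rw [h4 v hv', h2 v hv']

theorem reach_closed {G : SimpleGraph V} {S : Set V} (hS : ∀ u ∈ S, ∀ v, G.Adj u v → v ∈ S)
    {x y : V} (hx : x ∈ S) (h : G.Reachable x y) : y ∈ S := by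
  obtain ⟨p⟩ := h
  induction p with
  | nil => exact hx
  | cons hadj _ ih => exact ih (hS _ hx _ hadj)

theorem Min.conn [Fintype V] {G : SimpleGraph V} {z : V} (hm : Min G z) :
    BDP.Conn G Set.univ := by
  by_contra hc
  set A : Set V := {v | (BDP.res G Set.univ).Reachable z v} with hA
  have hadj : ∀ u v, G.Adj u v → (BDP.res G Set.univ).Adj u v := fun u v h => ⟨h, trivial, trivial⟩
  obtain ⟨b, hb⟩ : ∃ b, b ∉ A := by
    by_contra hcon
    push Not at hcon
    exact hc fun x _ y _ => (hcon x).symm.trans (hcon y)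
  have hzA : z ∈ A := SimpleGraph.Reachable.refl z
  have hcl : ∀ u ∈ A, ∀ v, G.Adj u v → v ∈ A := fun u hu v h => hu.trans (hadj u v h).reachable
  by_cases hA1 : ∃ a ∈ A, a ≠ z
  · obtain ⟨a, haA, haz⟩ := hA1
    obtain ⟨μ, hμ, h1⟩ := hm.side hzA (fun h => hb (h ▸ Set.mem_univ b))
    obtain ⟨ν, hν, h2⟩ := hm.side' (B := Aᶜ) (fun h => h hzA) (x := b) hb
      (fun u hu h => absurd (hcl z hzA u h) hu) (y := a) (fun h => h haA) haz
    refine hm.noglue hμ hν ?_ ?_ ?_ (fun v hv => h1 v hv.1 hv.2) h2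
    · ext v
      constructor
      · rintro (h | h)
        · exact h.2
        · rintro rfl; exact h hzA
      · intro h
        by_cases hvA : v ∈ A
        · exact Or.inl ⟨hvA, h⟩
        · exact Or.inr hvA
    · rintro u ⟨hu, hu'⟩
      exact absurd hu.1 hu'
    · rintro u hu v hv h
      exact hv.1 (hcl u hu.1.1 v h)
  · push Not at hA1
    have hbz : b ≠ z := fun h => hb (h ▸ hzA)
    have := hm.pendant hbz fun u hu => absurd (hA1 u (hcl z hzA u hu)) hu.ne'
    exact hbz (hA1 b (hcl z hzA b this))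

theorem Min.conn2 [Fintype V] {G : SimpleGraph V} {z : V} (hm : Min G z) (v : V) :
    BDP.Conn G {v}ᶜ := by
  by_contra hc
  have hadj : ∀ u w, u ≠ v → w ≠ v → G.Adj u w → (BDP.res G {v}ᶜ).Adj u w :=
    fun u w h1 h2 h => ⟨h, h1, h2⟩
  unfold BDP.Conn at hc
  push Not at hc
  obtain ⟨a, ha, b, hb, hab⟩ := hc
  have hav : a ≠ v := ha
  have hbv : b ≠ v := hb
  by_cases hvz : v = z
  · subst hvz
    set A : Set V := {u | u ≠ v ∧ (BDP.res G {v}ᶜ).Reachable a u} with hA
    set B : Set V := {u | u ≠ v ∧ ¬(BDP.res G {v}ᶜ).Reachable a u} with hB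
    obtain ⟨μ, hμ, h1⟩ := hm.side (A := insert v A) (Set.mem_insert v A) (fun h => by
      have : b ∈ insert v A := h ▸ Set.mem_univ b
      rcases this with h | h
      · exact hbv h
      · exact hab h.2)
    obtain ⟨ν, hν, h2⟩ := hm.side (A := insert v B) (Set.mem_insert v B) (fun h => by
      have : a ∈ insert v B := h ▸ Set.mem_univ a
      rcases this with h | h
      · exact hav h
      · exact h.2 (SimpleGraph.Reachable.refl a))
    have eA : insert v A \ {v} = A := by
      ext u
      constructor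
      · rintro ⟨h | h, h'⟩
        · exact absurd h h'
        · exact h
      · intro h
        exact ⟨Or.inr h, h.1⟩
    have eB : insert v B \ {v} = B := by
      ext u
      constructor
      · rintro ⟨h | h, h'⟩
        · exact absurd h h'
        · exact h
      · intro h
        exact ⟨Or.inr h, h.1⟩
    rw [eA] at hμ
    rw [eB] at hν
    refine hm.noglue hμ hν ?_ ?_ ?_ (fun u hu => h1 u (Or.inr hu) hu.1)
      (fun u hu => h2 u (Or.inr hu) hu.1)
    · ext u
      constructor
      · rintro (h | h)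
        · exact h.1
        · exact h.1
      · intro h
        by_cases h' : (BDP.res G {v}ᶜ).Reachable a u
        · exact Or.inl ⟨h, h'⟩
        · exact Or.inr ⟨h, h'⟩
    · rintro u ⟨hu, hu'⟩
      exact absurd hu.2 hu'.2
    · rintro u hu w hw h
      exact hw.1.2 (hu.1.2.trans (hadj u w hu.1.1 hw.1.1 h).reachable)
  · set C : Set V := {u | u ≠ v ∧ (BDP.res G {v}ᶜ).Reachable z u} with hC
    have hzv : z ≠ v := fun h => hvz h.symm
    have hzC : z ∈ C := ⟨hzv, SimpleGraph.Reachable.refl z⟩
    have hcl : ∀ u ∈ C, ∀ w, w ≠ v → G.Adj u w → w ∈ C := fun u hu w hw h =>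
      ⟨hw, hu.2.trans (hadj u w hu.1 hw h).reachable⟩
    obtain ⟨d, hdv, hdC⟩ : ∃ d, d ≠ v ∧ d ∉ C := by
      by_contra hcon
      push Not at hcon
      exact hab ((hcon a hav).2.symm.trans (hcon b hbv).2)
    by_cases hC1 : ∃ c ∈ C, c ≠ z
    · obtain ⟨c, hcC, hcz⟩ := hC1
      obtain ⟨μ, hμ, h1⟩ := hm.side (A := insert v C) (Or.inr hzC) (fun h => by
        have : d ∈ insert v C := h ▸ Set.mem_univ d
        rcases this with h | h
        · exact hdv h
        · exact hdC h)
      obtain ⟨ν, hν, h2⟩ := hm.side' (B := Cᶜ) (fun h => h hzC) (x := v) (fun h => h.1 rfl)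
        (fun u hu h => by
          by_contra huv
          exact hu (hcl z hzC u huv h)) (y := c) (fun h => h hcC) hcz
      refine hm.noglue hμ hν ?_ ?_ ?_ (fun u hu => h1 u hu.1 hu.2) h2
      · ext u
        constructor
        · rintro (h | h)
          · exact h.2
          · rintro rfl; exact h hzC
        · intro h
          by_cases h' : u ∈ C
          · exact Or.inl ⟨Or.inr h', h⟩
          · exact Or.inr h'
      · have key : ∀ u ∈ (insert v C \ {z}) ∩ Cᶜ, u = v := by
          rintro u ⟨⟨h | h, -⟩, h'⟩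
          · exact h
          · exact absurd h h'
        intro u hu w hw
        rw [key u hu, key w hw]
      · rintro u hu w hw h
        have huC : u ∈ C := by
          by_contra h'
          exact hu.2 h'
        have hwv : w ≠ v := by
          rintro rfl
          exact hw.2 ⟨Or.inl rfl, fun h => hvz h⟩
        exact hw.1 (hcl u huC w hwv h)
    · push Not at hC1
      have hNz : ∀ u, G.Adj z u → u = v := fun u hu => by
        by_contra huv
        exact hu.ne' (hC1 u (hcl z hzC u huv hu))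
      have hzadj : G.Adj z v := hm.pendant hvz hNz
      obtain ⟨x, hvx, hxz⟩ : ∃ x, G.Adj v x ∧ x ≠ z := by
        by_contra hcon
        push Not at hcon
        have h1 := hm.conn z trivial d trivial
        have h2 : d ∈ ({z, v} : Set V) := by
          refine reach_closed (S := {z, v}) (fun u hu w hw => ?_) (Or.inl rfl) h1
          rcases hu with rfl | hu
          · exact Or.inr (hNz w hw.1)
          · rw [Set.mem_singleton_iff.mp hu] at hw
            exact Or.inl (hcon w hw.1)
        rcases h2 with h2 | h2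
        · exact hdC (h2 ▸ hzC)
        · exact hdv h2
      have := hm.ear hvz hxz hvx fun u hu => Or.inl (hNz u hu)
      exact hvx.ne' (hNz x this)

end DS
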