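import Mathlib

/-!
# A finite connected 2-regular relation is a cycle
-/

namespace DS

variable {V : Type}

/-- Data of a 2-regular relation: `R` is symmetric and irreflexive, and every element `a` of `N`
has exactly the two related elements `f a b` (the other one than `b`) and `b`. -/
theorem exists_cyclic_order [DecidableEq V] (N : Finset V) (R : V → V → Prop)
    (hN : ∀ a b, R a b → a ∈ N) (hs : ∀ a b, R a b → R b a) (hi : ∀ a, ¬ R a a)
    (h2 : ∀ a ∈ N, ∃ b c, b ≠ c ∧ R a b ∧ R a c ∧ ∀ d, R a d → d = b ∨ d = c)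
    (hc : ∀ A : Finset V, A ⊆ N → A.Nonempty → (∀ a ∈ A, ∀ b, R a b → b ∈ A) → A = N)
    (hne : N.Nonempty) :
    ∃ p : ℕ → V, (∀ i j, p i = p j ↔ i ≡ j [MOD N.card]) ∧ (∀ a, a ∈ N ↔ ∃ i, p i = a) ∧
      (∀ i, R (p i) (p (i + 1))) ∧
      (∀ i b, R (p (i + 1)) b → b = p i ∨ b = p (i + 2)) ∧ 3 ≤ N.card := by
  classical
  -- the other neighbour
  have hoth : ∀ a b, R a b → ∃ c, c ≠ b ∧ R a c ∧ ∀ d, R a d → d = b ∨ d = c := by
    intro a b hab
    obtain ⟨u, w, huw, hu, hw, hall⟩ := h2 a (hN a b hab)
    rcases hall b hab with rfl | rfl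
    · exact ⟨w, huw.symm, hw, hall⟩
    · exact ⟨u, huw, hu, fun d hd => (hall d hd).symm⟩
  choose o ho1 ho2 ho3 using hoth
  -- darts
  let D := {q : V × V // R q.1 q.2}
  let φ : D → D := fun q => ⟨(q.1.2, o q.1.2 q.1.1 (hs _ _ q.2)), ho2 _ _ _⟩
  obtain ⟨a₀, ha₀⟩ := hne
  obtain ⟨b₀, c₀, hbc, hb₀, hc₀, -⟩ := h2 a₀ ha₀
  let q₀ : D := ⟨(a₀, b₀), hb₀⟩
  let q : ℕ → D := fun i => φ^[i] q₀
  let p : ℕ → V := fun i => (q i).1.1
  have hq : ∀ i, q (i + 1) = φ (q i) := fun i => Function.iterate_succ_apply' φ i q₀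
  have hp1 : ∀ i, (q i).1.2 = p (i + 1) := by
    intro i
    change (q i).1.2 = (q (i + 1)).1.1
    rw [hq]
  have hR : ∀ i, R (p i) (p (i + 1)) := by
    intro i
    rw [← hp1]
    exact (q i).2
  have hne2 : ∀ i, p (i + 2) ≠ p i := by
    intro i
    rw [← hp1 (i + 1), hq i]
    exact ho1 _ _ _
  have hnb : ∀ i b, R (p (i + 1)) b → b = p i ∨ b = p (i + 2) := by
    intro i b hb
    rw [← hp1 (i + 1), hq i]
    have h1 : R (q i).1.2 b := by rw [hp1]; exact hb
    exact ho3 _ _ (hs _ _ (q i).2) b h1
  have hpN : ∀ i, p i ∈ N := fun i => hN _ _ (hR i)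
  -- going backwards: equal consecutive pairs propagate
  have hfwd : ∀ i j, p i = p j → p (i + 1) = p (j + 1) → p (i + 2) = p (j + 2) := by
    intro i j h0 h1
    have hij : q i = q j := by
      apply Subtype.ext
      apply Prod.ext
      · exact h0
      · rw [hp1, hp1]; exact h1
    have : q (i + 2) = q (j + 2) := by
      rw [hq, hq, hq, hq, hij]
    change (q (i + 2)).1.1 = (q (j + 2)).1.1
    rw [this]
  have hfwd' : ∀ i j, p i = p j → p (i + 1) = p (j + 1) → ∀ n, p (i + n) = p (j + n) := by
    intro i j h0 h1 n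
    have : p (i + n) = p (j + n) ∧ p (i + n + 1) = p (j + n + 1) := by
      induction n with
      | zero => exact ⟨h0, h1⟩
      | succ n ih =>
        refine ⟨ih.2, ?_⟩
        have := hfwd (i + n) (j + n) ih.1 ih.2
        exact this
    exact this.1
  have hback : ∀ i j, p (i + 1) = p (j + 1) → p (i + 2) = p (j + 2) → p i = p j := by
    intro i j h1 h2'
    have h3 : R (p (i + 1)) (p i) := hs _ _ (hR i)
    rw [h1] at h3
    rcases hnb j _ h3 with h | h
    · exact h
    · exact absurd (h.trans h2'.symm).symm (hne2 i)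
  have hback' : ∀ i j n, p (i + n) = p (j + n) → p (i + n + 1) = p (j + n + 1) → p i = p j ∧
      p (i + 1) = p (j + 1) := by
    intro i j n
    induction n with
    | zero => intro h1 h2'; exact ⟨h1, h2'⟩
    | succ n ih =>
      intro h1 h2'
      have h3 : p (i + n + 1) = p (j + n + 1) := h1
      have h4 := hback (i + n) (j + n) h3 h2'
      exact ih h4 h3
  -- no reversal
  have hrev : ∀ m i, ¬ (p i = p (i + m + 1) ∧ p (i + 1) = p (i + m)) := by
    intro m
    induction m using Nat.strong_induction_on with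
    | _ m ih =>
      intro i ⟨h1, h2'⟩
      rcases m with _ | _ | m
      · -- p i = p (i+1)
        have := hR i
        rw [← h1] at this
        exact hi _ this
      · -- p i = p (i+2)
        exact hne2 i h1.symm
      · -- p (i+2) = p (i + m + 1)
        have h3 : R (p (i + 1)) (p (i + m + 1)) := by
          rw [h2']
          exact hs _ _ (hR (i + m + 1))
        rcases hnb i _ h3 with h | h
        · -- p (i+m+1) = p i = p (i + m + 3)
          have h5 : p (i + m + 1 + 2) = p (i + m + 1) := by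
            rw [h, h1]
            rfl
          exact hne2 _ h5
        · refine ih m (by omega) (i + 1) ⟨?_, ?_⟩
          · rw [h2']
            congr 1; omega
          · rw [← show i + 2 = i + 1 + 1 from rfl, ← h]
            congr 1; omega
  -- some repetition
  have hrep : ∃ k, 0 < k ∧ p k = p 0 ∧ p (k + 1) = p 1 := by
    have : ∃ i j, i < j ∧ (p i, p (i + 1)) = (p j, p (j + 1)) := by
      have hfin : Set.Finite (Set.range fun i => (p i, p (i + 1))) := by
        apply Set.Finite.subset (N ×ˢ N).finite_toSet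
        rintro _ ⟨i, rfl⟩
        simp [hpN]
      by_contra hno
      push Not at hno
      have hinj : Function.Injective fun i => (p i, p (i + 1)) := by
        intro i j h
        by_contra hne
        rcases Nat.lt_or_gt_of_ne hne with h3 | h3
        · exact hno i j h3 h
        · exact hno j i h3 h.symm
      exact Set.infinite_range_of_injective hinj hfin
    obtain ⟨i, j, hij, h⟩ := this
    rw [Prod.mk.injEq] at h
    obtain ⟨k, rfl⟩ := Nat.exists_eq_add_of_lt hij
    have h4 := hback' 0 (k + 1) i (by rw [Nat.zero_add, Nat.add_comm (k+1) i, h.1]; rfl)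
      (by rw [Nat.zero_add, Nat.add_comm (k+1) i, h.2]; rfl)
    exact ⟨k + 1, Nat.succ_pos k, h4.1.symm, by
      rw [Nat.add_comm (k + 1) 1] at h4
      rw [Nat.add_comm (k+1) 1]
      simpa using h4.2.symm⟩
  let k := Nat.find hrep
  have hk := Nat.find_spec hrep
  have hkmin : ∀ m, 0 < m → m < k → ¬ (p m = p 0 ∧ p (m + 1) = p 1) := by
    intro m hm hmk h
    exact Nat.find_min hrep hmk ⟨hm, h⟩
  have hper : ∀ n, p (n + k) = p n := by
    intro n
    have := hfwd' k 0 hk.2.1 (by simpa using hk.2.2) n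
    rw [Nat.add_comm n k, this, Nat.zero_add]
  have hinj : ∀ i j, i < j → j < i + k → p i ≠ p j := by
    intro i j hij hjk h
    obtain ⟨m, rfl⟩ := Nat.exists_eq_add_of_lt hij
    -- the next of p i is one of the neighbours of p (i+m+1)
    have h3 : R (p (i + m + 1)) (p (i + 1)) := by rw [← h]; exact hR i
    rcases hnb (i + m) _ h3 with h4 | h4
    · exact hrev m i ⟨h, h4⟩
    · -- same direction : period m + 1
      have h5 := hback' 0 (m + 1) i (by rw [Nat.zero_add, Nat.add_comm (m+1) i, h]; rfl)
        (by rw [Nat.zero_add, Nat.add_comm (m+1) i, h4]; rfl)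
      refine hkmin (m + 1) (Nat.succ_pos m) (by omega) ⟨h5.1.symm, ?_⟩
      have := h5.2
      simp only [Nat.zero_add] at this
      exact this.symm
  have hkpos : 0 < k := hk.1
  have hmod : ∀ n, p n = p (n % k) := by
    intro n
    induction n using Nat.strong_induction_on with
    | _ n ih =>
      by_cases hn : n < k
      · rw [Nat.mod_eq_of_lt hn]
      · have h1 : n - k + k = n := by omega
        rw [← h1, hper, ih (n - k) (by omega), Nat.add_mod_right]
  have hrange : (Finset.range k).image p = N := by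
    apply hc
    · intro a ha
      rw [Finset.mem_image] at ha
      obtain ⟨i, -, rfl⟩ := ha
      exact hpN i
    · exact ⟨p 0, Finset.mem_image.2 ⟨0, Finset.mem_range.2 hkpos, rfl⟩⟩
    · intro a ha b hb
      rw [Finset.mem_image] at ha
      obtain ⟨i, -, rfl⟩ := ha
      have h1 : p i = p (i + k - 1 + 1) := by
        rw [Nat.sub_add_cancel (by omega), hper]
      rw [h1] at hb
      rw [Finset.mem_image]
      rcases hnb _ _ hb with rfl | rfl
      · exact ⟨(i + k - 1) % k, Finset.mem_range.2 (Nat.mod_lt _ hkpos), (hmod _).symm⟩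
      · exact ⟨(i + k - 1 + 2) % k, Finset.mem_range.2 (Nat.mod_lt _ hkpos), (hmod _).symm⟩
  have hcard : N.card = k := by
    rw [← hrange, Finset.card_image_of_injOn, Finset.card_range]
    intro i hi j hj hij
    rw [Finset.coe_range, Set.mem_Iio] at hi hj
    by_contra hne
    rcases Nat.lt_or_gt_of_ne hne with h | h
    · exact hinj i j h (by omega) hij
    · exact hinj j i h (by omega) hij.symm
  refine ⟨p, ?_, ?_, hR, hnb, ?_⟩
  · intro i j
    rw [hcard, Nat.ModEq]
    constructor
    · intro h
      rw [hmod i, hmod j] at h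
      by_contra hne
      have h1 := Nat.mod_lt i hkpos
      have h2' := Nat.mod_lt j hkpos
      rcases Nat.lt_or_gt_of_ne hne with h3 | h3
      · exact hinj _ _ h3 (by omega) h
      · exact hinj _ _ h3 (by omega) h.symm
    · intro h
      rw [hmod i, hmod j, h]
  · intro a
    constructor
    · intro ha
      rw [← hrange, Finset.mem_image] at ha
      obtain ⟨i, -, h⟩ := ha
      exact ⟨i, h⟩
    · rintro ⟨i, rfl⟩
      exact hpN i
  · rw [hcard]
    by_contra hlt
    have h12 : k = 1 ∨ k = 2 := by omega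
    rcases h12 with h | h
    · have := hR 0
      have h3 := hper 0
      rw [h] at h3
      rw [h3] at this
      exact hi _ this
    · have h3 := hper 0
      rw [h] at h3
      exact hne2 0 h3

theorem exists_cyc {X : Type} [Fintype X] [Nonempty X] (R : X → X → Prop)
    (hs : ∀ x y, R x y → R y x) (hi : ∀ x, ¬R x x)
    (h2 : ∀ x, ∃ y z, y ≠ z ∧ R x y ∧ R x z ∧ ∀ u, R x u → u = y ∨ u = z)
    (hc : ∀ x y, Relation.ReflTransGen R x y) :
    ∃ k : ℕ, 3 ≤ k ∧ ∃ w : ZMod k → X, Function.Bijective w ∧ ∀ i, R (w i) (w (i + 1)) := by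
  classical
  obtain ⟨p, hp, hr, hR, -, h3⟩ := exists_cyclic_order (Finset.univ : Finset X) R
    (fun _ _ _ => Finset.mem_univ _) hs hi (fun a _ => h2 a)
    (fun A _ hA hcl => by
      rw [Finset.eq_univ_iff_forall]
      intro x
      obtain ⟨a, ha⟩ := hA
      have := hc a x
      induction this with
      | refl => exact ha
      | tail _ h ih => exact hcl _ ih _ h) Finset.univ_nonempty
  generalize (Finset.univ : Finset X).card = k at hp h3
  have hk0 : NeZero k := ⟨by omega⟩
  refine ⟨k, h3, fun i => p i.val, ⟨?_, ?_⟩, ?_⟩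
  · intro i j hij
    have h1 := (hp _ _).1 hij
    rw [← ZMod.natCast_eq_natCast_iff, ZMod.natCast_zmod_val, ZMod.natCast_zmod_val] at h1
    exact h1
  · intro x
    obtain ⟨i, hi'⟩ := (hr x).1 (Finset.mem_univ x)
    refine ⟨(i : ZMod _), ?_⟩
    change p (ZMod.val _) = x
    rw [← hi', hp, ZMod.val_natCast]
    exact Nat.mod_modEq _ _
  · intro i
    have h1 : p (ZMod.val (i + 1)) = p (i.val + 1) := by
      rw [hp, ← ZMod.natCast_eq_natCast_iff, Nat.cast_add, ZMod.natCast_zmod_val,
        ZMod.natCast_zmod_val, Nat.cast_one]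
    change R (p _) (p _)
    rw [h1]
    exact hR _

end DS
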