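import Pool.Agent.Work.MP_0890ba_co.DS.Defs

/-!
# Faces of an edge-maximal planar graph are triangles
-/

set_option linter.unusedSectionVars false

namespace DS

open Finset Classical

variable {V E F : Type}

/-- The edges with exactly one side `f`. -/
noncomputable def fc (l r : E → F) (f : F) (e : E) : ZMod 2 :=
  (if l e = f then 1 else 0) + (if r e = f then 1 else 0)

theorem cut_eq_sum [Fintype F] (l r : E → F) (S : F → ZMod 2) (e : E) :
    cut l r S e = ∑ f, S f * fc l r f e := by
  simp [cut, fc, mul_add, Finset.sum_add_distrib]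

theorem fc_ne_zero_iff (l r : E → F) (f : F) (e : E) :
    fc l r f e ≠ 0 ↔ (l e = f ∧ r e ≠ f) ∨ (l e ≠ f ∧ r e = f) := by
  by_cases h1 : l e = f <;> by_cases h2 : r e = f <;> simp [fc, h1, h2]
  exact CharTwo.add_self_eq_zero 1

namespace TrA

theorem z2 (a : ZMod 2) : a = 0 ∨ a = 1 := by
  revert a; decide

theorem z2ne {a : ZMod 2} (h : a ≠ 0) : a = 1 := (z2 a).resolve_left h

theorem z2self (a : ZMod 2) : a + a = 0 := CharTwo.add_self_eq_zero a

theorem bd_add [Fintype E] (s t : E → V) (Y Z : E → ZMod 2) (v : V) :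
    bd s t (Y + Z) v = bd s t Y v + bd s t Z v := by
  simp [bd, add_mul, Finset.sum_add_distrib]

/-- The set of one edge. -/
noncomputable def sg (e : E) : E → ZMod 2 := fun e' => if e' = e then 1 else 0

theorem sg_same (e : E) : sg e e = 1 := if_pos rfl

theorem sg_ne {e e' : E} (h : e' ≠ e) : sg e e' = 0 := if_neg h

theorem bd_single [Fintype E] (s t : E → V) (e : E) (v : V) :
    bd s t (sg e) v = (if s e = v then 1 else 0) + (if t e = v then 1 else 0) := by
  unfold bd
  rw [Finset.sum_eq_single e]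
  · rw [sg_same, one_mul]
  · intro b _ hb
    rw [sg_ne hb, zero_mul]
  · intro h; exact absurd (Finset.mem_univ e) h

theorem bd_zero [Fintype E] (s t : E → V) (v : V) : bd s t 0 v = 0 := by
  simp [bd]

theorem cut_const (l r : E → F) (S : F → ZMod 2) (a : ZMod 2) :
    cut l r (fun g => S g + a) = cut l r S := by
  funext e
  have := z2self a
  unfold cut
  linear_combination this

/-- An edge may be added inside a face. -/
theorem add_edge [Fintype E] [Fintype F] {s t : E → V} {l r : E → F} (hP : IsPlane s t l r)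
    {G : SimpleGraph V} (hG : ∀ u v, G.Adj u v → ∃ e, Joins s t e u v) (f : F) (P : E → ZMod 2)
    (hPf : ∀ e, P e ≠ 0 → fc l r f e ≠ 0) (x y : V)
    (hb : ∀ v, bd s t P v = (if x = v then 1 else 0) + (if y = v then 1 else 0))
    (G' : SimpleGraph V)
    (hG' : ∀ u v, G'.Adj u v → G.Adj u v ∨ (u = x ∧ v = y) ∨ (u = y ∧ v = x)) : Pln G' := by
  let s' : Option E → V := fun o => o.elim x s
  let t' : Option E → V := fun o => o.elim y t
  let l' : Option E → Option F := fun o => o.elim (some f)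
    (fun e => if P e ≠ 0 ∧ l e = f then none else some (l e))
  let r' : Option E → Option F := fun o => o.elim none
    (fun e => if P e ≠ 0 ∧ r e = f then none else some (r e))
  have hcut : ∀ (S : Option F → ZMod 2) (e : E), cut l' r' S (some e) =
      cut l r (fun g => S (some g)) e + P e * (S none + S (some f)) := by
    intro S e
    change S (if P e ≠ 0 ∧ l e = f then none else some (l e)) +
      S (if P e ≠ 0 ∧ r e = f then none else some (r e)) = S (some (l e)) + S (some (r e)) + _
    rcases z2 (P e) with h | h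
    · simp [h]
    · have h1 : P e ≠ 0 := by rw [h]; exact one_ne_zero
      have h2 := z2self (S (some f))
      rcases (fc_ne_zero_iff l r f e).1 (hPf e h1) with ⟨h3, h4⟩ | ⟨h3, h4⟩
      · rw [if_pos ⟨h1, h3⟩, if_neg (fun h5 => h4 h5.2), h, h3]
        linear_combination -h2
      · rw [if_neg (fun h5 => h3 h5.2), if_pos ⟨h1, h4⟩, h, h4]
        linear_combination -h2
  have hbd : ∀ (Z : Option E → ZMod 2) (v : V), bd s' t' Z v =
      bd s t (fun e => Z (some e)) v +
        Z none * ((if x = v then 1 else 0) + (if y = v then 1 else 0)) := by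
    intro Z v
    unfold bd
    rw [Fintype.sum_option, add_comm]
    rfl
  refine ⟨Option E, Option F, inferInstance, inferInstance, s', t', l', r', ⟨?_, ?_⟩, ?_⟩
  · intro S v
    rw [hbd]
    have h1 : (fun e => cut l' r' S (some e)) =
        cut l r (fun g => S (some g)) + fun e => P e * (S none + S (some f)) := by
      funext e
      exact hcut S e
    have h2 : bd s t (fun e => P e * (S none + S (some f))) v =
        (S none + S (some f)) * bd s t P v := by
      unfold bd
      rw [Finset.mul_sum]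
      exact Finset.sum_congr rfl fun e _ => by ring
    rw [h1, bd_add, hP.even, h2, hb]
    change 0 + _ + (S (some f) + S none) * _ = 0
    have h3 := z2self ((S (some f) + S none) * ((if x = v then 1 else 0) + (if y = v then 1 else 0)))
    linear_combination h3
  · intro Z hZ
    have h1 : ∀ v, bd s t (fun e => Z (some e) + Z none * P e) v = 0 := by
      intro v
      have h2 := hZ v
      rw [hbd] at h2
      have h3 : (fun e => Z (some e) + Z none * P e) =
          (fun e => Z (some e)) + fun e => Z none * P e := rfl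
      have h4 : bd s t (fun e => Z none * P e) v = Z none * bd s t P v := by
        unfold bd
        rw [Finset.mul_sum]
        exact Finset.sum_congr rfl fun e _ => by ring
      rw [h3, bd_add, h4, hb]
      exact h2
    obtain ⟨S, hS⟩ := hP.dual _ h1
    refine ⟨fun o => o.elim (S f + Z none) S, ?_⟩
    funext o
    rcases o with _ | e
    · change S f + (S f + Z none) = Z none
      have := z2self (S f)
      linear_combination this
    · rw [hcut]
      change cut l r S e + P e * ((S f + Z none) + S f) = Z (some e)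
      have h2 := congrFun hS e
      have h3 := z2self (S f)
      have h4 := z2self (Z none * P e)
      rw [h2]
      change Z (some e) + Z none * P e + _ = _
      linear_combination P e * h3 + h4
  · intro u v huv
    rcases hG' u v huv with h | ⟨rfl, rfl⟩ | ⟨rfl, rfl⟩
    · obtain ⟨e, he⟩ := hG u v h
      exact ⟨some e, he⟩
    · exact ⟨none, Or.inl ⟨rfl, rfl⟩⟩
    · exact ⟨none, Or.inr ⟨rfl, rfl⟩⟩

section

variable [Fintype V] {G : SimpleGraph V} {s t : G.edgeSet → V}

theorem ends_eq (hE : ∀ e : G.edgeSet, (e : Sym2 V) = s(s e, t e)) {e : G.edgeSet} {x y : V}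
    (h : (e : Sym2 V) = s(x, y)) (w : V) :
    ((if s e = w then 1 else 0) + (if t e = w then 1 else 0) : ZMod 2) =
      (if x = w then 1 else 0) + (if y = w then 1 else 0) := by
  rw [hE, Sym2.eq_iff] at h
  rcases h with ⟨h1, h2⟩ | ⟨h1, h2⟩
  · rw [h1, h2]
  · rw [h1, h2, add_comm]

theorem inc_eq (hE : ∀ e : G.edgeSet, (e : Sym2 V) = s(s e, t e)) (e : G.edgeSet) (v : V) :
    ((if s e = v then 1 else 0) + (if t e = v then 1 else 0) : ZMod 2) =
      if v ∈ (e : Sym2 V) then 1 else 0 := by
  have hne : s e ≠ t e := by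
    have h1 := e.2
    rw [hE e, SimpleGraph.mem_edgeSet] at h1
    exact h1.ne
  have hm : v ∈ (e : Sym2 V) ↔ (s e = v ∨ t e = v) := by
    rw [hE e, Sym2.mem_iff, eq_comm, @eq_comm _ v]
  by_cases h1 : s e = v
  · have h2 : t e ≠ v := fun h2 => hne (h1.trans h2.symm)
    rw [if_pos h1, if_neg h2, if_pos (hm.2 (Or.inl h1)), add_zero]
  · by_cases h2 : t e = v
    · rw [if_neg h1, if_pos h2, if_pos (hm.2 (Or.inr h2)), zero_add]
    · rw [if_neg h1, if_neg h2, if_neg (fun h3 => (hm.1 h3).elim h1 h2), add_zero]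

theorem bd_eq (hE : ∀ e : G.edgeSet, (e : Sym2 V) = s(s e, t e)) (Y : G.edgeSet → ZMod 2) (v : V) :
    bd s t Y v = ∑ e : G.edgeSet, if v ∈ (e : Sym2 V) then Y e else 0 := by
  unfold bd
  refine Finset.sum_congr rfl fun e _ => ?_
  rw [inc_eq hE]
  split_ifs <;> simp

theorem even_at (hE : ∀ e : G.edgeSet, (e : Sym2 V) = s(s e, t e)) {Y : G.edgeSet → ZMod 2} {v : V}
    (h : bd s t Y v = 0) {e : G.edgeSet} (hv : v ∈ (e : Sym2 V)) (he : Y e ≠ 0) :
    ∃ e' : G.edgeSet, e' ≠ e ∧ v ∈ (e' : Sym2 V) ∧ Y e' ≠ 0 := by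
  by_contra hno
  push Not at hno
  rw [bd_eq hE, Finset.sum_eq_single e] at h
  · rw [if_pos hv] at h
    exact he h
  · intro b _ hb
    by_cases h1 : v ∈ (b : Sym2 V)
    · rw [if_pos h1]
      exact hno b hb h1
    · rw [if_neg h1]
  · intro h1; exact absurd (Finset.mem_univ e) h1

end

end TrA

open TrA

variable [Fintype V] {G : SimpleGraph V} [Fintype F] {s t : G.edgeSet → V} {l r : G.edgeSet → F}

/-- A chain of edges between two vertices, avoiding `v`. -/
theorem chain_avoid (hE : ∀ e : G.edgeSet, (e : Sym2 V) = s(s e, t e)) {v : V}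
    (hc : BDP.Conn G {v}ᶜ) {x y : V} (hx : x ≠ v) (hy : y ≠ v) :
    ∃ P : G.edgeSet → ZMod 2,
      (∀ w, bd s t P w = (if x = w then 1 else 0) + (if y = w then 1 else 0)) ∧
      ∀ e : G.edgeSet, v ∈ (e : Sym2 V) → P e = 0 := by
  obtain ⟨p⟩ := hc x hx y hy
  induction p with
  | nil =>
    refine ⟨0, fun w => ?_, fun e _ => rfl⟩
    rw [bd_zero, z2self]
  | @cons x x' y h p ih =>
    obtain ⟨h1, h2, h3⟩ := h
    obtain ⟨P, hP1, hP2⟩ := ih h3 hy
    let e : G.edgeSet := ⟨s(x, x'), h1⟩
    have he : (e : Sym2 V) = s(x, x') := rfl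
    refine ⟨sg e + P, fun w => ?_, fun e' he' => ?_⟩
    · rw [bd_add, bd_single, ends_eq hE he, hP1]
      have := z2self (if x' = w then 1 else 0)
      linear_combination this
    · have hne : e' ≠ e := by
        rintro rfl
        rw [he, Sym2.mem_iff] at he'
        rcases he' with rfl | rfl
        · exact h2 rfl
        · exact h3 rfl
      rw [Pi.add_apply, sg_ne hne, hP2 e' he', add_zero]

/-- Every even set has an even part in `X` only if `X` is empty or everything. -/
theorem sepE (hE : ∀ e : G.edgeSet, (e : Sym2 V) = s(s e, t e))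
    (hc : BDP.Conn G Set.univ) (hc2 : ∀ v, BDP.Conn G {v}ᶜ) (X : G.edgeSet → Prop)
    (hX : ∀ Y : G.edgeSet → ZMod 2, (∀ v, bd s t Y v = 0) →
      ∀ v, bd s t (fun e => if X e then Y e else 0) v = 0)
    {e₁ e₂ : G.edgeSet} (h1 : X e₁) (h2 : ¬X e₂) : False := by
  -- no mixed vertex
  have hmix : ∀ (v : V) (a b : G.edgeSet), v ∈ (a : Sym2 V) → v ∈ (b : Sym2 V) → X a → X b := by
    intro v a b ha hb hXa
    by_contra hXb
    obtain ⟨u, hu⟩ := ha
    obtain ⟨u', hu'⟩ := hb
    have huv : G.Adj v u := by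
      have := a.2
      rw [hu] at this
      exact this
    have huv' : G.Adj v u' := by
      have := b.2
      rw [hu'] at this
      exact this
    obtain ⟨P, hP1, hP2⟩ := chain_avoid hE (hc2 v) huv.ne' huv'.ne'
    have hab : a ≠ b := by
      rintro rfl
      exact hXb hXa
    have hbd : ∀ w, bd s t (sg a + sg b + P) w = 0 := by
      intro w
      rw [bd_add, bd_add, bd_single, bd_single, ends_eq hE hu, ends_eq hE hu', hP1]
      have h3 := z2self (if v = w then 1 else 0)
      have h4 := z2self (if u = w then 1 else 0)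
      have h5 := z2self (if u' = w then 1 else 0)
      linear_combination h3 + h4 + h5
    have h3 := hX _ hbd v
    rw [bd_eq hE, Finset.sum_eq_single a] at h3
    · rw [if_pos (by rw [hu]; exact Sym2.mem_mk_left _ _), if_pos hXa, Pi.add_apply, Pi.add_apply,
        sg_same, sg_ne hab, hP2 a (by rw [hu]; exact Sym2.mem_mk_left _ _)]
        at h3
      simp at h3
    · intro e _ hea
      by_cases h4 : v ∈ (e : Sym2 V)
      · rw [if_pos h4]
        by_cases h5 : X e
        · have heb : e ≠ b := by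
            rintro rfl
            exact hXb h5
          rw [if_pos h5, Pi.add_apply, Pi.add_apply, sg_ne hea,
            sg_ne heb, hP2 e h4]
          simp
        · rw [if_neg h5]
      · rw [if_neg h4]
    · intro h4; exact absurd (Finset.mem_univ a) h4
  -- propagate
  have hx : s e₁ ∈ (e₁ : Sym2 V) := by rw [hE e₁]; exact Sym2.mem_mk_left _ _
  have hy : s e₂ ∈ (e₂ : Sym2 V) := by rw [hE e₂]; exact Sym2.mem_mk_left _ _
  obtain ⟨p⟩ := hc (s e₁) (Set.mem_univ _) (s e₂) (Set.mem_univ _)
  have key : ∀ (x y : V) (p : (BDP.res G Set.univ).Walk x y),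
      (∀ e : G.edgeSet, x ∈ (e : Sym2 V) → X e) → ∀ e : G.edgeSet, y ∈ (e : Sym2 V) → X e := by
    intro x y p
    induction p with
    | nil => exact fun h => h
    | @cons x x' y h p ih =>
      intro h3
      apply ih
      intro e he
      exact hmix x' ⟨s(x, x'), h.1⟩ e (Sym2.mem_mk_right _ _) he (h3 _ (Sym2.mem_mk_left _ _))
  exact h2 (key _ _ p (fun e he => hmix _ e₁ e hx he h1) e₂ hy)

/-- Every face is a triangle. -/
theorem tri_face (hP : IsPlane s t l r) (hE : ∀ e : G.edgeSet, (e : Sym2 V) = s(s e, t e))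
    (hmax : ∀ G' : SimpleGraph V, G ≤ G' → Pln G' → G' = G)
    (hc : BDP.Conn G Set.univ) (hc2 : ∀ v, BDP.Conn G {v}ᶜ) (f : F) {e : G.edgeSet}
    (he : fc l r f e ≠ 0) :
    ∃ a b c, G.Adj a b ∧ G.Adj b c ∧ G.Adj a c ∧ ∀ e' : G.edgeSet, fc l r f e' ≠ 0 ↔
      (e' : Sym2 V) = s(a, b) ∨ (e' : Sym2 V) = s(b, c) ∨ (e' : Sym2 V) = s(a, c) := by
  -- every edge of `G` is an edge
  have hG : ∀ u v, G.Adj u v → ∃ e, Joins s t e u v := by
    intro u v huv
    refine ⟨⟨s(u, v), huv⟩, ?_⟩
    have h := hE ⟨s(u, v), huv⟩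
    rw [Sym2.eq_iff] at h
    rcases h with ⟨h1, h2⟩ | ⟨h1, h2⟩
    · exact Or.inl ⟨h1.symm, h2.symm⟩
    · exact Or.inr ⟨h2.symm, h1.symm⟩
  have hev : ∀ v, bd s t (fc l r f) v = 0 := fun v => hP.even (fun g => if g = f then 1 else 0) v
  have hAdj : ∀ (e : G.edgeSet) x y, (e : Sym2 V) = s(x, y) → G.Adj x y := by
    intro e x y h
    have := e.2
    rw [h] at this
    exact this
  -- the two edges `xy`, `yw` of the face give the edge `xw`
  have hadd : ∀ (e e' : G.edgeSet) x y w, (e : Sym2 V) = s(x, y) → (e' : Sym2 V) = s(y, w) →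
      x ≠ w → fc l r f e ≠ 0 → fc l r f e' ≠ 0 → G.Adj x w := by
    intro e e' x y w h1 h2 hxw h3 h4
    have hb : ∀ v, bd s t (sg e + sg e') v = (if x = v then 1 else 0) + (if w = v then 1 else 0) := by
      intro v
      rw [bd_add, bd_single, bd_single, ends_eq hE h1, ends_eq hE h2]
      have := z2self (if y = v then 1 else 0)
      linear_combination this
    have hPf : ∀ e'', (sg e + sg e') e'' ≠ 0 → fc l r f e'' ≠ 0 := by
      intro e'' h5
      by_cases h6 : e'' = e
      · rw [h6]; exact h3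
      · by_cases h7 : e'' = e'
        · rw [h7]; exact h4
        · rw [Pi.add_apply, sg_ne h6, sg_ne h7, add_zero] at h5
          exact absurd rfl h5
    have h5 := add_edge hP hG f _ hPf x w hb (G ⊔ SimpleGraph.fromEdgeSet {s(x, w)}) (by
      intro u v huv
      rw [SimpleGraph.sup_adj, SimpleGraph.fromEdgeSet_adj, Set.mem_singleton_iff,
        Sym2.eq_iff] at huv
      tauto)
    have h6 := hmax _ le_sup_left h5
    rw [← h6, SimpleGraph.sup_adj, SimpleGraph.fromEdgeSet_adj]
    exact Or.inr ⟨rfl, hxw⟩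
  -- even sets are cuts of sets without `f`
  have hdual : ∀ Y : G.edgeSet → ZMod 2, (∀ v, bd s t Y v = 0) →
      ∃ S : F → ZMod 2, S f = 0 ∧ cut l r S = Y := by
    intro Y hY
    obtain ⟨S, hS⟩ := hP.dual Y hY
    exact ⟨fun g => S g + S f, z2self _, by rw [cut_const, hS]⟩
  -- the side away from `f` of an edge of the face
  have hside : ∀ (S : F → ZMod 2), S f = 0 → ∀ e : G.edgeSet, fc l r f e ≠ 0 →
      (S (l e) = 0 ∧ S (r e) = cut l r S e) ∨ (S (r e) = 0 ∧ S (l e) = cut l r S e) := by
    intro S hS e he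
    rcases (fc_ne_zero_iff l r f e).1 he with ⟨h1, -⟩ | ⟨-, h1⟩
    · left
      rw [h1]
      refine ⟨hS, ?_⟩
      unfold cut
      rw [h1, hS, zero_add]
    · right
      rw [h1]
      refine ⟨hS, ?_⟩
      unfold cut
      rw [h1, hS, add_zero]
  -- the first three vertices
  obtain ⟨a, b, hab⟩ : ∃ a b, (e : Sym2 V) = s(a, b) := ⟨s e, t e, hE e⟩
  have hab' := hAdj e a b hab
  obtain ⟨e₁, he₁e, hbe₁, he₁⟩ := even_at hE (hev b) (e := e) (by rw [hab]; exact Sym2.mem_mk_right _ _) he
  obtain ⟨c, hbc⟩ := hbe₁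
  have hbc' := hAdj e₁ b c hbc
  have hac : a ≠ c := by
    rintro rfl
    apply he₁e
    apply Subtype.ext
    rw [hbc, hab, Sym2.eq_swap]
  have hac' := hadd e e₁ a b c hab hbc hac he he₁
  let e₂ : G.edgeSet := ⟨s(a, c), hac'⟩
  have he₂ : (e₂ : Sym2 V) = s(a, c) := rfl
  have hne01 : e ≠ e₁ := he₁e.symm
  have hne02 : e ≠ e₂ := by
    intro h
    have h1 : (e : Sym2 V) = e₂ := by rw [h]
    rw [hab, he₂, Sym2.eq_iff] at h1
    rcases h1 with ⟨-, h1⟩ | ⟨h1, -⟩
    · exact hbc'.ne h1
    · exact hac h1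
  have hne12 : e₁ ≠ e₂ := by
    intro h
    have h1 : (e₁ : Sym2 V) = e₂ := by rw [h]
    rw [hbc, he₂, Sym2.eq_iff] at h1
    rcases h1 with ⟨h1, -⟩ | ⟨h1, -⟩
    · exact hab'.ne h1.symm
    · exact hbc'.ne h1
  have hY1 : ∀ v, bd s t (sg e + sg e₁ + sg e₂) v = 0 := by
    intro v
    rw [bd_add, bd_add, bd_single, bd_single, bd_single, ends_eq hE hab, ends_eq hE hbc,
      ends_eq hE he₂]
    have h1 := z2self (if a = v then 1 else 0)
    have h2 := z2self (if b = v then 1 else 0)
    have h3 := z2self (if c = v then 1 else 0)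
    linear_combination h1 + h2 + h3
  have hY1' : ∀ e', e' ≠ e → e' ≠ e₁ → e' ≠ e₂ → (sg e + sg e₁ + sg e₂) e' = 0 := by
    intro e' h1 h2 h3
    rw [Pi.add_apply, Pi.add_apply, sg_ne h1, sg_ne h2, sg_ne h3]
    simp
  obtain ⟨S₁, hS₁f, hS₁⟩ := hdual _ hY1
  have hf₂ : fc l r f e₂ ≠ 0 := by
    intro hf₂
    obtain ⟨e₃, he₃e, hae₃, he₃⟩ := even_at hE (hev a) (e := e)
      (by rw [hab]; exact Sym2.mem_mk_left _ _) he
    obtain ⟨d, had⟩ := hae₃
    have had' := hAdj e₃ a d had
    have hdb : d ≠ b := by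
      rintro rfl
      apply he₃e
      apply Subtype.ext
      rw [had, hab]
    have hdc : d ≠ c := by
      rintro rfl
      apply he₃
      have h1 : e₃ = e₂ := Subtype.ext had
      rw [h1, hf₂]
    have hdb' : G.Adj d b := hadd e₃ e d a b (by rw [had, Sym2.eq_swap]) hab hdb he₃ he
    let e₄ : G.edgeSet := ⟨s(d, b), hdb'⟩
    have he₄ : (e₄ : Sym2 V) = s(d, b) := rfl
    have hY2 : ∀ v, bd s t (sg e + sg e₃ + sg e₄) v = 0 := by
      intro v
      rw [bd_add, bd_add, bd_single, bd_single, bd_single, ends_eq hE hab, ends_eq hE had,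
        ends_eq hE he₄]
      have h1 := z2self (if a = v then 1 else 0)
      have h2 := z2self (if b = v then 1 else 0)
      have h3 := z2self (if d = v then 1 else 0)
      linear_combination h1 + h2 + h3
    obtain ⟨S₂, hS₂f, hS₂⟩ := hdual _ hY2
    have hmem : ∀ (x y u v : V) (e e' : G.edgeSet), (e : Sym2 V) = s(x, y) →
        (e' : Sym2 V) = s(u, v) → e = e' → (x = u ∧ y = v) ∨ (x = v ∧ y = u) := by
      intro x y u v e e' h1 h2 h3
      rw [h3, h2, Sym2.eq_iff] at h1
      rcases h1 with ⟨h4, h5⟩ | ⟨h4, h5⟩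
      · exact Or.inl ⟨h4.symm, h5.symm⟩
      · exact Or.inr ⟨h5.symm, h4.symm⟩
    have hne03 : e ≠ e₃ := he₃e.symm
    have hne04 : e ≠ e₄ := by
      intro h
      rcases hmem _ _ _ _ _ _ hab he₄ h with ⟨h1, -⟩ | ⟨-, h1⟩
      · exact had'.ne h1
      · exact hdb h1.symm
    have hne13 : e₁ ≠ e₃ := by
      intro h
      rcases hmem _ _ _ _ _ _ hbc had h with ⟨h1, -⟩ | ⟨-, h1⟩
      · exact hab'.ne h1.symm
      · exact hac h1.symm
    have hne14 : e₁ ≠ e₄ := by
      intro h
      rcases hmem _ _ _ _ _ _ hbc he₄ h with ⟨h1, -⟩ | ⟨-, h1⟩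
      · exact hdb h1.symm
      · exact hdc h1.symm
    have hne23 : e₂ ≠ e₃ := by
      intro h
      rcases hmem _ _ _ _ _ _ he₂ had h with ⟨-, h1⟩ | ⟨h1, -⟩
      · exact hdc h1.symm
      · exact had'.ne h1
    have hne24 : e₂ ≠ e₄ := by
      intro h
      rcases hmem _ _ _ _ _ _ he₂ he₄ h with ⟨h1, -⟩ | ⟨h1, -⟩
      · exact had'.ne h1
      · exact hab'.ne h1
    have hY2' : ∀ e', e' ≠ e → e' ≠ e₃ → e' ≠ e₄ → (sg e + sg e₃ + sg e₄) e' = 0 := by
      intro e' h1 h2 h3
      rw [Pi.add_apply, Pi.add_apply, sg_ne h1, sg_ne h2, sg_ne h3]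
      simp
    -- the product
    have c0 : cut l r (fun g => S₁ g * S₂ g) e ≠ 0 := by
      have k1 : cut l r S₁ e = 1 := by
        rw [hS₁, Pi.add_apply, Pi.add_apply, sg_same, sg_ne hne01, sg_ne hne02]
        simp
      have k2 : cut l r S₂ e = 1 := by
        rw [hS₂, Pi.add_apply, Pi.add_apply, sg_same, sg_ne hne03, sg_ne hne04]
        simp
      unfold cut at k1 k2 ⊢
      rcases (fc_ne_zero_iff l r f e).1 he with ⟨h1, -⟩ | ⟨-, h1⟩
      · rw [h1, hS₁f, zero_add] at k1
        rw [h1, hS₂f, zero_add] at k2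
        simp [h1, hS₁f, k1, k2]
      · rw [h1, hS₁f, add_zero] at k1
        rw [h1, hS₂f, add_zero] at k2
        simp [h1, hS₁f, k1, k2]
    have c1 : cut l r (fun g => S₁ g * S₂ g) e₁ = 0 := by
      have k2 : cut l r S₂ e₁ = 0 := by
        rw [hS₂]
        exact hY2' _ he₁e hne13 hne14
      unfold cut
      rcases hside S₂ hS₂f e₁ he₁ with ⟨h1, h2⟩ | ⟨h1, h2⟩ <;> rw [k2] at h2 <;> simp [h1, h2]
    have c3 : cut l r (fun g => S₁ g * S₂ g) e₃ = 0 := by
      have k2 : cut l r S₁ e₃ = 0 := by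
        rw [hS₁]
        exact hY1' _ he₃e hne13.symm hne23.symm
      unfold cut
      rcases hside S₁ hS₁f e₃ he₃ with ⟨h1, h2⟩ | ⟨h1, h2⟩ <;> rw [k2] at h2 <;> simp [h1, h2]
    have c5 : ∀ e', e' ≠ e → e' ≠ e₁ → e' ≠ e₂ → e' ≠ e₃ → e' ≠ e₄ →
        cut l r (fun g => S₁ g * S₂ g) e' = 0 := by
      intro e' h0 h1 h2 h3 h4
      have k1 : cut l r S₁ e' = 0 := by rw [hS₁]; exact hY1' _ h0 h1 h2
      have k2 : cut l r S₂ e' = 0 := by rw [hS₂]; exact hY2' _ h0 h3 h4
      have k3 : S₁ (l e') = S₁ (r e') := by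
        have := z2self (S₁ (r e'))
        unfold cut at k1
        linear_combination k1 - this
      have k4 : S₂ (l e') = S₂ (r e') := by
        have := z2self (S₂ (r e'))
        unfold cut at k2
        linear_combination k2 - this
      simp only [cut]
      rw [k3, k4]
      exact z2self _
    have hnm : ∀ (e : G.edgeSet) (x y w : V), (e : Sym2 V) = s(x, y) → w ≠ x → w ≠ y →
        w ∉ (e : Sym2 V) := by
      intro e x y w h1 h2 h3 h4
      rw [h1, Sym2.mem_iff] at h4
      exact h4.elim h2 h3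
    obtain ⟨e', hn, hm, hz⟩ := even_at hE (hP.even (fun g => S₁ g * S₂ g) a) (e := e)
      (by rw [hab]; exact Sym2.mem_mk_left _ _) c0
    have hz2 : cut l r (fun g => S₁ g * S₂ g) e₂ ≠ 0 := by
      by_cases i2 : e' = e₂
      · rw [← i2]; exact hz
      · exfalso
        by_cases i1 : e' = e₁
        · rw [i1] at hz; exact hz c1
        · by_cases i3 : e' = e₃
          · rw [i3] at hz; exact hz c3
          · by_cases i4 : e' = e₄
            · rw [i4] at hm
              exact hnm e₄ d b a he₄ had'.ne hab'.ne hm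
            · exact hz (c5 e' hn i1 i2 i3 i4)
    obtain ⟨e'', hn2, hm2, hz3⟩ := even_at hE (hP.even (fun g => S₁ g * S₂ g) c) (e := e₂)
      (by rw [he₂]; exact Sym2.mem_mk_right _ _) hz2
    by_cases i0 : e'' = e
    · rw [i0] at hm2
      exact hnm e a b c hab hac.symm hbc'.ne' hm2
    · by_cases i1 : e'' = e₁
      · rw [i1] at hz3; exact hz3 c1
      · by_cases i3 : e'' = e₃
        · rw [i3] at hz3; exact hz3 c3
        · by_cases i4 : e'' = e₄
          · rw [i4] at hm2
            exact hnm e₄ d b c he₄ hdc.symm hbc'.ne' hm2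
          · exact hz3 (c5 e'' i0 i1 hn2 i3 i4)
  have hin : ∀ e', e' = e ∨ e' = e₁ ∨ e' = e₂ → fc l r f e' ≠ 0 := by
    rintro e' (rfl | rfl | rfl)
    · exact he
    · exact he₁
    · exact hf₂
  have hall : ∀ e', fc l r f e' ≠ 0 → e' = e ∨ e' = e₁ ∨ e' = e₂ := by
    intro e' he'
    by_contra hno
    push Not at hno
    obtain ⟨n0, n1, n2⟩ := hno
    obtain ⟨X, hX⟩ : ∃ X : G.edgeSet → Prop, ∀ e, X e ↔ (S₁ (l e) ≠ 0 ∨ S₁ (r e) ≠ 0) :=
      ⟨_, fun _ => Iff.rfl⟩
    refine sepE hE hc hc2 X ?_ (e₁ := e) (e₂ := e') ?_ ?_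
    · intro Y hY v
      obtain ⟨R, hRf, hR⟩ := hdual Y hY
      have h1 : (fun e => if X e then Y e else 0) =
          cut l r (fun g => R g * S₁ g) := by
        funext e''
        rcases z2 (S₁ (l e'')) with h1 | h1 <;> rcases z2 (S₁ (r e'')) with h2 | h2
        · rw [if_neg (fun h3 => ((hX _).1 h3).elim (fun h4 => h4 h1) (fun h4 => h4 h2))]
          simp [cut, h1, h2]
        · -- one side
          have h3 : cut l r S₁ e'' ≠ 0 := by
            unfold cut
            rw [h1, h2]
            simp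
          have h4 : e'' = e ∨ e'' = e₁ ∨ e'' = e₂ := by
            by_contra hno
            push Not at hno
            rw [hS₁] at h3
            exact h3 (hY1' _ hno.1 hno.2.1 hno.2.2)
          rw [if_pos ((hX _).2 (Or.inr (by rw [h2]; exact one_ne_zero))), ← hR]
          simp only [cut]
          rw [h1, h2]
          rcases (fc_ne_zero_iff l r f e'').1 (hin _ h4) with ⟨h5, -⟩ | ⟨-, h5⟩
          · rw [h5, hRf]
            ring
          · rw [h5, hS₁f] at h2
            exact absurd h2 zero_ne_one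
        · have h3 : cut l r S₁ e'' ≠ 0 := by
            unfold cut
            rw [h1, h2]
            simp
          have h4 : e'' = e ∨ e'' = e₁ ∨ e'' = e₂ := by
            by_contra hno
            push Not at hno
            rw [hS₁] at h3
            exact h3 (hY1' _ hno.1 hno.2.1 hno.2.2)
          rw [if_pos ((hX _).2 (Or.inl (by rw [h1]; exact one_ne_zero))), ← hR]
          simp only [cut]
          rw [h1, h2]
          rcases (fc_ne_zero_iff l r f e'').1 (hin _ h4) with ⟨h5, -⟩ | ⟨-, h5⟩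
          · rw [h5, hS₁f] at h1
            exact absurd h1 zero_ne_one
          · rw [h5, hRf]
            ring
        · rw [if_pos ((hX _).2 (Or.inl (by rw [h1]; exact one_ne_zero))), ← hR]
          simp only [cut]
          rw [h1, h2]
          ring
      rw [h1]
      exact hP.even _ v
    · have h1 : cut l r S₁ e = 1 := by
        rw [hS₁, Pi.add_apply, Pi.add_apply, sg_same, sg_ne hne01, sg_ne hne02]
        simp
      rw [hX]
      by_contra hno
      push Not at hno
      unfold cut at h1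
      rw [hno.1, hno.2, add_zero] at h1
      exact zero_ne_one h1
    · intro h1
      rw [hX] at h1
      have h2 : cut l r S₁ e' = 0 := by
        rw [hS₁]
        exact hY1' _ n0 n1 n2
      rcases hside S₁ hS₁f e' he' with ⟨h3, h4⟩ | ⟨h3, h4⟩
      · rw [h2] at h4
        exact h1.elim (fun h5 => h5 h3) (fun h5 => h5 h4)
      · rw [h2] at h4
        exact h1.elim (fun h5 => h5 h4) (fun h5 => h5 h3)
  refine ⟨a, b, c, hab', hbc', hac', fun e' => ⟨fun h => ?_, fun h => ?_⟩⟩
  · rcases hall e' h with rfl | rfl | rfl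
    · exact Or.inl hab
    · exact Or.inr (Or.inl hbc)
    · exact Or.inr (Or.inr rfl)
  · apply hin
    rcases h with h | h | h
    · exact Or.inl (Subtype.ext (h.trans hab.symm))
    · exact Or.inr (Or.inl (Subtype.ext (h.trans hbc.symm)))
    · exact Or.inr (Or.inr (Subtype.ext h))

end DS
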