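import Pool.Agent.Work.MP_0890ba_co.DS.Euler
import Pool.Agent.Work.MP_0890ba_co.DS.TriA
import Pool.Agent.Work.MP_0890ba_co.DS.Cyc

/-!
# The link of a vertex of an edge-maximal planar graph
-/

set_option linter.unusedSectionVars false

namespace DS

open Finset Classical TrA

namespace TrB

variable {V F : Type} [Fintype V] {G : SimpleGraph V} [Fintype F] {s t : G.edgeSet → V}
  {l r : G.edgeSet → F}

theorem exists_nb (hn : 4 ≤ Fintype.card V) (hc : BDP.Conn G Set.univ) (v : V) :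
    ∃ u, G.Adj v u := by
  have : Nontrivial V := Fintype.one_lt_card_iff_nontrivial.1 (by omega)
  obtain ⟨y, hy⟩ := exists_ne v
  obtain ⟨p⟩ := hc v (Set.mem_univ _) y (Set.mem_univ _)
  cases p with
  | nil => exact absurd rfl hy
  | cons h p => exact ⟨_, h.1⟩

/-- A vertex outside three given ones. -/
theorem exists_out (hn : 4 ≤ Fintype.card V) (a b c : V) : ∃ d, d ≠ a ∧ d ≠ b ∧ d ≠ c := by
  by_contra hno
  push Not at hno
  have h1 : (Finset.univ : Finset V) ⊆ {a, b, c} := by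
    intro d _
    simp only [Finset.mem_insert, Finset.mem_singleton]
    by_contra h
    push Not at h
    exact h.2.2 (hno d h.1 h.2.1)
  have h2 := Finset.card_le_card h1
  have h3 : ({a, b, c} : Finset V).card ≤ 3 := Finset.card_le_three
  rw [Finset.card_univ] at h2
  omega

/-- The two sides of an edge are different. -/
theorem sides_ne (hP : IsPlane s t l r) (hE : ∀ e : G.edgeSet, (e : Sym2 V) = s(s e, t e))
    (hn : 4 ≤ Fintype.card V) (hc : BDP.Conn G Set.univ) (hc2 : ∀ v, BDP.Conn G {v}ᶜ)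
    (e : G.edgeSet) : l e ≠ r e := by
  intro hlr
  obtain ⟨d, h1, h2, -⟩ := exists_out hn (s e) (t e) (t e)
  obtain ⟨u, hu⟩ := exists_nb hn hc d
  obtain ⟨X, hX⟩ : ∃ X : G.edgeSet → Prop, ∀ e', X e' ↔ e' = e := ⟨fun e' => e' = e, fun _ => Iff.rfl⟩
  refine sepE hE hc hc2 X ?_ (e₁ := e) (e₂ := ⟨s(d, u), hu⟩) ((hX _).2 rfl) ?_
  · intro Y hY v
    obtain ⟨S, hS⟩ := hP.dual Y hY
    have h3 : Y e = 0 := by
      rw [← hS]
      unfold cut
      rw [hlr]
      exact z2self _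
    have h4 : (fun e' => if X e' then Y e' else 0) = 0 := by
      funext e'
      by_cases h : X e'
      · rw [if_pos h, (hX _).1 h, h3]; rfl
      · rw [if_neg h]; rfl
    rw [h4, TrA.bd_zero]
  · intro h3
    rw [hX] at h3
    have h4 : s(d, u) = s(s e, t e) := by rw [← hE e, ← h3]
    rw [Sym2.eq_iff] at h4
    rcases h4 with ⟨h5, -⟩ | ⟨h5, -⟩
    · exact h1 h5
    · exact h2 h5

theorem face_inj (hP : IsPlane s t l r) (hE : ∀ e : G.edgeSet, (e : Sym2 V) = s(s e, t e))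
    (hn : 4 ≤ Fintype.card V) (hc : BDP.Conn G Set.univ) (hc2 : ∀ v, BDP.Conn G {v}ᶜ)
    {f f' : F} {a b c : V} (hab : G.Adj a b)
    (h1 : ∀ e' : G.edgeSet, fc l r f e' ≠ 0 ↔
      (e' : Sym2 V) = s(a, b) ∨ (e' : Sym2 V) = s(b, c) ∨ (e' : Sym2 V) = s(a, c))
    (h2 : ∀ e' : G.edgeSet, fc l r f' e' ≠ 0 ↔
      (e' : Sym2 V) = s(a, b) ∨ (e' : Sym2 V) = s(b, c) ∨ (e' : Sym2 V) = s(a, c)) : f = f' := by
  by_contra hff
  obtain ⟨d, hda, hdb, hdc⟩ := exists_out hn a b c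
  obtain ⟨u, hu⟩ := exists_nb hn hc d
  have h12 : ∀ e, fc l r f e ≠ 0 ↔ fc l r f' e ≠ 0 := fun e => (h1 e).trans (h2 e).symm
  obtain ⟨X, hX⟩ : ∃ X : G.edgeSet → Prop, ∀ e, X e ↔ fc l r f e ≠ 0 :=
    ⟨fun e => fc l r f e ≠ 0, fun _ => Iff.rfl⟩
  obtain ⟨Z, hZ⟩ : ∃ Z : F → Prop, ∀ g, Z g ↔ (g = f ∨ g = f') :=
    ⟨fun g => g = f ∨ g = f', fun _ => Iff.rfl⟩
  refine sepE hE hc hc2 X ?_ (e₁ := ⟨s(a, b), hab⟩) (e₂ := ⟨s(d, u), hu⟩)
    ((hX _).2 ((h1 _).2 (Or.inl rfl))) ?_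
  · intro Y hY v
    obtain ⟨S, hS⟩ := hP.dual Y hY
    have h4 : (fun e => if X e then Y e else 0) =
        cut l r (fun g => if Z g then S g else 0) := by
      funext e
      simp only [cut]
      have hlr := sides_ne hP hE hn hc hc2 e
      by_cases h : X e
      · rw [if_pos h, ← hS]
        have h0 := (hX e).1 h
        have h' := (h12 e).1 h0
        rw [fc_ne_zero_iff] at h0 h'
        have h35 : (l e = f ∨ l e = f') ∧ (r e = f ∨ r e = f') := by
          rcases h0 with ⟨g1, g2⟩ | ⟨g1, g2⟩ <;> rcases h' with ⟨g3, g4⟩ | ⟨g3, g4⟩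
          · exact absurd (g1.symm.trans g3) hff
          · exact ⟨Or.inl g1, Or.inr g4⟩
          · exact ⟨Or.inr g3, Or.inl g2⟩
          · exact absurd (g2.symm.trans g4) hff
        rw [if_pos ((hZ _).2 h35.1), if_pos ((hZ _).2 h35.2)]
        rfl
      · rw [if_neg h]
        rw [hX] at h
        have h' : ¬ fc l r f' e ≠ 0 := fun h' => h ((h12 e).2 h')
        rw [fc_ne_zero_iff] at h h'
        have h3 : ¬ Z (l e) := by
          rw [hZ]
          rintro (g | g)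
          · exact h (Or.inl ⟨g, fun g' => hlr (g.trans g'.symm)⟩)
          · exact h' (Or.inl ⟨g, fun g' => hlr (g.trans g'.symm)⟩)
        have h5 : ¬ Z (r e) := by
          rw [hZ]
          rintro (g | g)
          · exact h (Or.inr ⟨fun g' => hlr (g'.trans g.symm), g⟩)
          · exact h' (Or.inr ⟨fun g' => hlr (g'.trans g.symm), g⟩)
        rw [if_neg h3, if_neg h5, add_zero]
    rw [h4]
    exact hP.even _ v
  · intro h3
    rcases (h1 _).1 ((hX _).1 h3) with h4 | h4 | h4 <;> rw [Sym2.eq_iff] at h4 <;>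
      rcases h4 with ⟨h5, -⟩ | ⟨h5, -⟩
    · exact hda h5
    · exact hdb h5
    · exact hdb h5
    · exact hdc h5
    · exact hda h5
    · exact hdc h5

/-- The triangle of a face at the edge `vx`. -/
theorem tri_at (hP : IsPlane s t l r) (hE : ∀ e : G.edgeSet, (e : Sym2 V) = s(s e, t e))
    (hmax : ∀ G' : SimpleGraph V, G ≤ G' → Pln G' → G' = G)
    (hc : BDP.Conn G Set.univ) (hc2 : ∀ v, BDP.Conn G {v}ᶜ) (f : F) {v x : V} (hx : G.Adj v x)
    (he : fc l r f ⟨s(v, x), hx⟩ ≠ 0) :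
    ∃ y, G.Adj v y ∧ G.Adj x y ∧ ∀ e' : G.edgeSet, fc l r f e' ≠ 0 ↔
      (e' : Sym2 V) = s(v, x) ∨ (e' : Sym2 V) = s(x, y) ∨ (e' : Sym2 V) = s(v, y) := by
  obtain ⟨a, b, c, hab, hbc, hac, h⟩ := tri_face hP hE hmax hc hc2 f he
  rcases (h _).1 he with h1 | h1 | h1 <;> rw [Sym2.eq_iff] at h1 <;>
    rcases h1 with ⟨rfl, rfl⟩ | ⟨rfl, rfl⟩
  · exact ⟨c, hac, hbc, h⟩
  · refine ⟨c, hbc, hac, fun e' => (h e').trans ?_⟩
    rw [Sym2.eq_swap (a := x) (b := v)]
    tauto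
  · refine ⟨a, hab.symm, hac.symm, fun e' => (h e').trans ?_⟩
    rw [Sym2.eq_swap (a := a) (b := v), Sym2.eq_swap (a := a) (b := x)]
    tauto
  · refine ⟨a, hac.symm, hab.symm, fun e' => (h e').trans ?_⟩
    rw [Sym2.eq_swap (a := a) (b := x), Sym2.eq_swap (a := x) (b := v),
      Sym2.eq_swap (a := a) (b := v)]
    tauto
  · refine ⟨b, hab, hbc.symm, fun e' => (h e').trans ?_⟩
    rw [Sym2.eq_swap (a := b) (b := x)]
    tauto
  · refine ⟨b, hbc.symm, hab, fun e' => (h e').trans ?_⟩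
    rw [Sym2.eq_swap (a := b) (b := v), Sym2.eq_swap (a := x) (b := v)]
    tauto

end TrB

variable {V : Type}

theorem exists_link [Fintype V] {G : SimpleGraph V} (h : Pln G)
    (hmax : ∀ G' : SimpleGraph V, G ≤ G' → Pln G' → G' = G) (hn : 4 ≤ Fintype.card V)
    (hc : BDP.Conn G Set.univ) (hc2 : ∀ v, BDP.Conn G {v}ᶜ) (v : V) :
    ∃ (k : ℕ) (w : ZMod k → V), Link G v k w := by
  obtain ⟨F, _, s, t, l, r, hP, hE⟩ := h.simple
  let X := {x // G.Adj v x}
  let ve : X → G.edgeSet := fun x => ⟨s(v, x.1), x.2⟩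
  let R : X → X → Prop := fun x y => x ≠ y ∧ ∃ f, fc l r f (ve x) ≠ 0 ∧ fc l r f (ve y) ≠ 0
  have hne : Nonempty X := by
    obtain ⟨u, hu⟩ := TrB.exists_nb hn hc v
    exact ⟨⟨u, hu⟩⟩
  -- the other edge of a face at `v`
  have htri : ∀ (f : F) (x : X), fc l r f (ve x) ≠ 0 → ∃ y : X, y ≠ x ∧ G.Adj x.1 y.1 ∧
      fc l r f (ve y) ≠ 0 ∧ (∀ u : X, fc l r f (ve u) ≠ 0 → u = x ∨ u = y) ∧
      ∀ e' : G.edgeSet, fc l r f e' ≠ 0 ↔
      (e' : Sym2 V) = s(v, x.1) ∨ (e' : Sym2 V) = s(x.1, y.1) ∨ (e' : Sym2 V) = s(v, y.1) := by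
    intro f x hx
    obtain ⟨y, hvy, hxy, hall⟩ := TrB.tri_at hP hE hmax hc hc2 f x.2 hx
    refine ⟨⟨y, hvy⟩, ?_, hxy, (hall _).2 (Or.inr (Or.inr rfl)), ?_, hall⟩
    · intro h1
      have h2 : y = x.1 := congrArg Subtype.val h1
      rw [h2] at hxy
      exact hxy.ne rfl
    · intro u hu
      rcases (hall _).1 hu with h1 | h1 | h1 <;> change s(v, u.1) = _ at h1 <;>
        rw [Sym2.eq_iff] at h1
      · left
        rcases h1 with ⟨-, h2⟩ | ⟨h2, -⟩
        · exact Subtype.ext h2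
        · exact absurd h2 x.2.ne
      · exfalso
        rcases h1 with ⟨h2, -⟩ | ⟨h2, -⟩
        · exact x.2.ne h2
        · exact hvy.ne h2
      · right
        rcases h1 with ⟨-, h2⟩ | ⟨h2, -⟩
        · exact Subtype.ext h2
        · exact absurd h2 hvy.ne
  have hlr := TrB.sides_ne hP hE hn hc hc2
  have hRs : ∀ x y, R x y → R y x := fun x y ⟨h1, f, h2, h3⟩ => ⟨h1.symm, f, h3, h2⟩
  have hRi : ∀ x, ¬R x x := fun x h => h.1 rfl
  have hRadj : ∀ x y, R x y → G.Adj x.1 y.1 := by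
    rintro x y ⟨hxy, f, h1, h2⟩
    obtain ⟨y', -, h3, -, h4, -⟩ := htri f x h1
    rcases h4 y h2 with h5 | h5
    · exact absurd h5.symm hxy
    · rw [h5]; exact h3
  have h2 : ∀ x, ∃ y z, y ≠ z ∧ R x y ∧ R x z ∧ ∀ u, R x u → u = y ∨ u = z := by
    intro x
    have hl : fc l r (l (ve x)) (ve x) ≠ 0 :=
      (fc_ne_zero_iff _ _ _ _).2 (Or.inl ⟨rfl, (hlr _).symm⟩)
    have hr : fc l r (r (ve x)) (ve x) ≠ 0 :=
      (fc_ne_zero_iff _ _ _ _).2 (Or.inr ⟨hlr _, rfl⟩)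
    obtain ⟨y, hy1, hy2, hy3, hy4, hy5⟩ := htri _ x hl
    obtain ⟨z, hz1, hz2, hz3, hz4, hz5⟩ := htri _ x hr
    refine ⟨y, z, ?_, ⟨hy1.symm, _, hl, hy3⟩, ⟨hz1.symm, _, hr, hz3⟩, ?_⟩
    · rintro rfl
      exact hlr _ (TrB.face_inj hP hE hn hc hc2 x.2 hy5 hz5)
    · rintro u ⟨hu, f, hf1, hf2⟩
      rcases (fc_ne_zero_iff _ _ _ _).1 hf1 with ⟨h3, -⟩ | ⟨-, h3⟩
      · rw [← h3] at hf2
        rcases hy4 u hf2 with h4 | h4
        · exact absurd h4.symm hu
        · exact Or.inl h4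
      · rw [← h3] at hf2
        rcases hz4 u hf2 with h4 | h4
        · exact absurd h4.symm hu
        · exact Or.inr h4
  have hconn : ∀ x y, Relation.ReflTransGen R x y := by
    intro x y
    by_contra hxy
    have hne : x ≠ y := by
      rintro rfl
      exact hxy Relation.ReflTransGen.refl
    obtain ⟨P, hP1, hP2⟩ := chain_avoid hE (hc2 v) x.2.ne' y.2.ne'
    have hbd : ∀ w, bd s t (sg (ve x) + sg (ve y) + P) w = 0 := by
      intro w
      rw [TrA.bd_add, TrA.bd_add, TrA.bd_single, TrA.bd_single,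
        ends_eq hE (show ((ve x : G.edgeSet) : Sym2 V) = s(v, x.1) from rfl),
        ends_eq hE (show ((ve y : G.edgeSet) : Sym2 V) = s(v, y.1) from rfl), hP1]
      have h3 := z2self (if v = w then 1 else 0)
      have h4 := z2self (if x.1 = w then 1 else 0)
      have h5 := z2self (if y.1 = w then 1 else 0)
      linear_combination h3 + h4 + h5
    obtain ⟨S, hS⟩ := hP.dual _ hbd
    have hve : ∀ a b : X, ve a = ve b → a = b := by
      intro a b hab
      have h3 : s(v, a.1) = s(v, b.1) := congrArg Subtype.val hab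
      rw [Sym2.eq_iff] at h3
      rcases h3 with ⟨-, h4⟩ | ⟨h4, -⟩
      · exact Subtype.ext h4
      · exact absurd h4 b.2.ne
    have hPv : ∀ a : X, P (ve a) = 0 := fun a => hP2 _ (Sym2.mem_mk_left _ _)
    let A : Finset X := Finset.univ.filter fun a => Relation.ReflTransGen R x a
    have hxA : x ∈ A := Finset.mem_filter.2 ⟨Finset.mem_univ _, Relation.ReflTransGen.refl⟩
    have hsum1 : ∑ a ∈ A, cut l r S (ve a) = 1 := by
      rw [hS, Finset.sum_eq_single_of_mem x hxA]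
      · rw [Pi.add_apply, Pi.add_apply, sg_same, sg_ne (fun h3 => hne (hve _ _ h3)), hPv]
        simp
      · intro a ha hax
        have hay : a ≠ y := by
          rintro rfl
          exact hxy (Finset.mem_filter.1 ha).2
        rw [Pi.add_apply, Pi.add_apply, sg_ne (fun h3 => hax (hve _ _ h3)),
          sg_ne (fun h3 => hay (hve _ _ h3)), hPv]
        simp
    have hsum0 : ∑ a ∈ A, cut l r S (ve a) = 0 := by
      have h3 : ∑ a ∈ A, cut l r S (ve a) = ∑ a ∈ A, ∑ f, S f * fc l r f (ve a) :=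
        Finset.sum_congr rfl fun a _ => cut_eq_sum l r S (ve a)
      rw [h3, Finset.sum_comm]
      apply Finset.sum_eq_zero
      intro f _
      rw [← Finset.mul_sum]
      have h4 : ∑ a ∈ A, fc l r f (ve a) = 0 := by
        by_cases h5 : ∃ a ∈ A, fc l r f (ve a) ≠ 0
        · obtain ⟨a, ha, h6⟩ := h5
          obtain ⟨b, hb1, -, hb3, hb4, -⟩ := htri f a h6
          have hbA : b ∈ A := by
            rw [Finset.mem_filter] at ha ⊢
            exact ⟨Finset.mem_univ _, ha.2.tail ⟨hb1.symm, f, h6, hb3⟩⟩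
          rw [Finset.sum_eq_add_of_mem a b ha hbA hb1.symm]
          · rw [(z2 (fc l r f (ve a))).resolve_left h6, (z2 (fc l r f (ve b))).resolve_left hb3]
            exact z2self 1
          · intro c _ hc3
            by_contra h7
            rcases hb4 c h7 with h8 | h8
            · exact hc3.1 h8
            · exact hc3.2 h8
        · push Not at h5
          exact Finset.sum_eq_zero h5
      rw [h4, mul_zero]
    rw [hsum1] at hsum0
    exact one_ne_zero hsum0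
  obtain ⟨k, hk, w, hw, hRw⟩ := exists_cyc R hRs hRi h2 hconn
  refine ⟨k, fun i => (w i).1, hk, Subtype.val_injective.comp hw.1, ?_, fun i => hRadj _ _ (hRw i)⟩
  intro u
  constructor
  · intro hu
    obtain ⟨i, hi⟩ := hw.2 ⟨u, hu⟩
    exact ⟨i, by rw [hi]⟩
  · rintro ⟨i, rfl⟩
    exact (w i).2

end DS
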