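import Pool.Agent.Work.MP_0890ba_co.DS.Arcs3
import Pool.Agent.Work.MP_0890ba_co.DS.Arcs4
import Pool.Agent.Work.MP_0890ba_co.DS.K5
import Pool.Agent.Work.MP_0890ba_co.DS.MinB
import Pool.Agent.Work.MP_0890ba_co.DS.Tri

/-!
# Minimal counterexamples have no small separating sets

(S1) links have no chords, (S2) two vertices which are adjacent to `z` and have a common neighbour
outside are adjacent.
-/

set_option linter.unusedSectionVars false

namespace DS

open BDP A4 Finset Classical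

variable {V : Type}

namespace Sp

variable {G : SimpleGraph V} {z : V}

/-- The graph on `S` with the additional edge `a b`. -/
def addG (G : SimpleGraph V) (S : Set V) (a b : V) (hab : a ≠ b) : SimpleGraph S where
  Adj u v := G.Adj u v ∨ ((u : V) = a ∧ (v : V) = b) ∨ ((u : V) = b ∧ (v : V) = a)
  symm := ⟨fun u v h => by
    rcases h with h | h | h
    · exact Or.inl h.symm
    · exact Or.inr (Or.inr ⟨h.2, h.1⟩)
    · exact Or.inr (Or.inl ⟨h.2, h.1⟩)⟩
  loopless := ⟨fun u h => by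
    rcases h with h | h | h
    · exact G.loopless.irrefl _ h
    · exact hab (h.1.symm.trans h.2)
    · exact hab (h.2.symm.trans h.1)⟩

/-- The additional edge is allowed when there is a connection outside. -/
theorem pln_add [Fintype V] (h : Pln G) (S : Set V) {a b : V} (hab : a ≠ b)
    (K : Set V) (hK : Conn G K) (hKS : ∀ u ∈ K, u ∉ S) {a' b' : V} (ha' : a' ∈ K) (hb' : b' ∈ K)
    (h1 : G.Adj a a') (h2 : G.Adj b b') : Pln (addG G S a b hab) := by
  have hself : ∀ w : S, (w : V) ∈ (if (w : V) = b then insert b K else {(w : V)} : Set V) := by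
    intro w
    by_cases hw : (w : V) = b
    · rw [if_pos hw, hw]
      exact Set.mem_insert _ _
    · rw [if_neg hw]
      rfl
  refine h.minor (fun w => if (w : V) = b then insert b K else {(w : V)}) (fun w => ?_)
    (fun w w' hww => ?_) (fun w w' ha => ?_)
  · by_cases hw : (w : V) = b
    · simp only [if_pos hw]
      exact conn_ins hK hb' h2
    · simp only [if_neg hw]
      exact conn_sing G _
  · have hne : (w : V) ≠ w' := fun h => hww (Subtype.ext h)
    by_cases hw : (w : V) = b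
    · have hw' : (w' : V) ≠ b := fun h => hne (hw.trans h.symm)
      simp only [if_pos hw, if_neg hw']
      rw [Set.disjoint_singleton_right]
      rintro (h | h)
      · exact hw' h
      · exact hKS _ h w'.2
    · simp only [if_neg hw]
      rw [Set.disjoint_singleton_left]
      by_cases hw' : (w' : V) = b
      · rw [if_pos hw']
        rintro (h | h)
        · exact hw h
        · exact hKS _ h w.2
      · rw [if_neg hw']
        exact hne
  · rcases ha with ha | ⟨ha, hb2⟩ | ⟨hb2, ha⟩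
    · exact ⟨w, hself w, w', hself w', ha⟩
    · refine ⟨w, hself w, a', ?_, ?_⟩
      · simp only [if_pos hb2]
        exact Or.inr ha'
      · rw [ha]
        exact h1
    · refine ⟨a', ?_, w', hself w', ?_⟩
      · simp only [if_pos hb2]
        exact Or.inr ha'
      · rw [ha]
        exact h1.symm

/-- A law on a proper part of the graph. -/
theorem side [Fintype V] (hm : Min G z) (S : Set V) (hz : z ∈ S) (hS : ∃ u, u ∉ S)
    (H : SimpleGraph S) (hH : Pln H) (hGH : ∀ u v : S, G.Adj u v → H.Adj u v)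
    (hzz : ∀ u : S, H.Adj ⟨z, hz⟩ u → G.Adj z u) :
    ∃ μ, IsLaw G {v | v ∈ S ∧ v ≠ z} μ ∧ (∀ v ∈ S, v ≠ z → marg μ v = need G z v) ∧
      ∀ u v : S, (u : V) ≠ z → (v : V) ≠ z → H.Adj u v → ∀ I, μ I ≠ 0 → (u : V) ∈ I →
        (v : V) ∉ I := by
  have hK : ∀ (w : S) (u : V), u ∈ (if (w : V) = z then ∅ else {(w : V)} : Finset V) ↔
      u = w ∧ u ≠ z := by
    intro w u
    by_cases hw : (w : V) = z
    · rw [if_pos hw]
      constructor
      · intro h
        exact absurd h (Finset.notMem_empty _)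
      · rintro ⟨h1, h2⟩
        exact absurd (h1.trans hw) h2
    · rw [if_neg hw, Finset.mem_singleton]
      constructor
      · rintro rfl
        exact ⟨rfl, hw⟩
      · exact fun h => h.1
  have hcard : Fintype.card S < Fintype.card V := by
    obtain ⟨u, hu⟩ := hS
    exact Fintype.card_subtype_lt (x := u) hu
  obtain ⟨μ, h1, h2, -, -, h5⟩ := hm.use H ⟨z, hz⟩ hcard hH
    (fun w => if (w : V) = z then ∅ else {(w : V)}) (if_pos rfl) (fun w w' hww => by
      rw [Finset.disjoint_left]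
      intro u hu hu'
      rw [hK] at hu hu'
      exact hww (Subtype.ext (hu.1.symm.trans hu'.1))) (fun w u hu v hv h => by
      rw [hK] at hu hv
      rw [hu.1, hv.1] at h
      exact G.loopless.irrefl _ h) (fun w w' _ u hu v hv h => by
      rw [hK] at hu hv
      rw [hu.1, hv.1] at h
      exact hGH _ _ h)
  refine ⟨μ, ?_, fun v hv hvz => ?_, fun u v hu hv h I hI huI => ?_⟩
  · have : {v : V | v ∈ S ∧ v ≠ z} =
        {v | ∃ w : S, v ∈ (if (w : V) = z then ∅ else {(w : V)} : Finset V)} := by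
      ext v
      simp only [Set.mem_ofPred_eq, hK]
      constructor
      · rintro ⟨hv, hvz⟩
        exact ⟨⟨v, hv⟩, rfl, hvz⟩
      · rintro ⟨w, rfl, hvz⟩
        exact ⟨w.2, hvz⟩
    rw [this]
    exact h1
  · rw [h2 ⟨v, hv⟩ (fun h => hvz (congrArg Subtype.val h)) v ((hK _ _).2 ⟨rfl, hvz⟩)]
    unfold need
    by_cases h : G.Adj z v
    · rw [if_pos h, if_pos (hGH ⟨z, hz⟩ ⟨v, hv⟩ h)]
    · rw [if_neg h, if_neg (fun h' => h (hzz _ h'))]
  · exact h5 u v h u ((hK _ _).2 ⟨rfl, hu⟩) v ((hK _ _).2 ⟨rfl, hv⟩) I hI huI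

/-- The whole graph cannot be glued from two proper parts. -/
theorem no_glue [Fintype V] (hm : Min G z) (A B : Set V) (hzA : z ∈ A) (hzB : z ∈ B)
    (hA : ∃ u, u ∉ A) (hB : ∃ u, u ∉ B) (hu : ∀ v, v ∈ A ∨ v ∈ B)
    (hAB : ∀ u, u ∉ B → ∀ v, v ∉ A → ¬G.Adj u v)
    (HA : SimpleGraph A) (hpA : Pln HA) (hgA : ∀ u v : A, G.Adj u v → HA.Adj u v)
    (hzA' : ∀ u : A, HA.Adj ⟨z, hzA⟩ u → G.Adj z u)
    (hcA : ∀ u v : A, (u : V) ∈ B → (v : V) ∈ B → u ≠ v → (u : V) ≠ z → (v : V) ≠ z → HA.Adj u v)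
    (HB : SimpleGraph B) (hpB : Pln HB) (hgB : ∀ u v : B, G.Adj u v → HB.Adj u v)
    (hzB' : ∀ u : B, HB.Adj ⟨z, hzB⟩ u → G.Adj z u)
    (hcB : ∀ u v : B, (u : V) ∈ A → (v : V) ∈ A → u ≠ v → (u : V) ≠ z → (v : V) ≠ z → HB.Adj u v) :
    False := by
  obtain ⟨μ, m1, m2, m3⟩ := side hm A hzA hA HA hpA hgA hzA'
  obtain ⟨ν, n1, n2, n3⟩ := side hm B hzB hB HB hpB hgB hzB'
  obtain ⟨ρ, r1, r2, r3⟩ := glue_clique m1 n1 (fun u hu v hv => hAB u (fun h => hu.2 ⟨h, hu.1.2⟩) v
    (fun h => hv.2 ⟨h, hv.1.2⟩)) (fun I hI u hu v hv huv huI =>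
      m3 ⟨u, hu.1.1⟩ ⟨v, hv.1.1⟩ hu.1.2 hv.1.2 (hcA ⟨u, hu.1.1⟩ ⟨v, hv.1.1⟩ hu.2.1 hv.2.1
        (fun h => huv (congrArg Subtype.val h)) hu.1.2 hv.1.2) I hI huI)
    (fun I hI u hu v hv huv huI =>
      n3 ⟨u, hu.2.1⟩ ⟨v, hv.2.1⟩ hu.1.2 hv.1.2 (hcB ⟨u, hu.2.1⟩ ⟨v, hv.2.1⟩ hu.1.1 hv.1.1
        (fun h => huv (congrArg Subtype.val h)) hu.1.2 hv.1.2) I hI huI)
    (fun v hv => by rw [m2 v hv.1.1 hv.1.2, n2 v hv.2.1 hv.2.2])
  refine hm.bad ⟨ρ, ?_, fun v hv => ?_⟩
  · have : ({z}ᶜ : Set V) = {v | v ∈ A ∧ v ≠ z} ∪ {v | v ∈ B ∧ v ≠ z} := by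
      ext v
      simp only [Set.mem_compl_iff, Set.mem_singleton_iff, Set.mem_union, Set.mem_ofPred_eq]
      constructor
      · intro h
        rcases hu v with h1 | h1
        · exact Or.inl ⟨h1, h⟩
        · exact Or.inr ⟨h1, h⟩
      · rintro (h | h)
        · exact h.2
        · exact h.2
    rw [this]
    exact r1
  · rcases hu v with h1 | h1
    · rw [r2 v ⟨h1, hv⟩, m2 v h1 hv]
    · rw [r3 v ⟨h1, hv⟩, n2 v h1 hv]

/-- The difference of two indices. -/
theorem exists_step {k : ℕ} (hk : 3 ≤ k) {i j : ZMod k} (h0 : i ≠ j) (h1 : j ≠ i + 1)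
    (h2 : i ≠ j + 1) : ∃ m : ℕ, 2 ≤ m ∧ m + 2 ≤ k ∧ j = i + m := by
  have : NeZero k := ⟨by omega⟩
  have hj : j = i + ((j - i).val : ZMod k) := by
    rw [ZMod.natCast_zmod_val]
    ring
  have hlt : (j - i).val < k := ZMod.val_lt _
  refine ⟨(j - i).val, ?_, ?_, hj⟩
  · by_contra hlt2
    have h3 : (j - i).val = 0 ∨ (j - i).val = 1 := by omega
    rcases h3 with h3 | h3
    · rw [h3] at hj
      exact h0 (by rw [hj]; simp)
    · rw [h3] at hj
      exact h1 (by rw [hj]; simp)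
  · by_contra hlt2
    have h3 : (j - i).val + 1 = k := by omega
    have h4 : (((j - i).val + 1 : ℕ) : ZMod k) = 0 := by
      rw [h3]
      exact ZMod.natCast_self k
    apply h2
    rw [hj, add_assoc]
    push_cast at h4
    rw [h4, add_zero]

theorem two_ne {k : ℕ} (hk : 3 ≤ k) : (2 : ZMod k) ≠ 0 := by
  intro h
  have h2 : ((2 : ℕ) : ZMod k) = ((0 : ℕ) : ZMod k) := by
    push_cast
    exact h
  have := cast_inj (k := k) (by omega) (by omega) h2
  omega

/-- If all neighbours of `z` are in a triangle which contains `v`, and `z` is in the link of `v`. -/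
theorem tri_end [Fintype V] {v : V} {k : ℕ} {w : ZMod k → V} (hw : Link G v k w) {i j l : ZMod k}
    (hij : i ≠ j) (hl : w l = z) (hN : ∀ u, G.Adj z u → u = v ∨ u = w i ∨ u = w j) :
    dg G z = 3 ∧ G.Adj z v ∧ G.Adj z (w i) ∧ G.Adj z (w j) := by
  have hnb : ∀ j, G.Adj v (w j) := fun j => (hw.nb _).2 ⟨j, rfl⟩
  have hne : ∀ j, w j ≠ v := fun j h => (hnb j).ne h.symm
  have hzv : G.Adj z v := by
    rw [← hl]
    exact (hnb l).symm
  have h1 : G.Adj z (w (l + 1)) := by
    rw [← hl]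
    exact hw.adj l
  have h2 : G.Adj z (w (l - 1)) := by
    rw [← hl]
    have := hw.adj (l - 1)
    rw [sub_add_cancel] at this
    exact this.symm
  have h3 : l + 1 ≠ l - 1 := by
    intro h
    apply two_ne hw.three
    calc (2 : ZMod k) = (l + 1) - (l - 1) := by ring
      _ = 0 := by rw [h, sub_self]
  have h4 : l + 1 = i ∨ l + 1 = j := by
    rcases hN _ h1 with h | h | h
    · exact absurd h (hne _)
    · exact Or.inl (hw.inj h)
    · exact Or.inr (hw.inj h)
  have h5 : l - 1 = i ∨ l - 1 = j := by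
    rcases hN _ h2 with h | h | h
    · exact absurd h (hne _)
    · exact Or.inl (hw.inj h)
    · exact Or.inr (hw.inj h)
  have h6 : G.Adj z (w i) ∧ G.Adj z (w j) := by
    rcases h4 with h4 | h4 <;> rcases h5 with h5 | h5
    · exact absurd (h4.trans h5.symm) h3
    · rw [← h4, ← h5]
      exact ⟨h1, h2⟩
    · rw [← h4, ← h5]
      exact ⟨h2, h1⟩
    · exact absurd (h4.trans h5.symm) h3
  refine ⟨?_, hzv, h6.1, h6.2⟩
  have h7 : G.neighborSet z = {v, w i, w j} := by
    ext u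
    simp only [SimpleGraph.mem_neighborSet, Set.mem_insert_iff, Set.mem_singleton_iff]
    constructor
    · exact hN u
    · rintro (rfl | rfl | rfl)
      · exact hzv
      · exact h6.1
      · exact h6.2
  unfold dg
  rw [h7]
  have h8 : v ∉ ({w i, w j} : Set V) := by
    rintro (h | h)
    · exact hne _ h.symm
    · exact hne _ (Set.mem_singleton_iff.1 h).symm
  rw [Set.ncard_insert_of_notMem h8, Set.ncard_pair (fun h => hij (hw.inj h))]

end Sp

open Sp

/-- (S1) Links have no chords, except around `z` when `z` has degree `3`. -/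
theorem Min.chord [Fintype V] {G : SimpleGraph V} {z : V} (hm : Min G z) (v : V)
    (k : ℕ) (w : ZMod k → V) (hw : Link G v k w) (i j : ZMod k) (h : G.Adj (w i) (w j)) :
    j = i + 1 ∨ i = j + 1 ∨ (dg G z = 3 ∧ G.Adj z v ∧ G.Adj z (w i) ∧ G.Adj z (w j)) := by
  by_contra hcon
  rw [not_or, not_or] at hcon
  obtain ⟨hj1, hi1, hcon⟩ := hcon
  have hij : i ≠ j := by
    rintro rfl
    exact G.loopless.irrefl _ h
  obtain ⟨m, hm2, hmk, hjm⟩ := exists_step hw.three hij hj1 hi1
  have hsep := arcs₃ hm.pl.notK5 hw i m hm2 hmk (hjm ▸ h)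
  rw [← hjm] at hsep
  have hnb : ∀ j, G.Adj v (w j) := fun j => (hw.nb _).2 ⟨j, rfl⟩
  have hne : ∀ j, w j ≠ v := fun j h => (hnb j).ne h.symm
  have hi0 : w i = w (i + ((0 : ℕ) : ZMod k)) := by simp
  have inj : ∀ {c d : ℕ}, c < k → d < k → w (i + c) = w (i + d) → c = d := fun hc hd h =>
    w_inj hw.inj hc hd h
  set T : Set V := {v, w i, w j} with hT
  have hTw : ∀ c : ℕ, c < k → c ≠ 0 → c ≠ m → w (i + c) ∈ Tᶜ := by
    intro c hc h0 hm
    rw [hT]
    simp only [Set.mem_compl_iff, Set.mem_insert_iff, Set.mem_singleton_iff, not_or]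
    refine ⟨hne _, ?_, ?_⟩
    · intro h
      rw [hi0] at h
      exact h0 (inj hc (by omega) h)
    · intro h
      rw [hjm] at h
      exact hm (inj hc (by omega) h)
  have hcl : ∀ u ∈ T, ∀ u' ∈ T, u ≠ u' → G.Adj u u' := by
    rintro u (rfl | rfl | rfl) u' (rfl | rfl | rfl) huu
    · exact absurd rfl huu
    · exact hnb _
    · exact hnb _
    · exact (hnb _).symm
    · exact absurd rfl huu
    · exact h
    · exact (hnb _).symm
    · exact h.symm
    · exact absurd rfl huu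
  set C : Set V := cmp G Tᶜ (w (i + ((1 : ℕ) : ZMod k))) with hC
  have h1C : w (i + ((1 : ℕ) : ZMod k)) ∈ C := mem_comp_self _ _
  have hCT : C ⊆ Tᶜ := comp_subset (hTw 1 (by omega) (by omega) (by omega))
  have hnC : w (i + ((m + 1 : ℕ) : ZMod k)) ∉ C := fun h' =>
    hsep 1 (m + 1) le_rfl (by omega) (by omega) (by omega) h'
  have hadjC : ∀ u ∈ C, ∀ u', u' ∉ T → G.Adj u u' → u' ∈ C := by
    intro u hu u' hu' huu
    exact SimpleGraph.Reachable.trans hu
      (show (res G Tᶜ).Adj u u' from ⟨huu, hCT hu, hu'⟩).reachable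
  -- the two parts
  have hnA : w (i + ((m + 1 : ℕ) : ZMod k)) ∉ T ∪ C := by
    rintro (h' | h')
    · exact hTw (m + 1) (by omega) (by omega) (by omega) h'
    · exact hnC h'
  by_cases hA : ∃ u, u ∉ insert z (T ∪ C)
  · by_cases hB : ∃ u, u ∉ insert z Cᶜ
    · have hAB : ∀ u, u ∈ insert z (T ∪ C) → u ∈ insert z Cᶜ → u ≠ z → u ∈ T := by
        intro u h1 h2 h3
        rcases h1 with h1 | h1 | h1
        · exact absurd h1 h3
        · exact h1
        · rcases h2 with h2 | h2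
          · exact absurd h2 h3
          · exact absurd h1 h2
      refine no_glue hm (insert z (T ∪ C)) (insert z Cᶜ) (Set.mem_insert _ _) (Set.mem_insert _ _)
        hA hB (fun u => ?_) (fun u hu u' hu' huu => ?_) (G.induce _) (pln_induce hm.pl _)
        (fun _ _ h => h) (fun _ h => h) (fun u u' h1 h2 h3 h4 h5 => ?_) (G.induce _)
        (pln_induce hm.pl _) (fun _ _ h => h) (fun _ h => h) (fun u u' h1 h2 h3 h4 h5 => ?_)
      · by_cases hu : u ∈ C
        · exact Or.inl (Or.inr (Or.inr hu))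
        · exact Or.inr (Or.inr hu)
      · have h1 : u ∈ C := by
          by_contra h'
          exact hu (Or.inr h')
        have h2 : u' ∉ T := fun h' => hu' (Or.inr (Or.inl h'))
        exact hu' (Or.inr (Or.inr (hadjC u h1 u' h2 huu)))
      · exact hcl _ (hAB _ u.2 h1 h4) _ (hAB _ u'.2 h2 h5) (fun h' => h3 (Subtype.ext h'))
      · exact hcl _ (hAB _ h1 u.2 h4) _ (hAB _ h2 u'.2 h5) (fun h' => h3 (Subtype.ext h'))
    · -- the first arc consists of `z`
      have hz : ∀ u ∈ C, u = z := by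
        intro u hu
        by_contra h'
        exact hB ⟨u, by
          rintro (h | h)
          · exact h' h
          · exact h hu⟩
      apply hcon
      refine tri_end hw hij (hz _ h1C) (fun u hu => ?_)
      by_contra h'
      have hzC : z ∈ C := by
        rw [← hz _ h1C]
        exact h1C
      have hu' : u ∈ C := hadjC z hzC u (by
        rintro (h | h | h)
        · exact h' (Or.inl h)
        · exact h' (Or.inr (Or.inl h))
        · exact h' (Or.inr (Or.inr h))) hu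
      exact hu.ne (hz u hu').symm
  · -- the second arc consists of `z`
    have hz : ∀ u, u ∉ T ∪ C → u = z := by
      intro u hu
      by_contra h'
      exact hA ⟨u, by
        rintro (h | h)
        · exact h' h
        · exact hu h⟩
    apply hcon
    refine tri_end hw hij (hz _ hnA) (fun u hu => ?_)
    by_contra h'
    have hzA : z ∉ T ∪ C := by
      rw [← hz _ hnA]
      exact hnA
    have huT : u ∉ T := by
      rintro (h | h | h)
      · exact h' (Or.inl h)
      · exact h' (Or.inr (Or.inl h))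
      · exact h' (Or.inr (Or.inr h))
    have huC : u ∈ C := by
      by_contra h''
      exact hu.ne (hz u (by
        rintro (h | h)
        · exact huT h
        · exact h'' h)).symm
    exact hzA (Or.inr (hadjC u huC z (fun h => hzA (Or.inl h)) hu.symm))

theorem Min.clink [Fintype V] {G : SimpleGraph V} {z : V} (hm : Min G z) (v : V)
    (hv : ¬(G.Adj z v ∧ dg G z = 3)) (k : ℕ) (w : ZMod k → V) (hw : Link G v k w) :
    CLink G v k w :=
  ⟨hw, fun i j h => by
    rcases hm.chord v k w hw i j h with h1 | h1 | h1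
    · exact Or.inl h1
    · exact Or.inr h1
    · exact absurd ⟨h1.2.1, h1.1⟩ hv⟩

/-- (S2) Two neighbours of `z` with a common neighbour outside are adjacent. -/
theorem Min.h2 [Fintype V] {G : SimpleGraph V} {z : V} (hm : Min G z) (v o o' : V)
    (hv : IsL G z v) (h1 : G.Adj v o) (h2 : G.Adj v o') (h3 : G.Adj z o) (h4 : G.Adj z o')
    (h : o ≠ o') : G.Adj o o' := by
  by_contra hoo
  have hcard := hm.card
  obtain ⟨k, w, hw⟩ := exists_link hm.pl hm.max (by omega) hm.conn hm.conn2 z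
  obtain ⟨i, rfl⟩ := (hw.nb o).1 h3
  obtain ⟨j, rfl⟩ := (hw.nb o').1 h4
  have hij : i ≠ j := fun h' => h (congrArg w h')
  have hj1 : j ≠ i + 1 := by
    rintro rfl
    exact hoo (hw.adj i)
  have hi1 : i ≠ j + 1 := by
    rintro rfl
    exact hoo (hw.adj j).symm
  obtain ⟨m, hm2, hmk, hjm⟩ := exists_step hw.three hij hj1 hi1
  have hsep := arcs₄ hm.pl.notK5 hw i m hm2 hmk (q := v) hv.1 hv.2 h1.symm (hjm ▸ h2.symm)
  rw [← hjm] at hsep
  have hnb : ∀ j, G.Adj z (w j) := fun j => (hw.nb _).2 ⟨j, rfl⟩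
  have hne : ∀ j, w j ≠ z := fun j h => (hnb j).ne h.symm
  have hnv : ∀ j, w j ≠ v := fun j h => hv.2 (h ▸ hnb j)
  have hi0 : w i = w (i + ((0 : ℕ) : ZMod k)) := by simp
  have inj : ∀ {c d : ℕ}, c < k → d < k → w (i + c) = w (i + d) → c = d := fun hc hd h =>
    w_inj hw.inj hc hd h
  set T : Set V := {z, w i, w j, v} with hT
  have hTw : ∀ c : ℕ, c < k → c ≠ 0 → c ≠ m → w (i + c) ∈ Tᶜ := by
    intro c hc h0 hm
    rw [hT]
    simp only [Set.mem_compl_iff, Set.mem_insert_iff, Set.mem_singleton_iff, not_or]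
    refine ⟨hne _, ?_, ?_, hnv _⟩
    · intro h
      rw [hi0] at h
      exact h0 (inj hc (by omega) h)
    · intro h
      rw [hjm] at h
      exact hm (inj hc (by omega) h)
  set C : Set V := cmp G Tᶜ (w (i + ((1 : ℕ) : ZMod k))) with hC
  have h1C : w (i + ((1 : ℕ) : ZMod k)) ∈ C := mem_comp_self _ _
  have hCT : C ⊆ Tᶜ := comp_subset (hTw 1 (by omega) (by omega) (by omega))
  have hadjC : ∀ u ∈ C, ∀ u', u' ∉ T → G.Adj u u' → u' ∈ C := by
    intro u hu u' hu' huu
    exact SimpleGraph.Reachable.trans hu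
      (show (res G Tᶜ).Adj u u' from ⟨huu, hCT hu, hu'⟩).reachable
  have hiT : w i ∈ T := Or.inr (Or.inl rfl)
  have hjT : w j ∈ T := Or.inr (Or.inr (Or.inl rfl))
  have hzT : z ∈ T := Or.inl rfl
  -- the arcs
  have hK1 : ∀ u ∈ arc w i 1 (m - 1), u ∉ Cᶜ := by
    have h3 : Conn G (arc w i 1 (m - 1)) := arc_conn' hw.adj i (by omega)
    have h4 : arc w i 1 (m - 1) ⊆ Tᶜ := by
      rintro - ⟨c, hc1, hc2, rfl⟩
      exact hTw c (by omega) (by omega) (by omega)
    intro u hu hu'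
    exact hu' ((h3 _ ⟨1, le_rfl, by omega, rfl⟩ _ hu).mono (res_mono h4))
  have hK2 : ∀ u ∈ arc w i (m + 1) (k - 1), u ∉ T ∪ C := by
    rintro - ⟨c, hc1, hc2, rfl⟩ (h' | h')
    · exact hTw c (by omega) (by omega) (by omega) h'
    · exact hsep 1 c le_rfl (by omega) (by omega) (by omega) h'
  have hk1 : i + ((k - 1 : ℕ) : ZMod k) + 1 = i := by
    have h5 : (((k - 1 : ℕ) : ZMod k)) + 1 = ((k - 1 + 1 : ℕ) : ZMod k) := by push_cast; ring
    rw [add_assoc, h5, Nat.sub_add_cancel (by omega), ZMod.natCast_self, add_zero]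
  have hm1 : i + ((m - 1 : ℕ) : ZMod k) + 1 = j := by
    have h5 : (((m - 1 : ℕ) : ZMod k)) + 1 = ((m - 1 + 1 : ℕ) : ZMod k) := by push_cast; ring
    rw [add_assoc, h5, Nat.sub_add_cancel (by omega), hjm]
  have hp1 : G.Adj (w i) (w (i + ((1 : ℕ) : ZMod k))) := by
    have := hw.adj i
    rwa [Nat.cast_one]
  have hp2 : G.Adj (w j) (w (i + ((m - 1 : ℕ) : ZMod k))) := by
    have := hw.adj (i + ((m - 1 : ℕ) : ZMod k))
    rw [hm1] at this
    exact this.symm
  have hp3 : G.Adj (w j) (w (i + ((m + 1 : ℕ) : ZMod k))) := by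
    have := hw.adj j
    have h6 : j + 1 = i + ((m + 1 : ℕ) : ZMod k) := by
      rw [hjm]
      push_cast
      ring
    rwa [h6] at this
  have hp4 : G.Adj (w i) (w (i + ((k - 1 : ℕ) : ZMod k))) := by
    have := hw.adj (i + ((k - 1 : ℕ) : ZMod k))
    rw [hk1] at this
    exact this.symm
  have hPA : Pln (addG G (T ∪ C) (w i) (w j) h) :=
    pln_add hm.pl _ h (arc w i (m + 1) (k - 1)) (arc_conn' hw.adj i (by omega)) hK2
      ⟨k - 1, by omega, le_rfl, rfl⟩ ⟨m + 1, le_rfl, by omega, rfl⟩ hp4 hp3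
  have hPB : Pln (addG G Cᶜ (w i) (w j) h) :=
    pln_add hm.pl _ h (arc w i 1 (m - 1)) (arc_conn' hw.adj i (by omega))
      hK1 ⟨1, le_rfl, by omega, rfl⟩ ⟨m - 1, by omega, le_rfl, rfl⟩ hp1 hp2
  have hcl : ∀ u ∈ T, ∀ u' ∈ T, u ≠ u' → u ≠ z → u' ≠ z →
      G.Adj u u' ∨ (u = w i ∧ u' = w j) ∨ (u = w j ∧ u' = w i) := by
    rintro u (rfl | rfl | rfl | rfl) u' (rfl | rfl | rfl | rfl) huu h5 h6
    · exact absurd rfl h5
    · exact absurd rfl h5
    · exact absurd rfl h5
    · exact absurd rfl h5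
    · exact absurd rfl h6
    · exact absurd rfl huu
    · exact Or.inr (Or.inl ⟨rfl, rfl⟩)
    · exact Or.inl h1.symm
    · exact absurd rfl h6
    · exact Or.inr (Or.inr ⟨rfl, rfl⟩)
    · exact absurd rfl huu
    · exact Or.inl h2.symm
    · exact absurd rfl h6
    · exact Or.inl h1
    · exact Or.inl h2
    · exact absurd rfl huu
  have hAB : ∀ u, u ∈ T ∪ C → u ∈ Cᶜ → u ∈ T := by
    rintro u (h1 | h1) h2
    · exact h1
    · exact absurd h1 h2
  refine no_glue hm (T ∪ C) Cᶜ (Or.inl hzT) (fun h' => hCT h' hzT)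
    ⟨_, hK2 _ ⟨m + 1, le_rfl, by omega, rfl⟩⟩ ⟨_, fun h' => h' h1C⟩ (fun u => ?_)
    (fun u hu u' hu' huu => ?_) _ hPA (fun _ _ h => Or.inl h) (fun u hu => ?_)
    (fun u u' h1 h2 h3 h4 h5 => ?_) _ hPB (fun _ _ h => Or.inl h) (fun u hu => ?_)
    (fun u u' h1 h2 h3 h4 h5 => ?_)
  · by_cases hu : u ∈ C
    · exact Or.inl (Or.inr hu)
    · exact Or.inr hu
  · have h1 : u ∈ C := by
      by_contra h'
      exact hu h'
    have h2 : u' ∉ T := fun h' => hu' (Or.inl h')
    exact hu' (Or.inr (hadjC u h1 u' h2 huu))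
  · rcases hu with hu | hu | hu
    · exact hu
    · exact absurd hu.1.symm (hne _)
    · exact absurd hu.1.symm (hne _)
  · exact hcl _ (hAB _ u.2 h1) _ (hAB _ u'.2 h2) (fun h' => h3 (Subtype.ext h')) h4 h5
  · rcases hu with hu | hu | hu
    · exact hu
    · exact absurd hu.1.symm (hne _)
    · exact absurd hu.1.symm (hne _)
  · exact hcl _ (hAB _ h1 u.2) _ (hAB _ h2 u'.2) (fun h' => h3 (Subtype.ext h')) h4 h5

end DS
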