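import Pool.Agent.Work.MP_0890ba_co.DS.Minor
import Pool.Agent.Work.MP_0890ba_co.DS.Law
import Pool.Agent.Work.MP_0890ba_co.DS.MinB

/-!
# The star reduction

The centre `c` and the leaves `U` are deleted, the classes `J` and `Q u` are contracted.
-/

set_option linter.unusedSectionVars false

namespace DS

open Finset Classical

variable {V W : Type}

namespace StarAux

theorem conn_of_hub {G : SimpleGraph V} {B : Set V} (h : V) (hB : h ∈ B)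
    (ha : ∀ v ∈ B, v = h ∨ G.Adj v h) : BDP.Conn G B := by
  have key : ∀ v ∈ B, (BDP.res G B).Reachable v h := by
    intro v hv
    rcases ha v hv with h1 | h1
    · rw [h1]
    · exact SimpleGraph.Adj.reachable ⟨h1, hv, hB⟩
  exact fun x hx y hy => (key x hx).trans (key y hy).symm

theorem kap_pos : 0 < kap := by unfold kap; norm_num

theorem need_nonneg (G : SimpleGraph V) (z v : V) : 0 ≤ need G z v := by
  have := kap_pos
  unfold need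
  split_ifs <;> positivity

theorem nd_nonneg (G : SimpleGraph V) (z : V) (K : Set V) : 0 ≤ nd G z K := by
  have := kap_pos
  unfold nd
  split_ifs <;> positivity

theorem marg_nonneg [Fintype V] {G : SimpleGraph V} {X : Set V} {μ : Finset V → ℝ}
    (h : IsLaw G X μ) (v : V) : 0 ≤ marg μ v :=
  sum_nonneg fun I _ => by split_ifs; exacts [h.nonneg I, le_rfl]

variable [Fintype V] (c : V) (U J : Finset V) (Q : V → Finset V)

/-- The vertices which remain. -/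
abbrev Rem : Type := {v : V // v ≠ c ∧ v ∉ U}

/-- The classes. -/
def Rel (a b : Rem c U) : Prop :=
  a = b ∨ (a.1 ∈ J ∧ b.1 ∈ J) ∨ ∃ u ∈ U, a.1 ∈ Q u ∧ b.1 ∈ Q u

theorem rel_equiv (hJQ : ∀ u ∈ U, ∀ v ∈ Q u, v ∉ J)
    (hQd : ∀ u ∈ U, ∀ u' ∈ U, u ≠ u' → Disjoint (Q u) (Q u')) :
    Equivalence (Rel c U J Q) := by
  refine ⟨fun a => Or.inl rfl, ?_, ?_⟩
  · rintro a b (h | ⟨h1, h2⟩ | ⟨u, hu, h1, h2⟩)
    · exact Or.inl h.symm
    · exact Or.inr (Or.inl ⟨h2, h1⟩)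
    · exact Or.inr (Or.inr ⟨u, hu, h2, h1⟩)
  · rintro a b d (h | ⟨h1, h2⟩ | ⟨u, hu, h1, h2⟩) (h' | ⟨h1', h2'⟩ | ⟨u', hu', h1', h2'⟩)
    · exact Or.inl (h.trans h')
    · rw [h]; exact Or.inr (Or.inl ⟨h1', h2'⟩)
    · rw [h]; exact Or.inr (Or.inr ⟨u', hu', h1', h2'⟩)
    · rw [← h']; exact Or.inr (Or.inl ⟨h1, h2⟩)
    · exact Or.inr (Or.inl ⟨h1, h2'⟩)
    · exact absurd h2 (hJQ u' hu' _ h1')
    · rw [← h']; exact Or.inr (Or.inr ⟨u, hu, h1, h2⟩)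
    · exact absurd h1' (hJQ u hu _ h2)
    · by_cases he : u = u'
      · subst he
        exact Or.inr (Or.inr ⟨u, hu, h1, h2'⟩)
      · exact absurd h1' (disjoint_left.1 (hQd u hu u' hu' he) h2)

end StarAux

open StarAux

theorem Min.star [Fintype V] {G : SimpleGraph V} {z : V} (hm : Min G z) {c : V} (hc : c ≠ z)
    (U : Finset V) (hU : ∀ u ∈ U, G.Adj c u ∧ IsL G z u) (_hUU : ∀ u ∈ U, ∀ v ∈ U, ¬G.Adj u v)
    (J : Finset V) (hJ : ∀ v ∈ J, G.Adj c v ∧ v ≠ z ∧ v ∉ U)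
    (hJJ : ∀ u ∈ J, ∀ v ∈ J, ¬G.Adj u v) (Q : V → Finset V)
    (hQ : ∀ u ∈ U, ∀ v ∈ Q u, G.Adj u v ∧ v ≠ c ∧ v ∉ J ∧ v ∉ U)
    (hQQ : ∀ u ∈ U, ∀ v ∈ Q u, ∀ v' ∈ Q u, ¬G.Adj v v')
    (hQd : ∀ u ∈ U, ∀ u' ∈ U, u ≠ u' → Disjoint (Q u) (Q u')) :
    ∃ μ, IsLaw G {x | x ≠ z ∧ x ≠ c ∧ x ∉ U} μ ∧
      (∀ v, v ≠ z → v ≠ c → v ∉ U → marg μ v = need G z v) ∧
      hit μ J ≤ nd G z J ∧ ∀ u ∈ U, hit μ (Q u) ≤ nd G z (Q u) := by
  have hcU : c ∉ U := fun h => (hU c h).1.ne rfl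
  have hzU : z ∉ U := fun h => (hU z h).2.1 rfl
  have hzJ : z ∉ J := fun h => (hJ z h).2.1 rfl
  have hzQ : ∀ u ∈ U, z ∉ Q u := fun u hu h => (hU u hu).2.2 (hQ u hu z h).1.symm
  let S : Setoid (Rem c U) :=
    ⟨Rel c U J Q, rel_equiv c U J Q (fun u hu v hv => (hQ u hu v hv).2.2.1) hQd⟩
  let cl : Rem c U → Quotient S := Quotient.mk S
  have hcl : ∀ a b, cl a = cl b ↔ Rel c U J Q a b := fun a b => Quotient.eq (r := S)
  have hclJ : ∀ (a b : Rem c U), a.1 ∈ J → (cl b = cl a ↔ b.1 ∈ J) := by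
    intro a b ha
    rw [hcl]
    refine ⟨?_, fun h => Or.inr (Or.inl ⟨h, ha⟩)⟩
    rintro (h | ⟨h, -⟩ | ⟨u, hu, -, h⟩)
    · rw [h]; exact ha
    · exact h
    · exact absurd ha (hQ u hu _ h).2.2.1
  have hclQ : ∀ (u : V), u ∈ U → ∀ (a b : Rem c U), a.1 ∈ Q u → (cl b = cl a ↔ b.1 ∈ Q u) := by
    intro u hu a b ha
    rw [hcl]
    refine ⟨?_, fun h => Or.inr (Or.inr ⟨u, hu, h, ha⟩)⟩
    rintro (h | ⟨-, h⟩ | ⟨u', hu', h1, h⟩)
    · rw [h]; exact ha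
    · exact absurd h (hQ u hu _ ha).2.2.1
    · by_cases he : u = u'
      · rw [he]; exact h1
      · exact absurd h (disjoint_left.1 (hQd u hu u' hu' he) ha)
  have hclz : ∀ (b : Rem c U), cl b = cl ⟨z, hc.symm, hzU⟩ → b.1 = z := by
    intro b hb
    rcases (hcl _ _).1 hb with h | ⟨-, h⟩ | ⟨u, hu, -, h⟩
    · rw [h]
    · exact absurd h hzJ
    · exact absurd h (hzQ u hu)
  let B : Quotient S → Set V := fun w =>
    {v | (∃ h : v ≠ c ∧ v ∉ U, cl ⟨v, h⟩ = w) ∨ (v = c ∧ ∃ a : Rem c U, a.1 ∈ J ∧ cl a = w) ∨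
      (v ∈ U ∧ ∃ a : Rem c U, a.1 ∈ Q v ∧ cl a = w)}
  let H : SimpleGraph (Quotient S) :=
    { Adj := fun w w' => w ≠ w' ∧ ∃ a a' : Rem c U, cl a = w ∧ cl a' = w' ∧ G.Adj a.1 a'.1
      symm := ⟨fun w w' h => ⟨h.1.symm, h.2.choose_spec.choose, h.2.choose,
        h.2.choose_spec.choose_spec.2.1, h.2.choose_spec.choose_spec.1,
        h.2.choose_spec.choose_spec.2.2.symm⟩⟩
      loopless := ⟨fun w h => h.1 rfl⟩ }
  have hconn : ∀ w, BDP.Conn G (B w) := by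
    intro w
    obtain ⟨a, ha⟩ := Quotient.exists_rep w
    by_cases haJ : a.1 ∈ J
    · refine conn_of_hub c (Or.inr (Or.inl ⟨rfl, a, haJ, ha⟩)) fun v hv => ?_
      rcases hv with ⟨h, hv⟩ | ⟨hv, -⟩ | ⟨hv, b, hb, hbw⟩
      · have h2 := (hclJ a ⟨v, h⟩ haJ).1 (hv.trans ha.symm)
        exact Or.inr (hJ v h2).1.symm
      · exact Or.inl hv
      · have h2 := (hclJ a b haJ).1 (hbw.trans ha.symm)
        exact absurd h2 (hQ v hv _ hb).2.2.1
    · by_cases haQ : ∃ u ∈ U, a.1 ∈ Q u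
      · obtain ⟨u, hu, hau⟩ := haQ
        refine conn_of_hub u (Or.inr (Or.inr ⟨hu, a, hau, ha⟩)) fun v hv => ?_
        rcases hv with ⟨h, hv⟩ | ⟨hv, b, hb, hbw⟩ | ⟨hv, b, hb, hbw⟩
        · have h2 := (hclQ u hu a ⟨v, h⟩ hau).1 (hv.trans ha.symm)
          exact Or.inr (hQ u hu v h2).1.symm
        · have h2 := (hclQ u hu a b hau).1 (hbw.trans ha.symm)
          exact absurd hb (hQ u hu _ h2).2.2.1
        · have h2 := (hclQ u hu a b hau).1 (hbw.trans ha.symm)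
          by_cases he : u = v
          · exact Or.inl he.symm
          · exact absurd hb (disjoint_left.1 (hQd u hu v hv he) h2)
      · refine conn_of_hub a.1 (Or.inl ⟨a.2, ha⟩) fun v hv => Or.inl ?_
        rcases hv with ⟨h, hv⟩ | ⟨-, b, hb, hbw⟩ | ⟨hv, b, hb, hbw⟩
        · rcases (hcl _ _).1 (hv.trans ha.symm) with h2 | ⟨-, h2⟩ | ⟨u, hu, -, h2⟩
          · rw [← h2]
          · exact absurd h2 haJ
          · exact absurd ⟨u, hu, h2⟩ haQ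
        · exact absurd ((hclJ b a hb).1 (ha.trans hbw.symm)) haJ
        · exact absurd ⟨v, hv, (hclQ v hv b a hb).1 (ha.trans hbw.symm)⟩ haQ
  have hdisj : ∀ w w', w ≠ w' → Disjoint (B w) (B w') := by
    intro w w' hww
    rw [Set.disjoint_left]
    intro v hv hv'
    rcases hv with ⟨h, hv⟩ | ⟨hv, b, hb, hbw⟩ | ⟨hv, b, hb, hbw⟩
    · rcases hv' with ⟨h', hv'⟩ | ⟨hv', -⟩ | ⟨hv', -⟩
      · exact hww (hv.symm.trans hv')
      · exact h.1 hv'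
      · exact h.2 hv'
    · rcases hv' with ⟨h', hv'⟩ | ⟨hv', b', hb', hbw'⟩ | ⟨hv', -⟩
      · exact h'.1 hv
      · exact hww (hbw.symm.trans (((hclJ b' b hb').2 hb).trans hbw'))
      · exact hcU (hv ▸ hv')
    · rcases hv' with ⟨h', hv'⟩ | ⟨hv', -⟩ | ⟨hv', b', hb', hbw'⟩
      · exact h'.2 hv
      · exact hcU (hv' ▸ hv)
      · exact hww (hbw.symm.trans (((hclQ v hv b' b hb').2 hb).trans hbw'))
  have hPl : Pln H := by
    refine hm.pl.minor B hconn hdisj fun w w' hww => ?_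
    obtain ⟨-, a, a', h1, h2, h3⟩ := hww
    exact ⟨a.1, Or.inl ⟨a.2, h1⟩, a'.1, Or.inl ⟨a'.2, h2⟩, h3⟩
  let K : Quotient S → Finset V := fun w =>
    univ.filter fun v => v ≠ z ∧ ∃ h : v ≠ c ∧ v ∉ U, cl ⟨v, h⟩ = w
  have hK : ∀ w v, v ∈ K w ↔ v ≠ z ∧ ∃ h : v ≠ c ∧ v ∉ U, cl ⟨v, h⟩ = w := fun w v => by
    simp only [K, mem_filter, mem_univ, true_and]
  have : Finite (Quotient S) := inferInstance
  have iW : Fintype (Quotient S) := Fintype.ofFinite _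
  have hcard : Fintype.card (Quotient S) < Fintype.card V := by
    refine lt_of_le_of_lt (Fintype.card_le_of_surjective cl Quotient.exists_rep) ?_
    exact Fintype.card_subtype_lt (x := c) fun h => h.1 rfl
  obtain ⟨μ, hμ, hμ1, -, hμ2, -⟩ := hm.use H (cl ⟨z, hc.symm, hzU⟩) hcard hPl K
    (by
      rw [eq_empty_iff_forall_notMem]
      intro v hv
      obtain ⟨h1, h2, h3⟩ := (hK _ _).1 hv
      exact h1 (hclz ⟨v, h2⟩ h3))
    (by
      intro w w' hww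
      rw [disjoint_left]
      intro v hv hv'
      obtain ⟨-, h2, h3⟩ := (hK _ _).1 hv
      obtain ⟨-, h2', h3'⟩ := (hK _ _).1 hv'
      exact hww (h3.symm.trans h3'))
    (by
      intro w u hu v hv huv
      obtain ⟨-, h2, h3⟩ := (hK _ _).1 hu
      obtain ⟨-, h2', h3'⟩ := (hK _ _).1 hv
      rcases (hcl _ _).1 (h3.trans h3'.symm) with h | ⟨h, h'⟩ | ⟨x, hx, h, h'⟩
      · have h4 : u = v := congrArg Subtype.val h
        exact huv.ne h4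
      · exact hJJ _ h _ h' huv
      · exact hQQ x hx _ h _ h' huv)
    (by
      intro w w' hww u hu v hv huv
      obtain ⟨-, h2, h3⟩ := (hK _ _).1 hu
      obtain ⟨-, h2', h3'⟩ := (hK _ _).1 hv
      exact ⟨hww, ⟨u, h2⟩, ⟨v, h2'⟩, h3, h3', huv⟩)
  -- the wanted probabilities of the classes
  have hX : ({v | ∃ w, v ∈ K w} : Set V) = {x | x ≠ z ∧ x ≠ c ∧ x ∉ U} := by
    ext v
    constructor
    · rintro ⟨w, hw⟩
      obtain ⟨h1, h2, -⟩ := (hK _ _).1 hw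
      exact ⟨h1, h2.1, h2.2⟩
    · rintro ⟨h1, h2, h3⟩
      exact ⟨cl ⟨v, h2, h3⟩, (hK _ _).2 ⟨h1, ⟨h2, h3⟩, rfl⟩⟩
  rw [hX] at hμ
  have hneed : ∀ (K' : Finset V) (a : Rem c U), a.1 ∈ K' → a.1 ≠ z → z ∉ K' →
      (∀ b : Rem c U, cl b = cl a ↔ b.1 ∈ K') → (∀ v ∈ K', v ≠ c ∧ v ∉ U) →
      need H (cl ⟨z, hc.symm, hzU⟩) (cl a) = nd G z K' := by
    intro K' a ha haz hzK hb hK'
    unfold need nd
    have h1 : H.Adj (cl ⟨z, hc.symm, hzU⟩) (cl a) ↔ ∃ v ∈ (K' : Set V), G.Adj z v := by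
      constructor
      · rintro ⟨-, b, b', h2, h3, h4⟩
        have h5 : b.1 = z := hclz b h2
        rw [h5] at h4
        exact ⟨b'.1, mem_coe.2 ((hb b').1 h3), h4⟩
      · rintro ⟨v, hv, h4⟩
        refine ⟨fun h => haz (hclz a h.symm), ⟨z, hc.symm, hzU⟩, ⟨v, hK' v (mem_coe.1 hv)⟩, rfl,
          (hb _).2 (mem_coe.1 hv), h4⟩
    by_cases h2 : ∃ v ∈ (K' : Set V), G.Adj z v
    · rw [if_pos h2, if_pos (h1.2 h2)]
    · rw [if_neg h2, if_neg fun h => h2 (h1.1 h)]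
  have hclass : ∀ (K' : Finset V) (a : Rem c U), a.1 ∈ K' → z ∉ K' →
      (∀ b : Rem c U, cl b = cl a ↔ b.1 ∈ K') → (∀ v ∈ K', v ≠ c ∧ v ∉ U) →
      hit μ K' ≤ nd G z K' := by
    intro K' a ha hzK hb hK'
    have haz : a.1 ≠ z := fun h => hzK (h ▸ ha)
    rw [← hneed K' a ha haz hzK hb hK']
    have h1 := hμ2 (cl a) fun h => haz (hclz a h)
    have h2 : K (cl a) = K' := by
      ext v
      rw [hK]
      constructor
      · rintro ⟨-, h3, h4⟩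
        exact (hb _).1 h4
      · intro hv
        exact ⟨fun h => hzK (h ▸ hv), hK' v hv, (hb _).2 hv⟩
    rwa [h2] at h1
  have hmarg : ∀ v, v ≠ z → ∀ (h2 : v ≠ c ∧ v ∉ U), need G z v ≤ marg μ v := by
    intro v h1 h2
    rw [hμ1 (cl ⟨v, h2⟩) (fun h => h1 (hclz ⟨v, h2⟩ h)) v ((hK _ _).2 ⟨h1, h2, rfl⟩)]
    unfold need
    by_cases h3 : G.Adj z v
    · have h4 : H.Adj (cl ⟨z, hc.symm, hzU⟩) (cl ⟨v, h2⟩) :=
        ⟨fun h => h1 (hclz ⟨v, h2⟩ h.symm), ⟨z, hc.symm, hzU⟩, ⟨v, h2⟩, rfl, rfl, h3⟩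
      rw [if_pos h3, if_pos h4]
    · rw [if_neg h3]
      have := kap_pos
      split_ifs <;> linarith
  obtain ⟨ν, hν, hν1, hν2, -⟩ := thin hμ
    (fun v => if v ≠ z ∧ v ≠ c ∧ v ∉ U then need G z v else 0)
    (fun v => by
      split_ifs
      exacts [need_nonneg G z v, le_rfl])
    (fun v => by
      split_ifs with h
      exacts [hmarg v h.1 h.2, marg_nonneg hμ v])
  refine ⟨ν, hν, fun v h1 h2 h3 => by rw [hν1, if_pos ⟨h1, h2, h3⟩], ?_, fun u hu => ?_⟩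
  · refine (hν2 J).trans ?_
    rcases J.eq_empty_or_nonempty with h | ⟨a, ha⟩
    · have h0 : hit μ (J : Set V) = 0 := by
        unfold hit pr
        refine sum_eq_zero fun I _ => if_neg ?_
        rintro ⟨v, -, hv⟩
        rw [h] at hv
        exact (notMem_empty v) (mem_coe.1 hv)
      rw [h0]
      exact nd_nonneg G z _
    · have haX : a ≠ c ∧ a ∉ U := ⟨(hJ a ha).1.ne', (hJ a ha).2.2⟩
      exact hclass J ⟨a, haX⟩ ha hzJ (fun b => hclJ ⟨a, haX⟩ b ha) fun v hv =>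
        ⟨(hJ v hv).1.ne', (hJ v hv).2.2⟩
  · refine (hν2 (Q u)).trans ?_
    rcases (Q u).eq_empty_or_nonempty with h | ⟨a, ha⟩
    · have h0 : hit μ (Q u : Set V) = 0 := by
        unfold hit pr
        refine sum_eq_zero fun I _ => if_neg ?_
        rintro ⟨v, -, hv⟩
        rw [h] at hv
        exact (notMem_empty v) (mem_coe.1 hv)
      rw [h0]
      exact nd_nonneg G z _
    · have haX : a ≠ c ∧ a ∉ U := ⟨(hQ u hu a ha).2.1, (hQ u hu a ha).2.2.2⟩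
      exact hclass (Q u) ⟨a, haX⟩ ha (hzQ u hu) (fun b => hclQ u hu ⟨a, haX⟩ b ha) fun v hv =>
        ⟨(hQ u hu v hv).2.1, (hQ u hu v hv).2.2.2⟩

end DS
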