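import Pool.Agent.Work.MP_0890ba_co.DS.Ext
import Pool.Agent.Work.MP_0890ba_co.DS.Leaf
import Pool.Agent.Work.MP_0890ba_co.DS.Sep
import Pool.Agent.Work.MP_0890ba_co.DS.Star

/-!
# A minimal counterexample: vertices of degree seven with three neighbours of degree five
-/

set_option linter.unusedSectionVars false

namespace DS

open Finset Classical

variable {V W : Type}

namespace CC

/-- The probability to meet a set is at most the sum for two sets which cover it. -/
theorem hit_le_add [Fintype V] {G : SimpleGraph V} {X : Set V} {μ : Finset V → ℝ}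
    (h : IsLaw G X μ) {K K₁ K₂ : Set V} (hK : ∀ x ∈ K, x ∈ X → x ∈ K₁ ∨ x ∈ K₂) :
    hit μ K ≤ hit μ K₁ + hit μ K₂ := by
  unfold hit pr
  rw [← Finset.sum_add_distrib]
  refine Finset.sum_le_sum fun I _ => ?_
  by_cases h0 : μ I = 0
  · simp [h0]
  have hn := h.nonneg I
  by_cases hP : ∃ v ∈ I, v ∈ K
  · rw [if_pos hP]
    obtain ⟨v, hv, hvK⟩ := hP
    rcases hK v hvK (h.sub I h0 v hv) with h1 | h1
    · rw [if_pos ⟨v, hv, h1⟩]
      split_ifs <;> linarith
    · rw [if_pos (⟨v, hv, h1⟩ : ∃ v ∈ I, v ∈ K₂)]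
      split_ifs <;> linarith
  · rw [if_neg hP]
    split_ifs <;> linarith

theorem hit_singleton [Fintype V] (μ : Finset V → ℝ) (v : V) : hit μ {v} = marg μ v := by
  unfold hit marg
  congr 1
  funext I
  simp

/-- The probability of a vertex which is not next to `z`. -/
theorem marg_le [Fintype V] {G : SimpleGraph V} {z : V} {X : Set V} {μ : Finset V → ℝ}
    (h : IsLaw G X μ) {v : V} (hm : v ∈ X → marg μ v = need G z v) (hv : ¬G.Adj z v) :
    marg μ v ≤ (1 + kap) / 5 := by
  by_cases hX : v ∈ X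
  · rw [hm hX, need, if_neg hv]
  · have : marg μ v = 0 := by
      unfold marg pr
      refine Finset.sum_eq_zero fun I _ => ?_
      by_cases h0 : μ I = 0
      · simp [h0]
      · rw [if_neg fun hI => hX (h.sub I h0 v hI)]
    rw [this]
    unfold kap
    norm_num

end CC

theorem Min.cC' [Fintype V] {G : SimpleGraph V} {z : V} (hm : Min G z)
    (hcl : ∀ v, IsL G z v → ∃ (k : ℕ) (w : ZMod k → V), CLink G v k w) (c : V) (w : ZMod 7 → V)
    (hc : IsL G z c) (hw : CLink G c 7 w) (h0 : N0 G z (w 0)) (h0' : dg G (w 0) = 5)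
    (h2 : N0 G z (w 2)) (h2' : dg G (w 2) = 5) (h4 : N0 G z (w 4)) (h4' : dg G (w 4) = 5) :
    False := by
  have hl : ∀ i : ZMod 7, N0 G z (w i) → dg G (w i) = 5 → ∃ y : ZMod 5 → V,
      CLink G (w i) 5 y ∧ y 0 = c ∧ y 1 = w (i + 1) ∧ y (-1) = w (i - 1) := by
    intro i hi hi'
    obtain ⟨k, y, hy⟩ := hcl _ hi.1
    have := hy.dg_eq
    rw [hi'] at this
    subst this
    exact leaf hw i hy
  obtain ⟨x, hx, hx0, hx1, hx4⟩ := hl 0 h0 h0'
  obtain ⟨y, hy, hy0, hy1, hy4⟩ := hl 2 h2 h2'
  obtain ⟨t, ht, ht0, ht1, ht4⟩ := hl 4 h4 h4'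
  rw [show (0 : ZMod 7) + 1 = 1 by decide] at hx1
  rw [show (0 : ZMod 7) - 1 = 6 by decide] at hx4
  rw [show (2 : ZMod 7) + 1 = 3 by decide] at hy1
  rw [show (2 : ZMod 7) - 1 = 1 by decide] at hy4
  rw [show (4 : ZMod 7) + 1 = 5 by decide] at ht1
  rw [show (4 : ZMod 7) - 1 = 3 by decide] at ht4
  rw [show (-1 : ZMod 5) = 4 by decide] at hx4 hy4 ht4
  -- adjacency among the vertices of the link of `c`
  have hna : ∀ i j : ZMod 7, j ≠ i + 1 → i ≠ j + 1 → ¬G.Adj (w i) (w j) := fun i j h1 h2 h => by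
    rcases hw.cl i j h with h3 | h3
    · exact h1 h3
    · exact h2 h3
  have hwne : ∀ i j : ZMod 7, i ≠ j → w i ≠ w j := fun i j h h' => h (hw.inj h')
  have hU : ∀ u ∈ ({w 0, w 2, w 4} : Finset V), G.Adj c u ∧ N0 G z u := by
    intro u hu
    simp only [Finset.mem_insert, Finset.mem_singleton] at hu
    rcases hu with rfl | rfl | rfl
    · exact ⟨hw.adj_nb 0, h0⟩
    · exact ⟨hw.adj_nb 2, h2⟩
    · exact ⟨hw.adj_nb 4, h4⟩
  have hUU : ∀ u ∈ ({w 0, w 2, w 4} : Finset V), ∀ v ∈ ({w 0, w 2, w 4} : Finset V),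
      ¬G.Adj u v := by
    intro u hu v hv
    simp only [Finset.mem_insert, Finset.mem_singleton] at hu hv
    rcases hu with rfl | rfl | rfl <;> rcases hv with rfl | rfl | rfl <;>
      exact hna _ _ (by decide) (by decide)
  -- no neighbour of `c` is next to `z`, except perhaps none
  have hz1 : ¬G.Adj z (w 1) := h0.2 _ (by simpa using hw.adj 0)
  have hz3 : ¬G.Adj z (w 3) := h2.2 _ (by
    have := hw.adj 2
    rwa [show (2 : ZMod 7) + 1 = 3 by decide] at this)
  have hz5 : ¬G.Adj z (w 5) := h4.2 _ (by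
    have := hw.adj 4
    rwa [show (4 : ZMod 7) + 1 = 5 by decide] at this)
  have hz6 : ¬G.Adj z (w 6) := h0.2 _ (by
    have := hw.adj 6
    rw [show (6 : ZMod 7) + 1 = 0 by decide] at this
    exact this.symm)
  have hJ : ∀ v ∈ ({w 1, w 3, w 5} : Finset V), G.Adj c v ∧ v ≠ z ∧
      v ∉ ({w 0, w 2, w 4} : Finset V) := by
    intro v hv
    simp only [Finset.mem_insert, Finset.mem_singleton] at hv
    have hcz : ∀ i : ZMod 7, w i ≠ z := fun i h => hc.2 (by
      rw [← h]
      exact (hw.adj_nb i).symm)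
    rcases hv with rfl | rfl | rfl
    · refine ⟨hw.adj_nb 1, hcz 1, ?_⟩
      simp only [Finset.mem_insert, Finset.mem_singleton, not_or]
      exact ⟨hwne _ _ (by decide), hwne _ _ (by decide), hwne _ _ (by decide)⟩
    · refine ⟨hw.adj_nb 3, hcz 3, ?_⟩
      simp only [Finset.mem_insert, Finset.mem_singleton, not_or]
      exact ⟨hwne _ _ (by decide), hwne _ _ (by decide), hwne _ _ (by decide)⟩
    · refine ⟨hw.adj_nb 5, hcz 5, ?_⟩
      simp only [Finset.mem_insert, Finset.mem_singleton, not_or]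
      exact ⟨hwne _ _ (by decide), hwne _ _ (by decide), hwne _ _ (by decide)⟩
  have hJJ : ∀ u ∈ ({w 1, w 3, w 5} : Finset V), ∀ v ∈ ({w 1, w 3, w 5} : Finset V),
      ¬G.Adj u v := by
    intro u hu v hv
    simp only [Finset.mem_insert, Finset.mem_singleton] at hu hv
    rcases hu with rfl | rfl | rfl <;> rcases hv with rfl | rfl | rfl <;>
      exact hna _ _ (by decide) (by decide)
  have hxne : ∀ i j : ZMod 5, i ≠ j → x i ≠ x j := fun i j h h' => h (hx.inj h')
  -- a vertex next to `w 0` is none of the vertices of the link not next to `w 0`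
  have hx2 : x 2 ∉ ({w 1, w 3, w 5} : Finset V) ∧ x 2 ∉ ({w 0, w 2, w 4} : Finset V) := by
    have ha : G.Adj (w 0) (x 2) := hx.adj_nb 2
    simp only [Finset.mem_insert, Finset.mem_singleton, not_or]
    refine ⟨⟨?_, ?_, ?_⟩, ?_, ?_, ?_⟩
    · rw [← hx1]
      exact hxne _ _ (by decide)
    · intro h
      rw [h] at ha
      exact hna 0 3 (by decide) (by decide) ha
    · intro h
      rw [h] at ha
      exact hna 0 5 (by decide) (by decide) ha
    · intro h
      rw [h] at ha
      exact ha.ne rfl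
    · intro h
      rw [h] at ha
      exact hna 0 2 (by decide) (by decide) ha
    · intro h
      rw [h] at ha
      exact hna 0 4 (by decide) (by decide) ha
  let Q : V → Finset V := fun u => if u = w 0 then {x 2, w 6} else ∅
  have hQ0 : Q (w 0) = {x 2, w 6} := if_pos rfl
  have hQne : ∀ u, u ≠ w 0 → Q u = ∅ := fun u hu => if_neg hu
  obtain ⟨μ, hμ, hmarg, hJm, hQm⟩ := hm.star hc.1 {w 0, w 2, w 4}
    (fun u hu => ⟨(hU u hu).1, (hU u hu).2.1⟩) hUU {w 1, w 3, w 5} hJ hJJ Q (by
      intro u hu v hv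
      by_cases hu0 : u = w 0
      · subst hu0
        rw [hQ0] at hv
        simp only [Finset.mem_insert, Finset.mem_singleton] at hv
        rcases hv with rfl | rfl
        · refine ⟨hx.adj_nb 2, ?_, hx2.1, hx2.2⟩
          rw [← hx0]
          exact hxne _ _ (by decide)
        · refine ⟨?_, hw.ne 6, ?_, ?_⟩
          · rw [← hx4]
            exact hx.adj_nb 4
          · simp only [Finset.mem_insert, Finset.mem_singleton, not_or]
            exact ⟨hwne _ _ (by decide), hwne _ _ (by decide), hwne _ _ (by decide)⟩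
          · simp only [Finset.mem_insert, Finset.mem_singleton, not_or]
            exact ⟨hwne _ _ (by decide), hwne _ _ (by decide), hwne _ _ (by decide)⟩
      · rw [hQne u hu0] at hv
        simp at hv) (by
      intro u hu v hv v' hv'
      by_cases hu0 : u = w 0
      · subst hu0
        rw [hQ0] at hv hv'
        have hxna : ∀ i j : ZMod 5, j ≠ i + 1 → i ≠ j + 1 → ¬G.Adj (x i) (x j) :=
          fun i j h1 h2 h => by
            rcases hx.cl i j h with h3 | h3
            · exact h1 h3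
            · exact h2 h3
        rw [← hx4] at hv hv'
        simp only [Finset.mem_insert, Finset.mem_singleton] at hv hv'
        rcases hv with rfl | rfl <;> rcases hv' with rfl | rfl <;>
          exact hxna _ _ (by decide) (by decide)
      · rw [hQne u hu0] at hv
        simp at hv) (by
      intro u hu u' hu' hne
      by_cases hu0 : u = w 0
      · rw [hQne u' (fun h => hne (hu0.trans h.symm))]
        exact Finset.disjoint_empty_right _
      · rw [hQne u hu0]
        exact Finset.disjoint_empty_left _)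
  have hk : kap = 1 / 100 := rfl
  -- the probabilities
  have hml : ∀ v, ¬G.Adj z v → marg μ v ≤ (1 + kap) / 5 := fun v hv =>
    CC.marg_le hμ (fun hX => hmarg v hX.1 hX.2.1 hX.2.2) hv
  have hnd : ∀ K : Set V, (∀ v ∈ K, ¬G.Adj z v) → nd G z K = (1 + kap) / 5 := fun K hK => by
    unfold nd
    rw [if_neg]
    rintro ⟨v, hv, hv'⟩
    exact hK v hv hv'
  have hJ5 : hit μ (({w 1, w 3, w 5} : Finset V) : Set V) ≤ (1 + kap) / 5 := by
    refine hJm.trans (hnd _ ?_).le
    intro v hv
    simp only [Finset.coe_insert, Finset.coe_singleton, Set.mem_insert_iff,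
      Set.mem_singleton_iff] at hv
    rcases hv with rfl | rfl | rfl
    · exact hz1
    · exact hz3
    · exact hz5
  have hQ5 : hit μ (({x 2, w 6} : Finset V) : Set V) ≤ (1 + kap) / 5 := by
    have h1 := hQm (w 0) (by simp)
    rw [hQ0] at h1
    refine h1.trans (hnd _ ?_).le
    intro v hv
    simp only [Finset.coe_insert, Finset.coe_singleton, Set.mem_insert_iff,
      Set.mem_singleton_iff] at hv
    rcases hv with rfl | rfl
    · exact h0.2 _ (hx.adj_nb 2)
    · exact hz6
  have hNc : hit μ {v | G.Adj c v} ≤ 2 * ((1 + kap) / 5) := by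
    have h1 : hit μ {v | G.Adj c v} ≤ hit μ (({w 1, w 3, w 5} : Finset V) : Set V) +
        hit μ {w 6} := by
      refine CC.hit_le_add hμ fun v hv hX => ?_
      obtain ⟨i, rfl⟩ := (hw.nb v).1 hv
      have h3 := hX.2.2
      fin_cases i
      · exact absurd (by simp : w 0 ∈ ({w 0, w 2, w 4} : Finset V)) h3
      · left
        change w 1 ∈ (({w 1, w 3, w 5} : Finset V) : Set V)
        simp
      · exact absurd (by simp : w 2 ∈ ({w 0, w 2, w 4} : Finset V)) h3
      · left
        change w 3 ∈ (({w 1, w 3, w 5} : Finset V) : Set V)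
        simp
      · exact absurd (by simp : w 4 ∈ ({w 0, w 2, w 4} : Finset V)) h3
      · left
        change w 5 ∈ (({w 1, w 3, w 5} : Finset V) : Set V)
        simp
      · right
        rfl
    rw [CC.hit_singleton] at h1
    linarith [hml _ hz6]
  have hN : ∀ (u : V) (y : ZMod 5 → V), N0 G z u → CLink G u 5 y → y 0 = c →
      y 1 ∈ ({w 1, w 3, w 5} : Finset V) → y 4 ∈ ({w 1, w 3, w 5} : Finset V) →
      hit μ {v | G.Adj u v} ≤ 3 * ((1 + kap) / 5) := by
    intro u y hu hy hy0 hy1 hy4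
    have h1 : hit μ {v | G.Adj u v} ≤ hit μ (({w 1, w 3, w 5} : Finset V) : Set V) +
        hit μ {y 2, y 3} := by
      refine CC.hit_le_add hμ fun v hv hX => ?_
      obtain ⟨i, rfl⟩ := (hy.nb v).1 hv
      have h3 := hX.2.1
      fin_cases i
      · exact absurd hy0 h3
      · exact Or.inl hy1
      · exact Or.inr (Or.inl rfl)
      · exact Or.inr (Or.inr rfl)
      · exact Or.inl hy4
    have h2 : hit μ {y 2, y 3} ≤ hit μ {y 2} + hit μ {y 3} :=
      CC.hit_le_add hμ fun v hv _ => hv
    rw [CC.hit_singleton, CC.hit_singleton] at h2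
    linarith [hml _ (hu.2 _ (hy.adj_nb 2)), hml _ (hu.2 _ (hy.adj_nb 3))]
  have hN0 : hit μ {v | G.Adj (w 0) v} ≤ 3 * ((1 + kap) / 5) := by
    have h1 : hit μ {v | G.Adj (w 0) v} ≤ hit μ (({w 1, w 3, w 5} : Finset V) : Set V) +
        hit μ ((({x 2, w 6} : Finset V) : Set V) ∪ {x 3}) := by
      refine CC.hit_le_add hμ fun v hv hX => ?_
      obtain ⟨i, rfl⟩ := (hx.nb v).1 hv
      have h3 := hX.2.1
      fin_cases i
      · exact absurd hx0 h3
      · left
        change x 1 ∈ _
        rw [hx1]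
        simp
      · right
        left
        change x 2 ∈ _
        simp
      · right
        right
        rfl
      · right
        left
        change x 4 ∈ _
        rw [hx4]
        simp
    have h2 : hit μ ((({x 2, w 6} : Finset V) : Set V) ∪ {x 3}) ≤
        hit μ (({x 2, w 6} : Finset V) : Set V) + hit μ {x 3} :=
      CC.hit_le_add hμ fun v hv _ => hv
    rw [CC.hit_singleton] at h2
    linarith [hml _ (h0.2 _ (hx.adj_nb 3))]
  have hNU : ∀ u ∈ ({w 0, w 2, w 4} : Finset V), hit μ {v | G.Adj u v} ≤ 3 * ((1 + kap) / 5) := by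
    intro u hu
    simp only [Finset.mem_insert, Finset.mem_singleton] at hu
    rcases hu with rfl | rfl | rfl
    · exact hN0
    · exact hN _ y h2 hy hy0 (by rw [hy1]; simp) (by rw [hy4]; simp)
    · exact hN _ t h4 ht ht0 (by rw [ht1]; simp) (by rw [ht4]; simp)
  have hnc : need G z c = (1 + kap) / 5 := if_neg hc.2
  refine hm.bad (ext_unif (a := 1 - 2 * ((1 + kap) / 5)) (b := 1 - 3 * ((1 + kap) / 5)) hc.1
    {w 0, w 2, w 4} (fun u hu => ⟨(hU u hu).2.1.1, (hU u hu).1⟩) hUU hμ hmarg ?_ ?_ ?_ ?_ ?_)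
  · linarith
  · rw [hnc, hk]
    norm_num
  · intro u hu
    linarith [hNU u hu]
  · intro u hu
    have hnu : need G z u = (1 + kap) / 5 := if_neg (hU u hu).2.1.2
    rw [hnu, hnc, hk]
    norm_num
  · rw [hk]
    norm_num

theorem Min.exists_clink [Fintype V] {G : SimpleGraph V} {z : V} (hm : Min G z) (v : V)
    (hv : IsL G z v) : ∃ (k : ℕ) (w : ZMod k → V), CLink G v k w := by
  have hcard := hm.card
  obtain ⟨k, w, hw⟩ := exists_link hm.pl hm.max (by omega) hm.conn hm.conn2 v
  exact ⟨k, w, hm.clink v (fun h => hv.2 h.1) k w hw⟩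

/-- No vertex of degree seven has three neighbours of degree five, two by two not adjacent, all far
from `z`. -/
theorem Min.cC [Fintype V] {G : SimpleGraph V} {z : V} (hm : Min G z) (c : V) (w : ZMod 7 → V)
    (hc : IsL G z c) (hw : CLink G c 7 w) (h0 : N0 G z (w 0)) (h0' : dg G (w 0) = 5)
    (h2 : N0 G z (w 2)) (h2' : dg G (w 2) = 5) (h4 : N0 G z (w 4)) (h4' : dg G (w 4) = 5) :
    False :=
  hm.cC' hm.exists_clink c w hc hw h0 h0' h2 h2' h4 h4'

end DS
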