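import Pool.Agent.Work.MP_0890ba_co.DS.Law

/-!
# Extending a law of independent sets to a vertex and some of its neighbours
-/

set_option linter.unusedSectionVars false

namespace DS

open Finset Classical

variable {V : Type}

namespace Ext

lemma pr_congr [Fintype V] {μ ν : Finset V → ℝ} {P Q : Finset V → Prop}
    (h : ∀ I, (if P I then μ I else 0) = if Q I then ν I else 0) : pr μ P = pr ν Q :=
  Finset.sum_congr rfl fun I _ => h I

lemma pr_le [Fintype V] {μ ν : Finset V → ℝ} {P Q : Finset V → Prop}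
    (h : ∀ I, (if P I then μ I else 0) ≤ if Q I then ν I else 0) : pr μ P ≤ pr ν Q :=
  Finset.sum_le_sum fun I _ => h I

lemma pr_mono [Fintype V] {μ : Finset V → ℝ} (h : ∀ I, 0 ≤ μ I) {P Q : Finset V → Prop}
    (hPQ : ∀ I, P I → Q I) : pr μ P ≤ pr μ Q := by
  refine pr_le fun I => ?_
  by_cases hp : P I
  · rw [if_pos hp, if_pos (hPQ I hp)]
  · rw [if_neg hp]
    split_ifs
    · exact h I
    · exact le_rfl

lemma pr_nonneg [Fintype V] {μ : Finset V → ℝ} (h : ∀ I, 0 ≤ μ I) (P : Finset V → Prop) :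
    0 ≤ pr μ P := by
  refine Finset.sum_nonneg fun I _ => ?_
  split_ifs
  · exact h I
  · exact le_rfl

lemma pr_not [Fintype V] {μ : Finset V → ℝ} (h : ∑ I, μ I = 1) (P : Finset V → Prop) :
    pr μ P + pr μ (fun I => ¬P I) = 1 := by
  rw [← h, pr, pr, ← Finset.sum_add_distrib]
  refine Finset.sum_congr rfl fun I _ => ?_
  by_cases hp : P I <;> simp [hp]

lemma pr_mul [Fintype V] (μ : Finset V → ℝ) (P : Finset V → Prop) (x : ℝ) :
    pr μ P * x = pr (fun I => μ I * x) P := by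
  rw [pr, pr, Finset.sum_mul]
  refine Finset.sum_congr rfl fun I _ => ?_
  split_ifs
  · rfl
  · rw [zero_mul]

/-- no neighbour of `u` is chosen -/
def Av (G : SimpleGraph V) (u : V) (I : Finset V) : Prop := ∀ v ∈ I, ¬G.Adj u v

lemma pr_av [Fintype V] {G : SimpleGraph V} {μ : Finset V → ℝ} (h : ∑ I, μ I = 1) (u : V) :
    hit μ {x | G.Adj u x} + pr μ (Av G u) = 1 := by
  rw [← pr_not h fun I => ∃ v ∈ I, v ∈ {x | G.Adj u x}]
  congr 1
  refine pr_congr fun I => ?_
  have : Av G u I ↔ ¬∃ v ∈ I, v ∈ {x | G.Adj u x} := by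
    simp [Av]
  by_cases h1 : Av G u I
  · rw [if_pos h1, if_pos (this.1 h1)]
  · rw [if_neg h1, if_neg fun h2 => h1 (this.2 h2)]

/-- the sum over the preimages -/
noncomputable def push [Fintype V] (f : Finset V → Finset V) (w : Finset V → ℝ) (J : Finset V) :
    ℝ := ∑ I, if f I = J then w I else 0

lemma pr_push [Fintype V] (f : Finset V → Finset V) (w : Finset V → ℝ) (P : Finset V → Prop) :
    pr (push f w) P = pr w fun I => P (f I) := by
  have h1 : pr (push f w) P = ∑ J, ∑ I, if f I = J then (if P J then w I else 0) else 0 := by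
    refine Finset.sum_congr rfl fun J _ => ?_
    by_cases hp : P J
    · simp [hp, push]
    · simp [hp]
  rw [h1, Finset.sum_comm]
  refine Finset.sum_congr rfl fun I _ => ?_
  rw [Finset.sum_ite_eq]
  simp

lemma push_nonneg [Fintype V] (f : Finset V → Finset V) {w : Finset V → ℝ} (h : ∀ I, 0 ≤ w I)
    (J : Finset V) : 0 ≤ push f w J := by
  refine Finset.sum_nonneg fun I _ => ?_
  split_ifs
  · exact h I
  · exact le_rfl

lemma push_ne [Fintype V] {f : Finset V → Finset V} {w : Finset V → ℝ} {J : Finset V}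
    (h : push f w J ≠ 0) : ∃ I, f I = J ∧ w I ≠ 0 := by
  by_contra hne
  push Not at hne
  refine h (Finset.sum_eq_zero fun I _ => ?_)
  split_ifs with h1
  · exact hne I h1
  · rfl

/-- the sets chosen with `c` or with all available members of `U` -/
lemma core [Fintype V] {G : SimpleGraph V} {z c : V} (hc : c ≠ z) (U : Finset V)
    (hU : ∀ u ∈ U, u ≠ z ∧ G.Adj c u) (hn : ∀ u ∈ U, ∀ v ∈ U, ¬G.Adj u v)
    {μ : Finset V → ℝ} (h : IsLaw G {x | x ≠ z ∧ x ≠ c ∧ x ∉ U} μ)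
    (hm : ∀ v, v ≠ z → v ≠ c → v ∉ U → marg μ v = need G z v) (θ : Finset V → ℝ)
    (h0 : ∀ I, 0 ≤ θ I) (h1 : ∀ I, θ I ≤ 1) (hA : ∀ I, θ I ≠ 0 → Av G c I)
    (ec : need G z c ≤ ∑ I, μ I * θ I)
    (eu : ∀ u ∈ U, need G z u + pr (fun I => μ I * θ I) (Av G u) ≤ pr μ (Av G u)) :
    Fine G z := by
  have hcU : c ∉ U := fun hcU => G.loopless.irrefl c (hU c hcU).2
  set f₁ : Finset V → Finset V := fun I => insert c I with hf₁
  set f₂ : Finset V → Finset V := fun I => I ∪ U.filter fun u => Av G u I with hf₂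
  set w₁ : Finset V → ℝ := fun I => μ I * θ I with hw₁
  set w₂ : Finset V → ℝ := fun I => μ I * (1 - θ I) with hw₂
  have hw₁0 : ∀ I, 0 ≤ w₁ I := fun I => mul_nonneg (h.nonneg I) (h0 I)
  have hw₂0 : ∀ I, 0 ≤ w₂ I := fun I => mul_nonneg (h.nonneg I) (sub_nonneg.2 (h1 I))
  set ν : Finset V → ℝ := fun J => push f₁ w₁ J + push f₂ w₂ J with hν
  have hpr : ∀ P : Finset V → Prop, pr ν P =
      pr w₁ (fun I => P (f₁ I)) + pr w₂ (fun I => P (f₂ I)) := by
    intro P
    rw [← pr_push f₁ w₁ P, ← pr_push f₂ w₂ P, pr, pr, pr, ← Finset.sum_add_distrib]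
    refine Finset.sum_congr rfl fun J _ => ?_
    split_ifs
    · rfl
    · rw [add_zero]
  have hne : ∀ J, ν J ≠ 0 → push f₁ w₁ J ≠ 0 ∨ push f₂ w₂ J ≠ 0 := by
    intro J hJ
    by_contra hne
    push Not at hne
    exact hJ (by simp only [hν, hne.1, hne.2, add_zero])
  have hlaw : IsLaw G {z}ᶜ ν := by
    refine ⟨fun J => add_nonneg (push_nonneg _ hw₁0 _) (push_nonneg _ hw₂0 _), ?_, ?_, ?_⟩
    · have h2 := hpr fun _ => True
      simp only [pr, if_true] at h2
      rw [h2, ← Finset.sum_add_distrib, ← h.sum]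
      refine Finset.sum_congr rfl fun I _ => ?_
      simp only [hw₁, hw₂]
      ring
    · intro J hJ v hv
      rcases hne J hJ with h2 | h2
      · obtain ⟨I, rfl, hI⟩ := push_ne h2
        rcases Finset.mem_insert.1 hv with hv | hv
        · subst hv
          exact hc
        · exact (h.sub I (left_ne_zero_of_mul hI) v hv).1
      · obtain ⟨I, rfl, hI⟩ := push_ne h2
        rcases Finset.mem_union.1 hv with hv | hv
        · exact (h.sub I (left_ne_zero_of_mul hI) v hv).1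
        · exact (hU v (Finset.mem_filter.1 hv).1).1
    · intro J hJ u hu v hv
      rcases hne J hJ with h2 | h2
      · obtain ⟨I, rfl, hI⟩ := push_ne h2
        have hθ := hA I (right_ne_zero_of_mul hI)
        have hμ : μ I ≠ 0 := left_ne_zero_of_mul hI
        rcases Finset.mem_insert.1 hu with hu | hu
        · rcases Finset.mem_insert.1 hv with hv | hv
          · rw [hu, hv]
            exact G.loopless.irrefl c
          · rw [hu]
            exact hθ v hv
        · rcases Finset.mem_insert.1 hv with hv | hv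
          · rw [hv]
            exact fun h3 => hθ u hu h3.symm
          · exact h.ind I hμ u hu v hv
      · obtain ⟨I, rfl, hI⟩ := push_ne h2
        have hμ : μ I ≠ 0 := left_ne_zero_of_mul hI
        rcases Finset.mem_union.1 hu with hu | hu
        · rcases Finset.mem_union.1 hv with hv | hv
          · exact h.ind I hμ u hu v hv
          · exact fun h3 => (Finset.mem_filter.1 hv).2 u hu h3.symm
        · rcases Finset.mem_union.1 hv with hv | hv
          · exact (Finset.mem_filter.1 hu).2 v hv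
          · exact hn u (Finset.mem_filter.1 hu).1 v (Finset.mem_filter.1 hv).1
  have hmarg : ∀ v, (if v = z then 0 else need G z v) ≤ marg ν v := by
    intro v
    by_cases hvz : v = z
    · rw [if_pos hvz]
      exact pr_nonneg hlaw.nonneg _
    rw [if_neg hvz, marg, hpr]
    have hs1 : 0 ≤ pr w₁ fun I => v ∈ f₁ I := pr_nonneg hw₁0 _
    have hs2 : 0 ≤ pr w₂ fun I => v ∈ f₂ I := pr_nonneg hw₂0 _
    by_cases hvc : v = c
    · have h2 : (pr w₁ fun I => v ∈ f₁ I) = ∑ I, w₁ I := by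
        refine Finset.sum_congr rfl fun I _ => ?_
        rw [if_pos]
        rw [hvc]
        exact Finset.mem_insert_self _ _
      rw [hvc] at h2 hs2 ⊢
      linarith
    by_cases hvU : v ∈ U
    · have h2 : pr w₂ (Av G v) ≤ pr w₂ fun I => v ∈ f₂ I :=
        pr_mono hw₂0 fun I h3 => Finset.mem_union_right _ (Finset.mem_filter.2 ⟨hvU, h3⟩)
      have h3 : pr w₂ (Av G v) + pr w₁ (Av G v) = pr μ (Av G v) := by
        rw [pr, pr, pr, ← Finset.sum_add_distrib]
        refine Finset.sum_congr rfl fun I _ => ?_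
        split_ifs
        · simp only [hw₁, hw₂]
          ring
        · rw [add_zero]
      have h4 := eu v hvU
      linarith
    · have h2 : (pr w₁ fun I => v ∈ f₁ I) + (pr w₂ fun I => v ∈ f₂ I) = marg μ v := by
        rw [marg, pr, pr, pr, ← Finset.sum_add_distrib]
        refine Finset.sum_congr rfl fun I _ => ?_
        have h3 : v ∈ f₁ I ↔ v ∈ I := by
          simp [hf₁, hvc]
        have h4 : v ∈ f₂ I ↔ v ∈ I := by
          simp [hf₂, hvU]
        by_cases h5 : v ∈ I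
        · rw [if_pos (h3.2 h5), if_pos (h4.2 h5), if_pos h5]
          simp only [hw₁, hw₂]
          ring
        · rw [if_neg fun h6 => h5 (h3.1 h6), if_neg fun h6 => h5 (h4.1 h6), if_neg h5, add_zero]
      rw [h2, hm v hvz hvc hvU]
  obtain ⟨μ', hμ', hμ'm, -⟩ := thin hlaw (fun v => if v = z then 0 else need G z v)
    (fun v => by
      rw [need]
      split_ifs <;> norm_num [kap]) hmarg
  exact ⟨μ', hμ', fun v hv => by rw [hμ'm v, if_neg hv]⟩

lemma need_pos (G : SimpleGraph V) (z v : V) : 0 < need G z v := by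
  rw [need]
  split_ifs <;> norm_num [kap]

/-- a transportation problem -/
lemma transport {x₀ x₁ x₂ x₁₂ s₁ s₂ q : ℝ} (h0 : 0 ≤ x₀) (h1 : 0 ≤ x₁) (h2 : 0 ≤ x₂)
    (h12 : 0 ≤ x₁₂) (hs1 : 0 ≤ s₁) (hs2 : 0 ≤ s₂) (e0 : q ≤ x₀ + x₁ + x₂ + x₁₂)
    (e1 : q ≤ x₀ + x₂ + s₁) (e2 : q ≤ x₀ + x₁ + s₂) (e3 : q ≤ s₁ + s₂) :
    ∃ y₁ y₂ y₁₂ : ℝ, 0 ≤ y₁ ∧ 0 ≤ y₂ ∧ 0 ≤ y₁₂ ∧ y₁ ≤ x₁ ∧ y₂ ≤ x₂ ∧ y₁₂ ≤ x₁₂ ∧
      y₁ + y₁₂ ≤ s₁ ∧ y₂ + y₁₂ ≤ s₂ ∧ q ≤ x₀ + y₁ + y₂ + y₁₂ := by
  rcases le_total x₁ s₁ with ha | ha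
  · rcases le_total x₂ s₂ with hb | hb
    · rcases le_total (s₁ - x₁) (s₂ - x₂) with hd | hd
      · rcases le_total x₁₂ (s₁ - x₁) with he | he
        · exact ⟨x₁, x₂, x₁₂, h1, h2, h12, le_rfl, le_rfl, le_rfl, by linarith, by linarith,
            by linarith⟩
        · exact ⟨x₁, x₂, s₁ - x₁, h1, h2, by linarith, le_rfl, le_rfl, he, by linarith,
            by linarith, by linarith⟩
      · rcases le_total x₁₂ (s₂ - x₂) with he | he
        · exact ⟨x₁, x₂, x₁₂, h1, h2, h12, le_rfl, le_rfl, le_rfl, by linarith, by linarith,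
            by linarith⟩
        · exact ⟨x₁, x₂, s₂ - x₂, h1, h2, by linarith, le_rfl, le_rfl, he, by linarith,
            by linarith, by linarith⟩
    · exact ⟨x₁, s₂, 0, h1, hs2, le_rfl, le_rfl, hb, h12, by linarith, by linarith,
        by linarith⟩
  · rcases le_total x₂ s₂ with hb | hb
    · exact ⟨s₁, x₂, 0, hs1, h2, le_rfl, ha, le_rfl, h12, by linarith, by linarith,
        by linarith⟩
    · exact ⟨s₁, s₂, 0, hs1, hs2, le_rfl, ha, hb, h12, by linarith, by linarith, by linarith⟩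

end Ext

theorem ext_zero [Fintype V] {G : SimpleGraph V} {z c : V} (hc : c ≠ z) {μ : Finset V → ℝ}
    (h : IsLaw G {x | x ≠ z ∧ x ≠ c} μ) (hm : ∀ v, v ≠ z → v ≠ c → marg μ v = need G z v)
    (h1 : hit μ {x | G.Adj c x} + need G z c ≤ 1) : Fine G z := by
  have hp := Ext.pr_av (G := G) h.sum c
  refine Ext.core hc ∅ (fun u hu => absurd hu (Finset.notMem_empty u))
    (fun u hu => absurd hu (Finset.notMem_empty u)) ?_
    (fun v hv hvc _ => hm v hv hvc) (fun I => if Ext.Av G c I then 1 else 0) ?_ ?_ ?_ ?_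
    (fun u hu => absurd hu (Finset.notMem_empty u))
  · have h2 : {x : V | x ≠ z ∧ x ≠ c ∧ x ∉ (∅ : Finset V)} = {x | x ≠ z ∧ x ≠ c} := by
      ext x
      simp
    rw [h2]
    exact h
  · intro I
    split_ifs <;> norm_num
  · intro I
    split_ifs <;> norm_num
  · intro I hI
    by_contra hne
    exact hI (if_neg hne)
  · have h2 : (∑ I, μ I * (if Ext.Av G c I then (1 : ℝ) else 0)) = pr μ (Ext.Av G c) := by
      refine Finset.sum_congr rfl fun I _ => ?_
      split_ifs <;> simp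
    rw [h2]
    linarith

/-- `a = 1 - hit (N c)`, `b = 1 - hit (N u)`: `need u * a ≤ b * (a - need c)`. -/
theorem ext_unif [Fintype V] {G : SimpleGraph V} {z c : V} (hc : c ≠ z) (U : Finset V)
    (hU : ∀ u ∈ U, u ≠ z ∧ G.Adj c u) (hn : ∀ u ∈ U, ∀ v ∈ U, ¬G.Adj u v)
    {μ : Finset V → ℝ} (h : IsLaw G {x | x ≠ z ∧ x ≠ c ∧ x ∉ U} μ)
    (hm : ∀ v, v ≠ z → v ≠ c → v ∉ U → marg μ v = need G z v) {a b : ℝ}
    (ha : hit μ {x | G.Adj c x} + a ≤ 1) (ha' : need G z c ≤ a)
    (hb : ∀ u ∈ U, hit μ {x | G.Adj u x} + b ≤ 1)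
    (e : ∀ u ∈ U, need G z u * a ≤ b * (a - need G z c)) (ha0 : 0 < a) : Fine G z := by
  have hneed : ∀ v, 0 < need G z v := Ext.need_pos G z
  set q := need G z c with hq
  set p := pr μ (Ext.Av G c) with hp
  have hpa : a ≤ p := by
    have := Ext.pr_av (G := G) h.sum c
    linarith
  have hp0 : 0 < p := ha0.trans_le hpa
  have hq0 : 0 < q := hneed c
  have hqp : q / p ≤ 1 := (div_le_one hp0).2 (ha'.trans hpa)
  refine Ext.core hc U hU hn h hm (fun I => if Ext.Av G c I then q / p else 0) ?_ ?_ ?_ ?_ ?_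
  · intro I
    split_ifs
    · positivity
    · exact le_rfl
  · intro I
    split_ifs
    · exact hqp
    · exact zero_le_one
  · intro I hI
    by_contra hne
    exact hI (if_neg hne)
  · have h2 : (∑ I, μ I * (if Ext.Av G c I then q / p else 0)) = p * (q / p) := by
      rw [hp, Ext.pr_mul, pr]
      refine Finset.sum_congr rfl fun I _ => ?_
      split_ifs <;> simp
    rw [h2, mul_div_cancel₀ _ hp0.ne']
  · intro u hu
    set r := pr μ (Ext.Av G u) with hr
    have hbr : b ≤ r := by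
      have h2 := Ext.pr_av (G := G) h.sum u
      have h3 := hb u hu
      linarith
    have h2 : pr (fun I => μ I * (if Ext.Av G c I then q / p else 0)) (Ext.Av G u) ≤
        r * (q / p) := by
      rw [hr, Ext.pr_mul]
      refine Ext.pr_le fun I => ?_
      by_cases h3 : Ext.Av G u I
      · rw [if_pos h3, if_pos h3]
        refine mul_le_mul_of_nonneg_left ?_ (h.nonneg I)
        split_ifs
        · exact le_rfl
        · positivity
      · rw [if_neg h3, if_neg h3]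
    have h3 := e u hu
    have h4 := hneed u
    have haq : 0 < b * (a - q) := (mul_pos h4 ha0).trans_le h3
    have haq' : 0 ≤ a - q := sub_nonneg.2 ha'
    have haq1 : 0 < a - q := by
      rcases haq'.eq_or_lt with h5 | h5
      · rw [← h5, mul_zero] at haq
        exact absurd haq (lt_irrefl _)
      · exact h5
    have hb0 : 0 < b := by
      by_contra hb0
      exact absurd haq (not_lt.2 (mul_nonpos_of_nonpos_of_nonneg (not_lt.1 hb0) haq'))
    have h5 : need G z u ≤ r * (1 - q / p) := by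
      have h6 : need G z u ≤ b * (1 - q / a) := by
        rw [one_sub_div ha0.ne', mul_div_assoc', le_div_iff₀ ha0]
        exact h3
      have h7 : 1 - q / a ≤ 1 - q / p := by
        have : q / p ≤ q / a := div_le_div_of_nonneg_left hq0.le ha0 hpa
        linarith
      have h8 : 0 ≤ 1 - q / a := by
        rw [one_sub_div ha0.ne']
        positivity
      calc need G z u ≤ b * (1 - q / a) := h6
        _ ≤ r * (1 - q / p) := mul_le_mul hbr h7 h8 (hb0.le.trans hbr)
    linarith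

theorem ext_two [Fintype V] {G : SimpleGraph V} {z c u₁ u₂ : V} (hc : c ≠ z) (h1z : u₁ ≠ z)
    (h2z : u₂ ≠ z) (h12 : u₁ ≠ u₂) (hc1 : G.Adj c u₁) (hc2 : G.Adj c u₂) (hn : ¬G.Adj u₁ u₂)
    {μ : Finset V → ℝ} (h : IsLaw G {x | x ≠ z ∧ x ≠ c ∧ x ≠ u₁ ∧ x ≠ u₂} μ)
    (hm : ∀ v, v ≠ z → v ≠ c → v ≠ u₁ → v ≠ u₂ → marg μ v = need G z v)
    (e1 : hit μ {x | G.Adj c x} + need G z c + need G z u₁ ≤ 1)
    (e2 : hit μ {x | G.Adj c x} + need G z c + need G z u₂ ≤ 1)
    (e3 : hit μ {x | G.Adj u₁ x} + need G z u₁ ≤ 1)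
    (e4 : hit μ {x | G.Adj u₂ x} + need G z u₂ ≤ 1)
    (e5 : hit μ {x | G.Adj u₁ x} + hit μ {x | G.Adj u₂ x} + need G z c + need G z u₁ +
      need G z u₂ ≤ 2) : Fine G z := by
  have pc := Ext.pr_av (G := G) h.sum c
  have p1 := Ext.pr_av (G := G) h.sum u₁
  have p2 := Ext.pr_av (G := G) h.sum u₂
  set A := Ext.Av G c with hA
  set A₁ := Ext.Av G u₁ with hA₁
  set A₂ := Ext.Av G u₂ with hA₂
  -- the atoms
  set x₀ := pr μ (fun I => A I ∧ ¬A₁ I ∧ ¬A₂ I) with hx₀
  set x₁ := pr μ (fun I => A I ∧ A₁ I ∧ ¬A₂ I) with hx₁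
  set x₂ := pr μ (fun I => A I ∧ ¬A₁ I ∧ A₂ I) with hx₂
  set x₁₂ := pr μ (fun I => A I ∧ A₁ I ∧ A₂ I) with hx₁₂
  have hx : pr μ A = x₀ + x₁ + x₂ + x₁₂ := by
    rw [hx₀, hx₁, hx₂, hx₁₂, pr, pr, pr, pr, pr, ← Finset.sum_add_distrib,
      ← Finset.sum_add_distrib, ← Finset.sum_add_distrib]
    refine Finset.sum_congr rfl fun I _ => ?_
    by_cases h1 : A I <;> by_cases h2 : A₁ I <;> by_cases h3 : A₂ I <;> simp [h1, h2, h3]
  have hs1 : x₁ + x₁₂ ≤ pr μ A₁ := by
    rw [hx₁, hx₁₂, pr, pr, pr, ← Finset.sum_add_distrib]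
    refine Finset.sum_le_sum fun I _ => ?_
    have := h.nonneg I
    by_cases h1 : A I <;> by_cases h2 : A₁ I <;> by_cases h3 : A₂ I <;> simp [h1, h2, h3, this]
  have hs2 : x₂ + x₁₂ ≤ pr μ A₂ := by
    rw [hx₂, hx₁₂, pr, pr, pr, ← Finset.sum_add_distrib]
    refine Finset.sum_le_sum fun I _ => ?_
    have := h.nonneg I
    by_cases h1 : A I <;> by_cases h2 : A₁ I <;> by_cases h3 : A₂ I <;> simp [h1, h2, h3, this]
  have n0 := Ext.need_pos G z c
  have n1 := Ext.need_pos G z u₁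
  have n2 := Ext.need_pos G z u₂
  have k0 : 0 ≤ x₀ := Ext.pr_nonneg h.nonneg _
  have k1 : 0 ≤ x₁ := Ext.pr_nonneg h.nonneg _
  have k2 : 0 ≤ x₂ := Ext.pr_nonneg h.nonneg _
  have k12 : 0 ≤ x₁₂ := Ext.pr_nonneg h.nonneg _
  obtain ⟨y₁, y₂, y₁₂, a1, a2, a3, b1, b2, b3, c1, c2, c3⟩ := Ext.transport
    (q := need G z c) (s₁ := pr μ A₁ - need G z u₁) (s₂ := pr μ A₂ - need G z u₂) k0 k1 k2 k12
    (by linarith) (by linarith) (by linarith) (by linarith) (by linarith) (by linarith)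
  have hdiv : ∀ {x y : ℝ}, 0 ≤ y → y ≤ x → 0 ≤ y / x ∧ y / x ≤ 1 ∧ x * (y / x) = y := by
    intro x y hy hyx
    rcases (hy.trans hyx).eq_or_lt with h0 | h0
    · have : y = 0 := le_antisymm (hyx.trans h0.symm.le) hy
      rw [← h0, this]
      norm_num
    · exact ⟨div_nonneg hy h0.le, (div_le_one h0).2 hyx, mul_div_cancel₀ _ h0.ne'⟩
  obtain ⟨d1, d2, d3⟩ := hdiv a1 b1
  obtain ⟨d4, d5, d6⟩ := hdiv a2 b2
  obtain ⟨d7, d8, d9⟩ := hdiv a3 b3
  set θ : Finset V → ℝ := fun I => if A I then (if A₁ I then (if A₂ I then y₁₂ / x₁₂ else y₁ / x₁)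
    else (if A₂ I then y₂ / x₂ else 1)) else 0 with hθ
  have hmem : ∀ x, x ∈ ({u₁, u₂} : Finset V) ↔ x = u₁ ∨ x = u₂ := fun x => by simp
  refine Ext.core (μ := μ) hc {u₁, u₂} ?_ ?_ ?_ ?_ θ ?_ ?_ ?_ ?_ ?_
  · intro u hu
    rcases (hmem u).1 hu with rfl | rfl
    · exact ⟨h1z, hc1⟩
    · exact ⟨h2z, hc2⟩
  · intro u hu v hv
    rcases (hmem u).1 hu with hu | hu <;> rcases (hmem v).1 hv with hv | hv <;> rw [hu, hv]
    · exact G.loopless.irrefl _
    · exact hn
    · exact fun h3 => hn h3.symm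
    · exact G.loopless.irrefl _
  · have h2 : {x : V | x ≠ z ∧ x ≠ c ∧ x ∉ ({u₁, u₂} : Finset V)} =
        {x | x ≠ z ∧ x ≠ c ∧ x ≠ u₁ ∧ x ≠ u₂} := by
      ext x
      simp
    rw [h2]
    exact h
  · intro v hv hvc hvU
    rw [hmem] at hvU
    push Not at hvU
    exact hm v hv hvc hvU.1 hvU.2
  · intro I
    simp only [hθ]
    split_ifs <;> first | assumption | norm_num
  · intro I
    simp only [hθ]
    split_ifs <;> first | assumption | norm_num
  · intro I hI
    by_contra hne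
    exact hI (if_neg hne)
  · have h2 : (∑ I, μ I * θ I) = x₀ + x₁ * (y₁ / x₁) + x₂ * (y₂ / x₂) + x₁₂ * (y₁₂ / x₁₂) := by
      rw [hx₀]
      nth_rewrite 1 [hx₁]
      nth_rewrite 1 [hx₂]
      nth_rewrite 1 [hx₁₂]
      rw [Ext.pr_mul, Ext.pr_mul, Ext.pr_mul, pr, pr, pr, pr, ← Finset.sum_add_distrib,
        ← Finset.sum_add_distrib, ← Finset.sum_add_distrib]
      refine Finset.sum_congr rfl fun I _ => ?_
      by_cases h1 : A I <;> by_cases h2 : A₁ I <;> by_cases h3 : A₂ I <;> simp [hθ, h1, h2, h3]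
    rw [h2, d3, d6, d9]
    exact c3
  · intro u hu
    rcases (hmem u).1 hu with hu | hu <;> rw [hu]
    · have h2 : pr (fun I => μ I * θ I) A₁ = x₁ * (y₁ / x₁) + x₁₂ * (y₁₂ / x₁₂) := by
        nth_rewrite 1 [hx₁]
        nth_rewrite 1 [hx₁₂]
        rw [Ext.pr_mul, Ext.pr_mul, pr, pr, pr, ← Finset.sum_add_distrib]
        refine Finset.sum_congr rfl fun I _ => ?_
        by_cases h1 : A I <;> by_cases h2 : A₁ I <;> by_cases h3 : A₂ I <;> simp [hθ, h1, h2, h3]
      rw [h2, d3, d9]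
      linarith
    · have h2 : pr (fun I => μ I * θ I) A₂ = x₂ * (y₂ / x₂) + x₁₂ * (y₁₂ / x₁₂) := by
        nth_rewrite 1 [hx₂]
        nth_rewrite 1 [hx₁₂]
        rw [Ext.pr_mul, Ext.pr_mul, pr, pr, pr, ← Finset.sum_add_distrib]
        refine Finset.sum_congr rfl fun I _ => ?_
        by_cases h1 : A I <;> by_cases h2 : A₁ I <;> by_cases h3 : A₂ I <;> simp [hθ, h1, h2, h3]
      rw [h2, d6, d9]
      linarith

end DS
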