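import Pool.Agent.Work.MP_0890ba_co.DS.Star
import Pool.Agent.Work.MP_0890ba_co.DS.Ext

/-!
# A neighbour of `z` of degree seven
-/

set_option linter.unusedSectionVars false

namespace DS

open Finset Classical

namespace CH

variable {V : Type}

lemma hit_le [Fintype V] {G : SimpleGraph V} {X : Set V} {μ : Finset V → ℝ} (h : IsLaw G X μ)
    {K K₁ K₂ : Set V} (hK : ∀ v ∈ K, v ∈ X → v ∈ K₁ ∨ v ∈ K₂) :
    hit μ K ≤ hit μ K₁ + hit μ K₂ := by
  unfold hit pr
  rw [← sum_add_distrib]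
  refine sum_le_sum fun I _ => ?_
  have h0 := h.nonneg I
  by_cases hI : μ I = 0
  · simp [hI]
  by_cases h1 : ∃ v ∈ I, v ∈ K
  · rw [if_pos h1]
    obtain ⟨v, hv, hvK⟩ := h1
    rcases hK v hvK (h.sub I hI v hv) with h2 | h2
    · rw [if_pos (⟨v, hv, h2⟩ : ∃ v ∈ I, v ∈ K₁)]
      split_ifs <;> linarith
    · rw [if_pos (⟨v, hv, h2⟩ : ∃ v ∈ I, v ∈ K₂)]
      split_ifs <;> linarith
  · rw [if_neg h1]
    split_ifs <;> linarith

lemma hit_empty [Fintype V] (μ : Finset V → ℝ) : hit μ ∅ = 0 := by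
  unfold hit pr
  simp

lemma hit_single [Fintype V] (μ : Finset V → ℝ) (v : V) : hit μ {v} = marg μ v := by
  unfold hit marg pr
  refine sum_congr rfl fun I _ => ?_
  by_cases h : v ∈ I
  · rw [if_pos h, if_pos (⟨v, h, rfl⟩ : ∃ u ∈ I, u ∈ ({v} : Set V))]
  · rw [if_neg h, if_neg]
    rintro ⟨u, hu, hu'⟩
    rw [Set.mem_singleton_iff] at hu'
    exact h (hu' ▸ hu)

lemma hit_finset [Fintype V] {G : SimpleGraph V} {X : Set V} {μ : Finset V → ℝ}
    (h : IsLaw G X μ) (R : Finset V) : hit μ (R : Set V) ≤ ∑ v ∈ R, marg μ v := by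
  induction R using Finset.induction_on with
  | empty => rw [coe_empty, hit_empty, sum_empty]
  | insert a s ha ih =>
    rw [sum_insert ha, ← hit_single]
    refine (hit_le h (K₁ := {a}) (K₂ := (s : Set V)) ?_).trans (add_le_add le_rfl ih)
    intro v hv _
    rcases mem_insert.1 (mem_coe.1 hv) with h1 | h1
    · exact Or.inl h1
    · exact Or.inr (mem_coe.2 h1)

lemma link_dg [Fintype V] {G : SimpleGraph V} {v : V} {k : ℕ} {w : ZMod k → V}
    (hw : Link G v k w) : dg G v = k := by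
  have h3 := hw.three
  have : NeZero k := ⟨by omega⟩
  have h1 : G.neighborSet v = Set.range w := by
    ext u
    rw [SimpleGraph.mem_neighborSet, hw.nb u]
    rfl
  unfold dg
  rw [h1, ← Set.image_univ, Set.ncard_image_of_injective _ hw.inj, Set.ncard_univ,
    Nat.card_eq_fintype_card, ZMod.card]

lemma clink_shift {G : SimpleGraph V} {v : V} {k : ℕ} {w : ZMod k → V} (hw : CLink G v k w)
    (i : ZMod k) : CLink G v k fun j => w (j + i) := by
  refine ⟨⟨hw.three, fun a b h => ?_, fun u => ?_, fun j => ?_⟩, fun a b h => ?_⟩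
  · exact add_right_cancel (hw.inj h)
  · rw [hw.nb u]
    exact ⟨fun ⟨j, hj⟩ => ⟨j - i, by rw [← hj, sub_add_cancel]⟩, fun ⟨j, hj⟩ => ⟨j + i, hj⟩⟩
  · have h1 := hw.adj (j + i)
    rw [add_right_comm] at h1
    exact h1
  · rcases hw.cl _ _ h with h1 | h1
    · left
      rw [add_right_comm] at h1
      exact add_right_cancel h1
    · right
      rw [add_right_comm] at h1
      exact add_right_cancel h1

/-- A small neighbour of a neighbour of `z`. -/
lemma smleaf [Fintype V] {G : SimpleGraph V} {z : V}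
    (hcl : ∀ v, IsL G z v → ∃ (k : ℕ) (w : ZMod k → V), CLink G v k w)
    (h5 : ∀ v, v ≠ z → 5 ≤ dg G v)
    (hh2 : ∀ v o o', IsL G z v → G.Adj v o → G.Adj v o' → G.Adj z o → G.Adj z o' → o ≠ o' →
      G.Adj o o') {c u : V} (hc : G.Adj z c)
    (hcu : G.Adj c u) (hu : Sm G z u) : ∃ Q R : Finset V,
      (∀ v ∈ Q, G.Adj u v ∧ v ≠ c ∧ ¬G.Adj c v ∧ ¬G.Adj z v) ∧
      (∀ v ∈ Q, ∀ v' ∈ Q, ¬G.Adj v v') ∧ (∀ v ∈ R, G.Adj u v ∧ ¬G.Adj c v ∧ ¬G.Adj z v) ∧
      (∀ v, G.Adj u v → v = c ∨ G.Adj c v ∨ v ∈ Q ∨ v ∈ R) ∧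
      ((Q = ∅ ∧ R.card ≤ 2) ∨ R.card ≤ 1) := by
  obtain ⟨k, x, hx'⟩ := hcl u hu.1
  have hx := hx'.toLink
  obtain ⟨i, hi⟩ := (hx.nb c).1 hcu.symm
  have hy := clink_shift hx' i
  set y : ZMod k → V := fun j => x (j + i) with hyd
  have hy0 : y 0 = c := by
    rw [hyd]
    simp only [zero_add]
    exact hi
  have hk1 : 5 ≤ k := by
    rw [← link_dg hx]
    exact h5 u hu.1.1
  have hk2 : k ≤ 6 := by
    rw [← link_dg hx]
    exact hu.2
  -- vertices of the link not next to `c`
  have key : ∀ j : ZMod k, j ≠ 1 → (0 : ZMod k) ≠ j + 1 → j ≠ 0 →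
      G.Adj u (y j) ∧ y j ≠ c ∧ ¬G.Adj c (y j) ∧ ¬G.Adj z (y j) := by
    intro j h1 h2 h3
    have h4 : ¬G.Adj c (y j) := by
      rw [← hy0]
      intro h
      rcases hy.cl _ _ h with h6 | h6
      · rw [zero_add] at h6
        exact h1 h6
      · exact h2 h6
    have h6 : G.Adj u (y j) := (hy.nb _).2 ⟨j, rfl⟩
    have h7 : y j ≠ c := by
      rw [← hy0]
      exact fun h => h3 (hy.inj h)
    refine ⟨h6, h7, h4, fun h8 => h4 ?_⟩
    exact hh2 u c (y j) hu.1 hcu.symm h6 hc h8 h7.symm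
  have hnext : ∀ j : ZMod k, j = 1 ∨ 0 = j + 1 → G.Adj c (y j) := by
    rintro j (rfl | h)
    · have h1 := hy.adj 0
      rw [zero_add, hy0] at h1
      exact h1
    · have h1 := hy.adj j
      rw [← h, hy0] at h1
      exact h1.symm
  rcases (show k = 5 ∨ k = 6 by omega) with rfl | rfl
  · refine ⟨∅, {y 2, y 3}, fun v hv => absurd hv (notMem_empty v),
      fun v hv => absurd hv (notMem_empty v), ?_, ?_, Or.inl ⟨rfl, card_le_two⟩⟩
    · intro v hv
      rw [mem_insert, mem_singleton] at hv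
      rcases hv with rfl | rfl
      · have h1 := key 2 (by decide) (by decide) (by decide)
        exact ⟨h1.1, h1.2.2⟩
      · have h1 := key 3 (by decide) (by decide) (by decide)
        exact ⟨h1.1, h1.2.2⟩
    · intro v hv
      obtain ⟨j, rfl⟩ := (hy.nb v).1 hv
      have hj : ∀ j : ZMod 5, j = 0 ∨ (j = 1 ∨ 0 = j + 1) ∨ j = 2 ∨ j = 3 := by decide
      rcases hj j with rfl | h | rfl | rfl
      · exact Or.inl hy0
      · exact Or.inr (Or.inl (hnext j h))
      · exact Or.inr (Or.inr (Or.inr (by simp)))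
      · exact Or.inr (Or.inr (Or.inr (by simp)))
  · refine ⟨{y 2, y 4}, {y 3}, ?_, ?_, ?_, ?_, Or.inr (by simp)⟩
    · intro v hv
      rw [mem_insert, mem_singleton] at hv
      rcases hv with rfl | rfl
      · exact key 2 (by decide) (by decide) (by decide)
      · exact key 4 (by decide) (by decide) (by decide)
    · have h24 : ¬G.Adj (y 2) (y 4) := by
        intro h
        rcases hy.cl _ _ h with h1 | h1
        · exact absurd h1 (by decide)
        · exact absurd h1 (by decide)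
      intro v hv v' hv'
      rw [mem_insert, mem_singleton] at hv hv'
      rcases hv with rfl | rfl <;> rcases hv' with rfl | rfl
      · exact G.loopless.irrefl _
      · exact h24
      · exact fun h => h24 h.symm
      · exact G.loopless.irrefl _
    · intro v hv
      rw [mem_singleton] at hv
      subst hv
      have h1 := key 3 (by decide) (by decide) (by decide)
      exact ⟨h1.1, h1.2.2⟩
    · intro v hv
      obtain ⟨j, rfl⟩ := (hy.nb v).1 hv
      have hj : ∀ j : ZMod 6, j = 0 ∨ (j = 1 ∨ 0 = j + 1) ∨ j = 2 ∨ j = 3 ∨ j = 4 := by decide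
      rcases hj j with rfl | h | rfl | rfl | rfl
      · exact Or.inl hy0
      · exact Or.inr (Or.inl (hnext j h))
      · exact Or.inr (Or.inr (Or.inl (by simp)))
      · exact Or.inr (Or.inr (Or.inr (by simp)))
      · exact Or.inr (Or.inr (Or.inl (by simp)))

end CH

open CH in
/-- A neighbour of `z` of degree seven has no two small neighbours at the positions two and four of
its link. -/
theorem Min.cH' {V : Type} [Fintype V] {G : SimpleGraph V} {z : V} (hm : Min G z)
    (hcl : ∀ v, IsL G z v → ∃ (k : ℕ) (w : ZMod k → V), CLink G v k w)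
    (h5 : ∀ v, v ≠ z → 5 ≤ dg G v)
    (hh2 : ∀ v o o', IsL G z v → G.Adj v o → G.Adj v o' → G.Adj z o → G.Adj z o' → o ≠ o' →
      G.Adj o o')
    (hnoq : ∀ (c : V) (w : ZMod 7 → V), c ≠ z → CLink G c 7 w → ∀ i j, i ≠ j → j ≠ i + 1 →
      i ≠ j + 1 → IsL G z (w i) → IsL G z (w j) → ∀ q, G.Adj (w i) q → G.Adj (w j) q →
      q = c ∨ G.Adj c q)
    (c : V) (w : ZMod 7 → V) (hc : G.Adj z c) (hw : CLink G c 7 w) (h0 : w 0 = z)
    (h2 : Sm G z (w 2)) (h4 : Sm G z (w 4)) : False := by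
  have hcz : c ≠ z := hc.ne'
  have hN : ∀ i, G.Adj c (w i) := fun i => (hw.nb _).2 ⟨i, rfl⟩
  have hne : ∀ i j, i ≠ j → w i ≠ w j := fun i j h h' => h (hw.inj h')
  have hna : ∀ i j, j ≠ i + 1 → i ≠ j + 1 → ¬G.Adj (w i) (w j) := fun i j h h' h'' => by
    rcases hw.cl _ _ h'' with h3 | h3
    · exact h h3
    · exact h' h3
  have hz1 : G.Adj z (w 1) := by
    have h1 := hw.adj 0
    rw [h0] at h1
    exact h1
  have hz6 : G.Adj z (w 6) := by
    have h1 := hw.adj 6
    have h3 : (6 : ZMod 7) + 1 = 0 := by decide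
    rw [h3, h0] at h1
    exact h1.symm
  have hwz : ∀ i, i ≠ 0 → w i ≠ z := fun i h => by
    rw [← h0]
    exact hne _ _ h
  obtain ⟨Q₁, R₁, a1, a2, a3, a4, a5⟩ := smleaf hcl h5 hh2 hc (hN 2) h2
  obtain ⟨Q₂, R₂, b1, b2, b3, b4, b5⟩ := smleaf hcl h5 hh2 hc (hN 4) h4
  have h24 : ¬G.Adj (w 2) (w 4) := hna 2 4 (by decide) (by decide)
  set J : Finset V := {w 1, w 3, w 5} with hJ
  have hJm : ∀ v, v ∈ J ↔ v = w 1 ∨ v = w 3 ∨ v = w 5 := fun v => by simp [hJ]
  set U : Finset V := {w 2, w 4} with hU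
  have hUm : ∀ v, v ∈ U ↔ v = w 2 ∨ v = w 4 := fun v => by simp [hU]
  -- common neighbours
  have hcom : ∀ q, G.Adj (w 2) q → G.Adj (w 4) q → q = c ∨ G.Adj c q := fun q h h' =>
    hnoq c w hcz hw 2 4 (by decide) (by decide) (by decide) h2.1 h4.1 q h h'
  have hstar := hm.star hcz U
    (fun u hu => by
      rcases (hUm u).1 hu with rfl | rfl
      · exact ⟨hN 2, h2.1⟩
      · exact ⟨hN 4, h4.1⟩)
    (fun u hu v hv => by
      rcases (hUm u).1 hu with rfl | rfl <;> rcases (hUm v).1 hv with rfl | rfl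
      · exact G.loopless.irrefl _
      · exact h24
      · exact fun h => h24 h.symm
      · exact G.loopless.irrefl _)
    J
    (fun v hv => by
      rcases (hJm v).1 hv with rfl | rfl | rfl
      · refine ⟨hN 1, hwz 1 (by decide), fun h => ?_⟩
        rcases (hUm _).1 h with h | h
        · exact hne 1 2 (by decide) h
        · exact hne 1 4 (by decide) h
      · refine ⟨hN 3, hwz 3 (by decide), fun h => ?_⟩
        rcases (hUm _).1 h with h | h
        · exact hne 3 2 (by decide) h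
        · exact hne 3 4 (by decide) h
      · refine ⟨hN 5, hwz 5 (by decide), fun h => ?_⟩
        rcases (hUm _).1 h with h | h
        · exact hne 5 2 (by decide) h
        · exact hne 5 4 (by decide) h)
    (fun u hu v hv => by
      rcases (hJm u).1 hu with rfl | rfl | rfl <;> rcases (hJm v).1 hv with rfl | rfl | rfl
      · exact G.loopless.irrefl _
      · exact hna 1 3 (by decide) (by decide)
      · exact hna 1 5 (by decide) (by decide)
      · exact hna 3 1 (by decide) (by decide)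
      · exact G.loopless.irrefl _
      · exact hna 3 5 (by decide) (by decide)
      · exact hna 5 1 (by decide) (by decide)
      · exact hna 5 3 (by decide) (by decide)
      · exact G.loopless.irrefl _)
    (fun u => if u = w 2 then Q₁ else Q₂)
    (fun u hu v hv => by
      have hJv : ¬G.Adj c v → v ∉ J := fun h h' => by
        rcases (hJm v).1 h' with rfl | rfl | rfl
        · exact h (hN 1)
        · exact h (hN 3)
        · exact h (hN 5)
      have hUv : ¬G.Adj c v → v ∉ U := fun h h' => by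
        rcases (hUm v).1 h' with rfl | rfl
        · exact h (hN 2)
        · exact h (hN 4)
      rcases (hUm u).1 hu with rfl | rfl
      · rw [if_pos rfl] at hv
        obtain ⟨q1, q2, q3, -⟩ := a1 v hv
        exact ⟨q1, q2, hJv q3, hUv q3⟩
      · rw [if_neg (hne 4 2 (by decide))] at hv
        obtain ⟨q1, q2, q3, -⟩ := b1 v hv
        exact ⟨q1, q2, hJv q3, hUv q3⟩)
    (fun u hu v hv v' hv' => by
      rcases (hUm u).1 hu with rfl | rfl
      · rw [if_pos rfl] at hv hv'
        exact a2 v hv v' hv'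
      · rw [if_neg (hne 4 2 (by decide))] at hv hv'
        exact b2 v hv v' hv')
    (fun u hu u' hu' huu => by
      have hd : Disjoint Q₁ Q₂ := by
        rw [disjoint_left]
        intro q hq hq'
        obtain ⟨q1, q2, q3, -⟩ := a1 q hq
        obtain ⟨r1, -, -, -⟩ := b1 q hq'
        rcases hcom q q1 r1 with h | h
        · exact q2 h
        · exact q3 h
      have h42 : w 4 ≠ w 2 := hne 4 2 (by decide)
      rcases (hUm u).1 hu with rfl | rfl <;> rcases (hUm u').1 hu' with rfl | rfl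
      · exact absurd rfl huu
      · rw [if_pos rfl, if_neg h42]
        exact hd
      · rw [if_pos rfl, if_neg h42]
        exact hd.symm
      · exact absurd rfl huu)
  obtain ⟨μ, hμ, hmarg, hitJ, hitQ⟩ := hstar
  have k1 : kap = 1 / 100 := rfl
  have hnz : ∀ v, ¬G.Adj z v → need G z v = (1 + kap) / 5 := fun v h => by
    unfold need
    rw [if_neg h]
  have hcneed : need G z c = (1 + kap) / 4 := by
    unfold need
    rw [if_pos hc]
  have hJ4 : hit μ (J : Set V) ≤ (1 + kap) / 4 := by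
    refine hitJ.trans ?_
    unfold nd
    split_ifs
    · exact le_rfl
    · rw [k1]
      norm_num
  have h6 : marg μ (w 6) = (1 + kap) / 4 := by
    rw [hmarg (w 6) (hwz 6 (by decide)) (hN 6).ne' fun h => ?_]
    · unfold need
      rw [if_pos hz6]
    · rcases (hUm _).1 h with h | h
      · exact hne 6 2 (by decide) h
      · exact hne 6 4 (by decide) h
  have hNc : hit μ {x | G.Adj c x} ≤ (1 + kap) / 2 := by
    have h := hit_le hμ (K := {x | G.Adj c x}) (K₁ := (J : Set V)) (K₂ := {w 6}) ?_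
    · rw [hit_single, h6] at h
      linarith
    · intro v hv hX
      obtain ⟨x1, x2, x3⟩ := hX
      obtain ⟨i, rfl⟩ := (hw.nb v).1 hv
      have hi : ∀ i : ZMod 7, i = 0 ∨ (i = 1 ∨ i = 3 ∨ i = 5) ∨ (i = 2 ∨ i = 4) ∨ i = 6 := by
        decide
      rcases hi i with rfl | h | h | rfl
      · exact absurd h0 x1
      · left
        refine mem_coe.2 ((hJm _).2 ?_)
        rcases h with rfl | rfl | rfl
        · exact Or.inl rfl
        · exact Or.inr (Or.inl rfl)
        · exact Or.inr (Or.inr rfl)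
      · exact absurd ((hUm _).2 (by rcases h with rfl | rfl <;> simp)) x3
      · exact Or.inr rfl
  -- the neighbours of a small vertex
  have hNu : ∀ i : ZMod 7, (i = 2 ∨ i = 4) → ∀ Q R : Finset V, Sm G z (w i) →
      (∀ v ∈ Q, G.Adj (w i) v ∧ v ≠ c ∧ ¬G.Adj c v ∧ ¬G.Adj z v) →
      (∀ v ∈ R, G.Adj (w i) v ∧ ¬G.Adj c v ∧ ¬G.Adj z v) →
      (∀ v, G.Adj (w i) v → v = c ∨ G.Adj c v ∨ v ∈ Q ∨ v ∈ R) →
      ((Q = ∅ ∧ R.card ≤ 2) ∨ R.card ≤ 1) → hit μ (Q : Set V) ≤ nd G z Q →
      hit μ {x | G.Adj (w i) x} ≤ (1 + kap) * (13 / 20) := by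
    intro i hi Q R hS hQ hR hA hQR hhQ
    have e1 := hit_le hμ (K := {x | G.Adj (w i) x}) (K₁ := (J : Set V)) (K₂ := (Q : Set V) ∪ R) ?_
    · have e2 := hit_le hμ (K := (Q : Set V) ∪ R) (K₁ := (Q : Set V)) (K₂ := (R : Set V))
        fun v hv _ => hv
      have e3 := hit_finset hμ R
      have e4 : ∑ v ∈ R, marg μ v ≤ R.card * ((1 + kap) / 5) := by
        rw [← nsmul_eq_mul]
        refine sum_le_card_nsmul _ _ _ fun v hv => ?_
        obtain ⟨r1, r2, r3⟩ := hR v hv
        rw [hmarg v (fun h => ?_) (fun h => r3 (h ▸ hc)) (fun h => ?_), hnz v r3]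
        · exact hS.1.2 (h ▸ r1.symm)
        · rcases (hUm _).1 h with rfl | rfl
          · exact r2 (hN 2)
          · exact r2 (hN 4)
      have e5 : hit μ (Q : Set V) ≤ (1 + kap) / 5 := by
        refine hhQ.trans (le_of_eq ?_)
        unfold nd
        rw [if_neg]
        rintro ⟨v, hv, hv'⟩
        exact (hQ v (mem_coe.1 hv)).2.2.2 hv'
      have e6 : hit μ (Q : Set V) + ∑ v ∈ R, marg μ v ≤ (1 + kap) * (2 / 5) := by
        rcases hQR with ⟨q1, q2⟩ | q2
        · rw [q1, coe_empty, hit_empty]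
          have q3 : (R.card : ℝ) ≤ 2 := by exact_mod_cast q2
          have : (R.card : ℝ) * ((1 + kap) / 5) ≤ 2 * ((1 + kap) / 5) :=
            mul_le_mul_of_nonneg_right q3 (by rw [k1]; norm_num)
          linarith
        · have q3 : (R.card : ℝ) ≤ 1 := by exact_mod_cast q2
          have : (R.card : ℝ) * ((1 + kap) / 5) ≤ 1 * ((1 + kap) / 5) :=
            mul_le_mul_of_nonneg_right q3 (by rw [k1]; norm_num)
          linarith
      linarith
    · intro v hv hX
      obtain ⟨x1, x2, x3⟩ := hX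
      rcases hA v hv with h | h | h | h
      · exact absurd h x2
      · left
        obtain ⟨j, rfl⟩ := (hw.nb v).1 h
        refine mem_coe.2 ((hJm _).2 ?_)
        have hj : ∀ i j : ZMod 7, (i = 2 ∨ i = 4) → (j = i + 1 ∨ i = j + 1) →
            j = 1 ∨ j = 3 ∨ j = 5 := by decide
        rcases hj i j hi (hw.cl _ _ hv) with h' | h' | h'
        · exact Or.inl (by rw [h'])
        · exact Or.inr (Or.inl (by rw [h']))
        · exact Or.inr (Or.inr (by rw [h']))
      · exact Or.inr (Or.inl h)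
      · exact Or.inr (Or.inr h)
  have hN2 := hNu 2 (Or.inl rfl) Q₁ R₁ h2 a1 a3 a4 a5 (by
    have h := hitQ (w 2) ((hUm _).2 (Or.inl rfl))
    rw [if_pos rfl] at h
    exact h)
  have hN4 := hNu 4 (Or.inr rfl) Q₂ R₂ h4 b1 b3 b4 b5 (by
    have h := hitQ (w 4) ((hUm _).2 (Or.inr rfl))
    rw [if_neg (hne 4 2 (by decide))] at h
    exact h)
  have hset : {x | x ≠ z ∧ x ≠ c ∧ x ∉ U} = {x | x ≠ z ∧ x ≠ c ∧ x ≠ w 2 ∧ x ≠ w 4} := by
    ext x
    simp only [Set.mem_ofPred_eq, hUm, not_or]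
  rw [hset] at hμ
  refine hm.bad (ext_two hcz (hwz 2 (by decide)) (hwz 4 (by decide)) (hne 2 4 (by decide)) (hN 2)
    (hN 4) h24 hμ (fun v v1 v2 v3 v4 => hmarg v v1 v2 fun h => ?_) ?_ ?_ ?_ ?_ ?_)
  · rcases (hUm _).1 h with h | h
    · exact v3 h
    · exact v4 h
  · rw [hcneed, hnz _ h2.1.2]
    rw [k1] at *
    linarith
  · rw [hcneed, hnz _ h4.1.2]
    rw [k1] at *
    linarith
  · rw [hnz _ h2.1.2]
    rw [k1] at *
    linarith
  · rw [hnz _ h4.1.2]
    rw [k1] at *
    linarith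
  · rw [hcneed, hnz _ h2.1.2, hnz _ h4.1.2]
    rw [k1] at *
    linarith

end DS
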