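import Pool.Agent.Work.MP_0890ba_co.DS.Ext
import Pool.Agent.Work.MP_0890ba_co.DS.MinB
import Pool.Agent.Work.MP_0890ba_co.DS.Star
import Pool.Agent.Work.MP_0890ba_co.DS.Tri

/-!
# Configurations with two leaves around a vertex which is not next to `z`
-/

set_option linter.unusedSectionVars false

namespace DS

open Finset Classical

variable {V : Type}

namespace Conf

/-- What the two configurations need from the other modules. -/
structure Inp [Fintype V] (G : SimpleGraph V) (z : V) : Prop where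
  five : ∀ v, v ≠ z → 5 ≤ dg G v
  clink : ∀ v, ¬(G.Adj z v ∧ dg G z = 3) → ∀ k (w : ZMod k → V), Link G v k w → CLink G v k w
  h2 : ∀ v o o', IsL G z v → G.Adj v o → G.Adj v o' → G.Adj z o → G.Adj z o' → o ≠ o' →
    G.Adj o o'
  noq : ∀ c, c ≠ z → ∀ k (w : ZMod k → V), CLink G c k w → ∀ i j : ZMod k, i ≠ j → j ≠ i + 1 →
    i ≠ j + 1 → IsL G z (w i) → IsL G z (w j) → ∀ q, G.Adj (w i) q → G.Adj (w j) q →
    q = c ∨ G.Adj c q

/-! ### Links -/

lemma dg_link {G : SimpleGraph V} {v : V} {k : ℕ} {w : ZMod k → V} (hw : Link G v k w) :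
    dg G v = k := by
  have h3 := hw.three
  have : NeZero k := ⟨by omega⟩
  have h1 : G.neighborSet v = w '' Set.univ := by
    ext u
    rw [SimpleGraph.mem_neighborSet, hw.nb u]
    simp
  unfold dg
  rw [h1, Set.ncard_image_of_injective _ hw.inj, Set.ncard_univ, Nat.card_eq_fintype_card,
    ZMod.card]

lemma rot {G : SimpleGraph V} {v : V} {k : ℕ} {w : ZMod k → V} (hw : CLink G v k w) (a : ZMod k) :
    CLink G v k fun i => w (a + i) where
  three := hw.three
  inj := fun i j h => add_left_cancel (hw.inj h)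
  nb := fun u => by
    rw [hw.nb u]
    constructor
    · rintro ⟨i, hi⟩
      exact ⟨i - a, by rw [← hi]; congr 1; ring⟩
    · rintro ⟨i, hi⟩
      exact ⟨a + i, hi⟩
  adj := fun i => by
    have := hw.adj (a + i)
    rwa [add_assoc] at this
  cl := fun i j h => by
    rcases hw.cl _ _ h with h1 | h1
    · left
      rw [add_assoc] at h1
      exact add_left_cancel h1
    · right
      rw [add_assoc] at h1
      exact add_left_cancel h1

lemma refl {G : SimpleGraph V} {v : V} {k : ℕ} {w : ZMod k → V} (hw : CLink G v k w) :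
    CLink G v k fun i => w (-i) where
  three := hw.three
  inj := fun i j h => neg_injective (hw.inj h)
  nb := fun u => by
    rw [hw.nb u]
    constructor
    · rintro ⟨i, hi⟩
      exact ⟨-i, by rw [← hi, neg_neg]⟩
    · rintro ⟨i, hi⟩
      exact ⟨-i, hi⟩
  adj := fun i => by
    have := hw.adj (-(i + 1))
    rw [show -(i + 1) + 1 = -i by ring] at this
    exact this.symm
  cl := fun i j h => by
    rcases hw.cl _ _ h with h1 | h1
    · right
      have : i = j + 1 := by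
        have := congrArg (fun x => -x) h1
        simp only [neg_neg, neg_add] at this
        rw [this]; ring
      exact this
    · left
      have : j = i + 1 := by
        have := congrArg (fun x => -x) h1
        simp only [neg_neg, neg_add] at this
        rw [this]; ring
      exact this

/-- The link of `u` can be started at `c` in the direction of `a`. -/
lemma orient {G : SimpleGraph V} {u c a : V} {k : ℕ} {w : ZMod k → V} (hw : CLink G u k w)
    (hc : G.Adj u c) (ha : G.Adj u a) (hca : G.Adj c a) :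
    ∃ y : ZMod k → V, CLink G u k y ∧ y 0 = c ∧ y 1 = a := by
  obtain ⟨i, hi⟩ := (hw.nb c).1 hc
  obtain ⟨j, hj⟩ := (hw.nb a).1 ha
  have h1 : G.Adj (w i) (w j) := by rw [hi, hj]; exact hca
  rcases hw.cl _ _ h1 with h2 | h2
  · refine ⟨fun n => w (i + n), rot hw i, ?_, ?_⟩
    · simp only [add_zero]; exact hi
    · simp only; rw [← h2]; exact hj
  · refine ⟨fun n => w (i + -n), refl (rot hw i), ?_, ?_⟩
    · simp only [neg_zero, add_zero]; exact hi
    · simp only
      rw [show i + -1 = j by rw [h2]; ring]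
      exact hj

/-- The third vertex of the link. -/
lemma orient_neg {G : SimpleGraph V} {u : V} {k : ℕ} {y : ZMod k → V} (hy : CLink G u k y) {b : V}
    (hb : G.Adj u b) (hcb : G.Adj (y 0) b) (hne : b ≠ y 1) : y (-1) = b := by
  obtain ⟨j, hj⟩ := (hy.nb b).1 hb
  have h1 : G.Adj (y 0) (y j) := by rw [hj]; exact hcb
  rcases hy.cl _ _ h1 with h2 | h2
  · exfalso
    apply hne
    rw [← hj, h2, zero_add]
  · rw [← hj]
    congr 1
    have : j = -1 := by
      have := eq_neg_of_add_eq_zero_left h2.symm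
      exact this
    rw [this]

/-! ### Probabilities -/

variable [Fintype V]

lemma hit_single {μ : Finset V → ℝ} (v : V) : hit μ {v} = marg μ v := by
  unfold hit marg pr
  refine sum_congr rfl fun I _ => ?_
  congr 1
  simp

lemma hit_cover {G : SimpleGraph V} {X : Set V} {μ : Finset V → ℝ} (h : IsLaw G X μ)
    {K A B C : Set V} (hK : ∀ v ∈ K, v ∈ X → v ∈ A ∨ v ∈ B ∨ v ∈ C) :
    hit μ K ≤ hit μ A + hit μ B + hit μ C := by
  unfold hit pr
  rw [← sum_add_distrib, ← sum_add_distrib]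
  refine sum_le_sum fun I _ => ?_
  beta_reduce
  have h0 := h.nonneg I
  by_cases h1 : ∃ v ∈ I, v ∈ K
  · by_cases hI : μ I = 0
    · rw [if_pos h1, hI]
      simp
    rw [if_pos h1]
    obtain ⟨v, hv, hvK⟩ := h1
    rcases hK v hvK (h.sub I hI v hv) with h8 | h8 | h8
    · rw [if_pos (⟨v, hv, h8⟩ : ∃ v ∈ I, v ∈ A)]
      split_ifs <;> linarith
    · rw [if_pos (⟨v, hv, h8⟩ : ∃ v ∈ I, v ∈ B)]
      split_ifs <;> linarith
    · rw [if_pos (⟨v, hv, h8⟩ : ∃ v ∈ I, v ∈ C)]
      split_ifs <;> linarith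
  · rw [if_neg h1]
    split_ifs <;> linarith

lemma hit_cover2 {G : SimpleGraph V} {X : Set V} {μ : Finset V → ℝ} (h : IsLaw G X μ)
    {K A B : Set V} (hK : ∀ v ∈ K, v ∈ X → v ∈ A ∨ v ∈ B) :
    hit μ K ≤ hit μ A + hit μ B := by
  have h1 := hit_cover h (K := K) (A := A) (B := B) (C := ∅) fun v hv hx =>
    (hK v hv hx).imp id Or.inl
  have h2 : hit μ (∅ : Set V) = 0 := by
    unfold hit pr
    simp
  linarith

/-- What a leaf sees. -/
lemma leaf {G : SimpleGraph V} {z u a s : V} {X : Set V} {μ : Finset V → ℝ}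
    (h : IsLaw G X μ) (hu : IsL G z u)
    (h2 : ∀ o o', G.Adj u o → G.Adj u o' → G.Adj z o → G.Adj z o' → o ≠ o' → G.Adj o o')
    {A B : Set V} (ha : G.Adj u a) (haA : ∀ v ∈ A, G.Adj z v → v = a)
    (hBu : ∀ v ∈ B, G.Adj u v) (haB : a ∉ B) (hs : G.Adj u s) (hsB : s ∉ B) (hsa : ¬G.Adj a s)
    (hsa' : a ≠ s) (hcov : ∀ v, G.Adj u v → v ∈ X → v ∈ A ∨ v ∈ B ∨ v = s)
    (hA : hit μ A ≤ nd G z A) (hB : hit μ B ≤ nd G z B) (hs' : marg μ s = need G z s) :
    hit μ {x | G.Adj u x} ≤ 1414 / 2000 ∧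
      (¬N2 G z u → hit μ {x | G.Adj u x} ≤ 1313 / 2000) := by
  have h3 := hit_cover h (K := {x | G.Adj u x}) (A := A) (B := B) (C := {s}) hcov
  rw [hit_single, hs'] at h3
  have h4 : hit μ {x | G.Adj u x} ≤ nd G z A + nd G z B + need G z s := by linarith
  unfold nd need kap at h4
  have n2 : ∀ o o', G.Adj u o → G.Adj u o' → G.Adj z o → G.Adj z o' → o ≠ o' → N2 G z u :=
    fun o o' g1 g2 g3 g4 g5 => ⟨hu, o, o', g5, g1, g2, g3, g4⟩
  by_cases eA : ∃ v ∈ A, G.Adj z v
  · obtain ⟨v, hv, hvz⟩ := eA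
    have hva := haA v hv hvz
    subst hva
    have eS : ¬G.Adj z s := fun hz => hsa (h2 v s ha hs hvz hz hsa')
    rw [if_pos (⟨v, hv, hvz⟩ : ∃ v ∈ A, G.Adj z v), if_neg eS] at h4
    by_cases eB : ∃ v ∈ B, G.Adj z v
    · obtain ⟨b, hb, hbz⟩ := eB
      rw [if_pos (⟨b, hb, hbz⟩ : ∃ v ∈ B, G.Adj z v)] at h4
      refine ⟨by linarith, fun hn => ?_⟩
      exact absurd (n2 v b ha (hBu b hb) hvz hbz fun he => haB (he ▸ hb)) hn
    · rw [if_neg eB] at h4
      exact ⟨by linarith, fun _ => by linarith⟩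
  · rw [if_neg eA] at h4
    by_cases eB : ∃ v ∈ B, G.Adj z v
    · rw [if_pos eB] at h4
      by_cases eS : G.Adj z s
      · rw [if_pos eS] at h4
        obtain ⟨b, hb, hbz⟩ := eB
        refine ⟨by linarith, fun hn => ?_⟩
        exact absurd (n2 b s (hBu b hb) hs hbz eS fun he => hsB (he ▸ hb)) hn
      · rw [if_neg eS] at h4
        exact ⟨by linarith, fun _ => by linarith⟩
    · rw [if_neg eB] at h4
      by_cases eS : G.Adj z s
      · rw [if_pos eS] at h4
        exact ⟨by linarith, fun _ => by linarith⟩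
      · rw [if_neg eS] at h4
        exact ⟨by linarith, fun _ => by linarith⟩

/-- The pair `Q` and the single vertex `s` of a leaf `u`. -/
structure Leaf (G : SimpleGraph V) (z c u₁ u₂ u a : V) (J Q : Finset V) (s : V) : Prop where
  isL : IsL G z u
  adj : G.Adj c u
  au : G.Adj u a
  q : ∀ v ∈ Q, G.Adj u v ∧ v ≠ c ∧ v ∉ J ∧ v ≠ u₁ ∧ v ≠ u₂
  qq : ∀ v ∈ Q, ∀ v' ∈ Q, ¬G.Adj v v'
  su : G.Adj u s
  sQ : s ∉ Q
  sa : a ≠ s
  sna : ¬G.Adj a s
  sc : s ≠ c
  s1 : s ≠ u₁
  s2 : s ≠ u₂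
  cov : ∀ v, G.Adj u v → v = c ∨ v ∈ J ∨ v ∈ Q ∨ v = s

/-- Two leaves. -/
theorem two {G : SimpleGraph V} {z : V} (hm : Min G z) (hin : Inp G z) {c u₁ u₂ r a : V} (hc : IsL G z c)
    (h12 : u₁ ≠ u₂) (hn : ¬G.Adj u₁ u₂) {J Q₁ Q₂ : Finset V} {s₁ s₂ : V} (haJ : a ∈ J)
    (hJ : ∀ v ∈ J, G.Adj c v ∧ v ≠ u₁ ∧ v ≠ u₂) (hJJ : ∀ u ∈ J, ∀ v ∈ J, ¬G.Adj u v)
    (hJz : ∀ v ∈ J, G.Adj z v → v = a)
    (hr : G.Adj c r) (hr1 : r ≠ u₁) (hr2 : r ≠ u₂)
    (hcov : ∀ v, G.Adj c v → v = u₁ ∨ v = u₂ ∨ v ∈ J ∨ v = r)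
    (l₁ : Leaf G z c u₁ u₂ u₁ a J Q₁ s₁) (l₂ : Leaf G z c u₁ u₂ u₂ a J Q₂ s₂)
    (hd : ∀ v ∈ Q₁, v ∉ Q₂) : N2 G z u₁ ∧ N2 G z u₂ := by
  by_contra hcon
  have hL : ∀ {x y : V}, IsL G z x → G.Adj x y → y ≠ z := by
    rintro x y hx hxy rfl
    exact hx.2 hxy.symm
  have hU : ∀ x : V, x ∈ ({u₁, u₂} : Finset V) ↔ x = u₁ ∨ x = u₂ := fun x => by
    rw [mem_insert, mem_singleton]
  obtain ⟨μ, hμ, hmarg, hμJ, hμQ⟩ := hm.star (c := c) hc.1 {u₁, u₂}
    (by
      intro u hu
      rcases (hU u).1 hu with rfl | rfl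
      · exact ⟨l₁.adj, l₁.isL⟩
      · exact ⟨l₂.adj, l₂.isL⟩)
    (by
      intro u hu v hv
      rcases (hU u).1 hu with rfl | rfl <;> rcases (hU v).1 hv with rfl | rfl
      · exact G.loopless.irrefl _
      · exact hn
      · exact fun h => hn h.symm
      · exact G.loopless.irrefl _)
    J
    (by
      intro v hv
      obtain ⟨g1, g2, g3⟩ := hJ v hv
      exact ⟨g1, hL hc g1, fun h => ((hU v).1 h).elim g2 g3⟩)
    hJJ (fun u => if u = u₁ then Q₁ else Q₂)
    (by
      intro u hu v hv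
      rcases (hU u).1 hu with rfl | rfl
      · simp only [if_true] at hv
        obtain ⟨g1, g2, g3, g4, g5⟩ := l₁.q v hv
        exact ⟨g1, g2, g3, fun h => ((hU v).1 h).elim g4 g5⟩
      · rw [if_neg (Ne.symm h12)] at hv
        obtain ⟨g1, g2, g3, g4, g5⟩ := l₂.q v hv
        exact ⟨g1, g2, g3, fun h => ((hU v).1 h).elim g4 g5⟩)
    (by
      intro u hu v hv v' hv'
      rcases (hU u).1 hu with rfl | rfl
      · simp only [if_true] at hv hv'
        exact l₁.qq v hv v' hv'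
      · rw [if_neg (Ne.symm h12)] at hv hv'
        exact l₂.qq v hv v' hv')
    (by
      intro u hu u' hu' hne
      rw [Finset.disjoint_left]
      intro v hv hv'
      rcases (hU u).1 hu with rfl | rfl <;> rcases (hU u').1 hu' with rfl | rfl
      · exact hne rfl
      · simp only [if_true] at hv
        rw [if_neg (Ne.symm h12)] at hv'
        exact hd v hv hv'
      · simp only [if_true] at hv'
        rw [if_neg (Ne.symm h12)] at hv
        exact hd v hv' hv
      · exact hne rfl)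
  have hX : {x | x ≠ z ∧ x ≠ c ∧ x ∉ ({u₁, u₂} : Finset V)} =
      {x | x ≠ z ∧ x ≠ c ∧ x ≠ u₁ ∧ x ≠ u₂} := by
    ext x
    simp only [Set.mem_ofPred_eq, hU, not_or]
  have q1 := hμQ u₁ ((hU _).2 (Or.inl rfl))
  have q2 := hμQ u₂ ((hU _).2 (Or.inr rfl))
  simp only [if_true] at q1
  rw [if_neg (Ne.symm h12)] at q2
  have hmarg' : ∀ v, v ≠ z → v ≠ c → v ≠ u₁ → v ≠ u₂ → marg μ v = need G z v :=
    fun v g1 g2 g3 g4 => hmarg v g1 g2 fun h => ((hU v).1 h).elim g3 g4
  have key : ∀ {u s : V} {Q : Finset V}, Leaf G z c u₁ u₂ u a J Q s →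
      hit μ (Q : Set V) ≤ nd G z Q →
      hit μ {x | G.Adj u x} ≤ 1414 / 2000 ∧
        (¬N2 G z u → hit μ {x | G.Adj u x} ≤ 1313 / 2000) := by
    intro u s Q l hq
    refine leaf hμ l.isL (fun o o' g1 g2 g3 g4 g5 => hin.h2 u o o' l.isL g1 g2 g3 g4 g5)
      (A := (J : Set V)) (B := (Q : Set V)) l.au ?_ ?_ ?_ l.su ?_ l.sna l.sa ?_ hμJ hq ?_
    · exact fun v hv => hJz v (mem_coe.1 hv)
    · exact fun v hv => (l.q v (mem_coe.1 hv)).1
    · exact fun h => (l.q a (mem_coe.1 h)).2.2.1 haJ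
    · exact fun h => l.sQ (mem_coe.1 h)
    · intro v hv hvX
      rcases l.cov v hv with h | h | h | h
      · exact absurd h hvX.2.1
      · exact Or.inl (mem_coe.2 h)
      · exact Or.inr (Or.inl (mem_coe.2 h))
      · exact Or.inr (Or.inr h)
    · exact hmarg' s (hL l.isL l.su) l.sc l.s1 l.s2
  have k1 := key l₁ q1
  have k2 := key l₂ q2
  -- the centre
  have hcen : hit μ {x | G.Adj c x} ≤ 1010 / 2000 := by
    have g1 := hit_cover2 hμ (K := {x | G.Adj c x}) (A := (J : Set V)) (B := {r})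
      (by
        intro v hv hvX
        have g2 := hvX.2.2
        rw [hU, not_or] at g2
        rcases hcov v hv with h | h | h | h
        · exact absurd h g2.1
        · exact absurd h g2.2
        · exact Or.inl (mem_coe.2 h)
        · exact Or.inr h)
    rw [hit_single, hmarg' r (hL hc hr) (fun h => G.loopless.irrefl c (h ▸ hr)) hr1 hr2] at g1
    have g3 : nd G z (J : Set V) ≤ 505 / 2000 := by
      unfold nd kap
      split_ifs <;> norm_num
    have g4 : need G z r ≤ 505 / 2000 := by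
      unfold need kap
      split_ifs <;> norm_num
    linarith
  have nL : ∀ {x : V}, IsL G z x → need G z x = 404 / 2000 := by
    intro x hx
    unfold need kap
    rw [if_neg hx.2]
    norm_num
  rw [hX] at hμ
  apply hm.bad
  refine ext_two (c := c) (u₁ := u₁) (u₂ := u₂) hc.1 l₁.isL.1 l₂.isL.1 h12 l₁.adj l₂.adj hn hμ
    hmarg' ?_ ?_ ?_ ?_ ?_
  · rw [nL hc, nL l₁.isL]
    linarith
  · rw [nL hc, nL l₂.isL]
    linarith
  · rw [nL l₁.isL]
    linarith [k1.1]
  · rw [nL l₂.isL]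
    linarith [k2.1]
  · rw [nL hc, nL l₁.isL, nL l₂.isL]
    rw [not_and_or] at hcon
    rcases hcon with h | h
    · linarith [k1.2 h, k2.1]
    · linarith [k2.2 h, k1.1]

/-- The link of a small vertex. -/
lemma slink {G : SimpleGraph V} {z : V} (hm : Min G z) (hin : Inp G z) {u : V} (hu : Sm G z u) :
    ∃ (k : ℕ) (w : ZMod k → V), CLink G u k w ∧ dg G u = k ∧ (k = 5 ∨ k = 6) := by
  have h5 := hm.card
  obtain ⟨k, w, hw⟩ := exists_link hm.pl hm.max (by omega) hm.conn hm.conn2 u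
  have hd := dg_link hw
  have h6 := hin.five u hu.1.1
  have h7 := hu.2
  exact ⟨k, w, hin.clink u (fun h => hu.1.2 h.1) k w hw, hd, by omega⟩

/-- A leaf for which both common neighbours with the centre are in `J`. -/
lemma full {G : SimpleGraph V} {z : V} (hm : Min G z) (hin : Inp G z) {c u₁ u₂ u a b : V} {J : Finset V}
    (hu : Sm G z u) (hcu : G.Adj c u) (ha : a ∈ J) (hb : b ∈ J) (hab : b ≠ a)
    (hJc : ∀ v ∈ J, G.Adj c v) (hua : G.Adj u a) (hub : G.Adj u b)
    (h1 : ¬G.Adj u u₁) (h2 : ¬G.Adj u u₂) :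
    ∃ (Q : Finset V) (s : V), Leaf G z c u₁ u₂ u a J Q s ∧ ∀ v ∈ Q, v ≠ c ∧ ¬G.Adj c v := by
  obtain ⟨k, w, hw, hd, hk⟩ := slink hm hin hu
  obtain ⟨y, hy, y0, y1⟩ := orient hw hcu.symm hua (hJc a ha)
  have yb : y (-1) = b := orient_neg hy hub (by rw [y0]; exact hJc b hb) (by rw [y1]; exact hab)
  have hu' : ∀ i, G.Adj u (y i) := fun i => (hy.nb _).2 ⟨i, rfl⟩
  have hnot : ∀ {i : ZMod k}, i ≠ 1 → i ≠ -1 → i ≠ 0 → ¬G.Adj c (y i) := by
    intro i g1 g2 g3 h
    rw [← y0] at h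
    rcases hy.cl _ _ h with h | h
    · exact g1 (by rw [h, zero_add])
    · exact g2 (eq_neg_of_add_eq_zero_left h.symm)
  have hne1 : ∀ i, y i ≠ u₁ := fun i h => h1 (h ▸ hu' i)
  have hne2 : ∀ i, y i ≠ u₂ := fun i h => h2 (h ▸ hu' i)
  have hnc : ∀ {i : ZMod k}, i ≠ 0 → y i ≠ c := fun g h => g (hy.inj (h.trans y0.symm))
  have hnJ : ∀ {i : ZMod k}, i ≠ 1 → i ≠ -1 → i ≠ 0 → y i ∉ J := fun g1 g2 g3 h =>
    hnot g1 g2 g3 (hJc _ h)
  rcases hk with rfl | rfl
  · refine ⟨{y 2}, y 3, ⟨hu.1, hcu, hua, ?_, ?_, hu' 3, ?_, ?_, ?_, hnc (by decide), hne1 _,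
      hne2 _, ?_⟩, ?_⟩
    · intro v hv
      rw [mem_singleton] at hv
      subst hv
      exact ⟨hu' 2, hnc (by decide), hnJ (by decide) (by decide) (by decide), hne1 _, hne2 _⟩
    · intro v hv v' hv'
      rw [mem_singleton] at hv hv'
      rw [hv, hv']
      exact G.loopless.irrefl _
    · rw [mem_singleton]
      exact fun h => absurd (hy.inj h) (by decide)
    · rw [← y1]
      exact fun h => absurd (hy.inj h) (by decide)
    · rw [← y1]
      exact fun h => (hy.cl _ _ h).elim (by decide) (by decide)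
    · intro v hv
      obtain ⟨i, rfl⟩ := (hy.nb v).1 hv
      have : ∀ i : ZMod 5, i = 0 ∨ i = 1 ∨ i = 2 ∨ i = 3 ∨ i = -1 := by decide
      rcases this i with rfl | rfl | rfl | rfl | rfl
      · exact Or.inl y0
      · exact Or.inr (Or.inl (y1 ▸ ha))
      · exact Or.inr (Or.inr (Or.inl (mem_singleton_self _)))
      · exact Or.inr (Or.inr (Or.inr rfl))
      · exact Or.inr (Or.inl (yb ▸ hb))
    · intro v hv
      rw [mem_singleton] at hv
      subst hv
      exact ⟨hnc (by decide), hnot (by decide) (by decide) (by decide)⟩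
  · refine ⟨{y 2, y 4}, y 3, ⟨hu.1, hcu, hua, ?_, ?_, hu' 3, ?_, ?_, ?_, hnc (by decide), hne1 _,
      hne2 _, ?_⟩, ?_⟩
    · intro v hv
      rw [mem_insert, mem_singleton] at hv
      rcases hv with rfl | rfl
      · exact ⟨hu' 2, hnc (by decide), hnJ (by decide) (by decide) (by decide), hne1 _, hne2 _⟩
      · exact ⟨hu' 4, hnc (by decide), hnJ (by decide) (by decide) (by decide), hne1 _, hne2 _⟩
    · intro v hv v' hv'
      rw [mem_insert, mem_singleton] at hv hv'
      rcases hv with rfl | rfl <;> rcases hv' with rfl | rfl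
      · exact G.loopless.irrefl _
      · exact fun h => (hy.cl _ _ h).elim (by decide) (by decide)
      · exact fun h => (hy.cl _ _ h).elim (by decide) (by decide)
      · exact G.loopless.irrefl _
    · rw [mem_insert, mem_singleton]
      rintro (h | h)
      · exact absurd (hy.inj h) (by decide)
      · exact absurd (hy.inj h) (by decide)
    · rw [← y1]
      exact fun h => absurd (hy.inj h) (by decide)
    · rw [← y1]
      exact fun h => (hy.cl _ _ h).elim (by decide) (by decide)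
    · intro v hv
      obtain ⟨i, rfl⟩ := (hy.nb v).1 hv
      have : ∀ i : ZMod 6, i = 0 ∨ i = 1 ∨ i = 2 ∨ i = 3 ∨ i = 4 ∨ i = -1 := by decide
      rcases this i with rfl | rfl | rfl | rfl | rfl | rfl
      · exact Or.inl y0
      · exact Or.inr (Or.inl (y1 ▸ ha))
      · exact Or.inr (Or.inr (Or.inl (mem_insert_self _ _)))
      · exact Or.inr (Or.inr (Or.inr rfl))
      · exact Or.inr (Or.inr (Or.inl (mem_insert_of_mem (mem_singleton_self _))))
      · exact Or.inr (Or.inl (yb ▸ hb))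
    · intro v hv
      rw [mem_insert, mem_singleton] at hv
      rcases hv with rfl | rfl
      · exact ⟨hnc (by decide), hnot (by decide) (by decide) (by decide)⟩
      · exact ⟨hnc (by decide), hnot (by decide) (by decide) (by decide)⟩

end Conf

open Conf

variable [Fintype V]

/-- (A): a centre of degree `5`. -/
theorem Min.cA' {G : SimpleGraph V} {z : V} (hm : Min G z) (hin : Conf.Inp G z) (c : V) (w : ZMod 5 → V)
    (hc : IsL G z c) (hw : CLink G c 5 w) (h0 : Sm G z (w 0)) (h05 : dg G (w 0) = 5)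
    (h2 : Sm G z (w 2)) (h3 : ¬G.Adj z (w 3)) : N2 G z (w 0) ∧ N2 G z (w 2) := by
  have hcw : ∀ i, G.Adj c (w i) := fun i => (hw.nb _).2 ⟨i, rfl⟩
  have hne : ∀ {i j : ZMod 5}, i ≠ j → w i ≠ w j := fun h h' => h (hw.inj h')
  have hna : ∀ {i j : ZMod 5}, j ≠ i + 1 → i ≠ j + 1 → ¬G.Adj (w i) (w j) := fun h h' h'' =>
    (hw.cl _ _ h'').elim h h'
  have hadj : ∀ i, G.Adj (w i) (w (i + 1)) := hw.adj
  have a01 : G.Adj (w 0) (w 1) := hadj 0
  have a12 : G.Adj (w 1) (w 2) := hadj 1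
  have a23 : G.Adj (w 2) (w 3) := hadj 2
  have a40 : G.Adj (w 4) (w 0) := hadj 4
  have hJ : ∀ v ∈ ({w 1, w 3} : Finset V), v = w 1 ∨ v = w 3 := fun v hv => by
    rwa [mem_insert, mem_singleton] at hv
  -- the leaf `w 2`
  obtain ⟨Q₂, s₂, l₂, hQ₂⟩ := full hm hin (c := c) (u₁ := w 0) (u₂ := w 2) (u := w 2) (a := w 1)
    (b := w 3) (J := {w 1, w 3}) h2 (hcw 2) (by simp) (by simp) (hne (by decide))
    (fun v hv => by
      rcases hJ v hv with rfl | rfl
      · exact hcw 1
      · exact hcw 3)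
    a12.symm a23 (hna (by decide) (by decide)) (G.loopless.irrefl _)
  -- the leaf `w 0`
  obtain ⟨k, x, hx, hd, -⟩ := slink hm hin h0
  rw [h05] at hd
  subst hd
  obtain ⟨y, hy, y0, y1⟩ := orient hx (hcw 0).symm a01 (hcw 1)
  have y4 : y (-1) = w 4 := orient_neg hy a40.symm (by rw [y0]; exact hcw 4)
    (by rw [y1]; exact hne (by decide))
  have hu' : ∀ i, G.Adj (w 0) (y i) := fun i => (hy.nb _).2 ⟨i, rfl⟩
  have yn : ∀ {i j : ZMod 5}, i ≠ j → y i ≠ y j := fun h h' => h (hy.inj h')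
  have n02 : ¬G.Adj (w 0) (w 2) := hna (by decide) (by decide)
  have n03 : ¬G.Adj (w 0) (w 3) := hna (by decide) (by decide)
  have y23 : ∀ i, y i ≠ w 3 := fun i h => n03 (h ▸ hu' i)
  have y22 : ∀ i, y i ≠ w 2 := fun i h => n02 (h ▸ hu' i)
  have y20 : ∀ i, y i ≠ w 0 := fun i h => G.loopless.irrefl _ (h ▸ hu' i)
  have l₁ : Leaf G z c (w 0) (w 2) (w 0) (w 1) {w 1, w 3} {y 2, w 4} (y 3) := by
    refine ⟨h0.1, hcw 0, a01, ?_, ?_, hu' 3, ?_, ?_, ?_, ?_, y20 _, y22 _, ?_⟩
    · intro v hv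
      rw [mem_insert, mem_singleton] at hv
      rcases hv with rfl | rfl
      · refine ⟨hu' 2, by rw [← y0]; exact yn (by decide), ?_, y20 _, y22 _⟩
        rw [mem_insert, mem_singleton]
        rintro (h | h)
        · rw [← y1] at h
          exact yn (by decide) h
        · exact y23 _ h
      · refine ⟨a40.symm, (G.ne_of_adj (hcw 4)).symm, ?_, hne (by decide), hne (by decide)⟩
        rw [mem_insert, mem_singleton]
        rintro (h | h)
        · exact hne (by decide) h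
        · exact hne (by decide) h
    · rw [← y4]
      intro v hv v' hv'
      rw [mem_insert, mem_singleton] at hv hv'
      rcases hv with rfl | rfl <;> rcases hv' with rfl | rfl
      · exact G.loopless.irrefl _
      · exact fun h => (hy.cl _ _ h).elim (by decide) (by decide)
      · exact fun h => (hy.cl _ _ h).elim (by decide) (by decide)
      · exact G.loopless.irrefl _
    · rw [← y4, mem_insert, mem_singleton]
      rintro (h | h)
      · exact yn (by decide) h
      · exact yn (by decide) h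
    · rw [← y1]
      exact yn (by decide)
    · rw [← y1]
      exact fun h => (hy.cl _ _ h).elim (by decide) (by decide)
    · rw [← y0]
      exact yn (by decide)
    · intro v hv
      obtain ⟨i, rfl⟩ := (hy.nb v).1 hv
      have : ∀ i : ZMod 5, i = 0 ∨ i = 1 ∨ i = 2 ∨ i = 3 ∨ i = -1 := by decide
      rcases this i with rfl | rfl | rfl | rfl | rfl
      · exact Or.inl y0
      · refine Or.inr (Or.inl ?_)
        rw [y1]
        exact mem_insert_self _ _
      · exact Or.inr (Or.inr (Or.inl (mem_insert_self _ _)))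
      · exact Or.inr (Or.inr (Or.inr rfl))
      · refine Or.inr (Or.inr (Or.inl ?_))
        rw [y4]
        exact mem_insert_of_mem (mem_singleton_self _)
  refine two hm hin (c := c) (u₁ := w 0) (u₂ := w 2) (r := w 4) (a := w 1) hc (hne (by decide)) n02
    (by simp) ?_ ?_ ?_ (hcw 4) (hne (by decide)) (hne (by decide)) ?_ l₁ l₂ ?_
  · intro v hv
    rcases hJ v hv with rfl | rfl
    · exact ⟨hcw 1, hne (by decide), hne (by decide)⟩
    · exact ⟨hcw 3, hne (by decide), hne (by decide)⟩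
  · intro u hu v hv
    rcases hJ u hu with rfl | rfl <;> rcases hJ v hv with rfl | rfl
    · exact G.loopless.irrefl _
    · exact hna (by decide) (by decide)
    · exact hna (by decide) (by decide)
    · exact G.loopless.irrefl _
  · intro v hv hvz
    rcases hJ v hv with rfl | rfl
    · rfl
    · exact absurd hvz h3
  · intro v hv
    obtain ⟨i, rfl⟩ := (hw.nb v).1 hv
    have : ∀ i : ZMod 5, i = 0 ∨ i = 1 ∨ i = 2 ∨ i = 3 ∨ i = 4 := by decide
    rcases this i with rfl | rfl | rfl | rfl | rfl <;> simp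
  · intro v hv hv'
    have g1 := (l₁.q v hv).1
    have g2 := (l₂.q v hv').1
    have g3 := hQ₂ v hv'
    rcases hin.noq c hc.1 5 w hw 0 2 (by decide) (by decide) (by decide) h0.1 h2.1 v g1 g2 with h | h
    · exact g3.1 h
    · exact g3.2 h

/-- (B): a centre of degree `6`. -/
theorem Min.cB' {G : SimpleGraph V} {z : V} (hm : Min G z) (hin : Conf.Inp G z) (c : V) (w : ZMod 6 → V)
    (hc : IsL G z c) (hw : CLink G c 6 w) (h0 : Sm G z (w 0)) (h2 : Sm G z (w 2))
    (h3 : ¬G.Adj z (w 3)) (h5 : ¬G.Adj z (w 5)) : N2 G z (w 0) ∧ N2 G z (w 2) := by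
  have hcw : ∀ i, G.Adj c (w i) := fun i => (hw.nb _).2 ⟨i, rfl⟩
  have hne : ∀ {i j : ZMod 6}, i ≠ j → w i ≠ w j := fun h h' => h (hw.inj h')
  have hna : ∀ {i j : ZMod 6}, j ≠ i + 1 → i ≠ j + 1 → ¬G.Adj (w i) (w j) := fun h h' h'' =>
    (hw.cl _ _ h'').elim h h'
  have hadj : ∀ i, G.Adj (w i) (w (i + 1)) := hw.adj
  have a01 : G.Adj (w 0) (w 1) := hadj 0
  have a12 : G.Adj (w 1) (w 2) := hadj 1
  have a23 : G.Adj (w 2) (w 3) := hadj 2
  have a50 : G.Adj (w 5) (w 0) := hadj 5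
  have hJ : ∀ v ∈ ({w 1, w 3, w 5} : Finset V), v = w 1 ∨ v = w 3 ∨ v = w 5 := fun v hv => by
    rwa [mem_insert, mem_insert, mem_singleton] at hv
  have hJc : ∀ v ∈ ({w 1, w 3, w 5} : Finset V), G.Adj c v := fun v hv => by
    rcases hJ v hv with rfl | rfl | rfl
    · exact hcw 1
    · exact hcw 3
    · exact hcw 5
  have n02 : ¬G.Adj (w 0) (w 2) := hna (by decide) (by decide)
  obtain ⟨Q₂, s₂, l₂, hQ₂⟩ := full hm hin (c := c) (u₁ := w 0) (u₂ := w 2) (u := w 2) (a := w 1)
    (b := w 3) (J := {w 1, w 3, w 5}) h2 (hcw 2) (by simp) (by simp) (hne (by decide)) hJc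
    a12.symm a23 (fun h => n02 h.symm) (G.loopless.irrefl _)
  obtain ⟨Q₁, s₁, l₁, hQ₁⟩ := full hm hin (c := c) (u₁ := w 0) (u₂ := w 2) (u := w 0) (a := w 1)
    (b := w 5) (J := {w 1, w 3, w 5}) h0 (hcw 0) (by simp) (by simp) (hne (by decide)) hJc
    a01 a50.symm (G.loopless.irrefl _) n02
  refine two hm hin (c := c) (u₁ := w 0) (u₂ := w 2) (r := w 4) (a := w 1) hc (hne (by decide)) n02
    (by simp) ?_ ?_ ?_ (hcw 4) (hne (by decide)) (hne (by decide)) ?_ l₁ l₂ ?_
  · intro v hv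
    refine ⟨hJc v hv, ?_⟩
    rcases hJ v hv with rfl | rfl | rfl
    · exact ⟨hne (by decide), hne (by decide)⟩
    · exact ⟨hne (by decide), hne (by decide)⟩
    · exact ⟨hne (by decide), hne (by decide)⟩
  · intro u hu v hv
    rcases hJ u hu with rfl | rfl | rfl <;> rcases hJ v hv with rfl | rfl | rfl
    all_goals first
      | exact G.loopless.irrefl _
      | exact hna (by decide) (by decide)
  · intro v hv hvz
    rcases hJ v hv with rfl | rfl | rfl
    · rfl
    · exact absurd hvz h3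
    · exact absurd hvz h5
  · intro v hv
    obtain ⟨i, rfl⟩ := (hw.nb v).1 hv
    have : ∀ i : ZMod 6, i = 0 ∨ i = 1 ∨ i = 2 ∨ i = 3 ∨ i = 4 ∨ i = 5 := by decide
    rcases this i with rfl | rfl | rfl | rfl | rfl | rfl <;> simp
  · intro v hv hv'
    have g1 := (l₁.q v hv).1
    have g2 := (l₂.q v hv').1
    have g3 := hQ₂ v hv'
    rcases hin.noq c hc.1 6 w hw 0 2 (by decide) (by decide) (by decide) h0.1 h2.1 v g1 g2 with h | h
    · exact g3.1 h
    · exact g3.2 h

end DS
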