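import Pool.Agent.Work.MP_0890ba_co.BD.DefsT

/-!
# Laws of independent sets in planar graphs: definitions

`Pln G`: the finite graph `G` is planar, expressed by an abstract dual graph.
`Fine G z`: there is a random independent set of `G - z` which contains every neighbour of `z` with
probability `(1 + kap) / 4` and every other vertex with probability `(1 + kap) / 5`.
-/

set_option linter.unusedSectionVars false

namespace DS

open Finset Classical

variable {V W E F : Type}

/-- The sum mod 2 of the edges of `Z` at the vertex `v` (a loop counts twice). -/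
noncomputable def bd [Fintype E] (s t : E → V) (Z : E → ZMod 2) (v : V) : ZMod 2 :=
  ∑ e, Z e * ((if s e = v then 1 else 0) + (if t e = v then 1 else 0))

/-- The cut of a set `S` of faces: the edges with exactly one side in `S`. -/
def cut (l r : E → F) (S : F → ZMod 2) (e : E) : ZMod 2 := S (l e) + S (r e)

/-- The edges `e` with ends `s e`, `t e` and sides `l e`, `r e`: the sets of edges which are even at
every vertex are exactly the cuts of the sets of faces. -/
structure IsPlane [Fintype E] (s t : E → V) (l r : E → F) : Prop where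
  even : ∀ (S : F → ZMod 2) (v : V), bd s t (cut l r S) v = 0
  dual : ∀ Z : E → ZMod 2, (∀ v, bd s t Z v = 0) → ∃ S : F → ZMod 2, cut l r S = Z

/-- The edge `e` joins `u` and `v`. -/
def Joins (s t : E → V) (e : E) (u v : V) : Prop := (s e = u ∧ t e = v) ∨ (s e = v ∧ t e = u)

/-- `G` is a subgraph of a multigraph with an abstract dual. -/
def Pln (G : SimpleGraph V) : Prop :=
  ∃ (E F : Type) (_ : Fintype E) (_ : Fintype F) (s t : E → V) (l r : E → F),
    IsPlane s t l r ∧ ∀ u v, G.Adj u v → ∃ e, Joins s t e u v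

/-- `μ` is a probability law on the independent subsets of `X`. -/
structure IsLaw [Fintype V] (G : SimpleGraph V) (X : Set V) (μ : Finset V → ℝ) : Prop where
  nonneg : ∀ I, 0 ≤ μ I
  sum : ∑ I, μ I = 1
  sub : ∀ I, μ I ≠ 0 → ∀ v ∈ I, v ∈ X
  ind : ∀ I, μ I ≠ 0 → ∀ u ∈ I, ∀ v ∈ I, ¬G.Adj u v

/-- The probability of `P`. -/
noncomputable def pr [Fintype V] (μ : Finset V → ℝ) (P : Finset V → Prop) : ℝ :=
  ∑ I, if P I then μ I else 0

/-- The probability that `v` is chosen. -/
noncomputable def marg [Fintype V] (μ : Finset V → ℝ) (v : V) : ℝ := pr μ fun I => v ∈ I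

/-- The probability that some vertex of `K` is chosen. -/
noncomputable def hit [Fintype V] (μ : Finset V → ℝ) (K : Set V) : ℝ :=
  pr μ fun I => ∃ v ∈ I, v ∈ K

/-- The gain. -/
noncomputable def kap : ℝ := 1 / 100

/-- The probability wanted for a class `K` of vertices. -/
noncomputable def nd (G : SimpleGraph V) (z : V) (K : Set V) : ℝ :=
  if ∃ v ∈ K, G.Adj z v then (1 + kap) / 4 else (1 + kap) / 5

/-- The probability wanted for `v`. -/
noncomputable def need (G : SimpleGraph V) (z v : V) : ℝ :=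
  if G.Adj z v then (1 + kap) / 4 else (1 + kap) / 5

/-- There is a law of independent sets of `G - z` with the wanted probabilities. -/
def Fine [Fintype V] (G : SimpleGraph V) (z : V) : Prop :=
  ∃ μ, IsLaw G {z}ᶜ μ ∧ ∀ v, v ≠ z → marg μ v = need G z v

/-- A minimal counterexample. -/
structure Min [Fintype V] (G : SimpleGraph V) (z : V) : Prop where
  pl : Pln G
  bad : ¬Fine G z
  max : ∀ G' : SimpleGraph V, G ≤ G' → Pln G' → G' = G
  small : ∀ (W : Type) [Fintype W] (H : SimpleGraph W) (y : W),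
    Fintype.card W < Fintype.card V → Pln H → Fine H y

/-- `w` runs once round the neighbours of `v`, consecutive ones are adjacent. -/
structure Link (G : SimpleGraph V) (v : V) (k : ℕ) (w : ZMod k → V) : Prop where
  three : 3 ≤ k
  inj : Function.Injective w
  nb : ∀ u, G.Adj v u ↔ ∃ i, w i = u
  adj : ∀ i, G.Adj (w i) (w (i + 1))

/-- A link without chords. -/
structure CLink (G : SimpleGraph V) (v : V) (k : ℕ) (w : ZMod k → V) : Prop extends
    Link G v k w where
  cl : ∀ i j, G.Adj (w i) (w j) → j = i + 1 ∨ i = j + 1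

/-- The degree. -/
noncomputable def dg (G : SimpleGraph V) (v : V) : ℕ := (G.neighborSet v).ncard

/-- `v` is not `z` and not a neighbour of `z`. -/
def IsL (G : SimpleGraph V) (z v : V) : Prop := v ≠ z ∧ ¬G.Adj z v

/-- No neighbour of `v` is `z` or a neighbour of `z`. -/
def N0 (G : SimpleGraph V) (z v : V) : Prop := IsL G z v ∧ ∀ u, G.Adj v u → ¬G.Adj z u

/-- `v` is at distance two from `z`, by two ways. -/
def N2 (G : SimpleGraph V) (z v : V) : Prop :=
  IsL G z v ∧ ∃ o o', o ≠ o' ∧ G.Adj v o ∧ G.Adj v o' ∧ G.Adj z o ∧ G.Adj z o'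

/-- `v` is not `z` or a neighbour of `z` and has degree at most `6`. -/
def Sm (G : SimpleGraph V) (z v : V) : Prop := IsL G z v ∧ dg G v ≤ 6

/-- The combinatorial properties of a minimal counterexample. -/
structure Facts [Fintype V] (G : SimpleGraph V) (z : V) : Prop where
  euler : ∑ v, (dg G v : ℤ) ≤ 6 * Fintype.card V - 12
  link : ∀ v, ∃ (k : ℕ) (w : ZMod k → V), Link G v k w
  chord : ∀ v k (w : ZMod k → V), Link G v k w → ∀ i j, G.Adj (w i) (w j) →
    j = i + 1 ∨ i = j + 1 ∨ (dg G z = 3 ∧ G.Adj z v ∧ G.Adj z (w i) ∧ G.Adj z (w j))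
  h2 : ∀ v o o', IsL G z v → G.Adj v o → G.Adj v o' → G.Adj z o → G.Adj z o' → o ≠ o' → G.Adj o o'
  five : ∀ v, v ≠ z → 5 ≤ dg G v
  six : ∀ v, G.Adj z v → 6 ≤ dg G v
  seven : 4 ≤ dg G z → ∀ v, G.Adj z v → 7 ≤ dg G v
  cA : ∀ c w, IsL G z c → CLink G c 5 w → Sm G z (w 0) → dg G (w 0) = 5 → Sm G z (w 2) →
    ¬G.Adj z (w 3) → N2 G z (w 0) ∧ N2 G z (w 2)
  cB : ∀ c w, IsL G z c → CLink G c 6 w → Sm G z (w 0) → Sm G z (w 2) → ¬G.Adj z (w 3) →
    ¬G.Adj z (w 5) → N2 G z (w 0) ∧ N2 G z (w 2)
  cC : ∀ c w, IsL G z c → CLink G c 7 w → N0 G z (w 0) → dg G (w 0) = 5 → N0 G z (w 2) →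
    dg G (w 2) = 5 → N0 G z (w 4) → dg G (w 4) = 5 → False
  cH : ∀ c w, G.Adj z c → 4 ≤ dg G z → CLink G c 7 w → w 0 = z → Sm G z (w 2) → Sm G z (w 4) →
    False

end DS
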