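import Pool.Agent.Work.MP_0890ba_co.DS.DegAux
import Pool.Agent.Work.MP_0890ba_co.DS.Star
import Pool.Agent.Work.MP_0890ba_co.DS.Ext
import Pool.Agent.Work.MP_0890ba_co.DS.Sep
import Pool.Agent.Work.MP_0890ba_co.DS.Tri
import Pool.Agent.Work.MP_0890ba_co.DS.MinB

/-!
# Degrees in a minimal counterexample
-/

set_option linter.unusedSectionVars false

namespace DS

open Finset Classical DegAux

variable {V : Type}

namespace DegAux

variable [Fintype V] {G : SimpleGraph V} {z : V}

/-- A vertex is reducible if its neighbours are covered by an independent set and few vertices. -/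
theorem red (hm : Min G z) {c : V} (hc : c ≠ z) (J : Finset V)
    (hJ : ∀ v ∈ J, G.Adj c v ∧ v ≠ z) (hJJ : ∀ u ∈ J, ∀ v ∈ J, ¬G.Adj u v)
    (hh : ∀ (X : Set V) (μ : Finset V → ℝ), IsLaw G X μ → (∀ v ∈ X, marg μ v = need G z v) →
      z ∉ X → hit μ J ≤ 5 * un → hit μ {x | G.Adj c x} + need G z c ≤ 1) : False := by
  obtain ⟨μ, h1, h2, h3, -⟩ := hm.star hc ∅ (by simp) (by simp) J
    (fun v hv => ⟨(hJ v hv).1, (hJ v hv).2, by simp⟩) hJJ (fun _ => ∅) (by simp) (by simp) (by simp)
  have h1' : IsLaw G {x | x ≠ z ∧ x ≠ c} μ := isLaw_mono h1 fun v hv => ⟨hv.1, hv.2.1⟩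
  apply hm.bad
  apply ext_zero hc h1' (fun v hv hv' => h2 v hv hv' (by simp))
  exact hh _ μ h1' (fun v hv => h2 v hv.1 hv.2 (by simp)) (fun hz => hz.1 rfl)
    (le_trans h3 (nd_le z _))

theorem exists_lk (hm : Min G z) (v : V) : ∃ (k : ℕ) (w : ZMod k → V), Link G v k w :=
  exists_link hm.pl hm.max (by have := hm.card; omega) hm.conn hm.conn2 v

end DegAux

theorem Min.six [Fintype V] {G : SimpleGraph V} {z : V} (hm : Min G z) (v : V)
    (hv : G.Adj z v) : 6 ≤ dg G v := by
  by_contra hlt
  push Not at hlt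
  obtain ⟨k, w₀, hw₀⟩ := exists_lk hm v
  obtain ⟨w, hw, h0⟩ := link_start hw₀ hv.symm
  have hk := link_dg hw
  have h3 := hw.three
  have hvz : v ≠ z := hv.ne'
  rw [hk] at hlt
  have hzz : ∀ j, ¬G.Adj z (w j) ∨ j = 1 ∨ j + 1 = 0 := by
    intro j
    by_contra hcon
    push Not at hcon
    obtain ⟨h4, h5, h6⟩ := hcon
    have h7 := hm.chord v k w hw 0 j (by rw [h0]; exact h4)
    rcases h7 with h7 | h7 | h7
    · exact h5 (by rw [h7]; ring)
    · exact h6 h7.symm
    · rw [h0] at h7
      exact G.loopless.irrefl z h7.2.2.1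
  interval_cases k
  · -- degree 3
    refine red hm hvz ∅ (by simp) (by simp) fun X μ h h1 hz _ => ?_
    have e1 : hit μ {x | G.Adj v x} ≤ hit μ {w 1} + hit μ {w 2} := by
      refine hit_two h fun x hx hX => ?_
      obtain ⟨i, rfl⟩ := (hw.nb x).1 hx
      fin_cases i
      · exact absurd (h0 ▸ hX) hz
      · exact Or.inl rfl
      · exact Or.inr rfl
    have e2 := single_le h h1 (w 1)
    have e3 := single_le h h1 (w 2)
    have e4 := need_le (G := G) z v
    rw [un_eq] at *
    linarith
  · -- degree 4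
    refine red hm hvz ∅ (by simp) (by simp) fun X μ h h1 hz _ => ?_
    have e1 : hit μ {x | G.Adj v x} ≤ hit μ {w 1} + hit μ {w 2} + hit μ {w 3} := by
      refine hit_three h fun x hx hX => ?_
      obtain ⟨i, rfl⟩ := (hw.nb x).1 hx
      fin_cases i
      · exact absurd (h0 ▸ hX) hz
      · exact Or.inl rfl
      · exact Or.inr (Or.inl rfl)
      · exact Or.inr (Or.inr rfl)
    have e2 := single_le h h1 (w 1)
    have e3 : hit μ {w 2} ≤ 4 * un := by
      apply single_L h h1
      rcases hzz 2 with h5 | h5 | h5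
      · exact h5
      · exact absurd h5 (by decide)
      · exact absurd h5 (by decide)
    have e3' := single_le h h1 (w 3)
    have e4 := need_le (G := G) z v
    rw [un_eq] at *
    linarith
  · -- degree 5
    have n2 : ¬G.Adj z (w 2) := by
      rcases hzz 2 with h5 | h5 | h5
      · exact h5
      · exact absurd h5 (by decide)
      · exact absurd h5 (by decide)
    have n3 : ¬G.Adj z (w 3) := by
      rcases hzz 3 with h5 | h5 | h5
      · exact h5
      · exact absurd h5 (by decide)
      · exact absurd h5 (by decide)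
    have n13 : ¬G.Adj (w 1) (w 3) := fun h5 => by
      rcases hm.chord v 5 w hw 1 3 h5 with h6 | h6 | h6
      · exact absurd h6 (by decide)
      · exact absurd h6 (by decide)
      · exact n3 h6.2.2.2
    have m1 : w 1 ≠ z := fun h5 => by
      have := hw.inj (h5.trans h0.symm)
      exact absurd this (by decide)
    have m3 : w 3 ≠ z := fun h5 => by
      have := hw.inj (h5.trans h0.symm)
      exact absurd this (by decide)
    refine red hm hvz {w 1, w 3} ?_ ?_ fun X μ h h1 hz hJ => ?_
    · intro x hx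
      rw [Finset.mem_insert, Finset.mem_singleton] at hx
      rcases hx with rfl | rfl
      · exact ⟨link_nb hw 1, m1⟩
      · exact ⟨link_nb hw 3, m3⟩
    · intro x hx y hy
      rw [Finset.mem_insert, Finset.mem_singleton] at hx hy
      rcases hx with rfl | rfl <;> rcases hy with rfl | rfl
      · exact G.loopless.irrefl _
      · exact n13
      · exact fun h5 => n13 h5.symm
      · exact G.loopless.irrefl _
    · have e1 : hit μ {x | G.Adj v x} ≤
          hit μ ((({w 1, w 3} : Finset V)) : Set V) + hit μ {w 2} + hit μ {w 4} := by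
        refine hit_three h fun x hx hX => ?_
        obtain ⟨i, rfl⟩ := (hw.nb x).1 hx
        fin_cases i
        · exact absurd (h0 ▸ hX) hz
        · exact Or.inl (in2a (w 1) (w 3))
        · exact Or.inr (Or.inl rfl)
        · exact Or.inl (in2b (w 1) (w 3))
        · exact Or.inr (Or.inr rfl)
      have e2 := single_L h h1 n2
      have e3 := single_le h h1 (w 4)
      have e4 := need_le (G := G) z v
      rw [un_eq] at *
      linarith

theorem Min.five [Fintype V] {G : SimpleGraph V} {z : V} (hm : Min G z) (v : V) (hv : v ≠ z) :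
    5 ≤ dg G v := by
  by_cases hzv : G.Adj z v
  · have := hm.six v hzv
    omega
  by_contra hlt
  push Not at hlt
  obtain ⟨k, w, hw₀⟩ := exists_lk hm v
  have hw := hm.clink v (fun h => hzv h.1) k w hw₀
  have hk := link_dg hw₀
  have h3 := hw.three
  rw [hk] at hlt
  have hne : ∀ i, w i ≠ z := fun i h5 => hzv (by
    have := link_nb hw₀ i
    rw [h5] at this
    exact this.symm)
  interval_cases k
  · -- degree 3
    refine red hm hv ∅ (by simp) (by simp) fun X μ h h1 hz _ => ?_
    have e1 : hit μ {x | G.Adj v x} ≤ hit μ {w 0} + hit μ {w 1} + hit μ {w 2} := by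
      refine hit_three h fun x hx hX => ?_
      obtain ⟨i, rfl⟩ := (hw.nb x).1 hx
      fin_cases i
      · exact Or.inl rfl
      · exact Or.inr (Or.inl rfl)
      · exact Or.inr (Or.inr rfl)
    have e2 := single_le h h1 (w 0)
    have e3 := single_le h h1 (w 1)
    have e3' := single_le h h1 (w 2)
    have e4 := need_L hzv
    rw [un_eq] at *
    linarith
  · -- degree 4
    have n02 : ¬G.Adj (w 0) (w 2) := clink_not hw (by decide) (by decide)
    refine red hm hv {w 0, w 2} ?_ ?_ fun X μ h h1 hz hJ => ?_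
    · intro x hx
      rw [Finset.mem_insert, Finset.mem_singleton] at hx
      rcases hx with rfl | rfl
      · exact ⟨link_nb hw₀ 0, hne 0⟩
      · exact ⟨link_nb hw₀ 2, hne 2⟩
    · intro x hx y hy
      rw [Finset.mem_insert, Finset.mem_singleton] at hx hy
      rcases hx with rfl | rfl <;> rcases hy with rfl | rfl
      · exact G.loopless.irrefl _
      · exact n02
      · exact fun h5 => n02 h5.symm
      · exact G.loopless.irrefl _
    · have e1 : hit μ {x | G.Adj v x} ≤
          hit μ ((({w 0, w 2} : Finset V)) : Set V) + hit μ {w 1} + hit μ {w 3} := by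
        refine hit_three h fun x hx hX => ?_
        obtain ⟨i, rfl⟩ := (hw.nb x).1 hx
        fin_cases i
        · exact Or.inl (in2a (w 0) (w 2))
        · exact Or.inr (Or.inl rfl)
        · exact Or.inl (in2b (w 0) (w 2))
        · exact Or.inr (Or.inr rfl)
      have e2 := single_le h h1 (w 1)
      have e3 := single_le h h1 (w 3)
      have e4 := need_L hzv
      rw [un_eq] at *
      linarith

theorem Min.seven [Fintype V] {G : SimpleGraph V} {z : V} (hm : Min G z) (hz : 4 ≤ dg G z) (v : V)
    (hv : G.Adj z v) : 7 ≤ dg G v := by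
  by_contra hlt
  have hsix := hm.six v hv
  push Not at hlt
  obtain ⟨k, w₀, hw₀⟩ := exists_lk hm v
  obtain ⟨w, hw, h0⟩ := link_start hw₀ hv.symm
  have hcw := hm.clink v (fun h => by omega) k w hw
  have hk := link_dg hw
  have hvz : v ≠ z := hv.ne'
  have hk6 : k = 6 := by omega
  subst hk6
  have hne : ∀ i, i ≠ 0 → w i ≠ z := fun i hi h5 => hi (hw.inj (h5.trans h0.symm))
  have hzL : ∀ j, j ≠ 0 + 1 → (0 : ZMod 6) ≠ j + 1 → ¬G.Adj z (w j) := fun j h1 h2 => by
    have := clink_not hcw h1 h2
    rwa [h0] at this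
  refine red hm hvz {w 1, w 3, w 5} ?_ ?_ fun X μ h h1 hz hJ => ?_
  · intro x hx
    rw [Finset.mem_insert, Finset.mem_insert, Finset.mem_singleton] at hx
    rcases hx with rfl | rfl | rfl
    · exact ⟨link_nb hw 1, hne 1 (by decide)⟩
    · exact ⟨link_nb hw 3, hne 3 (by decide)⟩
    · exact ⟨link_nb hw 5, hne 5 (by decide)⟩
  · intro x hx y hy
    rw [Finset.mem_insert, Finset.mem_insert, Finset.mem_singleton] at hx hy
    rcases hx with rfl | rfl | rfl <;> rcases hy with rfl | rfl | rfl
    all_goals first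
      | exact G.loopless.irrefl _
      | exact clink_not hcw (by decide) (by decide)
  · have e1 : hit μ {x | G.Adj v x} ≤
        hit μ ((({w 1, w 3, w 5} : Finset V)) : Set V) + hit μ {w 2} + hit μ {w 4} := by
      refine hit_three h fun x hx hX => ?_
      obtain ⟨i, rfl⟩ := (hw.nb x).1 hx
      fin_cases i
      · exact absurd (h0 ▸ hX) hz
      · exact Or.inl (in3a (w 1) (w 3) (w 5))
      · exact Or.inr (Or.inl rfl)
      · exact Or.inl (in3b (w 1) (w 3) (w 5))
      · exact Or.inr (Or.inr rfl)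
      · exact Or.inl (in3c (w 1) (w 3) (w 5))
    have e2 := single_L h h1 (hzL 2 (by decide) (by decide))
    have e3 := single_L h h1 (hzL 4 (by decide) (by decide))
    have e4 := need_le (G := G) z v
    rw [un_eq] at *
    linarith

namespace DegAux

/-- The outer neighbours of a small vertex of the link of `c`: an independent set and one vertex. -/
theorem leaf_Q [Fintype V] {G : SimpleGraph V} {z : V} (hm : Min G z) {c : V} {k : ℕ}
    {w : ZMod k → V} (hw : Link G c k w) (i : ZMod k) (hs : Sm G z (w i)) :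
    ∃ (Q : Finset V) (y : V), (∀ v ∈ Q, G.Adj (w i) v ∧ v ≠ c ∧ ¬G.Adj c v) ∧
      (∀ v ∈ Q, ∀ v' ∈ Q, ¬G.Adj v v') ∧ G.Adj (w i) y ∧ y ≠ c ∧ ¬G.Adj c y ∧
      ∀ x, G.Adj (w i) x → x = c ∨ x = w (i + 1) ∨ x = w (i - 1) ∨ x ∈ Q ∨ x = y := by
  obtain ⟨m, u', hu'⟩ := exists_lk hm (w i)
  have hcu := hm.clink (w i) (fun h => hs.1.2 h.1) m u' hu'
  have h5 := hm.five (w i) hs.1.1
  have h6 := hs.2
  rw [link_dg hu'] at h5 h6
  obtain ⟨u, hu, h0, h1, h2⟩ := leaf_link hw i hcu
  have hn : ∀ j : ZMod m, j ≠ 0 + 1 → (0 : ZMod m) ≠ j + 1 → ¬G.Adj c (u j) :=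
    fun j h3 h4 => by
      have := clink_not hu h3 h4
      rwa [h0] at this
  have hc : ∀ j : ZMod m, j ≠ 0 → u j ≠ c := fun j hj h3 => hj (hu.inj (h3.trans h0.symm))
  interval_cases m
  · have h2' : u 4 = w (i - 1) := h2
    refine ⟨{u 2}, u 3, ?_, ?_, link_nb hu.toLink 3, hc 3 (by decide), hn 3 (by decide)
      (by decide), ?_⟩
    · intro v hv
      rw [Finset.mem_singleton] at hv
      rw [hv]
      exact ⟨link_nb hu.toLink 2, hc 2 (by decide), hn 2 (by decide) (by decide)⟩
    · intro v hv v' hv'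
      rw [Finset.mem_singleton] at hv hv'
      rw [hv, hv']
      exact G.loopless.irrefl _
    · intro x hx
      obtain ⟨j, rfl⟩ := (hu.nb x).1 hx
      fin_cases j
      · exact Or.inl h0
      · exact Or.inr (Or.inl h1)
      · exact Or.inr (Or.inr (Or.inr (Or.inl (Finset.mem_singleton.2 rfl))))
      · exact Or.inr (Or.inr (Or.inr (Or.inr rfl)))
      · exact Or.inr (Or.inr (Or.inl h2'))
  · have h2' : u 5 = w (i - 1) := h2
    refine ⟨{u 2, u 4}, u 3, ?_, ?_, link_nb hu.toLink 3, hc 3 (by decide), hn 3 (by decide)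
      (by decide), ?_⟩
    · intro v hv
      rw [Finset.mem_insert, Finset.mem_singleton] at hv
      rcases hv with rfl | rfl
      · exact ⟨link_nb hu.toLink 2, hc 2 (by decide), hn 2 (by decide) (by decide)⟩
      · exact ⟨link_nb hu.toLink 4, hc 4 (by decide), hn 4 (by decide) (by decide)⟩
    · intro v hv v' hv'
      rw [Finset.mem_insert, Finset.mem_singleton] at hv hv'
      rcases hv with rfl | rfl <;> rcases hv' with rfl | rfl
      · exact G.loopless.irrefl _
      · exact clink_not hu (by decide) (by decide)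
      · exact clink_not hu (by decide) (by decide)
      · exact G.loopless.irrefl _
    · intro x hx
      obtain ⟨j, rfl⟩ := (hu.nb x).1 hx
      fin_cases j
      · exact Or.inl h0
      · exact Or.inr (Or.inl h1)
      · exact Or.inr (Or.inr (Or.inr (Or.inl (Finset.mem_coe.1 (in2a (u 2) (u 4))))))
      · exact Or.inr (Or.inr (Or.inr (Or.inr rfl)))
      · exact Or.inr (Or.inr (Or.inr (Or.inl (Finset.mem_coe.1 (in2b (u 2) (u 4))))))
      · exact Or.inr (Or.inr (Or.inl h2'))

end DegAux

end DS
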