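import Pool.Agent.Work.MP_0890ba_co.DS.Defs

/-!
# Probabilities of hitting the neighbourhood of a vertex, and rotations of a link
-/

set_option linter.unusedSectionVars false

namespace DS

namespace DegAux

open Finset Classical

variable {V : Type} {G : SimpleGraph V}

/-! ### Links -/

theorem ncard_range {k : ℕ} (hk : 3 ≤ k) {w : ZMod k → V} (hw : Function.Injective w) :
    (Set.range w).ncard = k := by
  have : NeZero k := ⟨by omega⟩
  rw [← Set.image_univ, Set.ncard_image_of_injective _ hw, Set.ncard_univ, Nat.card_eq_fintype_card,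
    ZMod.card]

theorem link_dg {v : V} {k : ℕ} {w : ZMod k → V} (h : Link G v k w) : dg G v = k := by
  unfold dg
  have h1 : G.neighborSet v = Set.range w := by
    ext u
    rw [SimpleGraph.mem_neighborSet, h.nb u, Set.mem_range]
  rw [h1]
  exact ncard_range h.three h.inj

theorem link_rot {v : V} {k : ℕ} {w : ZMod k → V} (h : Link G v k w) (a : ZMod k) :
    Link G v k (fun i => w (i + a)) where
  three := h.three
  inj := fun i j hij => by
    have := h.inj hij
    simpa using this
  nb := fun u => by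
    rw [h.nb u]
    constructor
    · rintro ⟨i, hi⟩
      exact ⟨i - a, by simpa using hi⟩
    · rintro ⟨i, hi⟩
      exact ⟨i + a, hi⟩
  adj := fun i => by
    have := h.adj (i + a)
    rwa [show i + a + 1 = i + 1 + a by ring] at this

/-- Rotate a link so that it starts in a given vertex. -/
theorem link_start {v u : V} {k : ℕ} {w : ZMod k → V} (h : Link G v k w) (hu : G.Adj v u) :
    ∃ w' : ZMod k → V, Link G v k w' ∧ w' 0 = u := by
  obtain ⟨i, hi⟩ := (h.nb u).1 hu
  exact ⟨fun j => w (j + i), link_rot h i, by simpa using hi⟩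

theorem clink_rot {v : V} {k : ℕ} {w : ZMod k → V} (h : CLink G v k w) (a : ZMod k) :
    CLink G v k (fun i => w (i + a)) where
  toLink := link_rot h.toLink a
  cl := fun i j hij => by
    rcases h.cl _ _ hij with h1 | h1
    · left
      have h2 : j + a = i + 1 + a := by rw [h1]; ring
      exact add_right_cancel h2
    · right
      have h2 : i + a = j + 1 + a := by rw [h1]; ring
      exact add_right_cancel h2

theorem clink_start {v u : V} {k : ℕ} {w : ZMod k → V} (h : CLink G v k w) (hu : G.Adj v u) :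
    ∃ w' : ZMod k → V, CLink G v k w' ∧ w' 0 = u := by
  obtain ⟨i, hi⟩ := (h.nb u).1 hu
  exact ⟨fun j => w (j + i), clink_rot h i, by simpa using hi⟩

theorem link_nb {v : V} {k : ℕ} {w : ZMod k → V} (h : Link G v k w) (i : ZMod k) :
    G.Adj v (w i) := (h.nb _).2 ⟨i, rfl⟩

theorem clink_not {v : V} {k : ℕ} {w : ZMod k → V} (h : CLink G v k w) {i j : ZMod k}
    (h1 : j ≠ i + 1) (h2 : i ≠ j + 1) : ¬G.Adj (w i) (w j) := fun h3 => by
  rcases h.cl i j h3 with h4 | h4
  · exact h1 h4
  · exact h2 h4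

theorem link_refl {v : V} {k : ℕ} {w : ZMod k → V} (h : Link G v k w) :
    Link G v k (fun i => w (-i)) where
  three := h.three
  inj := fun i j hij => by
    have := h.inj hij
    simpa using this
  nb := fun u => by
    rw [h.nb u]
    constructor
    · rintro ⟨i, hi⟩
      exact ⟨-i, by simpa using hi⟩
    · rintro ⟨i, hi⟩
      exact ⟨-i, hi⟩
  adj := fun i => by
    have := h.adj (-(i + 1))
    rw [show -(i + 1) + 1 = -i by ring] at this
    exact this.symm

theorem clink_refl {v : V} {k : ℕ} {w : ZMod k → V} (h : CLink G v k w) :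
    CLink G v k (fun i => w (-i)) where
  toLink := link_refl h.toLink
  cl := fun i j hij => by
    rcases h.cl _ _ hij with h1 | h1
    · right
      have h2 : j = -(-i + 1) := by rw [← h1]; ring
      rw [h2]; ring
    · left
      have h2 : i = -(-j + 1) := by rw [← h1]; ring
      rw [h2]; ring

theorem one_ne_neg {k : ℕ} (hk : 3 ≤ k) (i : ZMod k) : i + 1 ≠ i - 1 := by
  intro h
  have h2 : ((2 : ℕ) : ZMod k) = 0 := by
    have h3 : (2 : ZMod k) = (i + 1) - (i - 1) := by ring
    rw [h, sub_self] at h3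
    exact_mod_cast h3
  have h4 := (ZMod.natCast_eq_zero_iff 2 k).1 h2
  have := Nat.le_of_dvd (by norm_num) h4
  omega

/-- The link of a vertex `w i` of the link of `c`, started at `c`. -/
theorem leaf_link {c : V} {k : ℕ} {w : ZMod k → V} (hw : Link G c k w)
    (i : ZMod k) {m : ℕ} {u' : ZMod m → V} (hu : CLink G (w i) m u') :
    ∃ u : ZMod m → V, CLink G (w i) m u ∧ u 0 = c ∧ u 1 = w (i + 1) ∧ u (-1) = w (i - 1) := by
  obtain ⟨u, hu1, hu0⟩ := clink_start hu (link_nb hw i).symm
  obtain ⟨a, ha⟩ := (hu1.nb (w (i + 1))).1 (hw.adj i)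
  obtain ⟨b, hb⟩ := (hu1.nb (w (i - 1))).1 (by
    have := hw.adj (i - 1)
    rw [sub_add_cancel] at this
    exact this.symm)
  have hab : a ≠ b := fun h => by
    apply one_ne_neg hw.three i
    apply hw.inj
    rw [← ha, ← hb, h]
  have ha' : a = 0 + 1 ∨ (0 : ZMod m) = a + 1 := hu1.cl 0 a (by rw [hu0, ha]; exact link_nb hw _)
  have hb' : b = 0 + 1 ∨ (0 : ZMod m) = b + 1 := hu1.cl 0 b (by rw [hu0, hb]; exact link_nb hw _)
  rw [zero_add] at ha' hb'
  have e : ∀ x : ZMod m, (0 : ZMod m) = x + 1 → x = -1 := fun x hx =>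
    eq_neg_of_add_eq_zero_left hx.symm
  rcases ha' with ha' | ha' <;> rcases hb' with hb' | hb'
  · exact absurd (ha'.trans hb'.symm) hab
  · refine ⟨u, hu1, hu0, ?_, ?_⟩
    · rw [← ha', ha]
    · rw [← e b hb', hb]
  · refine ⟨fun j => u (-j), clink_refl hu1, ?_, ?_, ?_⟩
    · simpa using hu0
    · show u (-1) = _
      rw [← e a ha', ha]
    · show u (- -1) = _
      rw [neg_neg, ← hb', hb]
  · exact absurd ((e a ha').trans (e b hb').symm) hab

/-! ### Probabilities of hitting a set -/

variable [Fintype V] {X : Set V} {μ : Finset V → ℝ}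

/-- The unit. -/
noncomputable def un : ℝ := (1 + kap) / 20

theorem un_eq : un = 101 / 2000 := by
  unfold un kap; norm_num

theorem isLaw_mono {Y : Set V} (h : IsLaw G X μ) (hXY : ∀ v ∈ X, v ∈ Y) : IsLaw G Y μ :=
  ⟨h.nonneg, h.sum, fun I hI v hv => hXY v (h.sub I hI v hv), h.ind⟩

theorem hit_le_one (h : IsLaw G X μ) {K A : Set V} (hK : ∀ v ∈ K, v ∈ X → v ∈ A) :
    hit μ K ≤ hit μ A := by
  unfold hit pr
  apply Finset.sum_le_sum
  intro I _
  by_cases hI : μ I = 0
  · simp [hI]
  · split_ifs with h1 h2 h2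
    · exact le_rfl
    · obtain ⟨v, hv, hvK⟩ := h1
      exact absurd ⟨v, hv, hK v hvK (h.sub I hI v hv)⟩ h2
    · exact h.nonneg I
    · exact le_rfl

theorem hit_union (h : IsLaw G X μ) (A B : Set V) : hit μ (A ∪ B) ≤ hit μ A + hit μ B := by
  unfold hit pr
  rw [← Finset.sum_add_distrib]
  apply Finset.sum_le_sum
  intro I _
  have h0 := h.nonneg I
  split_ifs with h1 h2 h3 h3 h2 h3 h3
  · linarith
  · linarith
  · linarith
  · obtain ⟨v, hv, hvA | hvB⟩ := h1
    · exact absurd ⟨v, hv, hvA⟩ h2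
    · exact absurd ⟨v, hv, hvB⟩ h3
  all_goals linarith

theorem hit_two (h : IsLaw G X μ) {K A B : Set V} (hK : ∀ v ∈ K, v ∈ X → v ∈ A ∨ v ∈ B) :
    hit μ K ≤ hit μ A + hit μ B :=
  le_trans (hit_le_one h (A := A ∪ B) fun v hv hx => hK v hv hx) (hit_union h A B)

theorem hit_three (h : IsLaw G X μ) {K A B C : Set V}
    (hK : ∀ v ∈ K, v ∈ X → v ∈ A ∨ v ∈ B ∨ v ∈ C) :
    hit μ K ≤ hit μ A + hit μ B + hit μ C := by
  have h1 : hit μ K ≤ hit μ A + hit μ (B ∪ C) :=
    hit_two h (A := A) (B := B ∪ C) fun v hv hx => by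
      rcases hK v hv hx with h1 | h1 | h1
      · exact Or.inl h1
      · exact Or.inr (Or.inl h1)
      · exact Or.inr (Or.inr h1)
  have h2 := hit_union h B C
  linarith

theorem hit_single (v : V) : hit μ {v} = marg μ v := by
  unfold hit marg pr
  apply Finset.sum_congr rfl
  intro I _
  congr 1
  apply propext
  constructor
  · rintro ⟨u, hu, hv⟩
    rw [Set.mem_singleton_iff] at hv
    rw [← hv]; exact hu
  · intro hv
    exact ⟨v, hv, rfl⟩

theorem hit_zero (h : IsLaw G X μ) {K : Set V} (hK : ∀ v ∈ K, v ∉ X) : hit μ K = 0 := by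
  unfold hit pr
  apply Finset.sum_eq_zero
  intro I _
  by_cases hI : μ I = 0
  · simp [hI]
  · rw [if_neg]
    rintro ⟨v, hv, hvK⟩
    exact hK v hvK (h.sub I hI v hv)

theorem need_le (z x : V) : need G z x ≤ 5 * un := by
  unfold need un kap
  split_ifs <;> norm_num

theorem need_L {z x : V} (hx : ¬G.Adj z x) : need G z x = 4 * un := by
  unfold need un
  rw [if_neg hx]; ring

theorem need_H {z x : V} (hx : G.Adj z x) : need G z x = 5 * un := by
  unfold need un
  rw [if_pos hx]; ring

theorem nd_le (z : V) (K : Set V) : nd G z K ≤ 5 * un := by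
  unfold nd un kap
  split_ifs <;> norm_num

theorem nd_L {z : V} {K : Set V} (hx : ∀ v ∈ K, ¬G.Adj z v) : nd G z K = 4 * un := by
  unfold nd un
  rw [if_neg]
  · ring
  · rintro ⟨v, hv, h⟩
    exact hx v hv h

theorem single_le {z : V} (h : IsLaw G X μ) (hm : ∀ v ∈ X, marg μ v = need G z v) (x : V) :
    hit μ {x} ≤ 5 * un := by
  by_cases hx : x ∈ X
  · rw [hit_single, hm x hx]
    exact need_le z x
  · rw [hit_zero h]
    · rw [un_eq]; norm_num
    · intro v hv
      rw [Set.mem_singleton_iff] at hv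
      rw [hv]; exact hx

theorem single_L {z : V} (h : IsLaw G X μ) (hm : ∀ v ∈ X, marg μ v = need G z v) {x : V}
    (hz : ¬G.Adj z x) : hit μ {x} ≤ 4 * un := by
  by_cases hx : x ∈ X
  · rw [hit_single, hm x hx]
    exact (need_L hz).le
  · rw [hit_zero h]
    · rw [un_eq]; norm_num
    · intro v hv
      rw [Set.mem_singleton_iff] at hv
      rw [hv]; exact hx

theorem in2a (a b : V) : a ∈ ((({a, b} : Finset V)) : Set V) := by simp

theorem in2b (a b : V) : b ∈ ((({a, b} : Finset V)) : Set V) := by simp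

theorem in3a (a b c : V) : a ∈ ((({a, b, c} : Finset V)) : Set V) := by simp

theorem in3b (a b c : V) : b ∈ ((({a, b, c} : Finset V)) : Set V) := by simp

theorem in3c (a b c : V) : c ∈ ((({a, b, c} : Finset V)) : Set V) := by simp

end DegAux

end DS
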