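import Pool.Agent.Work.MP_0890ba_co.DS.DisD

/-!
# Discharging for the law (D*), part 5: the neighbours of `z`, and the total charge
-/

set_option linter.unusedSectionVars false

namespace DS

namespace Dis

open Finset Classical

variable {V : Type} [Fintype V] {G : SimpleGraph V} {z : V}

theorem gift_H_le {w v : V} (hw : G.Adj z w) : gift G z w v ≤ 4 := by
  unfold gift
  split_ifs <;> norm_num

theorem gift_H_big {w v : V} (hw : G.Adj z w) (h : ¬ (IsL G z v ∧ dg G v ≤ 6)) :
    gift G z w v = 0 := by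
  unfold gift
  by_cases hv : G.Adj w v ∧ IsL G z v
  · rw [if_pos hv, if_pos hw, if_neg fun h' => h ⟨hv.2, h'⟩]
  · rw [if_neg hv]

theorem gift_H_two {w v : V} (hw : G.Adj z w) (h : 2 ≤ hn G z v) : gift G z w v ≤ 2 := by
  unfold gift
  split_ifs <;> omega

/-- A sum of `e` terms, each at most `4`, one of them zero. -/
theorem sum_le_of_zero (e : ℕ) (f : ℕ → ℤ) (h : ∀ i < e, f i ≤ 4) {j : ℕ} (hj : j < e)
    (h0 : f j = 0) : ∑ i ∈ range e, f i ≤ 4 * (e : ℤ) - 4 := by
  have hm : j ∈ range e := mem_range.2 hj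
  rw [← add_sum_erase _ _ hm, h0, zero_add]
  have h1 : ∑ i ∈ (range e).erase j, f i ≤ ∑ i ∈ (range e).erase j, (4 : ℤ) :=
    sum_le_sum fun i hi => h i (mem_range.1 (mem_of_mem_erase hi))
  rw [sum_const, card_erase_of_mem hm, card_range] at h1
  have h2 : ((e - 1 : ℕ) : ℤ) = (e : ℤ) - 1 := by
    have : 1 ≤ e := by omega
    push_cast [this]; rfl
  rw [nsmul_eq_mul, h2] at h1
  linarith

theorem sum_le_four (e : ℕ) (f : ℕ → ℤ) (h : ∀ i < e, f i ≤ 4) :
    ∑ i ∈ range e, f i ≤ 4 * (e : ℤ) := by
  have h1 : ∑ i ∈ range e, f i ≤ ∑ i ∈ range e, (4 : ℤ) :=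
    sum_le_sum fun i hi => h i (mem_range.1 hi)
  rw [sum_const, card_range, nsmul_eq_mul] at h1
  linarith

/-- the link of a neighbour `w` of `z` -/
theorem linkH (K : Facts G z) {w : V} (hw : G.Adj z w) :
    ∃ (e : ℕ) (c : ℕ → V), 1 ≤ e ∧ dg G w = e + 5 ∧ Cyc G w (e + 5) c ∧ c 0 = z ∧ G.Adj z (c 1) ∧
      G.Adj z (c (e + 4)) ∧ (∀ i, 2 ≤ i → i ≤ e + 3 → IsL G z (c i)) := by
  have h6 := K.six w hw
  obtain ⟨_, c₀, hc₀⟩ := cyc_ex K w
  obtain ⟨c, hc, h0⟩ := hc₀.base (by omega) hw.symm
  obtain ⟨e, he⟩ : ∃ e, dg G w = e + 5 := ⟨dg G w - 5, by omega⟩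
  rw [he] at hc
  have h1 : G.Adj z (c 1) := by rw [← h0]; exact hc.adj 0
  have h4 : G.Adj z (c (e + 4)) := by
    have := hc.adj_pred (by omega) 0
    rw [h0] at this
    rwa [show 0 + (e + 5 - 1) = e + 4 by omega] at this
  refine ⟨e, c, by omega, he, hc, h0, h1, h4, ?_⟩
  intro i hi2 hi3
  refine ⟨?_, ?_⟩
  · rw [← h0]
    exact hc.ne (by omega) (by omega) (by omega)
  · intro hzi
    rcases hn_two (hH K hw).le (hc.ne (by omega : 1 < e + 5) (by omega : e + 4 < e + 5) (by omega))
      (hc.adjv (by omega) 1) h1 (hc.adjv (by omega) _) h4 (hc.adjv (by omega) i) hzi with h | h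
    · have := hc.inj i (by omega) 1 (by omega) h
      omega
    · have := hc.inj i (by omega) (e + 4) (by omega) h
      omega

/-- inner vertices see only one neighbour of `z` -/
theorem inner_hn (K : Facts G z) {w : V} (hw : G.Adj z w) {e : ℕ} {c : ℕ → V}
    (hc : Cyc G w (e + 5) c) (h1 : G.Adj z (c 1)) (h4 : G.Adj z (c (e + 4)))
    (hL : ∀ i, 2 ≤ i → i ≤ e + 3 → IsL G z (c i)) {i : ℕ} (hi3 : 3 ≤ i) (hi : i ≤ e + 2) :
    hn G z (c i) ≠ 2 := by
  intro h2
  have hLi := hL i (by omega) (by omega)
  have hwi : G.Adj (c i) w := (hc.adjv (by omega) i).symm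
  -- another neighbour
  obtain ⟨o, how, ho⟩ : ∃ o, o ≠ w ∧ G.Adj (c i) o ∧ G.Adj z o := by
    by_contra hcon
    push Not at hcon
    have : (univ.filter fun x => G.Adj (c i) x ∧ G.Adj z x) ⊆ {w} := by
      intro x hx
      simp only [mem_filter, mem_univ, true_and] at hx
      rw [mem_singleton]
      by_contra hne
      exact hcon x hne hx.1 hx.2
    have := card_le_card this
    rw [card_singleton] at this
    unfold hn at h2
    omega
  have how' : G.Adj w o := K.h2 (c i) w o hLi hwi ho.1 hw ho.2 how.symm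
  rcases hn_two (hH K hw).le (hc.ne (by omega : 1 < e + 5) (by omega : e + 4 < e + 5) (by omega))
      (hc.adjv (by omega) 1) h1 (hc.adjv (by omega) _) h4 how' ho.2 with h | h
  · rw [h] at ho
    rcases chord' K hc (by omega) (by omega : i < e + 5) (by omega : 1 < e + 5) ho.1 with h' | h'
    · omega
    · exact hLi.2 h'.2.2.1
  · rw [h] at ho
    rcases chord' K hc (by omega) (by omega : i < e + 5) (by omega : e + 4 < e + 5) ho.1 with h' | h'
    · omega
    · exact hLi.2 h'.2.2.1

/-- no four consecutive small vertices -/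
theorem no_four (K : Facts G z) {w : V} (hw : G.Adj z w) {e : ℕ} {c : ℕ → V}
    (hc : Cyc G w (e + 5) c) (h1 : G.Adj z (c 1)) (h4 : G.Adj z (c (e + 4)))
    (hL : ∀ i, 2 ≤ i → i ≤ e + 3 → IsL G z (c i)) (hz : 4 ≤ dg G z) {i : ℕ} (hi2 : 2 ≤ i)
    (hi : i + 3 ≤ e + 3) (s0 : dg G (c i) ≤ 6) (s1 : dg G (c (i + 1)) ≤ 6)
    (s2 : dg G (c (i + 2)) ≤ 6) (s3 : dg G (c (i + 3)) ≤ 6) : False := by
  have ind := ind' K (fun h => by omega) hc (by omega)
  -- three consecutive vertices `x, y, x'` of the link, `y` and `x'` inner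
  have key : ∀ x y x' : V, G.Adj w x → G.Adj w y → G.Adj w x' → G.Adj x y → G.Adj y x' →
      x ≠ x' → IsL G z x → IsL G z y → IsL G z x' → dg G x ≤ 6 → dg G y ≤ 6 → dg G x' ≤ 6 →
      hn G z y ≠ 2 → hn G z x' ≠ 2 → (dg G y = 6 ∨ dg G x' = 5) → False := by
    intro x y x' wx wy wx' xy yx' hxx lx ly lx' dx dy dx' ny nx' hor
    have h5 := K.five y ly.1
    have hny : hn G z y ≤ 1 := by
      have := Dis.hL K ly
      omega
    have only : ∀ o, G.Adj y o → G.Adj z o → o = w := by
      intro o h h'
      by_contra hne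
      have := two_le_hn (G := G) (z := z) (v := y) hne h h' wy.symm hw
      omega
    obtain ⟨_, f₀, hf₀⟩ := cyc_ex K y
    have hpos : 0 < dg G y := by omega
    obtain ⟨f, hf, f0, f1⟩ := base2 hf₀ hpos (fun c hc => ind_L K ly hc) yx' wy.symm wx'.symm
    have f2 : f 2 = x := by
      obtain ⟨j, hj, hjx⟩ := (hf.mem x).1 xy.symm
      have h1j : G.Adj (f 1) (f j) := by rw [f1, hjx]; exact wx
      have := ind_L K ly hf 1 (by omega) j hj h1j
      have hj' : j = 2 ∨ j = 0 := by omega
      rcases hj' with rfl | rfl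
      · exact hjx
      · exact absurd (f0.symm.trans hjx).symm hxx
    have noz : ∀ j, j < dg G y → j ≠ 1 → ¬ G.Adj z (f j) := by
      intro j hj hj1 h
      have := only _ (hf.adjv hpos j) h
      rw [← f1] at this
      exact hj1 (hf.inj j hj 1 (by omega) this)
    have h56 : dg G y = 5 ∨ dg G y = 6 := by omega
    rcases h56 with h | h
    · have hx5 : dg G x' = 5 := by
        rcases hor with h' | h'
        · omega
        · exact h'
      rw [h] at hf
      have := fA K ly hf (by rw [f0]; exact lx') (by rw [f0]; exact hx5) (by rw [f2]; exact lx)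
        (by rw [f2]; exact dx) (noz 3 (by omega) (by norm_num))
      rw [f0] at this
      exact nx' this.1
    · rw [h] at hf
      have := fB K ly hf (by rw [f0]; exact lx') (by rw [f0]; exact dx') (by rw [f2]; exact lx)
        (by rw [f2]; exact dx) (noz 3 (by omega) (by norm_num)) (noz 5 (by omega) (by norm_num))
      rw [f0] at this
      exact nx' this.1
  have n1 := inner_hn K hw hc h1 h4 hL (i := i + 1) (by omega) (by omega)
  have n2 := inner_hn K hw hc h1 h4 hL (i := i + 2) (by omega) (by omega)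
  have a : ∀ j, G.Adj w (c j) := hc.adjv (by omega)
  have l2 := hL (i + 2) (by omega) (by omega)
  have l1 := hL (i + 1) (by omega) (by omega)
  have five2 := K.five _ l2.1
  by_cases h : dg G (c (i + 1)) = 6 ∨ dg G (c (i + 2)) = 5
  · exact key (c i) (c (i + 1)) (c (i + 2)) (a _) (a _) (a _) (hc.adj _) (hc.adj _)
      (hc.ne (by omega) (by omega) (by omega)) (hL _ (by omega) (by omega)) l1 l2 s0 s1 s2 n1 n2 h
  · have h6 : dg G (c (i + 2)) = 6 := by omega
    exact key (c (i + 3)) (c (i + 2)) (c (i + 1)) (a _) (a _) (a _) (hc.adj _).symm (hc.adj _).symm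
      (hc.ne (by omega) (by omega) (by omega)) (hL _ (by omega) (by omega)) l2 l1 s3 s2 s1 n2 n1
      (Or.inl h6)

/-- what a neighbour of `z` gives -/
theorem out_H (K : Facts G z) {w : V} (hw : G.Adj z w) :
    ∑ v, gift G z w v ≤ 4 * ((dg G w : ℤ) - 4) ∧
      (4 ≤ dg G z → ∑ v, gift G z w v ≤ 4 * ((dg G w : ℤ) - 5)) := by
  obtain ⟨e, c, he1, hdeg, hc, h0, h1, h4, hLc⟩ := linkH K hw
  have hpos : 0 < e + 5 := by omega
  have hg0 : gift G z w (c 0) = 0 :=
    gift_H_big hw fun h => by rw [h0] at h; exact h.1.1 rfl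
  have hg1 : gift G z w (c 1) = 0 := gift_H_big hw fun h => h.1.2 h1
  have hg4 : gift G z w (c (e + 4)) = 0 := gift_H_big hw fun h => h.1.2 h4
  have hg2 : gift G z w (c 2) ≤ 2 := by
    apply gift_H_two hw
    refine two_le_hn (x := w) (y := c 1) ?_ (hc.adjv hpos 2).symm hw (hc.adj 1).symm h1
    exact (hc.adjv hpos 1).ne
  have hg3 : gift G z w (c (e + 3)) ≤ 2 := by
    apply gift_H_two hw
    refine two_le_hn (x := w) (y := c (e + 4)) ?_ (hc.adjv hpos _).symm hw (hc.adj (e + 3)) h4
    exact (hc.adjv hpos _).ne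
  have hsum : ∑ v, gift G z w v = gift G z w (c 2) +
      ∑ i ∈ range e, gift G z w (c (i + 3)) + gift G z w (c (e + 3)) := by
    rw [out_eq, hc.sum_eq, sum_range_succ, sum_range_succ, sum_range_succ', sum_range_succ',
      sum_range_succ']
    rw [hg4]
    have : gift G z w (c (0 + 1)) = 0 := hg1
    rw [this, hg0]
    ring
  have hd : (dg G w : ℤ) = e + 5 := by exact_mod_cast hdeg
  constructor
  · have := sum_le_four e (fun i => gift G z w (c (i + 3))) fun i _ => gift_H_le hw
    rw [hsum, hd]
    linarith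
  · intro hz
    have hseven := K.seven hz w hw
    rw [hsum, hd]
    by_cases hbig : ∃ j < e, ¬ dg G (c (j + 3)) ≤ 6
    · obtain ⟨j, hj, hj6⟩ := hbig
      have := sum_le_of_zero e (fun i => gift G z w (c (i + 3))) (fun i _ => gift_H_le hw) hj
        (gift_H_big hw fun h => hj6 h.2)
      linarith
    · push Not at hbig
      have hs := sum_le_four e (fun i => gift G z w (c (i + 3))) fun i _ => gift_H_le hw
      have four := fun i hi2 hi s0 s1 s2 s3 =>
        no_four K hw hc h1 h4 hLc hz (i := i) hi2 hi s0 s1 s2 s3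
      rcases Nat.lt_or_ge e 4 with hlt | hge
      · have h23 : e = 2 ∨ e = 3 := by omega
        rcases h23 with he | he
        · subst he
          -- degree 7
          have z2 : gift G z w (c 2) = 0 := by
            apply gift_H_big hw
            intro h
            exact fH K hw hz hc h0 h.1 h.2 (hLc 4 (by norm_num) (by norm_num)) (hbig 1 (by norm_num))
          have z5 : gift G z w (c (2 + 3)) = 0 := by
            apply gift_H_big hw
            intro h
            have hr := hc.refl (by norm_num) 0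
            have e0 : c (0 + (2 + 5 - 1) * 0) = z := h0
            have e2 : c (0 + (2 + 5 - 1) * 2) = c 5 := by
              have := hc.per_mul 5 1
              simpa using this
            have e4 : c (0 + (2 + 5 - 1) * 4) = c 3 := by
              have := hc.per_mul 3 3
              simpa using this
            exact fH K hw hz hr e0 (by show IsL G z (c (0 + (2 + 5 - 1) * 2)); rw [e2]; exact h.1)
              (by show dg G (c (0 + (2 + 5 - 1) * 2)) ≤ 6; rw [e2]; exact h.2)
              (by show IsL G z (c (0 + (2 + 5 - 1) * 4)); rw [e4]; exact hLc 3 (by norm_num) (by norm_num))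
              (by show dg G (c (0 + (2 + 5 - 1) * 4)) ≤ 6; rw [e4]; exact hbig 0 (by norm_num))
          rw [z2, z5]
          push_cast at hs ⊢
          linarith
        · subst he
          have b0 := hbig 0 (by norm_num)
          have b1 := hbig 1 (by norm_num)
          have b2 := hbig 2 (by norm_num)
          have z2 : gift G z w (c 2) = 0 := by
            apply gift_H_big hw
            intro h
            exact four 2 (by norm_num) (by norm_num) h.2 b0 b1 b2
          have z6 : gift G z w (c (3 + 3)) = 0 := by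
            apply gift_H_big hw
            intro h
            exact four 3 (by norm_num) (by norm_num) b0 b1 b2 h.2
          rw [z2, z6]
          push_cast at hs ⊢
          linarith
      · exfalso
        exact four 3 (by norm_num) (by omega) (hbig 0 (by omega)) (hbig 1 (by omega))
          (hbig 2 (by omega)) (hbig 3 (by omega))

theorem in_H {w : V} (hw : G.Adj z w) : ∑ u, gift G z u w = 0 :=
  sum_eq_zero fun _ _ => gift_eq_zero fun h => h.2.2 hw

/-- the final charge of a vertex of `L` -/
theorem final_L (K : Facts G z) {v : V} (hv : IsL G z v) :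
    0 ≤ 4 * ((dg G v : ℤ) - 6) + ∑ u, gift G z u v - ∑ u, gift G z v u := by
  have h5 := K.five v hv.1
  have hin := in_nonneg (G := G) (z := z) v
  rcases Nat.lt_or_ge (dg G v) 7 with h | h
  · have h56 : dg G v = 5 ∨ dg G v = 6 := by omega
    rcases h56 with h' | h'
    · have hout := out_five hv ⟨by omega, fun h => by omega⟩
      have h4 : 4 ≤ ∑ u, gift G z u v := by
        by_cases hh : hn G z v = 0
        · exact in_five K ⟨hv, h', hh⟩
        · exact in_small K hv (by omega) (by omega)
      rw [hout, h']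
      push_cast
      linarith
    · by_cases hh : hn G z v = 0
      · have hout := out_five hv ⟨by omega, fun _ => hh⟩
        rw [hout, h']
        push_cast
        linarith
      · have h4 := in_small K hv (by omega) (by omega : 1 ≤ hn G z v)
        have hout := out_six K hv h' hh
        rw [h']
        push_cast
        linarith
  · rcases Nat.lt_or_ge (dg G v) 8 with h8 | h8
    · have := out_seven K hv (by omega)
      linarith
    · have := out_eight K hv h8
      linarith

end Dis

open Finset Classical Dis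

theorem no_facts {V : Type} [Fintype V] {G : SimpleGraph V} {z : V} (K : Facts G z) : False := by
  set κ : ℤ := if 4 ≤ dg G z then 4 else 8 with hκ
  have hz3 := (cyc_ex K z).1
  -- final charges
  have hfin : ∀ v, v ≠ z → 0 ≤ 4 * ((dg G v : ℤ) - 6) + (if G.Adj z v then κ else 0) +
      ∑ u, gift G z u v - ∑ u, gift G z v u := by
    intro v hv
    by_cases hzv : G.Adj z v
    · rw [if_pos hzv, in_H hzv]
      have h := out_H K hzv
      by_cases h4 : 4 ≤ dg G z
      · have h2 := h.2 h4
        rw [hκ, if_pos h4]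
        linarith
      · rw [hκ, if_neg h4]
        linarith [h.1]
    · rw [if_neg hzv]
      have := final_L K (v := v) ⟨hv, hzv⟩
      linarith
  have hz0 : ∑ u, gift G z u z = 0 := sum_eq_zero fun u _ => gift_eq_zero fun h => h.2.1 rfl
  have hz0' : ∑ u, gift G z z u = 0 := sum_eq_zero fun u _ => gift_eq_zero fun h => h.2.2 h.1
  have h1 : 0 ≤ ∑ v ∈ univ.erase z, (4 * ((dg G v : ℤ) - 6) + (if G.Adj z v then κ else 0) +
      ∑ u, gift G z u v - ∑ u, gift G z v u) :=
    sum_nonneg fun v hv => hfin v (ne_of_mem_erase hv)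
  have h2 : ∑ v ∈ univ.erase z, (4 * ((dg G v : ℤ) - 6) + (if G.Adj z v then κ else 0) +
      ∑ u, gift G z u v - ∑ u, gift G z v u) + (4 * ((dg G z : ℤ) - 6)) =
      ∑ v, (4 * ((dg G v : ℤ) - 6) + (if G.Adj z v then κ else 0) +
      ∑ u, gift G z u v - ∑ u, gift G z v u) := by
    rw [← add_sum_erase _ _ (mem_univ z), hz0, hz0', if_neg (G.loopless.irrefl z)]
    ring
  have h3 : ∑ v, (4 * ((dg G v : ℤ) - 6) + (if G.Adj z v then κ else 0) +
      ∑ u, gift G z u v - ∑ u, gift G z v u) =
      4 * (∑ v, (dg G v : ℤ) - 6 * Fintype.card V) + κ * dg G z := by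
    rw [sum_sub_distrib, sum_add_distrib, sum_add_distrib, ← mul_sum, sum_sub_distrib, sum_const,
      card_univ, nsmul_eq_mul]
    have e1 : ∑ v, ∑ u, gift G z u v = ∑ v, ∑ u, gift G z v u := sum_comm
    have e2 : ∑ v, (if G.Adj z v then κ else 0) = κ * dg G z := by
      rw [← sum_filter, sum_const, nsmul_eq_mul, mul_comm]
      congr 2
      unfold dg
      have : G.neighborSet z = ((univ.filter fun x => G.Adj z x : Finset V) : Set V) := by
        ext x; simp
      rw [this, Set.ncard_coe_finset]
    rw [e1, e2]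
    ring
  have h4 := K.euler
  have h5 : 4 * (∑ v, (dg G v : ℤ) - 6 * Fintype.card V) ≤ -48 := by linarith
  have h6 : 0 ≤ -48 + κ * dg G z - 4 * ((dg G z : ℤ) - 6) := by linarith
  by_cases h7 : 4 ≤ dg G z
  · rw [hκ, if_pos h7] at h6
    linarith
  · rw [hκ, if_neg h7] at h6
    have : dg G z = 3 := by omega
    rw [this] at h6
    norm_num at h6

end DS
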