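import Pool.Agent.Work.MP_0890ba_co.DS.Defs

/-!
# Discharging for the law (D*), part 1: periodic enumerations of links

Style of Cranston and Rabern, Planar graphs are 9/2-colorable.
-/

set_option linter.unusedSectionVars false

namespace DS.Dis

open Finset Classical

variable {V : Type} [Fintype V]

/-- Number of common neighbours with `z`. -/
noncomputable def hn (G : SimpleGraph V) (z v : V) : ℕ :=
  (univ.filter fun x => G.Adj v x ∧ G.Adj z x).card

/-- A vertex of degree 5 which is at distance at least 3 from `z`. -/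
def Z5 (G : SimpleGraph V) (z v : V) : Prop := IsL G z v ∧ dg G v = 5 ∧ hn G z v = 0

/-- The sequence `c` runs once around the neighbours of `v` (a closed walk through adjacent
vertices), continued periodically. -/
structure Cyc (G : SimpleGraph V) (v : V) (d : ℕ) (c : ℕ → V) : Prop where
  per : ∀ i, c (i + d) = c i
  inj : ∀ i < d, ∀ j < d, c i = c j → i = j
  mem : ∀ x, G.Adj v x ↔ ∃ i < d, c i = x
  adj : ∀ i, G.Adj (c i) (c (i + 1))

/-- The cycle `c 0, …, c (d - 1)` has no chord. -/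
def Ind (G : SimpleGraph V) (d : ℕ) (c : ℕ → V) : Prop :=
  ∀ i < d, ∀ j < d, G.Adj (c i) (c j) →
    j = i + 1 ∨ i = j + 1 ∨ (i = 0 ∧ j + 1 = d) ∨ (j = 0 ∧ i + 1 = d)

variable {G : SimpleGraph V} {z : V} {v : V} {d : ℕ} {c : ℕ → V}

theorem Cyc.per_mul (h : Cyc G v d c) (i k : ℕ) : c (i + k * d) = c i := by
  induction k with
  | zero => simp
  | succ k ih => rw [Nat.succ_mul, ← add_assoc, h.per, ih]

theorem Cyc.per_mod (h : Cyc G v d c) (i : ℕ) : c i = c (i % d) := by
  conv_lhs => rw [← Nat.mod_add_div i d, mul_comm]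
  exact h.per_mul _ _

theorem Cyc.shift (h : Cyc G v d c) (hd : 0 < d) (k : ℕ) : Cyc G v d (fun i => c (i + k)) where
  per i := by
    show c (i + d + k) = c (i + k)
    rw [show i + d + k = i + k + d by ring, h.per]
  inj i hi j hj e := by
    have e' : c ((i + k) % d) = c ((j + k) % d) := by
      rw [← h.per_mod, ← h.per_mod]; exact e
    have := h.inj _ (Nat.mod_lt _ hd) _ (Nat.mod_lt _ hd) e'
    have h2 : i ≡ j [MOD d] := Nat.ModEq.add_right_cancel' k this
    have h3 : i % d = j % d := h2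
    rwa [Nat.mod_eq_of_lt hi, Nat.mod_eq_of_lt hj] at h3
  mem x := by
    rw [h.mem]
    constructor
    · rintro ⟨i, hi, e⟩
      refine ⟨(i + (d - k % d)) % d, Nat.mod_lt _ hd, ?_⟩
      show c ((i + (d - k % d)) % d + k) = x
      rw [h.per_mod, ← e]
      congr 1
      have hk : k % d < d := Nat.mod_lt _ hd
      have : ((i + (d - k % d)) % d + k) % d = (i + (d - k % d) + k % d) % d := by
        rw [Nat.add_mod, Nat.mod_mod, ← Nat.add_mod, Nat.add_mod _ (k % d), Nat.mod_mod,
          ← Nat.add_mod]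
      rw [this, show i + (d - k % d) + k % d = i + d by omega, Nat.add_mod_right,
        Nat.mod_eq_of_lt hi]
    · rintro ⟨i, _, e⟩
      refine ⟨(i + k) % d, Nat.mod_lt _ hd, ?_⟩
      rw [← h.per_mod]; exact e
  adj i := by
    show G.Adj (c (i + k)) (c (i + 1 + k))
    rw [show i + 1 + k = i + k + 1 by ring]
    exact h.adj _

theorem Cyc.adj_pred (h : Cyc G v d c) (hd : 0 < d) (i : ℕ) : G.Adj (c i) (c (i + (d - 1))) := by
  have := h.adj (i + (d - 1))
  rw [show i + (d - 1) + 1 = i + d by omega, h.per] at this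
  exact this.symm

theorem Cyc.refl (h : Cyc G v d c) (hd : 0 < d) (k : ℕ) :
    Cyc G v d (fun i => c (k + (d - 1) * i)) where
  per i := by
    show c (k + (d - 1) * (i + d)) = c (k + (d - 1) * i)
    rw [show k + (d - 1) * (i + d) = k + (d - 1) * i + (d - 1) * d by ring, h.per_mul]
  inj i hi j hj e := by
    have e' : c ((k + (d - 1) * i) % d) = c ((k + (d - 1) * j) % d) := by
      rw [← h.per_mod, ← h.per_mod]; exact e
    have := h.inj _ (Nat.mod_lt _ hd) _ (Nat.mod_lt _ hd) e'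
    have h2 : (d - 1) * i ≡ (d - 1) * j [MOD d] := Nat.ModEq.add_left_cancel' k this
    have h3 : i ≡ j [MOD d] := by
      refine Nat.ModEq.cancel_left_of_coprime ?_ h2
      have : Nat.Coprime (d - 1 + 1) (d - 1) := by simp
      rwa [show d - 1 + 1 = d by omega] at this
    have h4 : i % d = j % d := h3
    rwa [Nat.mod_eq_of_lt hi, Nat.mod_eq_of_lt hj] at h4
  mem x := by
    rw [h.mem]
    constructor
    · rintro ⟨i, hi, e⟩
      -- want j with k + (d-1) j ≡ i, i.e. j ≡ k - i
      refine ⟨(k + (d - i)) % d, Nat.mod_lt _ hd, ?_⟩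
      show c (k + (d - 1) * ((k + (d - i)) % d)) = x
      rw [h.per_mod, ← e]
      congr 1
      have h1 : (k + (d - 1) * ((k + (d - i)) % d)) % d = (k + (d - 1) * (k + (d - i))) % d := by
        conv_lhs => rw [Nat.add_mod, Nat.mul_mod, Nat.mod_mod, ← Nat.mul_mod, ← Nat.add_mod]
      rw [h1]
      obtain ⟨t, ht⟩ : ∃ t, k + (d - 1) * (k + (d - i)) = i + t * d := by
        refine ⟨k + (d - i) - 1, ?_⟩
        have h2 : 1 ≤ k + (d - i) := by omega
        obtain ⟨s, hs⟩ : ∃ s, k + (d - i) = s + 1 := ⟨k + (d - i) - 1, by omega⟩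
        rw [hs]
        obtain ⟨e1, rfl⟩ : ∃ e1, d = e1 + 1 := ⟨d - 1, by omega⟩
        simp only [Nat.add_sub_cancel]
        have h3 : k + (e1 + 1) = s + 1 + i := by omega
        nlinarith
      rw [ht, Nat.add_mul_mod_self_right, Nat.mod_eq_of_lt hi]
    · rintro ⟨i, _, e⟩
      refine ⟨(k + (d - 1) * i) % d, Nat.mod_lt _ hd, ?_⟩
      rw [← h.per_mod]; exact e
  adj i := by
    show G.Adj (c (k + (d - 1) * i)) (c (k + (d - 1) * (i + 1)))
    rw [show k + (d - 1) * (i + 1) = k + (d - 1) * i + (d - 1) by ring]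
    exact h.adj_pred hd _

theorem Cyc.adjv (h : Cyc G v d c) (hd : 0 < d) (i : ℕ) : G.Adj v (c i) :=
  (h.mem _).2 ⟨i % d, Nat.mod_lt _ hd, (h.per_mod i).symm⟩

theorem Cyc.filter_eq (h : Cyc G v d c) : (univ.filter fun x => G.Adj v x) = (range d).image c := by
  ext x
  simp [h.mem]

theorem Cyc.sum_eq (h : Cyc G v d c) {M : Type*} [AddCommMonoid M] (f : V → M) :
    ∑ x ∈ univ.filter (fun x => G.Adj v x), f x = ∑ i ∈ range d, f (c i) := by
  rw [h.filter_eq, sum_image]
  intro i hi j hj e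
  exact h.inj i (by simpa using hi) j (by simpa using hj) e

theorem Cyc.base (h : Cyc G v d c) (hd : 0 < d) {x : V} (hx : G.Adj v x) :
    ∃ c', Cyc G v d c' ∧ c' 0 = x := by
  obtain ⟨i, _, e⟩ := (h.mem x).1 hx
  exact ⟨_, h.shift hd i, by simpa using e⟩

theorem Cyc.ne (h : Cyc G v d c) {i j : ℕ} (hi : i < d) (hj : j < d) (hij : i ≠ j) :
    c i ≠ c j := fun e => hij (h.inj i hi j hj e)


theorem Cyc.dg_eq (h : Cyc G v d c) : dg G v = d := by
  unfold dg
  have : G.neighborSet v = ((univ.filter fun x => G.Adj v x : Finset V) : Set V) := by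
    ext x; simp
  rw [this, Set.ncard_coe_finset, h.filter_eq, card_image_of_injOn, card_range]
  intro i hi j hj e
  exact h.inj i (by simpa using hi) j (by simpa using hj) e

theorem cyc_of_link {k : ℕ} {w : ZMod k → V} (h : Link G v k w) :
    Cyc G v k (fun n => w (n : ZMod k)) where
  per i := by simp
  inj i hi j hj e := by
    have h1 := h.inj e
    have h2 := (ZMod.natCast_eq_natCast_iff' i j k).1 h1
    rwa [Nat.mod_eq_of_lt hi, Nat.mod_eq_of_lt hj] at h2
  mem x := by
    rw [h.nb]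
    have hk : k ≠ 0 := by have := h.three; omega
    have : NeZero k := ⟨hk⟩
    constructor
    · rintro ⟨i, rfl⟩
      exact ⟨i.val, ZMod.val_lt i, by simp⟩
    · rintro ⟨i, _, e⟩
      exact ⟨_, e⟩
  adj i := by
    have := h.adj (i : ZMod k)
    simpa using this

theorem val_succ {k : ℕ} (hk : 3 ≤ k) (i : ZMod k) : (i + 1).val = (i.val + 1) % k := by
  have : NeZero k := ⟨by omega⟩
  have : Fact (1 < k) := ⟨by omega⟩
  rw [ZMod.val_add, ZMod.val_one]

theorem link_of_cyc {k : ℕ} (h : Cyc G v k c) (hk : 3 ≤ k) :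
    Link G v k (fun i : ZMod k => c i.val) where
  three := hk
  inj i j e := by
    have : NeZero k := ⟨by omega⟩
    have := h.inj i.val (ZMod.val_lt i) j.val (ZMod.val_lt j) e
    exact ZMod.val_injective k this
  nb u := by
    have : NeZero k := ⟨by omega⟩
    rw [h.mem]
    constructor
    · rintro ⟨i, hi, e⟩
      exact ⟨(i : ZMod k), by rw [ZMod.val_natCast, Nat.mod_eq_of_lt hi]; exact e⟩
    · rintro ⟨i, e⟩
      exact ⟨i.val, ZMod.val_lt i, e⟩
  adj i := by
    show G.Adj (c i.val) (c (i + 1).val)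
    rw [val_succ hk, ← h.per_mod]
    exact h.adj _

theorem Ind.no_triangle (h : Ind G d c) (hd : 4 ≤ d) {i j k : ℕ} (hi : i < d) (hj : j < d)
    (hk : k < d) (hij : G.Adj (c i) (c j)) (hik : G.Adj (c i) (c k)) (hjk : G.Adj (c j) (c k)) :
    False := by
  have h1 := h i hi j hj hij
  have h2 := h i hi k hk hik
  have h3 := h j hj k hk hjk
  omega

/-! ### facts -/

theorem cyc_ex (K : Facts G z) (v : V) : 3 ≤ dg G v ∧ ∃ c, Cyc G v (dg G v) c := by
  obtain ⟨k, w, h⟩ := K.link v
  have h1 := cyc_of_link h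
  have h2 := h1.dg_eq
  rw [h2]
  exact ⟨h.three, _, h1⟩

/-- chords of links, in terms of the periodic enumeration -/
theorem chord' (K : Facts G z) {v : V} {d : ℕ} {c : ℕ → V} (h : Cyc G v d c) (hd : 3 ≤ d)
    {i j : ℕ} (hi : i < d) (hj : j < d) (hij : G.Adj (c i) (c j)) :
    (j = i + 1 ∨ i = j + 1 ∨ (i = 0 ∧ j + 1 = d) ∨ (j = 0 ∧ i + 1 = d)) ∨
      (dg G z = 3 ∧ G.Adj z v ∧ G.Adj z (c i) ∧ G.Adj z (c j)) := by
  have : NeZero d := ⟨by omega⟩
  have hl := link_of_cyc h hd
  have e1 : ((i : ZMod d)).val = i := by rw [ZMod.val_natCast, Nat.mod_eq_of_lt hi]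
  have e2 : ((j : ZMod d)).val = j := by rw [ZMod.val_natCast, Nat.mod_eq_of_lt hj]
  have h0 := K.chord v d _ hl (i : ZMod d) (j : ZMod d)
  simp only [e1, e2] at h0
  rcases h0 hij with h1 | h1 | h1
  · left
    have h2 : ((j : ZMod d)).val = (((i : ZMod d)) + 1).val := by rw [h1]
    rw [val_succ hd, e1, e2] at h2
    rcases lt_or_eq_of_le (Nat.succ_le_of_lt hi) with h5 | h5
    · have h6 : (i + 1) % d = i + 1 := Nat.mod_eq_of_lt h5
      omega
    · have h5' : i + 1 = d := h5
      have h6 : (i + 1) % d = 0 := by rw [h5']; exact Nat.mod_self d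
      omega
  · left
    have h2 : ((i : ZMod d)).val = (((j : ZMod d)) + 1).val := by rw [h1]
    rw [val_succ hd, e1, e2] at h2
    rcases lt_or_eq_of_le (Nat.succ_le_of_lt hj) with h5 | h5
    · have h6 : (j + 1) % d = j + 1 := Nat.mod_eq_of_lt h5
      omega
    · have h5' : j + 1 = d := h5
      have h6 : (j + 1) % d = 0 := by rw [h5']; exact Nat.mod_self d
      omega
  · right; exact h1

theorem ind' (K : Facts G z) {v : V} (hv : ¬ (dg G z = 3 ∧ G.Adj z v)) {d : ℕ} {c : ℕ → V}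
    (h : Cyc G v d c) (hd : 3 ≤ d) : Ind G d c := by
  intro i hi j hj hij
  rcases chord' K h hd hi hj hij with h1 | h1
  · exact h1
  · exact absurd ⟨h1.1, h1.2.1⟩ hv

theorem ind_L (K : Facts G z) {v : V} (hv : IsL G z v) {d : ℕ} {c : ℕ → V} (h : Cyc G v d c) :
    Ind G d c := by
  have h3 := (cyc_ex K v).1
  rw [h.dg_eq] at h3
  exact ind' K (fun h => hv.2 h.2) h h3

theorem clink (K : Facts G z) {v : V} (hv : ¬ (dg G z = 3 ∧ G.Adj z v)) {k : ℕ} {c : ℕ → V}
    (h : Cyc G v k c) (hk : 3 ≤ k) : CLink G v k (fun i : ZMod k => c i.val) where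
  toLink := link_of_cyc h hk
  cl i j hij := by
    rcases K.chord v k _ (link_of_cyc h hk) i j hij with h1 | h1 | h1
    · exact Or.inl h1
    · exact Or.inr h1
    · exact absurd ⟨h1.1, h1.2.1⟩ hv

theorem clink_L (K : Facts G z) {v : V} (hv : IsL G z v) {k : ℕ} {c : ℕ → V}
    (h : Cyc G v k c) : CLink G v k (fun i : ZMod k => c i.val) := by
  have h3 := (cyc_ex K v).1
  rw [h.dg_eq] at h3
  exact clink K (fun h => hv.2 h.2) h h3

end DS.Dis
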