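import Pool.Agent.Work.MP_0890ba_co.DS.DisA

/-!
# Discharging for the law (D*), part 2: local lemmas
-/

set_option linter.unusedSectionVars false

namespace DS.Dis

open Finset Classical

variable {V : Type} [Fintype V] {G : SimpleGraph V} {z : V}

/-! ### finite checks -/

/-- no conflict of type A between positions at distance 2 -/
def okA (a b : ℕ) : Bool := !(decide (a ≤ 1) && decide (b ≤ 4)) || (a == 1 && (b == 1 || b == 3))

/-- no conflict of type B -/
def okB (l m r : ℕ) : Bool := !((m == 2) && decide (l ≤ 4) && decide (r ≤ 4)) ||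
  ((l == 1 || l == 3) && (r == 1 || r == 3))

/-- no two adjacent far 5-vertices -/
def okE (a b : ℕ) : Bool := !(a == 1 && b == 1)

/-- what the middle vertex gives at least -/
def gf (l m r : ℕ) : ℕ :=
  if m = 3 then 2 else if m = 4 then 2 else
    if m = 5 then (if l = 0 then 1 else if r = 0 then 1 else 2) else 0

/-- the finite check around a 5-vertex -/
def chk (a b c d e : ℕ) : Bool :=
  !(okA a c && okA c a && okA b d && okA d b && okA c e && okA e c && okA d a && okA a d
    && okA e b && okA b e && okE a b && okE b c && okE c d && okE d e && okE e a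
    && okB e a b && okB a b c && okB b c d && okB c d e && okB d e a)
  || decide (4 ≤ gf e a b + gf a b c + gf b c d + gf c d e + gf d e a)

set_option maxRecDepth 100000 in
theorem chk_all : ∀ a < 6, ∀ b < 6, ∀ c < 6, ∀ d < 6, ∀ e < 6, chk a b c d e = true := by
  decide +kernel

/-! ### elementary -/

theorem hn_pos {v x : V} (h1 : G.Adj v x) (h2 : G.Adj z x) : 1 ≤ hn G z v := by
  unfold hn
  exact card_pos.2 ⟨x, by simp [h1, h2]⟩

theorem two_le_hn {v x y : V} (hxy : x ≠ y) (h1 : G.Adj v x) (h2 : G.Adj z x) (h3 : G.Adj v y)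
    (h4 : G.Adj z y) : 2 ≤ hn G z v := by
  unfold hn
  calc 2 = ({x, y} : Finset V).card := (card_pair hxy).symm
    _ ≤ _ := card_le_card (by
      intro w hw
      rcases mem_insert.1 hw with rfl | hw
      · simp [h1, h2]
      · rw [mem_singleton] at hw
        subst hw
        simp [h3, h4])

theorem hn_two {v x y w : V} (h : hn G z v ≤ 2) (hxy : x ≠ y) (h1 : G.Adj v x) (h2 : G.Adj z x)
    (h3 : G.Adj v y) (h4 : G.Adj z y) (h5 : G.Adj v w) (h6 : G.Adj z w) : w = x ∨ w = y := by
  by_contra hcon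
  push Not at hcon
  have : 3 ≤ hn G z v := by
    unfold hn
    calc 3 = ({w, x, y} : Finset V).card := (card_eq_three.2 ⟨w, x, y, hcon.1, hcon.2, hxy, rfl⟩).symm
      _ ≤ _ := card_le_card (by
        intro u hu
        simp only [mem_insert, mem_singleton] at hu
        rcases hu with rfl | rfl | rfl <;> simp_all)
  omega

theorem nbr_L {v x : V} (hv : IsL G z v) (h0 : hn G z v = 0) (hx : G.Adj v x) : IsL G z x := by
  refine ⟨?_, fun h => ?_⟩
  · rintro rfl
    exact hv.2 hx.symm
  · have := hn_pos hx h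
    omega

theorem hL (K : Facts G z) {v : V} (hv : IsL G z v) : hn G z v ≤ 2 := by
  by_contra hcon
  have h3 : 2 < hn G z v := by omega
  unfold hn at h3
  obtain ⟨a, ha, b, hb, c, hc, hab, hac, hbc⟩ := two_lt_card.1 h3
  simp only [mem_filter, mem_univ, true_and] at ha hb hc
  obtain ⟨_, e, he⟩ := cyc_ex K v
  have h5 := K.five v hv.1
  obtain ⟨i, hi, rfl⟩ := (he.mem a).1 ha.1
  obtain ⟨j, hj, rfl⟩ := (he.mem b).1 hb.1
  obtain ⟨k, hk, rfl⟩ := (he.mem c).1 hc.1
  exact (ind_L K hv he).no_triangle (by omega) hi hj hk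
    (K.h2 v _ _ hv ha.1 hb.1 ha.2 hb.2 hab) (K.h2 v _ _ hv ha.1 hc.1 ha.2 hc.2 hac)
    (K.h2 v _ _ hv hb.1 hc.1 hb.2 hc.2 hbc)

theorem hH (K : Facts G z) {w : V} (hw : G.Adj z w) : hn G z w = 2 := by
  obtain ⟨h3, e₀, he₀⟩ := cyc_ex K z
  obtain ⟨e, he, h0⟩ := he₀.base (by omega) hw
  have ind := ind' K (fun h => G.loopless.irrefl _ h.2) he h3
  set d := dg G z with hd
  have hset : (univ.filter fun x => G.Adj w x ∧ G.Adj z x) = {e 1, e (d - 1)} := by
    ext x
    simp only [mem_filter, mem_univ, true_and, mem_insert, mem_singleton]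
    constructor
    · rintro ⟨h1, h2⟩
      obtain ⟨i, hi, rfl⟩ := (he.mem x).1 h2
      rw [← h0] at h1
      have := ind 0 (by omega) i hi h1
      have hi' : i = 1 ∨ i = d - 1 := by
        rcases this with h | h | h | h
        · left; omega
        · omega
        · right; omega
        · exfalso
          rw [h.1] at h1
          exact G.loopless.irrefl _ h1
      rcases hi' with h | h
      · left; rw [h]
      · right; rw [h]
    · rintro (rfl | rfl)
      · exact ⟨by rw [← h0]; exact he.adj 0, he.adjv (by omega) 1⟩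
      · refine ⟨?_, he.adjv (by omega) _⟩
        have := he.adj_pred (by omega) 0
        rwa [zero_add, h0] at this
  unfold hn
  rw [hset, card_pair (he.ne (by omega) (by omega) (by omega))]

theorem N2_hn (K : Facts G z) {v : V} (h : N2 G z v) : hn G z v = 2 := by
  obtain ⟨hv, o, o', hne, h1, h2, h3, h4⟩ := h
  have := two_le_hn hne h1 h3 h2 h4
  have := hL K hv
  omega

theorem N0_iff {v : V} : N0 G z v ↔ IsL G z v ∧ hn G z v = 0 := by
  unfold N0 hn
  constructor
  · rintro ⟨h1, h2⟩
    refine ⟨h1, card_eq_zero.2 (filter_eq_empty_iff.2 fun x _ h => h2 x h.1 h.2)⟩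
  · rintro ⟨h1, h2⟩
    refine ⟨h1, fun x h h' => ?_⟩
    have := filter_eq_empty_iff.1 (card_eq_zero.1 h2) (mem_univ x)
    exact this ⟨h, h'⟩

theorem fA (K : Facts G z) {v : V} {c : ℕ → V} (hv : IsL G z v) (hc : Cyc G v 5 c)
    (h0 : IsL G z (c 0)) (h0' : dg G (c 0) = 5) (h2 : IsL G z (c 2)) (h2' : dg G (c 2) ≤ 6)
    (h3 : ¬ G.Adj z (c 3)) : hn G z (c 0) = 2 ∧ hn G z (c 2) = 2 := by
  have := K.cA v _ hv (clink_L K hv hc) ⟨h0, h0'.le.trans (by norm_num)⟩ h0' ⟨h2, h2'⟩ h3
  exact ⟨N2_hn K this.1, N2_hn K this.2⟩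

theorem fB (K : Facts G z) {v : V} {c : ℕ → V} (hv : IsL G z v) (hc : Cyc G v 6 c)
    (h0 : IsL G z (c 0)) (h0' : dg G (c 0) ≤ 6) (h2 : IsL G z (c 2)) (h2' : dg G (c 2) ≤ 6)
    (h3 : ¬ G.Adj z (c 3)) (h5 : ¬ G.Adj z (c 5)) : hn G z (c 0) = 2 ∧ hn G z (c 2) = 2 := by
  have := K.cB v _ hv (clink_L K hv hc) ⟨h0, h0'⟩ ⟨h2, h2'⟩ h3 h5
  exact ⟨N2_hn K this.1, N2_hn K this.2⟩

theorem fC (K : Facts G z) {v : V} {c : ℕ → V} (hv : IsL G z v) (hc : Cyc G v 7 c)
    (h0 : Z5 G z (c 0)) (h2 : Z5 G z (c 2)) (h4 : Z5 G z (c 4)) : False :=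
  K.cC v _ hv (clink_L K hv hc) (N0_iff.2 ⟨h0.1, h0.2.2⟩) h0.2.1 (N0_iff.2 ⟨h2.1, h2.2.2⟩) h2.2.1
    (N0_iff.2 ⟨h4.1, h4.2.2⟩) h4.2.1

theorem fH (K : Facts G z) {w : V} {c : ℕ → V} (hw : G.Adj z w) (h4z : 4 ≤ dg G z)
    (hc : Cyc G w 7 c) (h0 : c 0 = z) (h2 : IsL G z (c 2)) (h2' : dg G (c 2) ≤ 6)
    (h4 : IsL G z (c 4)) (h4' : dg G (c 4) ≤ 6) : False :=
  K.cH w _ hw h4z (clink K (fun h => by omega) hc (by norm_num)) h0 ⟨h2, h2'⟩ ⟨h4, h4'⟩

/-- enumeration of a link with given consecutive pair -/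
theorem base2 {v x y : V} {d : ℕ} {c : ℕ → V} (h : Cyc G v d c) (hd : 0 < d)
    (hI : ∀ c, Cyc G v d c → Ind G d c) (hx : G.Adj v x) (hy : G.Adj v y) (hxy : G.Adj x y) :
    ∃ c', Cyc G v d c' ∧ c' 0 = x ∧ c' 1 = y := by
  obtain ⟨c', hc', h0⟩ := h.base hd hx
  obtain ⟨j, hj, hjy⟩ := (hc'.mem y).1 hy
  have hadj : G.Adj (c' 0) (c' j) := by rw [h0, hjy]; exact hxy
  rcases hI _ hc' 0 hd j hj hadj with h1 | h1 | ⟨_, h1⟩ | ⟨h1, _⟩
  · exact ⟨c', hc', h0, by rw [← hjy, h1]⟩
  · omega
  · refine ⟨_, hc'.refl hd 0, by simpa using h0, ?_⟩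
    show c' (0 + (d - 1) * 1) = y
    rw [show 0 + (d - 1) * 1 = j by omega, hjy]
  · subst h1
    exact absurd hadj (G.loopless.irrefl _)

/-- In a 5-vertex `x` of `L` with two `H` neighbours, next to a pair `v, y` of adjacent
neighbours which are in `L`, `v` with no `H` neighbour. -/
theorem link5 (K : Facts G z) {v x y : V} (hv : IsL G z v) (hv0 : hn G z v = 0) (hx : IsL G z x)
    (hy : IsL G z y) (hxv : G.Adj x v) (hxy : G.Adj x y) (hvy : G.Adj v y) (hx5 : dg G x = 5)
    (hx2 : hn G z x = 2) :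
    ∃ a b, a ≠ b ∧ G.Adj z a ∧ G.Adj z b ∧ G.Adj x a ∧ G.Adj x b ∧ G.Adj a b ∧ G.Adj a y ∧
      ¬ G.Adj b y ∧ ∀ w, G.Adj a w → G.Adj x w → w = y ∨ w = b := by
  obtain ⟨_, c₀, hc₀⟩ := cyc_ex K x
  rw [hx5] at hc₀
  have hI : ∀ c, Cyc G x 5 c → Ind G 5 c := fun c hc => ind_L K hx hc
  obtain ⟨c, hc, h0, h1⟩ := base2 hc₀ (by norm_num) hI hxv hxy hvy
  have ind := hI c hc
  have hz4 : ¬ G.Adj z (c 4) := by
    intro h
    have h4 : G.Adj (c 4) (c 0) := by
      have := hc.adj 4
      rwa [hc.per 0] at this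
    have := hn_pos (G := G) (z := z) (v := v) (x := c 4) (by rw [← h0]; exact h4.symm) h
    omega
  have hz0 : ¬ G.Adj z (c 0) := by rw [h0]; exact hv.2
  have hz1 : ¬ G.Adj z (c 1) := by rw [h1]; exact hy.2
  have hsub : (univ.filter fun w => G.Adj x w ∧ G.Adj z w) ⊆ {c 2, c 3} := by
    intro w hw
    simp only [mem_filter, mem_univ, true_and] at hw
    obtain ⟨i, hi, rfl⟩ := (hc.mem w).1 hw.1
    interval_cases i
    · exact absurd hw.2 hz0
    · exact absurd hw.2 hz1
    · simp
    · simp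
    · exact absurd hw.2 hz4
  have h23 : c 2 ≠ c 3 := hc.ne (by norm_num) (by norm_num) (by norm_num)
  have heq : (univ.filter fun w => G.Adj x w ∧ G.Adj z w) = {c 2, c 3} := by
    apply eq_of_subset_of_card_le hsub
    rw [card_pair h23]
    unfold hn at hx2
    exact hx2.ge
  have m2 : c 2 ∈ (univ.filter fun w => G.Adj x w ∧ G.Adj z w) := by rw [heq]; simp
  have m3 : c 3 ∈ (univ.filter fun w => G.Adj x w ∧ G.Adj z w) := by rw [heq]; simp
  simp only [mem_filter, mem_univ, true_and] at m2 m3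
  refine ⟨c 2, c 3, h23, m2.2, m3.2, m2.1, m3.1, hc.adj 2, ?_, ?_, ?_⟩
  · rw [← h1]; exact (hc.adj 1).symm
  · intro h
    rw [← h1] at h
    have := ind 3 (by norm_num) 1 (by norm_num) h
    omega
  · intro w h2w hxw
    obtain ⟨i, hi, rfl⟩ := (hc.mem w).1 hxw
    have := ind 2 (by norm_num) i hi h2w
    have hi' : i = 3 ∨ i = 1 := by omega
    rcases hi' with rfl | rfl
    · right; rfl
    · left; exact h1

theorem noE (K : Facts G z) {v x y : V} (hv : IsL G z v) (hv0 : hn G z v = 0) (hvx : G.Adj v x)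
    (hvy : G.Adj v y) (hxy : G.Adj x y) (hx5 : dg G x = 5) (hy5 : dg G y = 5)
    (hx2 : hn G z x = 2) (hy2 : hn G z y = 2) : False := by
  have hx : IsL G z x := nbr_L hv hv0 hvx
  have hy : IsL G z y := nbr_L hv hv0 hvy
  obtain ⟨a, b, hab, za, zb, xa, xb, aab, aay, nby, ha⟩ :=
    link5 K hv hv0 hx hy hvx.symm hxy hvy hx5 hx2
  obtain ⟨a', b', hab', za', zb', ya', yb', aab', aax', nbx', ha'⟩ :=
    link5 K hv hv0 hy hx hvy.symm hxy.symm hvx hy5 hy2
  have e1 : a' = a := by
    rcases hn_two hx2.le hab xa za xb zb aax'.symm za' with h | h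
    · exact h
    · subst h
      exact absurd ya'.symm nby
  subst e1
  have hbb : b ≠ b' := by
    rintro rfl
    exact nby yb'.symm
  -- the link of a
  have d6 := K.six a' za
  obtain ⟨_, c₀, hc₀⟩ := cyc_ex K a'
  set d := dg G a' with hd
  have hdpos : 0 < d := by omega
  have key : ∀ e : ℕ → V, Cyc G a' d e → e 0 = x → e 1 = y → e (d - 1) = b → False := by
    intro e he h0 h1 hd1
    have h2 : e 2 = b' := by
      have := ha' (e 2) (he.adjv hdpos 2) (by rw [← h1]; exact he.adj 1)
      rcases this with h | h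
      · exfalso
        rw [← h0] at h
        have := he.inj 2 (by omega) 0 (by omega) h
        omega
      · exact h
    obtain ⟨k, hk, hkz⟩ := (he.mem z).1 za.symm
    have hs : ∀ w, G.Adj a' w → G.Adj z w → w = b ∨ w = b' := fun w h3 h4 =>
      hn_two (hH K za).le hbb aab zb aab' zb' h3 h4
    have p1 := hs (e (k + 1)) (he.adjv hdpos _) (by rw [← hkz]; exact he.adj k)
    have p2 := hs (e (k + (d - 1))) (he.adjv hdpos _) (by rw [← hkz]; exact he.adj_pred hdpos k)
    have q1 : e (k + 1) = b' → False := by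
      intro h
      rw [← h2, he.per_mod] at h
      have h3 := he.inj _ (Nat.mod_lt _ hdpos) 2 (by omega) h
      have h4 : k = 1 := by
        rcases lt_or_eq_of_le (Nat.succ_le_of_lt hk) with h5 | h5
        · have h6 : (k + 1) % d = k + 1 := Nat.mod_eq_of_lt h5
          omega
        · have h6 : (k + 1) % d = 0 := by
            have : k + 1 = d := h5
            rw [this]; exact Nat.mod_self d
          omega
      rw [h4, h1] at hkz
      exact hy.1 hkz
    rcases p1 with p1 | p1
    · -- e (k+1) = b, so e (k + d - 1) = b'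
      have r2 : e (k + (d - 1)) = b' := by
        rcases p2 with p2 | p2
        · exfalso
          have : e (k + 1) = e (k + (d - 1)) := by rw [p1, p2]
          rw [he.per_mod (k + 1), he.per_mod (k + (d - 1))] at this
          have h3 := he.inj _ (Nat.mod_lt _ hdpos) _ (Nat.mod_lt _ hdpos) this
          rcases lt_or_eq_of_le (Nat.succ_le_of_lt hk) with h5 | h5
          · have h6 : (k + 1) % d = k + 1 := Nat.mod_eq_of_lt h5
            rcases Nat.eq_zero_or_pos k with h7 | h7
            · subst h7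
              have : (0 + (d - 1)) % d = d - 1 := by
                rw [zero_add]; exact Nat.mod_eq_of_lt (by omega)
              omega
            · have : (k + (d - 1)) % d = k - 1 := by
                rw [show k + (d - 1) = k - 1 + d by omega, Nat.add_mod_right]
                exact Nat.mod_eq_of_lt (by omega)
              omega
          · have h6 : (k + 1) % d = 0 := by
              have : k + 1 = d := h5
              rw [this]; exact Nat.mod_self d
            have : (k + (d - 1)) % d = k - 1 := by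
              rw [show k + (d - 1) = k - 1 + d by omega, Nat.add_mod_right]
              exact Nat.mod_eq_of_lt (by omega)
            omega
        · exact p2
      rw [← h2, he.per_mod] at r2
      have h3 := he.inj _ (Nat.mod_lt _ hdpos) 2 (by omega) r2
      have hk3 : k = 3 := by
        rcases Nat.eq_zero_or_pos k with h7 | h7
        · subst h7
          have : (0 + (d - 1)) % d = d - 1 := by
            rw [zero_add]; exact Nat.mod_eq_of_lt (by omega)
          omega
        · have : (k + (d - 1)) % d = k - 1 := by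
            rw [show k + (d - 1) = k - 1 + d by omega, Nat.add_mod_right]
            exact Nat.mod_eq_of_lt (by omega)
          omega
      subst hk3
      have h5 : e (3 + 1) = e (d - 1) := by rw [p1, hd1]
      have := he.inj 4 (by omega) (d - 1) (by omega) h5
      omega
    · exact q1 p1
  obtain ⟨e, he, h0⟩ := hc₀.base hdpos xa.symm
  have f1 := ha (e 1) (he.adjv hdpos 1) (by rw [← h0]; exact he.adj 0)
  have f2 := ha (e (d - 1)) (he.adjv hdpos _) (by
    have := he.adj_pred hdpos 0
    rw [zero_add, h0] at this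
    exact this)
  have hne : e 1 ≠ e (d - 1) := he.ne (by omega) (by omega) (by omega)
  rcases f1 with f1 | f1
  · rcases f2 with f2 | f2
    · exact hne (f1.trans f2.symm)
    · exact key e he h0 f1 f2
  · rcases f2 with f2 | f2
    · refine key _ (he.refl hdpos 0) (by simpa using h0) ?_ ?_
      · show e (0 + (d - 1) * 1) = y
        rw [show 0 + (d - 1) * 1 = d - 1 by ring, f2]
      · show e (0 + (d - 1) * (d - 1)) = b
        rw [← f1, he.per_mod]
        congr 1
        obtain ⟨s, hs⟩ : ∃ s, d = s + 2 := ⟨d - 2, by omega⟩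
        rw [hs, show s + 2 - 1 = s + 1 by omega,
          show 0 + (s + 1) * (s + 1) = 1 + s * (s + 2) by ring, Nat.add_mul_mod_self_right]
        exact Nat.mod_eq_of_lt (by omega)
    · exact hne (f1.trans f2.symm)

end DS.Dis
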