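import Pool.Agent.Work.MP_0890ba_co.DS.DisB

/-!
# Discharging for the law (D*), part 3: the charges (in quarters) and the vertices of `L`
-/

set_option linter.unusedSectionVars false
set_option linter.unusedSimpArgs false

namespace DS.Dis

open Finset Classical

variable {V : Type} [Fintype V] {G : SimpleGraph V} {z : V}

/-- What `u` gives to `v`, in quarters. -/
noncomputable def gift (G : SimpleGraph V) (z u v : V) : ℤ :=
  if G.Adj u v ∧ IsL G z v then
    if G.Adj z u then (if dg G v ≤ 6 then (if hn G z v ≤ 1 then 4 else 2) else 0)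
    else if u = z then 0
    else if Z5 G z v then
      (if dg G u = 6 then (if hn G z u = 0 then 0 else 2)
       else if 7 ≤ dg G u then (if ∃ y, G.Adj u y ∧ G.Adj v y ∧ Z5 G z y then 1 else 2)
       else 0)
    else 0
  else 0

theorem gift_nonneg (u v : V) : 0 ≤ gift G z u v := by
  unfold gift
  split_ifs <;> norm_num

theorem gift_eq_zero {u v : V} (h : ¬ (G.Adj u v ∧ IsL G z v)) : gift G z u v = 0 := by
  unfold gift
  rw [if_neg h]

theorem out_eq (u : V) : ∑ v, gift G z u v = ∑ v ∈ univ.filter (fun x => G.Adj u x), gift G z u v := by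
  rw [sum_filter]
  apply sum_congr rfl
  intro v _
  by_cases h : G.Adj u v
  · rw [if_pos h]
  · rw [if_neg h, gift_eq_zero fun h' => h h'.1]

theorem in_eq (v : V) : ∑ u, gift G z u v = ∑ u ∈ univ.filter (fun x => G.Adj v x), gift G z u v := by
  rw [sum_filter]
  apply sum_congr rfl
  intro u _
  by_cases h : G.Adj v u
  · rw [if_pos h]
  · rw [if_neg h, gift_eq_zero fun h' => h h'.1.symm]

theorem in_nonneg (v : V) : 0 ≤ ∑ u, gift G z u v := sum_nonneg fun u _ => gift_nonneg u v

/-! ### small vertices with an `H` neighbour -/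

theorem in_small (K : Facts G z) {v : V} (hv : IsL G z v) (h6 : dg G v ≤ 6) (h1 : 1 ≤ hn G z v) :
    4 ≤ ∑ u, gift G z u v := by
  have hsub : ∑ u ∈ univ.filter (fun x => G.Adj v x ∧ G.Adj z x), gift G z u v ≤
      ∑ u, gift G z u v :=
    sum_le_sum_of_subset_of_nonneg (filter_subset _ _) fun u _ _ => gift_nonneg u v
  have hval : ∀ u ∈ univ.filter (fun x => G.Adj v x ∧ G.Adj z x),
      gift G z u v = if hn G z v ≤ 1 then 4 else 2 := by
    intro u hu
    simp only [mem_filter, mem_univ, true_and] at hu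
    unfold gift
    rw [if_pos ⟨hu.1.symm, hv⟩, if_pos hu.2, if_pos h6]
  rw [sum_congr rfl hval, sum_const] at hsub
  have hcard : (univ.filter fun x => G.Adj v x ∧ G.Adj z x).card = hn G z v := rfl
  rw [hcard] at hsub
  have h2 := hL K hv
  have h12 : hn G z v = 1 ∨ hn G z v = 2 := by omega
  rcases h12 with h | h
  · rw [h] at hsub
    simpa using hsub
  · rw [h] at hsub
    simpa using hsub

/-! ### vertices of degree 5 at distance 3 -/

/-- The type of a vertex. -/
noncomputable def ty (G : SimpleGraph V) (z x : V) : ℕ :=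
  if dg G x ≤ 5 then (if hn G z x = 2 then 1 else 0)
  else if dg G x = 6 then (if hn G z x = 0 then 2 else if hn G z x = 2 then 3 else 4)
  else 5

theorem ty_lt (x : V) : ty G z x < 6 := by
  unfold ty
  split_ifs <;> norm_num

theorem ty_le_one {x : V} (h : ty G z x ≤ 1) : dg G x ≤ 5 := by
  unfold ty at h
  split_ifs at h <;> first | assumption | omega

theorem ty_le_four {x : V} (h : ty G z x ≤ 4) : dg G x ≤ 6 := by
  unfold ty at h
  split_ifs at h <;> omega

theorem ty_one {x : V} (h : ty G z x = 1) : dg G x ≤ 5 ∧ hn G z x = 2 := by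
  unfold ty at h
  split_ifs at h with h1 h2 <;> first | exact ⟨h1, h2⟩ | omega

theorem ty_two {x : V} (h : ty G z x = 2) : dg G x = 6 ∧ hn G z x = 0 := by
  unfold ty at h
  split_ifs at h <;> omega

theorem ty_of_hn2 {x : V} (h : hn G z x = 2) (h6 : dg G x ≤ 6) : ty G z x = 1 ∨ ty G z x = 3 := by
  unfold ty
  split_ifs <;> omega

theorem ty_of_hn2_5 {x : V} (h : hn G z x = 2) (h6 : dg G x ≤ 5) : ty G z x = 1 := by
  unfold ty
  split_ifs; rfl

section five

variable {v : V} {c : ℕ → V}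

theorem loc_okA (K : Facts G z) (hv : Z5 G z v) (hc : Cyc G v 5 c) :
    okA (ty G z (c 0)) (ty G z (c 2)) = true := by
  have a0 := nbr_L hv.1 hv.2.2 (hc.adjv (by norm_num) 0)
  have a2 := nbr_L hv.1 hv.2.2 (hc.adjv (by norm_num) 2)
  have a3 := nbr_L hv.1 hv.2.2 (hc.adjv (by norm_num) 3)
  unfold okA
  by_cases h : ty G z (c 0) ≤ 1 ∧ ty G z (c 2) ≤ 4
  · have h5 : dg G (c 0) = 5 := le_antisymm (ty_le_one h.1) (K.five _ a0.1)
    have := fA K hv.1 hc a0 h5 a2 (ty_le_four h.2) a3.2
    rw [ty_of_hn2_5 this.1 h5.le]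
    rcases ty_of_hn2 this.2 (ty_le_four h.2) with h' | h' <;> simp [h']
  · simp only [not_and_or, not_le] at h
    rcases h with h | h
    · have : ¬ ty G z (c 0) ≤ 1 := by omega
      simp [this]
    · have : ¬ ty G z (c 2) ≤ 4 := by omega
      simp [this]

theorem loc_okA' (K : Facts G z) (hv : Z5 G z v) (hc : Cyc G v 5 c) :
    okA (ty G z (c 2)) (ty G z (c 0)) = true := by
  have h := loc_okA K hv (hc.refl (by norm_num) 2)
  simp only [Nat.mul_zero, Nat.add_zero] at h
  rw [show c (2 + (5 - 1) * 2) = c 0 by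
    have := hc.per_mul 0 2
    simpa using this] at h
  exact h

theorem loc_okE (K : Facts G z) (hv : Z5 G z v) (hc : Cyc G v 5 c) :
    okE (ty G z (c 0)) (ty G z (c 1)) = true := by
  have a0 := nbr_L hv.1 hv.2.2 (hc.adjv (by norm_num) 0)
  have a1 := nbr_L hv.1 hv.2.2 (hc.adjv (by norm_num) 1)
  unfold okE
  by_contra hcon
  have h : ty G z (c 0) = 1 ∧ ty G z (c 1) = 1 := by
    simpa using hcon
  have h0 := ty_one h.1
  have h1 := ty_one h.2
  exact noE K hv.1 hv.2.2 (hc.adjv (by norm_num) 0) (hc.adjv (by norm_num) 1) (hc.adj 0)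
    (le_antisymm h0.1 (K.five _ a0.1)) (le_antisymm h1.1 (K.five _ a1.1)) h0.2 h1.2

theorem loc_okB (K : Facts G z) (hv : Z5 G z v) (hc : Cyc G v 5 c) :
    okB (ty G z (c 4)) (ty G z (c 0)) (ty G z (c 1)) = true := by
  have a0 := nbr_L hv.1 hv.2.2 (hc.adjv (by norm_num) 0)
  have a1 := nbr_L hv.1 hv.2.2 (hc.adjv (by norm_num) 1)
  have a4 := nbr_L hv.1 hv.2.2 (hc.adjv (by norm_num) 4)
  have h40 : G.Adj (c 4) (c 0) := by
    have := hc.adj 4
    rwa [hc.per 0] at this
  unfold okB
  by_cases h : ty G z (c 0) = 2 ∧ ty G z (c 4) ≤ 4 ∧ ty G z (c 1) ≤ 4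
  · obtain ⟨h6, h0⟩ := ty_two h.1
    -- the link of `c 0`, starting with `c 4`, `v`
    obtain ⟨_, e₀, he₀⟩ := cyc_ex K (c 0)
    rw [h6] at he₀
    obtain ⟨e, he, e0, e1⟩ := base2 he₀ (by norm_num) (fun c hc => ind_L K a0 hc) h40.symm
      ((hc.adjv (by norm_num) 0).symm) ((hc.adjv (by norm_num) 4).symm)
    have e2 : e 2 = c 1 := by
      obtain ⟨i, hi, hie⟩ := (he.mem (c 1)).1 (hc.adj 0)
      have h1i : G.Adj (e 1) (e i) := by rw [e1, hie]; exact hc.adjv (by norm_num) 1
      have := ind_L K a0 he 1 (by norm_num) i hi h1i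
      have hi' : i = 2 ∨ i = 0 := by omega
      rcases hi' with rfl | rfl
      · exact hie
      · exfalso
        rw [e0] at hie
        exact hc.ne (by norm_num : 4 < 5) (by norm_num : 1 < 5) (by norm_num) hie
    have b3 := nbr_L a0 h0 (he.adjv (by norm_num) 3)
    have b5 := nbr_L a0 h0 (he.adjv (by norm_num) 5)
    have := fB K a0 he (by rw [e0]; exact a4) (by rw [e0]; exact ty_le_four h.2.1)
      (by rw [e2]; exact a1) (by rw [e2]; exact ty_le_four h.2.2) b3.2 b5.2
    rw [e0, e2] at this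
    rcases ty_of_hn2 this.1 (ty_le_four h.2.1) with h' | h' <;>
      rcases ty_of_hn2 this.2 (ty_le_four h.2.2) with h'' | h'' <;> simp [h', h'']
  · simp only [not_and_or, not_le] at h
    rcases h with h | h | h
    · simp [h]
    · have : ¬ ty G z (c 4) ≤ 4 := by omega
      simp [this]
    · have : ¬ ty G z (c 1) ≤ 4 := by omega
      simp [this]

theorem loc_gift (K : Facts G z) (hv : Z5 G z v) (hc : Cyc G v 5 c) :
    (gf (ty G z (c 4)) (ty G z (c 0)) (ty G z (c 1)) : ℤ) ≤ gift G z (c 0) v := by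
  have a0 := nbr_L hv.1 hv.2.2 (hc.adjv (by norm_num) 0)
  have h0v := (hc.adjv (by norm_num) 0).symm
  have h5 := K.five _ a0.1
  unfold gift
  rw [if_pos ⟨h0v, hv.1⟩, if_neg a0.2, if_neg a0.1, if_pos hv]
  by_cases h7 : 7 ≤ dg G (c 0)
  · rw [if_neg (by omega), if_pos h7]
    have hty : ty G z (c 0) = 5 := by
      unfold ty
      rw [if_neg (by omega), if_neg (by omega)]
    rw [hty]
    unfold gf
    rw [if_neg (by norm_num), if_neg (by norm_num), if_pos rfl]
    by_cases hex : ∃ y, G.Adj (c 0) y ∧ G.Adj v y ∧ Z5 G z y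
    · rw [if_pos hex]
      obtain ⟨y, hy1, hy2, hy3⟩ := hex
      obtain ⟨i, hi, hiy⟩ := (hc.mem y).1 hy2
      rw [← hiy] at hy1 hy3
      have hI := ind_L K hv.1 hc 0 (by norm_num) i hi hy1
      have hty0 : ty G z (c i) = 0 := by
        unfold ty
        rw [if_pos hy3.2.1.le, if_neg (by rw [hy3.2.2]; norm_num)]
      have hi' : i = 1 ∨ i = 4 ∨ i = 0 := by omega
      rcases hi' with h | h | h
      · rw [h] at hty0
        rw [hty0]
        split_ifs <;> first | omega | norm_num
      · rw [h] at hty0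
        rw [hty0]
        norm_num
      · rw [h] at hy1
        exact absurd hy1 (G.loopless.irrefl _)
    · rw [if_neg hex]
      split_ifs <;> norm_num
  · by_cases h6 : dg G (c 0) = 6
    · rw [if_pos h6]
      by_cases hh : hn G z (c 0) = 0
      · rw [if_pos hh]
        have hty : ty G z (c 0) = 2 := by
          unfold ty
          rw [if_neg (by omega), if_pos h6, if_pos hh]
        rw [hty]
        unfold gf
        norm_num
      · rw [if_neg hh]
        unfold gf
        split_ifs <;> norm_num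
    · rw [if_neg h6, if_neg h7]
      have hty : ty G z (c 0) ≤ 1 := by
        unfold ty
        split_ifs <;> omega
      unfold gf
      rw [if_neg (by omega), if_neg (by omega), if_neg (by omega)]
      norm_num

theorem in_five (K : Facts G z) (hv : Z5 G z v) : 4 ≤ ∑ u, gift G z u v := by
  obtain ⟨_, c, hc⟩ := cyc_ex K v
  rw [hv.2.1] at hc
  rw [in_eq, hc.sum_eq]
  have p : ∀ i, c (i + 5) = c i := hc.per
  have s0 := hc
  have s1 := hc.shift (by norm_num) 1
  have s2 := hc.shift (by norm_num) 2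
  have s3 := hc.shift (by norm_num) 3
  have s4 := hc.shift (by norm_num) 4
  have g0 := loc_gift K hv s0
  have g1 := loc_gift K hv s1
  have g2 := loc_gift K hv s2
  have g3 := loc_gift K hv s3
  have g4 := loc_gift K hv s4
  have A0 := loc_okA K hv s0
  have A1 := loc_okA K hv s1
  have A2 := loc_okA K hv s2
  have A3 := loc_okA K hv s3
  have A4 := loc_okA K hv s4
  have A0' := loc_okA' K hv s0
  have A1' := loc_okA' K hv s1
  have A2' := loc_okA' K hv s2
  have A3' := loc_okA' K hv s3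
  have A4' := loc_okA' K hv s4
  have E0 := loc_okE K hv s0
  have E1 := loc_okE K hv s1
  have E2 := loc_okE K hv s2
  have E3 := loc_okE K hv s3
  have E4 := loc_okE K hv s4
  have B0 := loc_okB K hv s0
  have B1 := loc_okB K hv s1
  have B2 := loc_okB K hv s2
  have B3 := loc_okB K hv s3
  have B4 := loc_okB K hv s4
  have q5 : c 5 = c 0 := p 0
  have q6 : c 6 = c 1 := p 1
  have q7 : c 7 = c 2 := p 2
  have q8 : c 8 = c 3 := p 3
  simp only [Nat.reduceAdd, q5, q6, q7, q8] at g0 g1 g2 g3 g4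
  simp only [Nat.reduceAdd, q5, q6, q7, q8] at A0 A1 A2 A3 A4 A0' A1' A2' A3' A4'
  simp only [Nat.reduceAdd, q5, q6, q7, q8] at E0 E1 E2 E3 E4
  simp only [Nat.reduceAdd, q5, q6, q7, q8] at B0 B1 B2 B3 B4
  have hchk := chk_all _ (ty_lt (G := G) (z := z) (c 0)) _ (ty_lt (G := G) (z := z) (c 1)) _
    (ty_lt (G := G) (z := z) (c 2)) _ (ty_lt (G := G) (z := z) (c 3)) _
    (ty_lt (G := G) (z := z) (c 4))
  unfold chk at hchk
  simp only [A0, A1, A2, A3, A4, A0', A1', A2', A3', A4', E0, E1, E2, E3, E4, B0, B1, B2, B3, B4,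
    Bool.and_self, Bool.not_true, Bool.false_or, decide_eq_true_eq] at hchk
  have hchk' : (4 : ℤ) ≤ (gf (ty G z (c 4)) (ty G z (c 0)) (ty G z (c 1)) : ℤ) +
      gf (ty G z (c 0)) (ty G z (c 1)) (ty G z (c 2)) +
      gf (ty G z (c 1)) (ty G z (c 2)) (ty G z (c 3)) +
      gf (ty G z (c 2)) (ty G z (c 3)) (ty G z (c 4)) +
      gf (ty G z (c 3)) (ty G z (c 4)) (ty G z (c 0)) := by exact_mod_cast hchk
  rw [show (range 5) = {0, 1, 2, 3, 4} by decide]
  simp only [mem_insert, mem_singleton, sum_insert, sum_singleton, zero_ne_one, OfNat.zero_ne_ofNat,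
    OfNat.one_ne_ofNat, or_self, not_false_eq_true, OfNat.ofNat_eq_ofNat, Nat.reduceEqDiff]
  linarith

end five

end DS.Dis
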