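import Pool.Agent.Work.MP_0890ba_co.DS.DisC

/-!
# Discharging for the law (D*), part 4: what the vertices of `L` give
-/

set_option linter.unusedSectionVars false
set_option linter.unusedSimpArgs false

namespace DS.Dis

open Finset Classical

variable {V : Type} [Fintype V] {G : SimpleGraph V} {z : V}

/-- what a vertex of `L` of degree `7` or more gives, in its link -/
theorem gift_large {g v : V} (hg : IsL G z g) (h7 : 7 ≤ dg G g) (hgv : G.Adj g v) :
    gift G z g v = if Z5 G z v then
      (if ∃ y, G.Adj g y ∧ G.Adj v y ∧ Z5 G z y then 1 else 2) else 0 := by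
  unfold gift
  by_cases hv : Z5 G z v
  · rw [if_pos ⟨hgv, hv.1⟩, if_neg hg.2, if_neg hg.1, if_pos hv, if_neg (by omega), if_pos h7,
      if_pos hv]
  · rw [if_neg hv]
    by_cases hL : IsL G z v
    · rw [if_pos ⟨hgv, hL⟩, if_neg hg.2, if_neg hg.1, if_neg hv]
    · rw [if_neg fun h => hL h.2, if_neg hv]

theorem gift_six {g v : V} (hg : IsL G z g) (h6 : dg G g = 6) (h0 : hn G z g ≠ 0)
    (hgv : G.Adj g v) : gift G z g v = if Z5 G z v then 2 else 0 := by
  unfold gift
  by_cases hv : Z5 G z v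
  · rw [if_pos ⟨hgv, hv.1⟩, if_neg hg.2, if_neg hg.1, if_pos hv, if_pos h6, if_neg h0, if_pos hv]
  · rw [if_neg hv]
    by_cases hL : IsL G z v
    · rw [if_pos ⟨hgv, hL⟩, if_neg hg.2, if_neg hg.1, if_neg hv]
    · rw [if_neg fun h => hL h.2, if_neg hv]

theorem out_five {g : V} (hg : IsL G z g) (h : dg G g ≤ 6 ∧ (dg G g = 6 → hn G z g = 0)) :
    ∑ v, gift G z g v = 0 := by
  apply sum_eq_zero
  intro v _
  unfold gift
  split_ifs with h1 h2 h3 h4 h5 h6 h7 h8 h9 h10
  all_goals first | rfl | exact absurd h2 hg.2 | omega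

/-- vertices of degree at least 8 -/
theorem out_eight (K : Facts G z) {g : V} (hg : IsL G z g) (h8 : 8 ≤ dg G g) :
    ∑ v, gift G z g v ≤ 4 * ((dg G g : ℤ) - 6) := by
  obtain ⟨_, c, hc⟩ := cyc_ex K g
  have hd : 0 < dg G g := by omega
  rw [out_eq, (hc.shift hd 1).sum_eq]
  set d := dg G g with hdef
  let e : ℕ → ℤ := fun i => if Z5 G z (c i) ∧ ¬ ∃ y, G.Adj g y ∧ G.Adj (c i) y ∧ Z5 G z y
    then 1 else 0
  have key : ∀ i, gift G z g (c (i + 1)) ≤ 1 + (e (i + 1) - e i) := by
    intro i
    rw [gift_large hg (by omega) (hc.adjv hd _)]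
    by_cases hi : Z5 G z (c i) ∧ ¬ ∃ y, G.Adj g y ∧ G.Adj (c i) y ∧ Z5 G z y
    · have h1 : ¬ Z5 G z (c (i + 1)) := fun h => hi.2 ⟨_, hc.adjv hd _, hc.adj i, h⟩
      have e1 : e i = 1 := if_pos hi
      have e2 : e (i + 1) = 0 := if_neg fun h => h1 h.1
      rw [if_neg h1, e1, e2]
      norm_num
    · have e1 : e i = 0 := if_neg hi
      rw [e1]
      by_cases h1 : Z5 G z (c (i + 1))
      · rw [if_pos h1]
        by_cases h2 : ∃ y, G.Adj g y ∧ G.Adj (c (i + 1)) y ∧ Z5 G z y
        · rw [if_pos h2]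
          have e2 : e (i + 1) = 0 := if_neg fun h => h.2 h2
          rw [e2]
          norm_num
        · rw [if_neg h2]
          have e2 : e (i + 1) = 1 := if_pos ⟨h1, h2⟩
          rw [e2]
          norm_num
      · rw [if_neg h1]
        have e2 : e (i + 1) = 0 := if_neg fun h => h1 h.1
        rw [e2]
        norm_num
  have hsum : ∑ i ∈ range d, gift G z g (c (i + 1)) ≤ ∑ i ∈ range d, (1 + (e (i + 1) - e i)) :=
    sum_le_sum fun i _ => key i
  rw [sum_add_distrib, sum_range_sub] at hsum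
  have hed : e d = e 0 := by
    have : c d = c 0 := by
      have := hc.per 0
      rwa [zero_add] at this
    show (if _ then (1 : ℤ) else 0) = if _ then (1 : ℤ) else 0
    rw [this]
  rw [hed] at hsum
  simp only [sum_const, card_range, sub_self, add_zero, nsmul_eq_mul, mul_one] at hsum
  have : (8 : ℤ) ≤ d := by exact_mod_cast h8
  linarith

/-- the finite check for degree 7 -/
theorem chk7_all (a b c d e f g : Bool) :
    (a && c && e) || (b && d && f) || (c && e && g) || (d && f && a) ||
    (e && g && b) || (f && a && c) || (g && b && d) ||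
    decide ((if a then (if g || b then 1 else 2) else 0) +
    (if b then (if a || c then 1 else 2) else 0) +
    (if c then (if b || d then 1 else 2) else 0) +
    (if d then (if c || e then 1 else 2) else 0) +
    (if e then (if d || f then 1 else 2) else 0) +
    (if f then (if e || g then 1 else 2) else 0) +
    (if g then (if f || a then 1 else 2) else 0) ≤ 4) = true := by
  revert a b c d e f g
  decide +kernel

theorem out_seven (K : Facts G z) {g : V} (hg : IsL G z g) (h7 : dg G g = 7) :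
    ∑ v, gift G z g v ≤ 4 * ((dg G g : ℤ) - 6) := by
  obtain ⟨_, c, hc⟩ := cyc_ex K g
  rw [h7] at hc
  rw [out_eq, hc.sum_eq, h7]
  let s : ℕ → Bool := fun i => decide (Z5 G z (c i))
  have hs : ∀ i, s i = true ↔ Z5 G z (c i) := fun i => decide_eq_true_iff
  have p : ∀ i, c (i + 7) = c i := hc.per
  have q7 : c 7 = c 0 := p 0
  have q8 : c 8 = c 1 := p 1
  have q9 : c 9 = c 2 := p 2
  have q10 : c 10 = c 3 := p 3
  -- triples
  have T : ∀ k, ¬ (Z5 G z (c (0 + k)) ∧ Z5 G z (c (2 + k)) ∧ Z5 G z (c (4 + k))) :=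
    fun k h => fC K hg (hc.shift (by norm_num) k) h.1 h.2.1 h.2.2
  have t0 := T 0
  have t1 := T 1
  have t2 := T 2
  have t3 := T 3
  have t4 := T 4
  have t5 := T 5
  have t6 := T 6
  simp only [Nat.reduceAdd, q7, q8, q9, q10] at t0 t1 t2 t3 t4 t5 t6
  -- gifts
  have U : ∀ k, gift G z g (c k) ≤ if s k then (if s (k + 6) || s (k + 1) then 1 else 2) else 0 := by
    intro k
    rw [gift_large hg h7.ge (hc.adjv (by norm_num) _)]
    by_cases h : Z5 G z (c k)
    · rw [if_pos h, if_pos ((hs k).2 h)]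
      by_cases h2 : ∃ y, G.Adj g y ∧ G.Adj (c k) y ∧ Z5 G z y
      · rw [if_pos h2]
        split_ifs <;> norm_num
      · rw [if_neg h2]
        have h3 : ¬ (s (k + 6) || s (k + 1)) = true := by
          intro h4
          rw [Bool.or_eq_true, hs, hs] at h4
          rcases h4 with h4 | h4
          · exact h2 ⟨_, hc.adjv (by norm_num) _, hc.adj_pred (by norm_num) k, h4⟩
          · exact h2 ⟨_, hc.adjv (by norm_num) _, hc.adj k, h4⟩
        rw [if_neg h3]
    · rw [if_neg h]
      split_ifs <;> norm_num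
  have u0 := U 0
  have u1 := U 1
  have u2 := U 2
  have u3 := U 3
  have u4 := U 4
  have u5 := U 5
  have u6 := U 6
  have sper : ∀ i, s (i + 7) = s i := fun i => by
    show decide (Z5 G z (c (i + 7))) = decide (Z5 G z (c i))
    rw [p]
  have s7 : s 7 = s 0 := sper 0
  have s8 : s 8 = s 1 := sper 1
  have s9 : s 9 = s 2 := sper 2
  have s10 : s 10 = s 3 := sper 3
  have s11 : s 11 = s 4 := sper 4
  have s12 : s 12 = s 5 := sper 5
  simp only [Nat.reduceAdd, s7, s8, s9, s10, s11, s12] at u0 u1 u2 u3 u4 u5 u6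
  have hchk := chk7_all (s 0) (s 1) (s 2) (s 3) (s 4) (s 5) (s 6)
  have n0 : (s 0 && s 2 && s 4) = false := by
    rw [Bool.eq_false_iff]; intro h; simp only [Bool.and_eq_true, hs] at h; exact t0 ⟨h.1.1, h.1.2, h.2⟩
  have n1 : (s 1 && s 3 && s 5) = false := by
    rw [Bool.eq_false_iff]; intro h; simp only [Bool.and_eq_true, hs] at h; exact t1 ⟨h.1.1, h.1.2, h.2⟩
  have n2 : (s 2 && s 4 && s 6) = false := by
    rw [Bool.eq_false_iff]; intro h; simp only [Bool.and_eq_true, hs] at h; exact t2 ⟨h.1.1, h.1.2, h.2⟩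
  have n3 : (s 3 && s 5 && s 0) = false := by
    rw [Bool.eq_false_iff]; intro h; simp only [Bool.and_eq_true, hs] at h; exact t3 ⟨h.1.1, h.1.2, h.2⟩
  have n4 : (s 4 && s 6 && s 1) = false := by
    rw [Bool.eq_false_iff]; intro h; simp only [Bool.and_eq_true, hs] at h; exact t4 ⟨h.1.1, h.1.2, h.2⟩
  have n5 : (s 5 && s 0 && s 2) = false := by
    rw [Bool.eq_false_iff]; intro h; simp only [Bool.and_eq_true, hs] at h; exact t5 ⟨h.1.1, h.1.2, h.2⟩
  have n6 : (s 6 && s 1 && s 3) = false := by
    rw [Bool.eq_false_iff]; intro h; simp only [Bool.and_eq_true, hs] at h; exact t6 ⟨h.1.1, h.1.2, h.2⟩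
  rw [n0, n1, n2, n3, n4, n5, n6] at hchk
  simp only [Bool.false_or, decide_eq_true_eq, Bool.or_self] at hchk
  have hchk' : (((if s 0 then (if s 6 || s 1 then 1 else 2) else 0) +
    (if s 1 then (if s 0 || s 2 then 1 else 2) else 0) +
    (if s 2 then (if s 1 || s 3 then 1 else 2) else 0) +
    (if s 3 then (if s 2 || s 4 then 1 else 2) else 0) +
    (if s 4 then (if s 3 || s 5 then 1 else 2) else 0) +
    (if s 5 then (if s 4 || s 6 then 1 else 2) else 0) +
    (if s 6 then (if s 5 || s 0 then 1 else 2) else 0) : ℕ) : ℤ) ≤ 4 := by exact_mod_cast hchk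
  push_cast at hchk'
  rw [show (range 7) = {0, 1, 2, 3, 4, 5, 6} by decide]
  simp only [mem_insert, mem_singleton, sum_insert, sum_singleton, zero_ne_one, OfNat.zero_ne_ofNat,
    OfNat.one_ne_ofNat, or_self, not_false_eq_true, OfNat.ofNat_eq_ofNat, Nat.reduceEqDiff]
  push_cast
  linarith

/-- the finite check for degree 6 -/
theorem chk6_all (a b c d e f : Bool) :
    (a && c) || (b && d) || (c && e) || (d && f) || (e && a) || (f && b) ||
    decide ((if a then 2 else 0) + (if b then 2 else 0) + (if c then 2 else 0) +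
      (if d then 2 else 0) + (if e then 2 else 0) + (if f then 2 else 0) ≤ 4) = true := by
  revert a b c d e f
  decide +kernel

theorem out_six (K : Facts G z) {g : V} (hg : IsL G z g) (h6 : dg G g = 6) (h0 : hn G z g ≠ 0) :
    ∑ v, gift G z g v ≤ 4 := by
  obtain ⟨_, c, hc⟩ := cyc_ex K g
  rw [h6] at hc
  rw [out_eq, hc.sum_eq]
  let s : ℕ → Bool := fun i => decide (Z5 G z (c i))
  have hs : ∀ i, s i = true ↔ Z5 G z (c i) := fun i => decide_eq_true_iff
  have p : ∀ i, c (i + 6) = c i := hc.per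
  have q6 : c 6 = c 0 := p 0
  have q7 : c 7 = c 1 := p 1
  have T : ∀ k, ¬ (Z5 G z (c (0 + k)) ∧ Z5 G z (c (2 + k))) := by
    intro k h
    have hk := hc.shift (by norm_num) k
    have h3 : ¬ G.Adj z (c (3 + k)) := by
      intro h'
      have hadj : G.Adj (c (2 + k)) (c (3 + k)) := by
        have := hc.adj (2 + k)
        rwa [show 2 + k + 1 = 3 + k by ring] at this
      have := hn_pos hadj h'
      have := h.2.2.2
      omega
    have h5 : ¬ G.Adj z (c (5 + k)) := by
      intro h'
      have hadj : G.Adj (c (0 + k)) (c (5 + k)) := by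
        have := hc.adj_pred (by norm_num) (0 + k)
        rwa [show 0 + k + (6 - 1) = 5 + k by omega] at this
      have := hn_pos hadj h'
      have := h.1.2.2
      omega
    have := fB K hg hk h.1.1 (by rw [h.1.2.1]; norm_num) h.2.1 (by rw [h.2.2.1]; norm_num) h3 h5
    have h1 := this.1
    rw [h.1.2.2] at h1
    norm_num at h1
  have t0 := T 0
  have t1 := T 1
  have t2 := T 2
  have t3 := T 3
  have t4 := T 4
  have t5 := T 5
  simp only [Nat.reduceAdd, q6, q7] at t0 t1 t2 t3 t4 t5
  have U : ∀ k, gift G z g (c k) = if s k then 2 else 0 := by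
    intro k
    rw [gift_six hg h6 h0 (hc.adjv (by norm_num) _)]
    by_cases h : Z5 G z (c k)
    · rw [if_pos h, if_pos ((hs k).2 h)]
    · rw [if_neg h, if_neg fun h' => h ((hs k).1 h')]
  have hchk := chk6_all (s 0) (s 1) (s 2) (s 3) (s 4) (s 5)
  have n0 : (s 0 && s 2) = false := by
    rw [Bool.eq_false_iff]; intro h; simp only [Bool.and_eq_true, hs] at h; exact t0 h
  have n1 : (s 1 && s 3) = false := by
    rw [Bool.eq_false_iff]; intro h; simp only [Bool.and_eq_true, hs] at h; exact t1 h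
  have n2 : (s 2 && s 4) = false := by
    rw [Bool.eq_false_iff]; intro h; simp only [Bool.and_eq_true, hs] at h; exact t2 h
  have n3 : (s 3 && s 5) = false := by
    rw [Bool.eq_false_iff]; intro h; simp only [Bool.and_eq_true, hs] at h; exact t3 h
  have n4 : (s 4 && s 0) = false := by
    rw [Bool.eq_false_iff]; intro h; simp only [Bool.and_eq_true, hs] at h; exact t4 h
  have n5 : (s 5 && s 1) = false := by
    rw [Bool.eq_false_iff]; intro h; simp only [Bool.and_eq_true, hs] at h; exact t5 h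
  rw [n0, n1, n2, n3, n4, n5] at hchk
  simp only [Bool.false_or, decide_eq_true_eq, Bool.or_self] at hchk
  have hchk' : (((if s 0 then 2 else 0) + (if s 1 then 2 else 0) + (if s 2 then 2 else 0) +
      (if s 3 then 2 else 0) + (if s 4 then 2 else 0) + (if s 5 then 2 else 0) : ℕ) : ℤ) ≤ 4 := by
    exact_mod_cast hchk
  push_cast at hchk'
  rw [show (range 6) = {0, 1, 2, 3, 4, 5} by decide]
  simp only [U, mem_insert, mem_singleton, sum_insert, sum_singleton, zero_ne_one,
    OfNat.zero_ne_ofNat, OfNat.one_ne_ofNat, or_self, not_false_eq_true, OfNat.ofNat_eq_ofNat,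
    Nat.reduceEqDiff]
  linarith

end DS.Dis
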