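import Pool.Agent.Work.MP_0890ba_co.DS.Defs

/-!
# Graphs with an abstract dual: simple graphs and Euler's formula
-/

set_option linter.unusedSectionVars false

namespace DS

open Finset Classical

variable {V W : Type}

namespace Eul

variable {E E' F : Type}

/-- Deleting edges: the faces at the deleted edges are identified. -/
theorem restrict [Fintype E] [Fintype E'] [Fintype F] {s t : E → V} {l r : E → F}
    (h : IsPlane s t l r) (f : E' → E) (hf : Function.Injective f) :
    ∃ (F' : Type) (_ : Fintype F') (l' r' : E' → F'),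
      IsPlane (fun e => s (f e)) (fun e => t (f e)) l' r' := by
  let R : F → F → Prop := fun a b => ∃ e, e ∉ Set.range f ∧ a = l e ∧ b = r e
  have hR : ∀ e, e ∉ Set.range f → (Quot.mk R (l e)) = Quot.mk R (r e) := fun e he =>
    Quot.sound ⟨e, he, rfl, rfl⟩
  refine ⟨Quot R, Fintype.ofFinite _, fun e => Quot.mk R (l (f e)),
    fun e => Quot.mk R (r (f e)), ?_, ?_⟩
  · intro S v
    rw [← h.even (fun x => S (Quot.mk R x)) v]
    unfold bd
    refine Fintype.sum_of_injective f hf _ _ ?_ ?_
    · intro e he
      have : cut l r (fun x => S (Quot.mk R x)) e = 0 := by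
        simp only [cut, hR e he]
        exact CharTwo.add_self_eq_zero _
      rw [this, zero_mul]
    · intro e
      rfl
  · intro Z hZ
    have hb : ∀ v, bd s t (Function.extend f Z 0) v = 0 := by
      intro v
      rw [← hZ v]
      unfold bd
      refine (Fintype.sum_of_injective f hf _ _ ?_ ?_).symm
      · intro e he
        rw [Function.extend_apply' _ _ _ (by simpa using he)]
        simp
      · intro e
        rw [hf.extend_apply]
    obtain ⟨S, hS⟩ := h.dual _ hb
    have hlr : ∀ a b, R a b → S a = S b := by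
      rintro a b ⟨e, he, rfl, rfl⟩
      have h1 := congrFun hS e
      rw [Function.extend_apply' _ _ _ (by simpa using he)] at h1
      exact CharTwo.add_eq_zero.1 h1
    refine ⟨Quot.lift S hlr, ?_⟩
    funext e
    have h1 := congrFun hS (f e)
    rw [hf.extend_apply] at h1
    exact h1

/-- The boundary as a linear map. -/
noncomputable def bdL [Fintype E] (s t : E → V) : (E → ZMod 2) →ₗ[ZMod 2] (V → ZMod 2) where
  toFun Z v := bd s t Z v
  map_add' Z Z' := by
    funext v
    simp only [bd, Pi.add_apply, add_mul, Finset.sum_add_distrib]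
  map_smul' c Z := by
    funext v
    simp only [bd, Pi.smul_apply, smul_eq_mul, mul_assoc, Finset.mul_sum, RingHom.id_apply]

/-- The cut as a linear map. -/
def cutL (l r : E → F) : (F → ZMod 2) →ₗ[ZMod 2] (E → ZMod 2) where
  toFun S e := cut l r S e
  map_add' S S' := by
    funext e
    simp only [cut, Pi.add_apply]
    ring
  map_smul' c S := by
    funext e
    simp only [cut, Pi.smul_apply, smul_eq_mul, RingHom.id_apply]
    ring

theorem sum_bd [Fintype V] [Fintype E] (s t : E → V) (Z : E → ZMod 2) : ∑ v, bd s t Z v = 0 := by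
  unfold bd
  rw [Finset.sum_comm]
  refine Finset.sum_eq_zero fun e _ => ?_
  rw [← Finset.mul_sum, Finset.sum_add_distrib, Finset.sum_ite_eq, Finset.sum_ite_eq]
  simp only [mem_univ, if_true]
  rw [CharTwo.add_self_eq_zero, mul_zero]

theorem finrank_bd_le [Fintype V] [Nonempty V] [Fintype E] (s t : E → V) :
    Module.finrank (ZMod 2) (LinearMap.range (bdL s t)) + 1 ≤ Fintype.card V := by
  have : Fact (Nat.Prime 2) := ⟨Nat.prime_two⟩
  let σ : (V → ZMod 2) →ₗ[ZMod 2] ZMod 2 :=
    { toFun := fun y => ∑ v, y v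
      map_add' := fun x y => by simp [Finset.sum_add_distrib]
      map_smul' := fun c y => by simp [Finset.mul_sum] }
  have h1 : LinearMap.range (bdL s t) ≤ LinearMap.ker σ := by
    rintro _ ⟨Z, rfl⟩
    exact sum_bd s t Z
  have h2 := Submodule.finrank_mono h1
  have h3 := LinearMap.finrank_range_add_finrank_ker σ
  rw [Module.finrank_fintype_fun_eq_card] at h3
  have h4 : LinearMap.range σ = ⊤ := by
    rw [LinearMap.range_eq_top]
    intro c
    obtain ⟨v⟩ := ‹Nonempty V›
    refine ⟨Pi.single v c, ?_⟩
    change ∑ u, (Pi.single v c : V → ZMod 2) u = c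
    simp
  rw [h4, finrank_top, Module.finrank_self] at h3
  omega

/-- The faces with a non empty cut. -/
noncomputable def face [Fintype F] (l r : E → F) : Finset F :=
  univ.filter fun f => cut l r (Pi.single f 1) ≠ 0

theorem cut_zero_of_face [Fintype F] {l r : E → F} (h : face l r = ∅) (S : F → ZMod 2) :
    cutL l r S = 0 := by
  have : S = ∑ f, S f • (Pi.single f 1 : F → ZMod 2) := by
    funext x
    simp [Finset.sum_apply, Pi.single_apply]
  rw [this, map_sum]
  refine Finset.sum_eq_zero fun f _ => ?_
  rw [map_smul]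
  have h1 : cut l r (Pi.single f 1) = 0 := by
    by_contra hne
    have : f ∈ face l r := by simp [face, hne]
    rw [h] at this
    simp at this
  have h2 : cutL l r (Pi.single f 1) = 0 := h1
  rw [h2, smul_zero]

theorem finrank_cut_le [Fintype E] [Fintype F] {l r : E → F} {f₁ : F} (hf : f₁ ∈ face l r) :
    Module.finrank (ZMod 2) (LinearMap.range (cutL l r)) + 1 ≤ (face l r).card := by
  have : Fact (Nat.Prime 2) := ⟨Nat.prime_two⟩
  have h1 : LinearMap.range (cutL l r) ≤ Submodule.span (ZMod 2)
      ((((face l r).erase f₁).image fun f => cutL l r (Pi.single f 1) : Finset (E → ZMod 2)) :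
        Set (E → ZMod 2)) := by
    rintro _ ⟨S, rfl⟩
    have e1 : cutL l r S = cutL l r (fun f => S f + S f₁) := by
      funext e
      change S (l e) + S (r e) = (S (l e) + S f₁) + (S (r e) + S f₁)
      have : S f₁ + S f₁ = 0 := CharTwo.add_self_eq_zero _
      linear_combination -this
    have e2 : (fun f => S f + S f₁) = ∑ f, (S f + S f₁) • (Pi.single f 1 : F → ZMod 2) := by
      funext x
      simp [Finset.sum_apply, Pi.single_apply]
    rw [e1, e2, map_sum]
    refine Submodule.sum_mem _ fun f _ => ?_
    rw [map_smul]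
    by_cases hf1 : f = f₁
    · rw [hf1, CharTwo.add_self_eq_zero, zero_smul]
      exact Submodule.zero_mem _
    · by_cases hf2 : f ∈ face l r
      · refine Submodule.smul_mem _ _ (Submodule.subset_span ?_)
        rw [Finset.mem_coe, Finset.mem_image]
        exact ⟨f, Finset.mem_erase.2 ⟨hf1, hf2⟩, rfl⟩
      · have h2 : cutL l r (Pi.single f 1) = 0 := by
          by_contra hne
          exact hf2 (by simp only [face, mem_filter, mem_univ, true_and]; exact hne)
        rw [h2, smul_zero]
        exact Submodule.zero_mem _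
  have h2 := (Submodule.finrank_mono h1).trans (finrank_span_finset_le_card _)
  have h3 := (h2.trans Finset.card_image_le)
  rw [Finset.card_erase_of_mem hf] at h3
  have h4 : 0 < (face l r).card := Finset.card_pos.2 ⟨f₁, hf⟩
  omega

theorem range_cut_eq [Fintype E] [Fintype F] {s t : E → V} {l r : E → F}
    (h : IsPlane s t l r) : LinearMap.range (cutL l r) = LinearMap.ker (bdL s t) := by
  ext Z
  constructor
  · rintro ⟨S, rfl⟩
    rw [LinearMap.mem_ker]
    funext v
    exact h.even S v
  · intro hZ
    rw [LinearMap.mem_ker] at hZ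
    obtain ⟨S, hS⟩ := h.dual Z fun v => congrFun hZ v
    exact ⟨S, hS⟩

theorem rank_eq [Fintype E] [Fintype F] {s t : E → V} {l r : E → F}
    (h : IsPlane s t l r) : Module.finrank (ZMod 2) (LinearMap.range (bdL s t)) +
      Module.finrank (ZMod 2) (LinearMap.range (cutL l r)) = Fintype.card E := by
  have : Fact (Nat.Prime 2) := ⟨Nat.prime_two⟩
  rw [range_cut_eq h, LinearMap.finrank_range_add_finrank_ker, Module.finrank_fintype_fun_eq_card]

theorem exists_other [Fintype E] {s t : E → V} {Z : E → ZMod 2} {v : V} (hZ : bd s t Z v = 0)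
    {e : E} (he : Z e ≠ 0) (hst : s e ≠ t e) (hv : s e = v ∨ t e = v) :
    ∃ e', e' ≠ e ∧ Z e' ≠ 0 ∧ (s e' = v ∨ t e' = v) := by
  by_contra hcon
  push Not at hcon
  apply he
  rw [← hZ]
  unfold bd
  rw [Finset.sum_eq_single e]
  · have : ((if s e = v then 1 else 0) + (if t e = v then 1 else 0) : ZMod 2) = 1 := by
      rcases hv with h | h
      · rw [if_pos h, if_neg (fun h' => hst (h.trans h'.symm)), add_zero]
      · rw [if_pos h, if_neg (fun h' => hst (h'.trans h.symm)), zero_add]
    rw [this, mul_one]
  · intro e' _ hne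
    by_cases h0 : Z e' = 0
    · rw [h0, zero_mul]
    · obtain ⟨h1, h2⟩ := hcon e' hne h0
      rw [if_neg h1, if_neg h2, add_zero, mul_zero]
  · intro h
    exact absurd (mem_univ e) h

theorem three_le [Fintype E] {s t : E → V} {Z : E → ZMod 2} (hZ : ∀ v, bd s t Z v = 0)
    (hne : ∀ e, s e ≠ t e) (hinj : ∀ e e', s(s e, t e) = s(s e', t e') → e = e')
    (h0 : Z ≠ 0) : 3 ≤ (univ.filter fun e => Z e ≠ 0).card := by
  obtain ⟨e, he⟩ : ∃ e, Z e ≠ 0 := by
    by_contra hcon
    push Not at hcon
    exact h0 (funext hcon)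
  obtain ⟨e₁, h11, h12, h13⟩ := exists_other (hZ (s e)) he (hne e) (Or.inl rfl)
  obtain ⟨e₂, h21, h22, h23⟩ := exists_other (hZ (t e)) he (hne e) (Or.inr rfl)
  have h12' : e₁ ≠ e₂ := by
    rintro rfl
    apply h11
    apply hinj
    rw [Sym2.eq_iff]
    rcases h13 with h | h
    · rcases h23 with h' | h'
      · exact absurd (h.symm.trans h') (hne e)
      · exact Or.inl ⟨h, h'⟩
    · rcases h23 with h' | h'
      · exact Or.inr ⟨h', h⟩
      · exact absurd (h.symm.trans h') (hne e)
  have : ({e, e₁, e₂} : Finset E) ⊆ univ.filter fun e => Z e ≠ 0 := by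
    intro x hx
    simp only [Finset.mem_insert, Finset.mem_singleton] at hx
    rcases hx with rfl | rfl | rfl <;> simp [*]
  have hc : ({e, e₁, e₂} : Finset E).card = 3 :=
    Finset.card_eq_three.2 ⟨e, e₁, e₂, h11.symm, h21.symm, h12', rfl⟩
  rw [← hc]
  exact Finset.card_le_card this

theorem sum_face_le [Fintype E] [Fintype F] (l r : E → F) (T : Finset F) :
    ∑ f ∈ T, (univ.filter fun e => cut l r (Pi.single f 1) e ≠ 0).card ≤ 2 * Fintype.card E := by
  simp only [Finset.card_filter]
  rw [Finset.sum_comm]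
  have : ∀ e ∈ (univ : Finset E), (∑ f ∈ T, if cut l r (Pi.single f 1) e ≠ 0 then 1 else 0) ≤ 2 := by
    intro e _
    rw [← Finset.card_filter]
    have h1 : (T.filter fun f => cut l r (Pi.single f 1) e ≠ 0) ⊆ {l e, r e} := by
      intro f hf
      rw [mem_filter] at hf
      by_contra hcon
      simp only [Finset.mem_insert, Finset.mem_singleton, not_or] at hcon
      apply hf.2
      simp only [cut, Pi.single_apply]
      rw [if_neg (Ne.symm hcon.1), if_neg (Ne.symm hcon.2), add_zero]
    exact (Finset.card_le_card h1).trans Finset.card_le_two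
  refine (Finset.sum_le_card_nsmul _ _ _ this).trans ?_
  rw [smul_eq_mul, Finset.card_univ, mul_comm]

theorem card_edges [Fintype V] [Fintype E] [Fintype F] {s t : E → V} {l r : E → F}
    (h : IsPlane s t l r) (hne : ∀ e, s e ≠ t e)
    (hinj : ∀ e e', s(s e, t e) = s(s e', t e') → e = e') (hn : 3 ≤ Fintype.card V) :
    Fintype.card E + 6 ≤ 3 * Fintype.card V := by
  have : Nonempty V := Fintype.card_pos_iff.1 (by omega)
  have h1 := rank_eq h
  have h2 := finrank_bd_le (V := V) s t
  by_cases hF : face l r = ∅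
  · have h3 : LinearMap.range (cutL l r) = ⊥ := by
      rw [LinearMap.range_eq_bot]
      exact LinearMap.ext fun S => cut_zero_of_face hF S
    rw [h3, finrank_bot] at h1
    omega
  · obtain ⟨f₁, hf₁⟩ := Finset.nonempty_iff_ne_empty.2 hF
    have h3 := finrank_cut_le hf₁
    have h4 : ∑ f ∈ face l r, 3 ≤
        ∑ f ∈ face l r, (univ.filter fun e => cut l r (Pi.single f 1) e ≠ 0).card := by
      refine Finset.sum_le_sum fun f hf => ?_
      refine three_le (h.even _) hne hinj ?_
      simpa [face] using hf
    have h5 := h4.trans (sum_face_le l r (face l r))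
    rw [Finset.sum_const, smul_eq_mul] at h5
    omega

end Eul

/-- In a simple graph, with edge set exactly `E`. -/
theorem Pln.simple [Fintype V] {G : SimpleGraph V} (h : Pln G) :
    ∃ (F : Type) (_ : Fintype F) (s t : G.edgeSet → V) (l r : G.edgeSet → F),
      IsPlane s t l r ∧ ∀ e : G.edgeSet, (e : Sym2 V) = s(s e, t e) := by
  obtain ⟨E, F, _, _, s, t, l, r, hp, hj⟩ := h
  have hex : ∀ e : G.edgeSet, ∃ x : E, (e : Sym2 V) = s(s x, t x) := by
    rintro ⟨e, he⟩
    induction e using Sym2.ind with
    | _ u v =>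
      obtain ⟨x, hx | hx⟩ := hj u v he
      · exact ⟨x, by rw [hx.1, hx.2]⟩
      · exact ⟨x, by rw [hx.1, hx.2]; exact Sym2.eq_swap⟩
  choose f hf using hex
  have hfi : Function.Injective f := fun a b hab => Subtype.ext (by rw [hf a, hf b, hab])
  obtain ⟨F', i, l', r', h'⟩ := Eul.restrict hp f hfi
  exact ⟨F', i, fun e => s (f e), fun e => t (f e), l', r', h', hf⟩

theorem Pln.sum_dg [Fintype V] {G : SimpleGraph V} (h : Pln G) (hn : 3 ≤ Fintype.card V) :
    ∑ v, (dg G v : ℤ) ≤ 6 * Fintype.card V - 12 := by
  obtain ⟨F, _, s, t, l, r, hp, hst⟩ := h.simple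
  have h1 := Eul.card_edges hp (fun e he => by
    have h2 := e.2
    rw [hst e, he, SimpleGraph.mem_edgeSet] at h2
    exact h2.ne rfl) (fun e e' he => Subtype.ext (by rw [hst e, hst e', he])) hn
  have h2 : ∑ v, dg G v = 2 * Fintype.card G.edgeSet := by
    have h3 := G.sum_degrees_eq_twice_card_edges
    rw [SimpleGraph.edgeFinset_card] at h3
    rw [← h3]
    refine Finset.sum_congr rfl fun v _ => ?_
    unfold dg
    rw [← SimpleGraph.card_neighborSet_eq_degree, Set.ncard_eq_toFinset_card',
      Set.toFinset_card]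
  have h3 : ((∑ v, dg G v : ℕ) : ℤ) = 2 * Fintype.card G.edgeSet := by
    rw [h2]
    push_cast
    rfl
  rw [← Nat.cast_sum, h3]
  omega

end DS
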