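import Pool.Agent.Work.MP_0890ba_co.DS.Glue4Core
import Pool.Agent.Work.MP_0890ba_co.DS.Law

/-!
# Gluing laws along a four-cycle
-/

set_option linter.unusedSectionVars false
set_option linter.unusedVariables false

namespace DS

open Finset Classical

variable {V W : Type}

theorem four [Fintype V] {G : SimpleGraph V} {A B : Set V} {μ₀ μ₁ ν₀ ν₁ : Finset V → ℝ}
    (hμ₀ : IsLaw G A μ₀) (hμ₁ : IsLaw G A μ₁) (hν₀ : IsLaw G B ν₀) (hν₁ : IsLaw G B ν₁)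
    (hAB : ∀ u ∈ A \ B, ∀ v ∈ B \ A, ¬G.Adj u v) {a b c d : V} (hac : a ≠ c) (hbd : b ≠ d)
    (hS : A ∩ B = {a, b, c, d}) (h1 : G.Adj a b) (h2 : G.Adj b c) (h3 : G.Adj c d) (h4 : G.Adj d a)
    {m : V → ℝ} (m1 : ∀ v ∈ A, marg μ₀ v = m v) (m2 : ∀ v ∈ A, marg μ₁ v = m v)
    (m3 : ∀ v ∈ B, marg ν₀ v = m v) (m4 : ∀ v ∈ B, marg ν₁ v = m v)
    (p1 : pr μ₀ (fun I => a ∈ I ∧ c ∈ I) = 0)
    (p2 : pr μ₁ (fun I => a ∈ I ∧ c ∈ I) = min (m a) (m c))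
    (p3 : pr ν₀ (fun I => b ∈ I ∧ d ∈ I) = 0)
    (p4 : pr ν₁ (fun I => b ∈ I ∧ d ∈ I) = min (m b) (m d)) :
    ∃ ρ, IsLaw G (A ∪ B) ρ ∧ ∀ v ∈ A ∪ B, marg ρ v = m v := by
  obtain ⟨μ, ν, M, N, mM, mN, htr⟩ := G4.mixes hμ₀ hμ₁ hν₀ hν₁ hS h1 h2 h3 h4 m1 m2 m3 m4
    p1 p2 p3 p4
  obtain ⟨ρ, hρ, e1, e2⟩ := glue M N hAB htr
  refine ⟨ρ, hρ, fun v hv => ?_⟩
  rcases hv with hv | hv
  · rw [e1 v hv, mM v hv]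
  · rw [e2 v hv, mN v hv]

end DS
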