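import Pool.Agent.Work.MP_0890ba_co.DS.Minor
import Pool.Agent.Work.MP_0890ba_co.DS.K5
import Pool.Agent.Work.MP_0890ba_co.DS.Law
import Pool.Agent.Work.MP_0890ba_co.DS.Glue4
import Pool.Agent.Work.MP_0890ba_co.DS.MinB
import Pool.Agent.Work.MP_0890ba_co.DS.Arcs4
import Pool.Agent.Work.MP_0890ba_co.DS.Sep
import Pool.Agent.Work.MP_0890ba_co.BD.Struct

/-!
# Separating cycles of length four in a minimal counterexample
-/

set_option linter.unusedSectionVars false

namespace DS

open Finset Classical

variable {V W : Type}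

namespace Fo

variable [Fintype V] {G : SimpleGraph V} {z : V}

lemma pr_congr {μ : Finset V → ℝ} {P Q : Finset V → Prop} (h : ∀ I, μ I ≠ 0 → (P I ↔ Q I)) :
    pr μ P = pr μ Q := by
  unfold pr
  refine sum_congr rfl fun I _ => ?_
  by_cases hI : μ I = 0
  · rw [hI]
    simp
  · exact if_congr (h I hI) rfl rfl

lemma pr_zero {μ : Finset V → ℝ} {P : Finset V → Prop} (h : ∀ I, μ I ≠ 0 → ¬P I) :
    pr μ P = 0 := by
  unfold pr
  refine sum_eq_zero fun I _ => ?_
  by_cases hI : μ I = 0
  · rw [hI]
    simp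
  · exact if_neg (h I hI)

lemma of_pr_zero {μ : Finset V → ℝ} (h0 : ∀ I, 0 ≤ μ I) {P : Finset V → Prop} (h : pr μ P = 0)
    {I : Finset V} (hI : μ I ≠ 0) : ¬P I := by
  intro hP
  unfold pr at h
  rw [sum_eq_zero_iff_of_nonneg] at h
  · have := h I (mem_univ I)
    rw [if_pos hP] at this
    exact hI this
  · intro J _
    split_ifs
    · exact h0 J
    · exact le_rfl

/-- A pair of laws on `A`: the vertices `b`, `d` are never both chosen, or as often as possible. -/
def Two (G : SimpleGraph V) (z : V) (A : Set V) (b d : V) : Prop :=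
  (∃ μ, IsLaw G A μ ∧ (∀ v ∈ A, marg μ v = need G z v) ∧
      pr μ (fun I => b ∈ I ∧ d ∈ I) = 0) ∧
    ∃ μ, IsLaw G A μ ∧ (∀ v ∈ A, marg μ v = need G z v) ∧
      pr μ (fun I => b ∈ I ∧ d ∈ I) = min (need G z b) (need G z d)

/-- A connected set with the vertex `b`. -/
lemma conn_one {R : Set V} (hR : BDP.Conn G R) {b : V} (hb : ∃ x ∈ R, G.Adj b x) :
    BDP.Conn G (insert b R) := by
  obtain ⟨x, hx, h⟩ := hb
  exact BDP.conn_ins hR hx h

lemma conn_two {R : Set V} (hR : BDP.Conn G R) {b d : V} (hb : ∃ x ∈ R, G.Adj b x)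
    (hd : ∃ x ∈ R, G.Adj d x) : BDP.Conn G (insert b (insert d R)) := by
  obtain ⟨x, hx, h⟩ := hb
  exact BDP.conn_ins (conn_one hR hd) (Set.mem_insert_of_mem _ hx) h

/-- The graph on `A` with the edge `b d`. -/
def gp (G : SimpleGraph V) (A : Set V) (b d : V) : SimpleGraph A where
  Adj x y := G.Adj x y ∨ ((x : V) ≠ y ∧ (((x : V) = b ∧ (y : V) = d) ∨ ((x : V) = d ∧ (y : V) = b)))
  symm := ⟨by
    rintro x y (h | ⟨h1, h2 | h2⟩)
    · exact Or.inl h.symm
    · exact Or.inr ⟨h1.symm, Or.inr ⟨h2.2, h2.1⟩⟩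
    · exact Or.inr ⟨h1.symm, Or.inl ⟨h2.2, h2.1⟩⟩⟩
  loopless := ⟨by
    rintro x (h | h)
    · exact G.loopless.irrefl _ h
    · exact h.1 rfl⟩

lemma pln_gp (hG : Pln G) {A : Set V} {b d : V} {R : Set V} (hR : BDP.Conn G R)
    (hRA : Disjoint R A) (hbR : ∃ x ∈ R, G.Adj b x) (hdR : ∃ x ∈ R, G.Adj d x) :
    Pln (gp G A b d) := by
  refine Pln.minor hG (fun x : A => if (x : V) = b then insert b R else {(x : V)}) ?_ ?_ ?_
  · intro x
    split_ifs
    · exact conn_one hR hbR
    · exact BDP.conn_sing G _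
  · intro x y hxy
    have hne : (x : V) ≠ y := fun h => hxy (Subtype.ext h)
    split_ifs with h1 h2 h2
    · exact absurd (h1.trans h2.symm) hne
    · rw [Set.disjoint_singleton_right]
      rintro (h | h)
      · exact h2 h
      · exact Set.disjoint_left.1 hRA h y.2
    · rw [Set.disjoint_singleton_left]
      rintro (h | h)
      · exact h1 h
      · exact Set.disjoint_left.1 hRA h x.2
    · exact Set.disjoint_singleton.2 hne
  · have hself : ∀ x : A, (x : V) ∈ (if (x : V) = b then insert b R else {(x : V)} : Set V) := by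
      intro x
      split_ifs with h
      · rw [h]
        exact Set.mem_insert _ _
      · exact rfl
    rintro x y (h | ⟨-, h | h⟩)
    · exact ⟨x, hself x, y, hself y, h⟩
    · obtain ⟨r, hr, hdr⟩ := hdR
      refine ⟨r, ?_, y, hself y, ?_⟩
      · rw [if_pos h.1]
        exact Set.mem_insert_of_mem _ hr
      · rw [h.2]
        exact hdr.symm
    · obtain ⟨r, hr, hdr⟩ := hdR
      refine ⟨x, hself x, r, ?_, ?_⟩
      · rw [if_pos h.2]
        exact Set.mem_insert_of_mem _ hr
      · rw [h.1]
        exact hdr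

/-- The class of a vertex when `d` is identified with `b`. -/
def cl (b d x : V) : Set V := if x = b then {b, d} else {x}

lemma mem_cl {b d x y : V} : y ∈ cl b d x ↔ y = x ∨ (x = b ∧ y = d) := by
  unfold cl
  split_ifs with h
  · rw [Set.mem_insert_iff, Set.mem_singleton_iff, h]
    simp
  · rw [Set.mem_singleton_iff]
    exact ⟨Or.inl, fun h' => h'.resolve_right fun h'' => h h''.1⟩

/-- The graph on `A` without `d`, which is identified with `b`. -/
def gi (G : SimpleGraph V) (A : Set V) (b d : V) : SimpleGraph {x // x ∈ A ∧ x ≠ d} where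
  Adj x y := (x : V) ≠ y ∧ ∃ u ∈ cl b d x, ∃ v ∈ cl b d y, G.Adj u v
  symm := ⟨by
    rintro x y ⟨h, u, hu, v, hv, huv⟩
    exact ⟨h.symm, v, hv, u, hu, huv.symm⟩⟩
  loopless := ⟨fun x h => h.1 rfl⟩

lemma pln_gi (hG : Pln G) {A : Set V} {b d : V} {R : Set V} (hR : BDP.Conn G R)
    (hRA : Disjoint R A) (hbR : ∃ x ∈ R, G.Adj b x) (hdR : ∃ x ∈ R, G.Adj d x) :
    Pln (gi G A b d) := by
  refine Pln.minor hG
    (fun x : {x // x ∈ A ∧ x ≠ d} => if (x : V) = b then insert b (insert d R) else {(x : V)})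
    ?_ ?_ ?_
  · intro x
    split_ifs
    · exact conn_two hR hbR hdR
    · exact BDP.conn_sing G _
  · intro x y hxy
    have hne : (x : V) ≠ y := fun h => hxy (Subtype.ext h)
    split_ifs with h1 h2 h2
    · exact absurd (h1.trans h2.symm) hne
    · rw [Set.disjoint_singleton_right]
      rintro (h | h | h)
      · exact h2 h
      · exact y.2.2 h
      · exact Set.disjoint_left.1 hRA h y.2.1
    · rw [Set.disjoint_singleton_left]
      rintro (h | h | h)
      · exact h1 h
      · exact x.2.2 h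
      · exact Set.disjoint_left.1 hRA h x.2.1
    · exact Set.disjoint_singleton.2 hne
  · have hcl : ∀ x : {x // x ∈ A ∧ x ≠ d}, cl b d (x : V) ⊆
        (if (x : V) = b then insert b (insert d R) else {(x : V)} : Set V) := by
      intro x u hu
      rw [mem_cl] at hu
      split_ifs with h
      · rcases hu with rfl | hu
        · rw [h]
          exact Set.mem_insert _ _
        · rw [hu.2]
          exact Set.mem_insert_of_mem _ (Set.mem_insert _ _)
      · exact hu.resolve_right fun h' => h h'.1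
    rintro x y ⟨-, u, hu, v, hv, huv⟩
    exact ⟨u, hcl x hu, v, hcl y hv, huv⟩

/-- The class of `x` as a finite set, empty for `z`. -/
noncomputable def kf (z b d x : V) : Finset V := if x = z then ∅ else if x = b then {b, d} else {x}

lemma mem_kf {z b d x v : V} : v ∈ kf z b d x ↔ x ≠ z ∧ (v = x ∨ (x = b ∧ v = d)) := by
  unfold kf
  split_ifs with h1 h2
  · simp [h1]
  · subst h2
    simp [h1]
  · simp [h1, h2]

lemma kf_z (z b d : V) : kf z b d z = ∅ := if_pos rfl

lemma sideA (hm : Min G z) {A : Set V} (hz : z ∈ A) {b d : V} (hb : b ∈ A) (hd : d ∈ A)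
    (hbz : b ≠ z) (hdz : d ≠ z) (hbd : b ≠ d) (hn : ¬G.Adj b d) (hLb : ¬G.Adj z b)
    (hLd : ¬G.Adj z d) {R : Set V} (hR : BDP.Conn G R) (hRA : Disjoint R A)
    (hbR : ∃ x ∈ R, G.Adj b x) (hdR : ∃ x ∈ R, G.Adj d x) : Two G z (A \ {z}) b d := by
  obtain ⟨r, hr, -⟩ := id hbR
  have hrA : r ∉ A := Set.disjoint_left.1 hRA hr
  constructor
  · obtain ⟨μ, h1, h2, -, -, h5⟩ := hm.use (gp G A b d) ⟨z, hz⟩
      (Fintype.card_subtype_lt (p := fun x => x ∈ A) hrA) (pln_gp hm.pl hR hRA hbR hdR)
      (fun x : A => if (x : V) = z then ∅ else {(x : V)}) (if_pos rfl)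
      (fun x y hxy => by
        split_ifs
        · exact disjoint_empty_left _
        · exact disjoint_empty_left _
        · exact disjoint_empty_right _
        · exact disjoint_singleton.2 fun h => hxy (Subtype.ext h))
      (fun x u hu v hv => by
        split_ifs at hu hv
        · exact absurd hu (notMem_empty u)
        · rw [mem_singleton] at hu hv
          rw [hu, hv]
          exact G.loopless.irrefl _)
      (fun x y _ u hu v hv huv => by
        split_ifs at hu hv
        · exact absurd hu (notMem_empty u)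
        · exact absurd hu (notMem_empty u)
        · exact absurd hv (notMem_empty v)
        · rw [mem_singleton] at hu hv
          rw [hu, hv] at huv
          exact Or.inl huv)
    have hK : ∀ v (hv : v ∈ A), v ≠ z → v ∈ (if ((⟨v, hv⟩ : A) : V) = z then (∅ : Finset V)
        else {((⟨v, hv⟩ : A) : V)}) := by
      intro v hv hvz
      rw [if_neg hvz]
      exact mem_singleton_self v
    have hset : {v | ∃ w : A, v ∈ (if (w : V) = z then (∅ : Finset V) else {(w : V)})} = A \ {z} := by
      ext v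
      constructor
      · rintro ⟨w, hw⟩
        split_ifs at hw with h
        · exact absurd hw (notMem_empty v)
        · rw [mem_singleton] at hw
          rw [hw]
          exact ⟨w.2, h⟩
      · rintro ⟨hv, hvz⟩
        exact ⟨⟨v, hv⟩, hK v hv hvz⟩
    rw [hset] at h1
    refine ⟨μ, h1, fun v hv => ?_, pr_zero fun I hI h => ?_⟩
    · rw [h2 ⟨v, hv.1⟩ (fun h => hv.2 (congrArg Subtype.val h)) v (hK v hv.1 hv.2)]
      unfold need
      refine if_congr ?_ rfl rfl
      constructor
      · rintro (h | ⟨-, h | h⟩)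
        · exact h
        · exact absurd h.1.symm hbz
        · exact absurd h.1.symm hdz
      · exact fun h => Or.inl h
    · exact h5 ⟨b, hb⟩ ⟨d, hd⟩ (Or.inr ⟨hbd, Or.inl ⟨rfl, rfl⟩⟩) b (hK b hb hbz) d (hK d hd hdz) I hI
        h.1 h.2
  · obtain ⟨μ, h1, h2, h3, -, -⟩ := hm.use (gi G A b d) ⟨z, hz, hdz.symm⟩
      (Fintype.card_subtype_lt (p := fun x => x ∈ A ∧ x ≠ d) (x := r) fun h => hrA h.1)
      (pln_gi hm.pl hR hRA hbR hdR) (fun x => kf z b d x) (kf_z z b d)
      (fun x y hxy => by
        rw [Finset.disjoint_left]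
        intro v hv hv'
        have hv1 := (mem_kf.1 hv).2
        have hv2 := (mem_kf.1 hv').2
        have hne : (x : V) ≠ y := fun h => hxy (Subtype.ext h)
        rcases hv1 with h1 | h1 <;> rcases hv2 with h2 | h2
        · exact hne (h1.symm.trans h2)
        · exact x.2.2 (h1.symm.trans h2.2)
        · exact y.2.2 (h2.symm.trans h1.2)
        · exact hne (h1.1.trans h2.1.symm))
      (fun x u hu v hv huv => by
        have hu1 := (mem_kf.1 hu).2
        have hv1 := (mem_kf.1 hv).2
        rcases hu1 with h1 | h1 <;> rcases hv1 with h2 | h2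
        · rw [h1, h2] at huv
          exact G.loopless.irrefl _ huv
        · rw [h1, h2.1, h2.2] at huv
          exact hn huv
        · rw [h2, h1.1, h1.2] at huv
          exact hn huv.symm
        · rw [h1.2, h2.2] at huv
          exact G.loopless.irrefl _ huv)
      (fun x y hxy u hu v hv huv => ⟨fun h => hxy (Subtype.ext h), u, mem_cl.2 (mem_kf.1 hu).2, v,
        mem_cl.2 (mem_kf.1 hv).2, huv⟩)
    have hb' : b ∈ A ∧ b ≠ d := ⟨hb, hbd⟩
    have hset : {v | ∃ w : {x // x ∈ A ∧ x ≠ d}, v ∈ kf z b d w} = A \ {z} := by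
      ext v
      constructor
      · rintro ⟨w, hw⟩
        obtain ⟨hw1, hw2⟩ := mem_kf.1 hw
        rcases hw2 with h | h
        · rw [h]
          exact ⟨w.2.1, hw1⟩
        · rw [h.2]
          exact ⟨hd, hdz⟩
      · rintro ⟨hv, hvz⟩
        by_cases hvd : v = d
        · exact ⟨⟨b, hb'⟩, mem_kf.2 ⟨hbz, Or.inr ⟨rfl, hvd⟩⟩⟩
        · exact ⟨⟨v, hv, hvd⟩, mem_kf.2 ⟨hvz, Or.inl rfl⟩⟩
    rw [hset] at h1
    have hadj : ∀ w : {x // x ∈ A ∧ x ≠ d}, (w : V) ≠ z → ∀ v ∈ kf z b d w,
        ((gi G A b d).Adj ⟨z, hz, hdz.symm⟩ w ↔ G.Adj z v) := by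
      intro w hwz v hv
      have hv2 := (mem_kf.1 hv).2
      constructor
      · rintro ⟨-, a, ha, c, hc, hac⟩
        have ha' : a = z := by
          rcases mem_cl.1 ha with h | h
          · exact h
          · exact absurd h.1.symm hbz
        rw [ha'] at hac
        by_cases hwb : (w : V) = b
        · exfalso
          rcases mem_cl.1 hc with h | h
          · rw [h, hwb] at hac
            exact hLb hac
          · rw [h.2] at hac
            exact hLd hac
        · have hc' : c = w := (mem_cl.1 hc).resolve_right fun h => hwb h.1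
          have hv' : v = w := hv2.resolve_right fun h => hwb h.1
          rw [hv', ← hc']
          exact hac
      · intro h
        exact ⟨fun h' => hwz h'.symm, z, mem_cl.2 (Or.inl rfl), v, mem_cl.2 hv2, h⟩
    have hmg : ∀ v ∈ A \ {z}, marg μ v = need G z v := by
      rintro v ⟨hv, hvz⟩
      obtain ⟨w, hw⟩ : ∃ w : {x // x ∈ A ∧ x ≠ d}, v ∈ kf z b d w := by
        have : v ∈ {v | ∃ w : {x // x ∈ A ∧ x ≠ d}, v ∈ kf z b d w} := by
          rw [hset]
          exact ⟨hv, hvz⟩
        exact this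
      have hwz := (mem_kf.1 hw).1
      rw [h2 w (fun h => hwz (congrArg Subtype.val h)) v hw]
      exact if_congr (hadj w hwz v hw) rfl rfl
    refine ⟨μ, h1, hmg, ?_⟩
    have hbk : b ∈ kf z b d (⟨b, hb'⟩ : {x // x ∈ A ∧ x ≠ d}) := mem_kf.2 ⟨hbz, Or.inl rfl⟩
    have hdk : d ∈ kf z b d (⟨b, hb'⟩ : {x // x ∈ A ∧ x ≠ d}) :=
      mem_kf.2 ⟨hbz, Or.inr ⟨rfl, rfl⟩⟩
    have h6 : pr μ (fun I => b ∈ I ∧ d ∈ I) = marg μ b :=
      pr_congr fun I hI => ⟨fun h => h.1, fun h => ⟨h, (h3 _ b hbk d hdk I hI).1 h⟩⟩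
    have h7 : need G z b = need G z d := by
      unfold need
      rw [if_neg hLb, if_neg hLd]
    rw [h6, hmg b ⟨hb, hbz⟩, ← h7, min_self]

/-- The graph `H` with a new vertex next to the vertices in `N`. -/
def pt (H : SimpleGraph W) (N : W → Prop) : SimpleGraph (Option W) where
  Adj x y := match x, y with
    | none, none => False
    | none, some y => N y
    | some x, none => N x
    | some x, some y => H.Adj x y
  symm := ⟨by
    rintro (_ | x) (_ | y) h
    · exact h
    · exact h
    · exact h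
    · exact SimpleGraph.Adj.symm (G := H) h⟩
  loopless := ⟨by
    rintro (_ | x) h
    · exact h
    · exact H.loopless.irrefl _ h⟩

lemma pln_pt {H : SimpleGraph W} (hH : Pln H) {N : W → Prop} {x : W} (hN : ∀ u, N u → u = x) :
    Pln (pt H N) := Pln.pendant hH x (fun _ _ h => h) fun u h => hN u h

lemma need_pos (G : SimpleGraph V) (z v : V) : 0 < need G z v := by
  unfold need kap
  split_ifs <;> norm_num

lemma card_opt {p : V → Prop} [Fintype {x // p x}] {r r' : V} (hr : ¬p r) (hr' : ¬p r') (hrr : r ≠ r') :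
    Fintype.card (Option {x // p x}) < Fintype.card V := by
  refine Fintype.card_lt_of_injective_of_notMem
    (fun o : Option {x // p x} => match o with
      | none => r
      | some x => (x : V)) ?_ (b := r') ?_
  · rintro (_ | x) (_ | y) h
    · rfl
    · exact absurd (show r = y from h) fun h' => hr (h' ▸ y.2)
    · exact absurd (show (x : V) = r from h) fun h' => hr (h' ▸ x.2)
    · exact congrArg some (Subtype.ext h)
  · rintro ⟨_ | x, h⟩
    · exact hrr h
    · have h2 : (x : V) = r' := h
      exact hr' (h2 ▸ x.2)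

lemma sideB (hm : Min G z) {X : Set V} (hz : z ∉ X) {b d : V} (hb : b ∈ X) (hd : d ∈ X)
    (hbd : b ≠ d) (hn : ¬G.Adj b d) {R : Set V} (hR : BDP.Conn G R) (hRX : Disjoint R X)
    (hbR : ∃ x ∈ R, G.Adj b x) (hdR : ∃ x ∈ R, G.Adj d x) {x₀ : V} (hx₀ : x₀ ∈ X)
    (hN : ∀ v ∈ X, G.Adj z v → v = x₀) {r r' : V} (hr : r ∉ X) (hr' : r' ∉ X) (hrr : r ≠ r') :
    Two G z X b d := by
  have hne : ∀ v ∈ X, v ≠ z := fun v hv h => hz (h ▸ hv)
  constructor
  · obtain ⟨μ, h1, h2, -, -, h5⟩ := hm.use (pt (gp G X b d) fun x => G.Adj z x) none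
      (card_opt (p := fun x => x ∈ X) hr hr' hrr)
      (pln_pt (pln_gp hm.pl hR hRX hbR hdR) (x := ⟨x₀, hx₀⟩) fun u hu =>
        Subtype.ext (hN u u.2 hu))
      (fun o => match o with
        | none => ∅
        | some x => {(x : V)}) rfl
      (fun x y hxy => by
        rcases x with _ | x
        · exact disjoint_empty_left _
        · rcases y with _ | y
          · exact disjoint_empty_right _
          · exact disjoint_singleton.2 fun h => hxy (congrArg some (Subtype.ext h)))
      (fun x u hu v hv => by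
        rcases x with _ | x
        · exact absurd hu (notMem_empty u)
        · rw [mem_singleton.1 hu, mem_singleton.1 hv]
          exact G.loopless.irrefl _)
      (fun x y _ u hu v hv huv => by
        rcases x with _ | x
        · exact absurd hu (notMem_empty u)
        · rcases y with _ | y
          · exact absurd hv (notMem_empty v)
          · rw [mem_singleton.1 hu, mem_singleton.1 hv] at huv
            exact Or.inl huv)
    have hset : {v | ∃ o : Option X, v ∈ (match o with
        | none => (∅ : Finset V)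
        | some x => {(x : V)})} = X := by
      ext v
      constructor
      · rintro ⟨_ | x, h⟩
        · exact absurd h (notMem_empty v)
        · rw [mem_singleton.1 h]
          exact x.2
      · exact fun hv => ⟨some ⟨v, hv⟩, mem_singleton_self v⟩
    rw [hset] at h1
    refine ⟨μ, h1, fun v hv => ?_, pr_zero fun I hI h => ?_⟩
    · rw [h2 (some ⟨v, hv⟩) (Option.some_ne_none _) v (mem_singleton_self v)]
      exact if_congr Iff.rfl rfl rfl
    · exact h5 (some ⟨b, hb⟩) (some ⟨d, hd⟩) (Or.inr ⟨hbd, Or.inl ⟨rfl, rfl⟩⟩) b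
        (mem_singleton_self b) d (mem_singleton_self d) I hI h.1 h.2
  · have hb' : b ∈ X ∧ b ≠ d := ⟨hb, hbd⟩
    have hpl : Pln (pt (gi G X b d) fun x => ∃ u ∈ cl b d (x : V), G.Adj z u) := by
      by_cases hxd : x₀ = d
      · refine pln_pt (pln_gi hm.pl hR hRX hbR hdR) (x := ⟨b, hb'⟩) ?_
        rintro x ⟨u, hu, hzu⟩
        rcases mem_cl.1 hu with h | h
        · exfalso
          have h3 := hN x x.2.1 (h ▸ hzu)
          exact x.2.2 (h3.trans hxd)
        · exact Subtype.ext h.1
      · refine pln_pt (pln_gi hm.pl hR hRX hbR hdR) (x := ⟨x₀, hx₀, hxd⟩) ?_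
        rintro x ⟨u, hu, hzu⟩
        rcases mem_cl.1 hu with h | h
        · exact Subtype.ext (hN x x.2.1 (h ▸ hzu))
        · exact absurd (hN d hd (h.2 ▸ hzu)).symm hxd
    obtain ⟨μ, h1, h2, h3, -, -⟩ := hm.use (pt (gi G X b d) fun x =>
        ∃ u ∈ cl b d (x : V), G.Adj z u) none
      (card_opt (p := fun x => x ∈ X ∧ x ≠ d) (fun h => hr h.1) (fun h => hr' h.1) hrr) hpl
      (fun o => match o with
        | none => ∅
        | some x => kf z b d (x : V)) rfl
      (fun x y hxy => by
        rcases x with _ | x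
        · exact disjoint_empty_left _
        · rcases y with _ | y
          · exact disjoint_empty_right _
          · rw [Finset.disjoint_left]
            intro v hv hv'
            have hv1 := (mem_kf.1 hv).2
            have hv2 := (mem_kf.1 hv').2
            have hne : (x : V) ≠ y := fun h => hxy (congrArg some (Subtype.ext h))
            rcases hv1 with h1 | h1 <;> rcases hv2 with h2 | h2
            · exact hne (h1.symm.trans h2)
            · exact x.2.2 (h1.symm.trans h2.2)
            · exact y.2.2 (h2.symm.trans h1.2)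
            · exact hne (h1.1.trans h2.1.symm))
      (fun x u hu v hv huv => by
        rcases x with _ | x
        · exact absurd hu (notMem_empty u)
        · have hu1 := (mem_kf.1 hu).2
          have hv1 := (mem_kf.1 hv).2
          rcases hu1 with h1 | h1 <;> rcases hv1 with h2 | h2
          · rw [h1, h2] at huv
            exact G.loopless.irrefl _ huv
          · rw [h1, h2.1, h2.2] at huv
            exact hn huv
          · rw [h2, h1.1, h1.2] at huv
            exact hn huv.symm
          · rw [h1.2, h2.2] at huv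
            exact G.loopless.irrefl _ huv)
      (fun x y hxy u hu v hv huv => by
        rcases x with _ | x
        · exact absurd hu (notMem_empty u)
        · rcases y with _ | y
          · exact absurd hv (notMem_empty v)
          · exact ⟨fun h => hxy (congrArg some (Subtype.ext h)), u, mem_cl.2 (mem_kf.1 hu).2, v,
              mem_cl.2 (mem_kf.1 hv).2, huv⟩)
    have hset : {v | ∃ o : Option {x // x ∈ X ∧ x ≠ d}, v ∈ (match o with
        | none => (∅ : Finset V)
        | some x => kf z b d (x : V))} = X := by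
      ext v
      constructor
      · rintro ⟨_ | x, h⟩
        · exact absurd h (notMem_empty v)
        · rcases (mem_kf.1 h).2 with h | h
          · rw [h]
            exact x.2.1
          · rw [h.2]
            exact hd
      · intro hv
        by_cases hvd : v = d
        · exact ⟨some ⟨b, hb'⟩, mem_kf.2 ⟨hne b hb, Or.inr ⟨rfl, hvd⟩⟩⟩
        · exact ⟨some ⟨v, hv, hvd⟩, mem_kf.2 ⟨hne v hv, Or.inl rfl⟩⟩
    rw [hset] at h1
    -- the probabilities of the identified law
    set H := pt (gi G X b d) fun x => ∃ u ∈ cl b d (x : V), G.Adj z u with hH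
    have hbk : b ∈ kf z b d b := mem_kf.2 ⟨hne b hb, Or.inl rfl⟩
    have hdk : d ∈ kf z b d b := mem_kf.2 ⟨hne b hb, Or.inr ⟨rfl, rfl⟩⟩
    have hmb : marg μ b = need H none (some ⟨b, hb'⟩) :=
      h2 (some ⟨b, hb'⟩) (Option.some_ne_none _) b hbk
    have hmd : marg μ d = need H none (some ⟨b, hb'⟩) :=
      h2 (some ⟨b, hb'⟩) (Option.some_ne_none _) d hdk
    have hNb : need H none (some ⟨b, hb'⟩) =
        if G.Adj z b ∨ G.Adj z d then (1 + kap) / 4 else (1 + kap) / 5 := by
      refine if_congr ?_ rfl rfl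
      constructor
      · rintro ⟨u, hu, hzu⟩
        rcases mem_cl.1 hu with h | h
        · have h' : u = b := h
          rw [h'] at hzu
          exact Or.inl hzu
        · rw [h.2] at hzu
          exact Or.inr hzu
      · rintro (h | h)
        · exact ⟨b, mem_cl.2 (Or.inl rfl), h⟩
        · exact ⟨d, mem_cl.2 (Or.inr ⟨rfl, rfl⟩), h⟩
    have hmo : ∀ v ∈ X, v ≠ b → v ≠ d → marg μ v = need G z v := by
      intro v hv hvb hvd
      rw [h2 (some ⟨v, hv, hvd⟩) (Option.some_ne_none _) v (mem_kf.2 ⟨hne v hv, Or.inl rfl⟩)]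
      refine if_congr ?_ rfl rfl
      constructor
      · rintro ⟨u, hu, hzu⟩
        rcases mem_cl.1 hu with h | h
        · have h' : u = v := h
          rw [h'] at hzu
          exact hzu
        · exact absurd h.1 hvb
      · exact fun h => ⟨v, mem_cl.2 (Or.inl rfl), h⟩
    have hk : (0 : ℝ) < kap := by unfold kap; norm_num
    obtain ⟨μ', t1, t2, -, -, t5⟩ := thin h1 (fun v => if v ∈ X then need G z v else 0)
      (fun v => by
        split_ifs
        · exact (need_pos G z v).le
        · exact le_rfl)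
      (fun v => by
        split_ifs with hv
        · by_cases hvb : v = b
          · rw [hvb, hmb, hNb]
            unfold need
            by_cases h : G.Adj z b
            · rw [if_pos h, if_pos (Or.inl h)]
            · rw [if_neg h]
              split_ifs
              · linarith
              · exact le_rfl
          · by_cases hvd : v = d
            · rw [hvd, hmd, hNb]
              unfold need
              by_cases h : G.Adj z d
              · rw [if_pos h, if_pos (Or.inr h)]
              · rw [if_neg h]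
                split_ifs
                · linarith
                · exact le_rfl
            · exact (hmo v hv hvb hvd).ge
        · unfold marg pr
          refine sum_nonneg fun I _ => ?_
          split_ifs
          · exact h1.nonneg I
          · exact le_rfl)
    refine ⟨μ', t1, fun v hv => by rw [t2 v, if_pos hv], ?_⟩
    have h6 : pr μ (fun I => b ∈ I ∧ d ∈ I) = marg μ b :=
      pr_congr fun I hI => ⟨fun h => h.1, fun h =>
        ⟨h, (h3 (some ⟨b, hb'⟩) b hbk d hdk I hI).1 h⟩⟩
    have h7 := t5 b d hbd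
    simp only [if_pos hb, if_pos hd] at h7
    rw [h6, hmb, hmd, hNb] at h7
    have hM : (0 : ℝ) < if G.Adj z b ∨ G.Adj z d then (1 + kap) / 4 else (1 + kap) / 5 := by
      split_ifs <;> linarith
    set M : ℝ := if G.Adj z b ∨ G.Adj z d then (1 + kap) / 4 else (1 + kap) / 5 with hMdef
    have h8 : M * pr μ' (fun I => b ∈ I ∧ d ∈ I) = need G z b * need G z d := by
      have h9 : M * (M * pr μ' (fun I => b ∈ I ∧ d ∈ I)) = M * (need G z b * need G z d) := by
        rw [← mul_assoc, h7]
        ring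
      exact mul_left_cancel₀ hM.ne' h9
    have h10 : M * min (need G z b) (need G z d) = need G z b * need G z d := by
      unfold need
      by_cases e1 : G.Adj z b
      · by_cases e2 : G.Adj z d
        · rw [hMdef, if_pos (Or.inl e1), if_pos e1, if_pos e2, min_self]
        · rw [hMdef, if_pos (Or.inl e1), if_pos e1, if_neg e2, min_eq_right (by linarith)]
      · by_cases e2 : G.Adj z d
        · rw [hMdef, if_pos (Or.inr e2), if_neg e1, if_pos e2, min_eq_left (by linarith)]
          ring
        · rw [hMdef, if_neg (by tauto), if_neg e1, if_neg e2, min_self]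
    exact mul_left_cancel₀ hM.ne' (h8.trans h10.symm)

/-- Glueing two laws along the path `u c u'`, if `u` and `u'` are never both chosen. -/
lemma glue3 {A B : Set V} {u c u' : V} (hAB : A ∩ B = {u, c, u'})
    (hU : A ∪ B = {z}ᶜ) (hno : ∀ x ∈ A \ B, ∀ y ∈ B \ A, ¬G.Adj x y) (a1 : G.Adj u c)
    (a2 : G.Adj c u') {μ ν : Finset V → ℝ} (hμ : IsLaw G A μ) (hν : IsLaw G B ν)
    (mμ : ∀ v ∈ A, marg μ v = need G z v) (mν : ∀ v ∈ B, marg ν v = need G z v)
    (pμ : pr μ (fun I => u ∈ I ∧ u' ∈ I) = 0) (pν : pr ν (fun I => u ∈ I ∧ u' ∈ I) = 0) :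
    Fine G z := by
  have key : ∀ {ρ : Finset V → ℝ} {X : Set V}, IsLaw G X ρ →
      pr ρ (fun I => u ∈ I ∧ u' ∈ I) = 0 → ∀ I, ρ I ≠ 0 → ∀ x ∈ A ∩ B, ∀ y ∈ A ∩ B, x ≠ y →
        x ∈ I → y ∉ I := by
    intro ρ X hρ h0 I hI x hx y hy hxy hxI hyI
    have hi := hρ.ind I hI
    have hn := of_pr_zero hρ.nonneg h0 hI
    rw [hAB] at hx hy
    simp only [Set.mem_insert_iff, Set.mem_singleton_iff] at hx hy
    rcases hx with rfl | rfl | rfl <;> rcases hy with rfl | rfl | rfl
    · exact hxy rfl
    · exact hi _ hxI _ hyI a1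
    · exact hn ⟨hxI, hyI⟩
    · exact hi _ hyI _ hxI a1
    · exact hxy rfl
    · exact hi _ hxI _ hyI a2
    · exact hn ⟨hyI, hxI⟩
    · exact hi _ hyI _ hxI a2
    · exact hxy rfl
  obtain ⟨ρ, h1, h2, h3⟩ := glue_clique hμ hν hno (key hμ pμ) (key hν pν)
    fun v hv => (mμ v hv.1).trans (mν v hv.2).symm
  rw [hU] at h1
  refine ⟨ρ, h1, fun v hv => ?_⟩
  have hv' : v ∈ A ∪ B := by
    rw [hU]
    exact hv
  rcases hv' with h | h
  · exact (h2 v h).trans (mμ v h)
  · exact (h3 v h).trans (mν v h)

lemma core (hm : Min G z) {c q u u' : V} {K K' : Set V} (hc : c ≠ z) (hq : q ≠ z)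
    (hu : IsL G z u) (hu' : IsL G z u') (huu : u ≠ u') (hcq : c ≠ q)
    (n1 : ¬G.Adj u u') (n2 : ¬G.Adj c q) (n3 : ¬(G.Adj z c ∧ G.Adj z q))
    (a1 : G.Adj u c) (a2 : G.Adj c u') (a3 : G.Adj u' q) (a4 : G.Adj q u)
    (hK : BDP.Conn G K) (hK' : BDP.Conn G K') (hd : Disjoint K K')
    (hS : ∀ x ∈ K, x ≠ c ∧ x ≠ u ∧ x ≠ u' ∧ x ≠ q) (hS' : ∀ x ∈ K', x ≠ c ∧ x ≠ u ∧ x ≠ u' ∧ x ≠ q)
    (hcl : ∀ x ∈ K, ∀ y, G.Adj x y → y ∈ K ∨ y = c ∨ y = u ∨ y = u' ∨ y = q)
    (hcl' : ∀ x ∈ K', ∀ y, G.Adj x y → y ∈ K' ∨ y = c ∨ y = u ∨ y = u' ∨ y = q)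
    (k1 : ∃ x ∈ K, G.Adj u x) (k2 : ∃ x ∈ K, G.Adj u' x) (k3 : ∃ x ∈ K', G.Adj u x)
    (k4 : ∃ x ∈ K', G.Adj u' x) (k5 : ∃ x ∈ K', G.Adj c x) (hz : z ∉ K) : False := by
  have hzu : z ≠ u := fun h => hu.1 h.symm
  have hzu' : z ≠ u' := fun h => hu'.1 h.symm
  have hzK : ∀ x ∈ K, ¬G.Adj z x := by
    intro x hx h
    rcases hcl x hx z h.symm with h' | h' | h' | h' | h'
    · exact hz h'
    · exact hc h'.symm
    · exact hzu h'
    · exact hzu' h'
    · exact hq h'.symm
  have hcK : c ∉ K := fun h => (hS c h).1 rfl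
  have huK : u ∉ K := fun h => (hS u h).2.1 rfl
  have hu'K : u' ∉ K := fun h => (hS u' h).2.2.1 rfl
  have hqK : q ∉ K := fun h => (hS q h).2.2.2 rfl
  have hcK' : c ∉ K' := fun h => (hS' c h).1 rfl
  have huK' : u ∉ K' := fun h => (hS' u h).2.1 rfl
  have hu'K' : u' ∉ K' := fun h => (hS' u' h).2.2.1 rfl
  have hqK' : q ∉ K' := fun h => (hS' q h).2.2.2 rfl
  obtain ⟨r', hr', hur'⟩ := id k3
  have hr'z : r' ≠ z := fun h => hu.2 (h ▸ hur').symm
  have hr'K : r' ∉ K := fun h => Set.disjoint_left.1 hd h hr'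
  obtain ⟨s1, s2, s3, s4⟩ := hS' r' hr'
  by_cases hqK2 : ∃ x ∈ K', G.Adj q x
  · -- a separating cycle of length four
    obtain ⟨⟨μ₀, m1, m2, m3⟩, μ₁, m4, m5, m6⟩ := sideA hm (A := Kᶜ) hz huK hu'K hu.1 hu'.1 huu n1
      hu.2 hu'.2 hK disjoint_compl_right k1 k2
    have hzX : z ∉ K ∪ {u, c, u', q} := by
      rintro (h | h | h | h | h)
      · exact hz h
      · exact hzu h
      · exact hc h.symm
      · exact hzu' h
      · exact hq h.symm
    obtain ⟨⟨ν₀, l1, l2, l3⟩, ν₁, l4, l5, l6⟩ := sideB hm (X := K ∪ {u, c, u', q}) hzX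
      (b := c) (d := q) (Or.inr (Or.inr (Or.inl rfl))) (Or.inr (Or.inr (Or.inr (Or.inr rfl)))) hcq
      n2 hK' (by
        rw [Set.disjoint_left]
        rintro x hx (h | h | h | h | h)
        · exact Set.disjoint_left.1 hd h hx
        · exact huK' (h ▸ hx)
        · exact hcK' (h ▸ hx)
        · exact hu'K' (h ▸ hx)
        · exact hqK' (h ▸ hx)) k5 hqK2 (x₀ := if G.Adj z c then c else q)
      (by
        split_ifs
        · exact Or.inr (Or.inr (Or.inl rfl))
        · exact Or.inr (Or.inr (Or.inr (Or.inr rfl))))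
      (by
        rintro v (h | h | h | h | h) hzv
        · exact absurd hzv (hzK v h)
        · exact absurd (h ▸ hzv) hu.2
        · rw [h] at hzv ⊢
          rw [if_pos hzv]
        · exact absurd (h ▸ hzv) hu'.2
        · have h' : v = q := h
          rw [h'] at hzv ⊢
          rw [if_neg fun h'' => n3 ⟨h'', hzv⟩])
      hzX (r' := r') (by
        rintro (h | h | h | h | h)
        · exact hr'K h
        · exact s2 h
        · exact s1 h
        · exact s3 h
        · exact s4 h) hr'z.symm
    have hU : (Kᶜ \ {z}) ∪ (K ∪ {u, c, u', q}) = ({z}ᶜ : Set V) := by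
      ext v
      constructor
      · rintro (h | h)
        · exact h.2
        · exact fun h' => hzX (h' ▸ h)
      · intro hv
        by_cases hvK : v ∈ K
        · exact Or.inr (Or.inl hvK)
        · exact Or.inl ⟨hvK, hv⟩
    have hI : (Kᶜ \ {z}) ∩ (K ∪ {u, c, u', q}) = ({u, c, u', q} : Set V) := by
      ext v
      constructor
      · rintro ⟨⟨h1, -⟩, h2 | h2⟩
        · exact absurd h2 h1
        · exact h2
      · intro hv
        refine ⟨⟨?_, fun h => hzX (h ▸ Or.inr hv)⟩, Or.inr hv⟩
        rcases hv with h | h | h | h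
        · exact h ▸ huK
        · exact h ▸ hcK
        · exact h ▸ hu'K
        · exact (show v = q from h) ▸ hqK
    obtain ⟨ρ, r1, r2⟩ := four m1 m4 l1 l4 (by
      rintro x ⟨⟨hxK, -⟩, hxX⟩ y ⟨hy | hy, hyA⟩ hxy
      · rcases hcl y hy x hxy.symm with h | h | h | h | h
        · exact hxK h
        · exact hxX (Or.inr (Or.inr (Or.inl h)))
        · exact hxX (Or.inr (Or.inl h))
        · exact hxX (Or.inr (Or.inr (Or.inr (Or.inl h))))
        · exact hxX (Or.inr (Or.inr (Or.inr (Or.inr h))))
      · refine hyA ⟨?_, fun h => hzX (h ▸ Or.inr hy)⟩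
        rcases hy with h | h | h | h
        · exact h ▸ huK
        · exact h ▸ hcK
        · exact h ▸ hu'K
        · exact (show y = q from h) ▸ hqK) (a := u) (b := c) (c := u') (d := q) huu hcq hI a1 a2 a3
      a4 (m := need G z) m2 m5 l2 l5 m3 m6 l3 l6
    rw [hU] at r1 r2
    exact hm.bad ⟨ρ, r1, fun v hv => r2 v hv⟩
  · -- `K'` sees only `c`, `u`, `u'`
    have hcl3 : ∀ x ∈ K', ∀ y, G.Adj x y → y ∈ K' ∨ y = c ∨ y = u ∨ y = u' := by
      intro x hx y hxy
      rcases hcl' x hx y hxy with h | h | h | h | h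
      · exact Or.inl h
      · exact Or.inr (Or.inl h)
      · exact Or.inr (Or.inr (Or.inl h))
      · exact Or.inr (Or.inr (Or.inr h))
      · exact absurd ⟨x, hx, (h ▸ hxy).symm⟩ hqK2
    by_cases hzK' : z ∈ K'
    · -- `z` lies in `K'`
      obtain ⟨⟨μ₀, m1, m2, m3⟩, -⟩ := sideA hm (A := K' ∪ {u, c, u'}) (Or.inl hzK')
        (b := u) (d := u') (Or.inr (Or.inl rfl)) (Or.inr (Or.inr (Or.inr rfl))) hu.1 hu'.1 huu n1
        hu.2 hu'.2 hK (by
          rw [Set.disjoint_left]
          rintro x hx (h | h | h | h)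
          · exact Set.disjoint_left.1 hd hx h
          · exact huK (h ▸ hx)
          · exact hcK (h ▸ hx)
          · exact hu'K ((show x = u' from h) ▸ hx)) k1 k2
      obtain ⟨⟨ν₀, l1, l2, l3⟩, -⟩ := sideB hm (X := K'ᶜ) (fun h => h hzK') (b := u) (d := u') huK'
        hu'K' huu n1 hK' disjoint_compl_right k3 k4 (x₀ := c) hcK'
        (by
          intro v hv hzv
          rcases hcl3 z hzK' v hzv with h | h | h | h
          · exact absurd h hv
          · exact h
          · exact absurd (h ▸ hzv) hu.2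
          · exact absurd (h ▸ hzv) hu'.2) (fun h => h hzK') (fun h => h hr') hr'z.symm
      refine hm.bad (glue3 (A := (K' ∪ {u, c, u'}) \ {z}) (B := K'ᶜ) (u := u) (c := c) (u' := u')
        ?_ ?_ ?_ a1 a2 m1 l1 m2 l2 m3 l3)
      · ext v
        constructor
        · rintro ⟨⟨h1 | h1, -⟩, h2⟩
          · exact absurd h1 h2
          · exact h1
        · intro hv
          refine ⟨⟨Or.inr hv, ?_⟩, ?_⟩
          · rintro h'
            have h'' : v = z := h'
            rcases hv with h | h | h
            · exact hzu (h''.symm.trans h)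
            · exact hc (h.symm.trans h'')
            · exact hzu' (h''.symm.trans h)
          · rcases hv with h | h | h
            · exact h ▸ huK'
            · exact h ▸ hcK'
            · exact (show v = u' from h) ▸ hu'K'
      · ext v
        constructor
        · rintro (h | h)
          · exact h.2
          · exact fun h' => h ((show v = z from h') ▸ hzK')
        · intro hv
          by_cases hvK : v ∈ K'
          · exact Or.inl ⟨Or.inl hvK, hv⟩
          · exact Or.inr hvK
      · rintro x ⟨⟨hx | hx, hxz⟩, hxB⟩ y ⟨hy, hyA⟩ hxy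
        · have hyz : y ≠ z := fun h => hy (h ▸ hzK')
          rcases hcl3 x hx y hxy with h | h | h | h
          · exact hy h
          · exact hyA ⟨Or.inr (Or.inr (Or.inl h)), hyz⟩
          · exact hyA ⟨Or.inr (Or.inl h), hyz⟩
          · exact hyA ⟨Or.inr (Or.inr (Or.inr h)), hyz⟩
        · refine hxB ?_
          rcases hx with h | h | h
          · exact h ▸ huK'
          · exact h ▸ hcK'
          · exact (show x = u' from h) ▸ hu'K'
    · -- `z` lies outside `K'`
      obtain ⟨⟨μ₀, m1, m2, m3⟩, -⟩ := sideA hm (A := K'ᶜ) hzK' (b := u) (d := u') huK' hu'K' hu.1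
        hu'.1 huu n1 hu.2 hu'.2 hK' disjoint_compl_right k3 k4
      have hzX : z ∉ K' ∪ {u, c, u'} := by
        rintro (h | h | h | h)
        · exact hzK' h
        · exact hzu h
        · exact hc h.symm
        · exact hzu' h
      obtain ⟨⟨ν₀, l1, l2, l3⟩, -⟩ := sideB hm (X := K' ∪ {u, c, u'}) hzX (b := u) (d := u')
        (Or.inr (Or.inl rfl)) (Or.inr (Or.inr (Or.inr rfl))) huu n1 hK (by
          rw [Set.disjoint_left]
          rintro x hx (h | h | h | h)
          · exact Set.disjoint_left.1 hd hx h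
          · exact huK (h ▸ hx)
          · exact hcK (h ▸ hx)
          · exact hu'K ((show x = u' from h) ▸ hx)) k1 k2 (x₀ := c)
        (Or.inr (Or.inr (Or.inl rfl)))
        (by
          rintro v (h | h | h | h) hzv
          · rcases hcl3 v h z hzv.symm with h' | h' | h' | h'
            · exact absurd h' hzK'
            · exact absurd h'.symm hc
            · exact absurd h' hzu
            · exact absurd h' hzu'
          · exact absurd (h ▸ hzv) hu.2
          · exact h
          · exact absurd ((show v = u' from h) ▸ hzv) hu'.2) hzX (r' := q)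
        (by
          rintro (h | h | h | h)
          · exact hqK' h
          · exact a4.ne h
          · exact hcq h.symm
          · exact a3.ne (show q = u' from h).symm) hq.symm
      refine hm.bad (glue3 (A := K'ᶜ \ {z}) (B := K' ∪ {u, c, u'}) (u := u) (c := c) (u' := u')
        ?_ ?_ ?_ a1 a2 m1 l1 m2 l2 m3 l3)
      · ext v
        constructor
        · rintro ⟨⟨h1, -⟩, h2 | h2⟩
          · exact absurd h2 h1
          · exact h2
        · intro hv
          refine ⟨⟨?_, fun h => hzX (h ▸ Or.inr hv)⟩, Or.inr hv⟩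
          rcases hv with h | h | h
          · exact h ▸ huK'
          · exact h ▸ hcK'
          · exact (show v = u' from h) ▸ hu'K'
      · ext v
        constructor
        · rintro (h | h)
          · exact h.2
          · exact fun h' => hzX ((show v = z from h') ▸ h)
        · intro hv
          by_cases hvK : v ∈ K'
          · exact Or.inr (Or.inl hvK)
          · exact Or.inl ⟨hvK, hv⟩
      · rintro x ⟨⟨hxK, -⟩, hxX⟩ y ⟨hy | hy, hyA⟩ hxy
        · rcases hcl3 y hy x hxy.symm with h | h | h | h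
          · exact hxK h
          · exact hxX (Or.inr (Or.inr (Or.inl h)))
          · exact hxX (Or.inr (Or.inl h))
          · exact hxX (Or.inr (Or.inr (Or.inr h)))
        · refine hyA ⟨?_, fun h => hzX (h ▸ Or.inr hy)⟩
          rcases hy with h | h | h
          · exact h ▸ huK'
          · exact h ▸ hcK'
          · exact (show y = u' from h) ▸ hu'K'

end Fo

/-- Two vertices of a link which are not adjacent and not next to `z` have no common neighbour
outside. -/
theorem Min.noq [Fintype V] {G : SimpleGraph V} {z : V} (hm : Min G z) (c : V) (hc : c ≠ z)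
    (k : ℕ) (w : ZMod k → V) (hw : CLink G c k w) (i j : ZMod k) (hij : i ≠ j) (h1 : j ≠ i + 1)
    (h2 : i ≠ j + 1) (hi : IsL G z (w i)) (hj : IsL G z (w j)) (q : V) (hiq : G.Adj (w i) q)
    (hjq : G.Adj (w j) q) : q = c ∨ G.Adj c q := by
  by_contra hcon
  have hqc : q ≠ c := fun h => hcon (Or.inl h)
  have hqn : ¬G.Adj c q := fun h => hcon (Or.inr h)
  have hk3 := hw.three
  have hne : NeZero k := ⟨by omega⟩
  have hlt : ∀ a b : ℕ, a < k → b < k → ((a : ZMod k) = b) → a = b := by
    intro a b ha hb h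
    rw [ZMod.natCast_eq_natCast_iff'] at h
    rwa [Nat.mod_eq_of_lt ha, Nat.mod_eq_of_lt hb] at h
  obtain ⟨m, hmk, hjm⟩ : ∃ m : ℕ, m < k ∧ j = i + m :=
    ⟨(j - i).val, ZMod.val_lt _, by rw [ZMod.natCast_zmod_val]; ring⟩
  subst hjm
  have hm0 : m ≠ 0 := by
    rintro rfl
    exact hij (by simp)
  have hm1 : m ≠ 1 := by
    rintro rfl
    exact h1 (by simp)
  have hmk1 : m ≠ k - 1 := by
    intro h
    apply h2
    have h3 : ((m + 1 : ℕ) : ZMod k) = 0 := by
      rw [h, Nat.sub_add_cancel (by omega)]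
      exact ZMod.natCast_self k
    push_cast at h3
    rw [add_assoc, h3, add_zero]
  have hnb : ∀ n : ZMod k, G.Adj c (w n) := fun n => (hw.nb _).2 ⟨n, rfl⟩
  set T : Set V := {c, w i, w (i + m), q}ᶜ with hT
  have hmem : ∀ n : ℕ, 0 < n → n < k → n ≠ m → w (i + n) ∈ T := by
    rintro n hn0 hnk hnm (h | h | h | h)
    · exact (hnb _).ne h.symm
    · have h3 : (n : ZMod k) = (0 : ℕ) := by
        have := hw.inj h
        simpa using this
      exact absurd (hlt n 0 hnk (by omega) h3) (by omega)
    · have h3 : (n : ZMod k) = m := by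
        have := hw.inj h
        simpa using this
      exact hnm (hlt n m hnk hmk h3)
    · have h' : w (i + n) = q := h
      exact hqn (h' ▸ hnb _)
  have hstep : ∀ n : ℕ, G.Adj (w (i + n)) (w (i + (n + 1 : ℕ))) := by
    intro n
    have := hw.adj (i + n)
    push_cast
    rwa [← add_assoc]
  have hr1 : ∀ n : ℕ, 1 ≤ n → n < m → (BDP.res G T).Reachable (w (i + (1 : ℕ))) (w (i + n)) := by
    intro n hn
    induction n, hn using Nat.le_induction with
    | base => exact fun _ => SimpleGraph.Reachable.refl _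
    | succ n hn ih =>
      intro hnm
      refine (ih (by omega)).trans (SimpleGraph.Adj.reachable ?_)
      exact ⟨hstep n, hmem n (by omega) (by omega) (by omega),
        hmem (n + 1) (by omega) (by omega) (by omega)⟩
  have hr2 : ∀ n : ℕ, m + 1 ≤ n → n < k →
      (BDP.res G T).Reachable (w (i + (m + 1 : ℕ))) (w (i + n)) := by
    intro n hn
    induction n, hn using Nat.le_induction with
    | base => exact fun _ => SimpleGraph.Reachable.refl _
    | succ n hn ih =>
      intro hnm
      refine (ih (by omega)).trans (SimpleGraph.Adj.reachable ?_)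
      exact ⟨hstep n, hmem n (by omega) (by omega) (by omega),
        hmem (n + 1) (by omega) (by omega) (by omega)⟩
  have hsep := arcs₄ hm.pl.notK5 hw.toLink i m (by omega) (by omega) hqc hqn hiq hjq 1 (m + 1)
    le_rfl (by omega) (by omega) (by omega)
  set K := BDP.cmp G T (w (i + (1 : ℕ))) with hK
  set K' := BDP.cmp G T (w (i + (m + 1 : ℕ))) with hK'
  have hKT : K ⊆ T := BDP.cmp_subset (hmem 1 (by omega) (by omega) (by omega))
  have hKT' : K' ⊆ T := BDP.cmp_subset (hmem (m + 1) (by omega) (by omega) (by omega))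
  have hd : Disjoint K K' := by
    rw [Set.disjoint_left]
    intro x hx hx'
    exact hsep (SimpleGraph.Reachable.trans hx (SimpleGraph.Reachable.symm hx'))
  have hST : ∀ x ∈ T, x ≠ c ∧ x ≠ w i ∧ x ≠ w (i + m) ∧ x ≠ q := by
    intro x hx
    refine ⟨fun h => hx (Or.inl h), fun h => hx (Or.inr (Or.inl h)),
      fun h => hx (Or.inr (Or.inr (Or.inl h))), fun h => hx (Or.inr (Or.inr (Or.inr h)))⟩
  have hcl : ∀ a : V, BDP.cmp G T a ⊆ T → ∀ x ∈ BDP.cmp G T a, ∀ y, G.Adj x y →
      y ∈ BDP.cmp G T a ∨ y = c ∨ y = w i ∨ y = w (i + m) ∨ y = q := by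
    intro a ha x hx y hxy
    by_cases hy : y ∈ T
    · exact Or.inl (SimpleGraph.Reachable.trans hx
        (SimpleGraph.Adj.reachable (show (BDP.res G T).Adj x y from ⟨hxy, ha hx, hy⟩)))
    · rw [hT, Set.notMem_compl_iff] at hy
      exact Or.inr hy
  have hn1 : ¬G.Adj (w i) (w (i + m)) := by
    intro h
    rcases hw.cl _ _ h with h' | h'
    · exact h1 h'
    · exact h2 h'
  have hqz : q ≠ z := fun h => hi.2 (h ▸ hiq).symm
  have hn3 : ¬(G.Adj z c ∧ G.Adj z q) := fun h =>
    hqn (hm.h2 (w i) c q hi (hnb i).symm hiq h.1 h.2 hqc.symm)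
  have k1 : ∃ x ∈ K, G.Adj (w i) x := ⟨_, BDP.mem_cmp_self _ _, by
    have := hw.adj i
    simpa using this⟩
  have k2 : ∃ x ∈ K, G.Adj (w (i + m)) x := by
    refine ⟨w (i + (m - 1 : ℕ)), hr1 (m - 1) (by omega) (by omega), ?_⟩
    have := hstep (m - 1)
    rw [Nat.sub_add_cancel (by omega)] at this
    exact this.symm
  have k3 : ∃ x ∈ K', G.Adj (w i) x := by
    refine ⟨w (i + (k - 1 : ℕ)), hr2 (k - 1) (by omega) (by omega), ?_⟩
    have := hstep (k - 1)
    rw [Nat.sub_add_cancel (by omega), ZMod.natCast_self, add_zero] at this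
    exact this.symm
  have k4 : ∃ x ∈ K', G.Adj (w (i + m)) x := ⟨_, BDP.mem_cmp_self _ _, hstep m⟩
  have k5 : ∃ x ∈ K', G.Adj c x := ⟨_, BDP.mem_cmp_self _ _, hnb _⟩
  have k6 : ∃ x ∈ K, G.Adj c x := ⟨_, BDP.mem_cmp_self _ _, hnb _⟩
  by_cases hz : z ∈ K
  · exact Fo.core hm hc hqz hi hj (fun h => hij (hw.inj h)) hqc.symm hn1 hqn hn3 (hnb i).symm
      (hnb _) hjq hiq.symm (BDP.conn_cmp _ _) (BDP.conn_cmp _ _) hd.symm
      (fun x hx => hST x (hKT' hx)) (fun x hx => hST x (hKT hx)) (hcl _ hKT') (hcl _ hKT)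
      k3 k4 k1 k2 k6 (fun h => Set.disjoint_left.1 hd hz h)
  · exact Fo.core hm hc hqz hi hj (fun h => hij (hw.inj h)) hqc.symm hn1 hqn hn3 (hnb i).symm
      (hnb _) hjq hiq.symm (BDP.conn_cmp _ _) (BDP.conn_cmp _ _) hd
      (fun x hx => hST x (hKT hx)) (fun x hx => hST x (hKT' hx)) (hcl _ hKT) (hcl _ hKT')
      k1 k2 k3 k4 k5 hz

end DS
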