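import Pool.Agent.Work.MP_0890ba_co.DS.Tri
import Pool.Agent.Work.MP_0890ba_co.DS.Euler
import Pool.Agent.Work.MP_0890ba_co.DS.K5
import Pool.Agent.Work.MP_0890ba_co.DS.MinB
import Pool.Agent.Work.MP_0890ba_co.DS.Sep
import Pool.Agent.Work.MP_0890ba_co.DS.Deg
import Pool.Agent.Work.MP_0890ba_co.DS.Conf
import Pool.Agent.Work.MP_0890ba_co.DS.CC
import Pool.Agent.Work.MP_0890ba_co.DS.CH
import Pool.Agent.Work.MP_0890ba_co.DS.Four
import Pool.Agent.Work.MP_0890ba_co.DS.Dis
import Pool.Agent.Work.MP_0890ba_co.DS.Tickets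

/-!
# Laws of independent sets in planar graphs

Every planar graph `G` with a vertex `z` has a law of independent sets of `G - z` which contains
every neighbour of `z` with probability more than `1 / 4` and every other vertex with probability
more than `1 / 5`.
-/

set_option linter.unusedSectionVars false

namespace DS

open Finset Classical

theorem dstar {V : Type} [Fintype V] (G : SimpleGraph V) (z : V) (h : Pln G) : Fine G z := by
  by_contra hf
  obtain ⟨V', _, G', z', hm⟩ := exists_min ⟨V, inferInstance, G, z, h, hf⟩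
  have h5 := hm.card
  have hl : ∀ v, ∃ (k : ℕ) (w : ZMod k → V'), Link G' v k w := fun v =>
    exists_link hm.pl hm.max (by omega) hm.conn hm.conn2 v
  have hcl : ∀ v, IsL G' z' v → ∃ (k : ℕ) (w : ZMod k → V'), CLink G' v k w := by
    intro v hv
    obtain ⟨k, w, hw⟩ := hl v
    exact ⟨k, w, hm.clink v (fun h => hv.2 h.1) k w hw⟩
  have hin : Conf.Inp G' z' := ⟨fun v => hm.five v, hm.clink, hm.h2, hm.noq⟩
  exact no_facts (G := G') (z := z')
    ⟨hm.pl.sum_dg (by omega), hl, fun v k w hw => hm.chord v k w hw,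
      fun v o o' => hm.h2 v o o', fun v => hm.five v, fun v => hm.six v,
      fun hz v => hm.seven hz v,
      fun c w => hm.cA' hin c w, fun c w => hm.cB' hin c w, fun c w => hm.cC c w,
      fun c w hc _ hw h0 h2 h4 => hm.cH' hcl (fun v => hm.five v) (fun v o o' => hm.h2 v o o')
        (fun c w hc hw => hm.noq c hc 7 w hw) c w hc hw h0 h2 h4⟩

/-- For the random choices of the two hub theorem: with gain `1 / 200`. -/
theorem dstar_tickets (n : ℕ) : ∃ N : ℕ, 0 < N ∧ ∀ (V : Type) [Fintype V] (G : SimpleGraph V)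
    (z : V), Fintype.card V ≤ n → Pln G → ∃ I : Fin N → Set V,
      (∀ ω, z ∉ I ω ∧ ∀ u ∈ I ω, ∀ v ∈ I ω, ¬G.Adj u v) ∧
      (∀ v, G.Adj z v → 201 * N ≤ 800 * (univ.filter fun ω => v ∈ I ω).card) ∧
      ∀ v, v ≠ z → 201 * N ≤ 1000 * (univ.filter fun ω => v ∈ I ω).card :=
  tickets_of_fine n fun _ _ G z h => dstar G z h

end DS
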