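import Pool.Agent.Work.MP_0890ba_co.BD.PieceT

/-!
# The hypothesis of the general chain: laws for pieces which see at most two vertices
-/

namespace DSP

open Finset Classical BDP BDP.Hub

/-- Every piece of at most `n` vertices has `nT n` tickets with rate `rho`. -/
def LawEx {V : Type} (rho : ℝ) (nT : ℕ → ℕ) (G : SimpleGraph V) : Prop :=
  ∀ (n β : ℕ) (K : Set V) (Zs : Finset V) (A : V → Finset ℤ), Zs.card ≤ 2 → (∀ v ∈ K, v ∉ Zs) →
    (∀ u ∈ Zs, ∀ v ∈ Zs, (res G Kᶜ).Reachable u v) → K.ncard ≤ n →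
    (∀ v ∈ K, 5 * β ≤ (A v).card + hn G Zs v * β) →
    ∃ S : Fin (nT n) → V → Finset ℤ, (∀ ω, SetCol G K A (S ω)) ∧
      ∀ v ∈ K, rho * (nT n : ℝ) * (β : ℝ) ≤ ((∑ ω, (S ω v).card : ℕ) : ℝ)

end DSP
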