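import Pool.Agent.Work.MP_0890ba_co.DS.Pr.Asm
import Pool.Agent.Work.MP_0890ba_co.DS.UT.Rate
import Pool.Agent.Work.MP_0890ba_co.DS.Dstar
import Pool.Agent.Work.MP_0890ba_co.DS.Bridge

/-!
# Multiple list colouring of all planar graphs: a ratio below five
-/

namespace DS

open BDP Pool.Agent.Work.MP_0890ba_co

/-- For every `η > 0` there is `b₀` such that every finite planar graph is `(a, b)`-choosable for
all `b ≥ b₀` and `a ≥ (5 - 3 / 16203 + η) b`. -/
theorem full {η : ℝ} (hη : 0 < η) : ∃ b₀ : ℕ, ∀ (V : Type) [Finite V] (G : SimpleGraph V),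
    Planar G → ∀ a b : ℕ, b₀ ≤ b → (5 - 3 / 16203 + η) * (b : ℝ) ≤ a → Choosable G a b := by
  obtain ⟨b₀, h⟩ := DSP.Proc.full (rho := 16203 / 16202) (by norm_num) (by norm_num) UT.nT
    UT.nT_pos hη
  refine ⟨b₀, fun V _ G hG a b hb hab => ?_⟩
  have hfin : Fintype V := Fintype.ofFinite V
  have g5 := not_hasK5Minor G hG
  have g3 := not_hasK3Minor G hG
  refine h V G g5 g3 (UT.lawEx (fun n => dstar_tickets n) (pln_of_planar hG) g5 g3) a b hb ?_
  have e1 : (2 + 3 * (16203 / 16202 : ℝ)⁻¹ + η) = 5 - 3 / 16203 + η := by norm_num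
  rw [e1]
  exact hab

/-- The strong fractional choice numbers of the finite planar graphs have an upper bound less than
five. -/
theorem uniform : ∃ c : ℝ, 0 < c ∧ ∀ (V : Type) [Finite V] (G : SimpleGraph V), Planar G →
    chsf G ≤ ((5 - c : ℝ) : EReal) := by
  obtain ⟨b₀, h⟩ := full (η := 1 / 16203) (by norm_num)
  have h0 : (5 - 3 / 16203 + 1 / 16203 : ℝ) < 5 := by norm_num
  refine ⟨gain b₀ (5 - 3 / 16203 + 1 / 16203), gain_pos b₀ h0, fun V _ G hG => ?_⟩
  exact chsf_le_gain (fun a b hb hab => h V G hG a b hb hab)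
    (fun b => choosable_five (not_hasK5Minor G hG) (not_hasK3Minor G hG) b)

/-- The strong fractional choice number of the planar graphs is less than five. -/
theorem chsfPlanar_lt : chsfPlanar < 5 := by
  obtain ⟨c, hc, h⟩ := uniform
  have h1 : chsfPlanar ≤ ((5 - c : ℝ) : EReal) := by
    unfold chsfPlanar
    exact iSup₂_le fun V _ => iSup₂_le fun G hG => h V G hG
  refine lt_of_le_of_lt h1 ?_
  have h2 : (5 - c : ℝ) < 5 := by linarith
  have h3 : ((5 : ℝ) : EReal) = 5 := rfl
  rw [← h3]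
  exact EReal.coe_lt_coe_iff.2 h2

/-- There is a positive integer `m` such that every finite planar graph is
`(5 m - 1, m)`-choosable. -/
theorem five_sub_one : ∃ m : ℕ, 0 < m ∧ ∀ (V : Type) [Finite V] (G : SimpleGraph V), Planar G →
    Choosable G (5 * m - 1) m := by
  obtain ⟨b₀, h⟩ := full (η := 1 / 16203) (by norm_num)
  refine ⟨max b₀ 16203, by positivity, fun V _ G hG => h V G hG _ _ (le_max_left _ _) ?_⟩
  have h1 : 16203 ≤ max b₀ 16203 := le_max_right _ _
  have h2 : (16203 : ℝ) ≤ ((max b₀ 16203 : ℕ) : ℝ) := by exact_mod_cast h1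
  rw [Nat.cast_sub (by omega)]
  push_cast at h2 ⊢
  linarith

end DS
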