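import Pool.Agent.Work.MP_0890ba_co.DS.Defs

/-!
# Gluing two families of laws along a four-cycle: the part without `glue`
-/

set_option linter.unusedSectionVars false

namespace DS

open Finset Classical

variable {V : Type}

namespace G4

lemma pr_nonneg [Fintype V] {μ : Finset V → ℝ} (h : ∀ I, 0 ≤ μ I) (P : Finset V → Prop) :
    0 ≤ pr μ P := by
  unfold pr
  refine Finset.sum_nonneg fun I _ => ?_
  split_ifs
  · exact h I
  · exact le_rfl

lemma pr_mono [Fintype V] {μ : Finset V → ℝ} (h : ∀ I, 0 ≤ μ I) {P Q : Finset V → Prop}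
    (hPQ : ∀ I, P I → Q I) : pr μ P ≤ pr μ Q := by
  unfold pr
  refine Finset.sum_le_sum fun I _ => ?_
  by_cases hP : P I
  · rw [if_pos hP, if_pos (hPQ I hP)]
  · rw [if_neg hP]
    split_ifs
    · exact h I
    · exact le_rfl

/-- The mixture of two laws. -/
noncomputable def mx (x : ℝ) (μ ν : Finset V → ℝ) : Finset V → ℝ :=
  fun I => (1 - x) * μ I + x * ν I

lemma mx_law [Fintype V] {G : SimpleGraph V} {X : Set V} {μ ν : Finset V → ℝ}
    (hμ : IsLaw G X μ) (hν : IsLaw G X ν) {x : ℝ} (h0 : 0 ≤ x) (h1 : x ≤ 1) :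
    IsLaw G X (mx x μ ν) := by
  have key : ∀ I, mx x μ ν I ≠ 0 → μ I ≠ 0 ∨ ν I ≠ 0 := by
    intro I hI
    by_contra hc
    push Not at hc
    exact hI (by simp [mx, hc.1, hc.2])
  refine ⟨fun I => ?_, ?_, fun I hI => ?_, fun I hI => ?_⟩
  · have := hμ.nonneg I
    have := hν.nonneg I
    unfold mx
    have h2 : 0 ≤ 1 - x := by linarith
    positivity
  · unfold mx
    rw [Finset.sum_add_distrib, ← Finset.mul_sum, ← Finset.mul_sum, hμ.sum, hν.sum]
    ring
  · rcases key I hI with h | h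
    · exact hμ.sub I h
    · exact hν.sub I h
  · rcases key I hI with h | h
    · exact hμ.ind I h
    · exact hν.ind I h

lemma mx_pr [Fintype V] (x : ℝ) (μ ν : Finset V → ℝ) (P : Finset V → Prop) :
    pr (mx x μ ν) P = (1 - x) * pr μ P + x * pr ν P := by
  unfold pr mx
  rw [Finset.mul_sum, Finset.mul_sum, ← Finset.sum_add_distrib]
  refine Finset.sum_congr rfl fun I _ => ?_
  split_ifs <;> ring

/-- A map of the square with coordinates `x = f y`, `y = g x` affine has a fixed point. -/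
lemma fixpt {u0 u1 v0 v1 : ℝ} (hu0 : 0 ≤ u0) (hu0' : u0 ≤ 1) (hu1 : 0 ≤ u1) (hu1' : u1 ≤ 1)
    (hv0 : 0 ≤ v0) (hv0' : v0 ≤ 1) (hv1 : 0 ≤ v1) (hv1' : v1 ≤ 1) :
    ∃ x y : ℝ, 0 ≤ x ∧ x ≤ 1 ∧ 0 ≤ y ∧ y ≤ 1 ∧ x = (1 - y) * u0 + y * u1 ∧
      y = (1 - x) * v0 + x * v1 := by
  -- f x = (value of the composed map at x) - x
  have hp : 0 ≤ (1 - v0) * u0 + v0 * u1 := by
    have : 0 ≤ 1 - v0 := by linarith
    positivity
  have hq : (1 - v1) * u0 + v1 * u1 - 1 ≤ 0 := by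
    nlinarith [mul_nonneg (by linarith : 0 ≤ 1 - v1) (by linarith : 0 ≤ 1 - u0),
      mul_nonneg hv1 (by linarith : 0 ≤ 1 - u1)]
  set p := (1 - v0) * u0 + v0 * u1 with hpdef
  set q := (1 - v1) * u0 + v1 * u1 - 1 with hqdef
  have hx : ∃ x : ℝ, 0 ≤ x ∧ x ≤ 1 ∧ p + (q - p) * x = 0 := by
    by_cases h : p - q = 0
    · refine ⟨0, le_rfl, zero_le_one, ?_⟩
      nlinarith
    · have hpos : 0 < p - q := lt_of_le_of_ne (by linarith) (Ne.symm h)
      refine ⟨p / (p - q), by positivity, ?_, ?_⟩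
      · rw [div_le_one hpos]
        linarith
      · field_simp
        ring
  obtain ⟨x, hx0, hx1, hx⟩ := hx
  refine ⟨x, (1 - x) * v0 + x * v1, hx0, hx1, ?_, ?_, ?_, rfl⟩
  · have : 0 ≤ 1 - x := by linarith
    positivity
  · nlinarith [mul_nonneg (by linarith : 0 ≤ 1 - x) (by linarith : 0 ≤ 1 - v0),
      mul_nonneg hx0 (by linarith : 0 ≤ 1 - v1)]
  · rw [hpdef, hqdef] at hx
    linarith

lemma if_iff {P Q : Prop} {_ : Decidable P} {_ : Decidable Q} {x : ℝ} (h : P ↔ Q) :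
    (if P then x else 0) = (if Q then x else 0) := by
  by_cases hQ : Q <;> simp [h, hQ]

lemma if_diff {P A C : Prop} {_ : Decidable P} {_ : Decidable A} {_ : Decidable (A ∧ C)} {x : ℝ}
    (h : P ↔ A ∧ ¬C) :
    (if P then x else 0) = (if A then x else 0) - (if A ∧ C then x else 0) := by
  by_cases hA : A <;> by_cases hC : C <;> simp [h, hA, hC]

lemma if_diff' {P A C : Prop} {_ : Decidable P} {_ : Decidable C} {_ : Decidable (A ∧ C)} {x : ℝ}
    (h : P ↔ C ∧ ¬A) :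
    (if P then x else 0) = (if C then x else 0) - (if A ∧ C then x else 0) := by
  by_cases hA : A <;> by_cases hC : C <;> simp [h, hA, hC]

lemma if_all {P A B C D : Prop} {_ : Decidable P} {_ : Decidable A} {_ : Decidable B}
    {_ : Decidable C} {_ : Decidable D} {_ : Decidable (A ∧ C)} {_ : Decidable (B ∧ D)} {x : ℝ}
    (h : P ↔ ¬A ∧ ¬B ∧ ¬C ∧ ¬D) (h1 : ¬((A ∨ C) ∧ (B ∨ D))) :
    (if P then x else 0) = x - (if A then x else 0) - (if C then x else 0) -
      (if B then x else 0) - (if D then x else 0) + (if A ∧ C then x else 0) +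
      (if B ∧ D then x else 0) := by
  by_cases hA : A <;> by_cases hB : B <;> by_cases hC : C <;> by_cases hD : D <;>
    simp_all

/-- The law of the trace on a four-cycle, from the marginals and the two diagonals. -/
lemma tr_eq [Fintype V] {G : SimpleGraph V} {X : Set V} {μ : Finset V → ℝ} (h : IsLaw G X μ)
    {a b c d : V} (h1 : G.Adj a b) (h2 : G.Adj b c) (h3 : G.Adj c d) (h4 : G.Adj d a)
    (ta tb tc td : Prop) :
    pr μ (fun I => (a ∈ I ↔ ta) ∧ (b ∈ I ↔ tb) ∧ (c ∈ I ↔ tc) ∧ (d ∈ I ↔ td)) =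
      if (ta ∨ tc) ∧ (tb ∨ td) then 0
      else if ta ∧ tc then pr μ (fun I => a ∈ I ∧ c ∈ I)
      else if tb ∧ td then pr μ (fun I => b ∈ I ∧ d ∈ I)
      else if ta then marg μ a - pr μ (fun I => a ∈ I ∧ c ∈ I)
      else if tc then marg μ c - pr μ (fun I => a ∈ I ∧ c ∈ I)
      else if tb then marg μ b - pr μ (fun I => b ∈ I ∧ d ∈ I)
      else if td then marg μ d - pr μ (fun I => b ∈ I ∧ d ∈ I)
      else 1 - marg μ a - marg μ c - marg μ b - marg μ d +
        pr μ (fun I => a ∈ I ∧ c ∈ I) + pr μ (fun I => b ∈ I ∧ d ∈ I) := by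
  have key : ∀ I, μ I ≠ 0 → ¬((a ∈ I ∨ c ∈ I) ∧ (b ∈ I ∨ d ∈ I)) := by
    rintro I hI ⟨ha | hc, hb | hd⟩
    · exact h.ind I hI a ha b hb h1
    · exact h.ind I hI d hd a ha h4
    · exact h.ind I hI b hb c hc h2
    · exact h.ind I hI c hc d hd h3
  have hs := h.sum
  split_ifs with c1 c2 c3 c4 c5 c6 c7
  · unfold pr
    refine Finset.sum_eq_zero fun I _ => ?_
    by_cases hI : μ I = 0
    · simp [hI]
    · have := key I hI
      rw [if_neg]
      tauto
  · unfold pr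
    refine Finset.sum_congr rfl fun I _ => ?_
    by_cases hI : μ I = 0
    · simp [hI]
    · have := key I hI
      refine if_iff ?_
      tauto
  · unfold pr
    refine Finset.sum_congr rfl fun I _ => ?_
    by_cases hI : μ I = 0
    · simp [hI]
    · have := key I hI
      refine if_iff ?_
      tauto
  · unfold marg pr
    rw [← Finset.sum_sub_distrib]
    refine Finset.sum_congr rfl fun I _ => ?_
    by_cases hI : μ I = 0
    · simp [hI]
    · have := key I hI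
      refine if_diff ?_
      tauto
  · unfold marg pr
    rw [← Finset.sum_sub_distrib]
    refine Finset.sum_congr rfl fun I _ => ?_
    by_cases hI : μ I = 0
    · simp [hI]
    · have := key I hI
      refine if_diff' ?_
      tauto
  · unfold marg pr
    rw [← Finset.sum_sub_distrib]
    refine Finset.sum_congr rfl fun I _ => ?_
    by_cases hI : μ I = 0
    · simp [hI]
    · have := key I hI
      refine if_diff ?_
      tauto
  · unfold marg pr
    rw [← Finset.sum_sub_distrib]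
    refine Finset.sum_congr rfl fun I _ => ?_
    by_cases hI : μ I = 0
    · simp [hI]
    · have := key I hI
      refine if_diff' ?_
      tauto
  · rw [← hs]
    unfold marg pr
    rw [← Finset.sum_sub_distrib, ← Finset.sum_sub_distrib, ← Finset.sum_sub_distrib,
      ← Finset.sum_sub_distrib, ← Finset.sum_add_distrib, ← Finset.sum_add_distrib]
    refine Finset.sum_congr rfl fun I _ => ?_
    by_cases hI : μ I = 0
    · simp [hI]
    · have := key I hI
      refine if_all ?_ this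
      tauto

/-- The trace event on `S = {a, b, c, d}` in terms of the four vertices. -/
lemma tr_iff {S : Set V} {_ : DecidablePred (· ∈ S)} {a b c d : V} (hS : S = {a, b, c, d})
    {T : Finset V}
    (hT : ∀ v ∈ T, v ∈ S) (I : Finset V) :
    I.filter (· ∈ S) = T ↔ (a ∈ I ↔ a ∈ T) ∧ (b ∈ I ↔ b ∈ T) ∧ (c ∈ I ↔ c ∈ T) ∧
      (d ∈ I ↔ d ∈ T) := by
  have ha : a ∈ S := by simp [hS]
  have hb : b ∈ S := by simp [hS]
  have hc : c ∈ S := by simp [hS]
  have hd : d ∈ S := by simp [hS]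
  constructor
  · rintro rfl
    simp [ha, hb, hc, hd]
  · rintro ⟨e1, e2, e3, e4⟩
    ext v
    rw [Finset.mem_filter]
    constructor
    · rintro ⟨hv, hvS⟩
      rw [hS] at hvS
      rcases hvS with rfl | rfl | rfl | rfl
      · exact e1.1 hv
      · exact e2.1 hv
      · exact e3.1 hv
      · exact e4.1 hv
    · intro hv
      have hvS := hT v hv
      refine ⟨?_, hvS⟩
      rw [hS] at hvS
      rcases hvS with rfl | rfl | rfl | rfl
      · exact e1.2 hv
      · exact e2.2 hv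
      · exact e3.2 hv
      · exact e4.2 hv

/-- Two laws with the same marginals and the same diagonals have the same trace. -/
lemma tr_same [Fintype V] {G : SimpleGraph V} {A B : Set V} {μ ν : Finset V → ℝ}
    (hμ : IsLaw G A μ) (hν : IsLaw G B ν) {S : Set V} {_ : DecidablePred (· ∈ S)} {a b c d : V}
    (hS : S = {a, b, c, d}) (h1 : G.Adj a b) (h2 : G.Adj b c) (h3 : G.Adj c d) (h4 : G.Adj d a)
    (ma : marg μ a = marg ν a) (mb : marg μ b = marg ν b) (mc : marg μ c = marg ν c)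
    (md : marg μ d = marg ν d)
    (hs : pr μ (fun I => a ∈ I ∧ c ∈ I) = pr ν (fun I => a ∈ I ∧ c ∈ I))
    (ht : pr μ (fun I => b ∈ I ∧ d ∈ I) = pr ν (fun I => b ∈ I ∧ d ∈ I)) (T : Finset V) :
    pr μ (fun I => I.filter (· ∈ S) = T) = pr ν (fun I => I.filter (· ∈ S) = T) := by
  by_cases hT : ∀ v ∈ T, v ∈ S
  · have e : (fun I : Finset V => I.filter (· ∈ S) = T) = fun I => (a ∈ I ↔ a ∈ T) ∧
        (b ∈ I ↔ b ∈ T) ∧ (c ∈ I ↔ c ∈ T) ∧ (d ∈ I ↔ d ∈ T) := by
      funext I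
      exact propext (tr_iff hS hT I)
    rw [e, tr_eq hμ h1 h2 h3 h4, tr_eq hν h1 h2 h3 h4, ma, mb, mc, md, hs, ht]
  · have z : ∀ ρ : Finset V → ℝ, pr ρ (fun I => I.filter (· ∈ S) = T) = 0 := by
      intro ρ
      unfold pr
      refine Finset.sum_eq_zero fun I _ => ?_
      rw [if_neg]
      rintro rfl
      exact hT fun v hv => (Finset.mem_filter.1 hv).2
    rw [z, z]

/-- The two mixtures have the same trace for suitable parameters. -/
lemma mixes [Fintype V] {G : SimpleGraph V} {A B : Set V} {μ₀ μ₁ ν₀ ν₁ : Finset V → ℝ}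
    (hμ₀ : IsLaw G A μ₀) (hμ₁ : IsLaw G A μ₁) (hν₀ : IsLaw G B ν₀) (hν₁ : IsLaw G B ν₁)
    {a b c d : V}
    (hS : A ∩ B = {a, b, c, d}) (h1 : G.Adj a b) (h2 : G.Adj b c) (h3 : G.Adj c d) (h4 : G.Adj d a)
    {m : V → ℝ} (m1 : ∀ v ∈ A, marg μ₀ v = m v) (m2 : ∀ v ∈ A, marg μ₁ v = m v)
    (m3 : ∀ v ∈ B, marg ν₀ v = m v) (m4 : ∀ v ∈ B, marg ν₁ v = m v)
    (p1 : pr μ₀ (fun I => a ∈ I ∧ c ∈ I) = 0)
    (p2 : pr μ₁ (fun I => a ∈ I ∧ c ∈ I) = min (m a) (m c))
    (p3 : pr ν₀ (fun I => b ∈ I ∧ d ∈ I) = 0)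
    (p4 : pr ν₁ (fun I => b ∈ I ∧ d ∈ I) = min (m b) (m d)) :
    ∃ μ ν, IsLaw G A μ ∧ IsLaw G B ν ∧ (∀ v ∈ A, marg μ v = m v) ∧ (∀ v ∈ B, marg ν v = m v) ∧
      ∀ T : Finset V, pr μ (fun I => I.filter (· ∈ A ∩ B) = T) =
        pr ν (fun I => I.filter (· ∈ A ∩ B) = T) := by
  have mem : ∀ v, v ∈ ({a, b, c, d} : Set V) → v ∈ A ∧ v ∈ B := by
    intro v hv
    rw [← hS] at hv
    exact hv
  obtain ⟨aA, aB⟩ := mem a (by simp)
  obtain ⟨bA, bB⟩ := mem b (by simp)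
  obtain ⟨cA, cB⟩ := mem c (by simp)
  obtain ⟨dA, dB⟩ := mem d (by simp)
  -- bounds for the diagonals
  have bnd : ∀ {X : Set V} {ρ : Finset V → ℝ} (hρ : IsLaw G X ρ) (x y : V),
      marg ρ x = m x → marg ρ y = m y →
      0 ≤ pr ρ (fun I => x ∈ I ∧ y ∈ I) ∧ pr ρ (fun I => x ∈ I ∧ y ∈ I) ≤ min (m x) (m y) := by
    intro X ρ hρ x y hx hy
    refine ⟨pr_nonneg hρ.nonneg _, le_min ?_ ?_⟩
    · rw [← hx]
      exact pr_mono hρ.nonneg fun I hI => hI.1
    · rw [← hy]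
      exact pr_mono hρ.nonneg fun I hI => hI.2
  have div01 : ∀ {s S : ℝ}, 0 ≤ s → s ≤ S → 0 ≤ s / S ∧ s / S ≤ 1 ∧ s / S * S = s := by
    intro s S h0 h1
    by_cases hS0 : S = 0
    · subst hS0
      have : s = 0 := le_antisymm h1 h0
      subst this
      simp
    · have hpos : 0 < S := lt_of_le_of_ne (h0.trans h1) (Ne.symm hS0)
      refine ⟨by positivity, ?_, ?_⟩
      · rw [div_le_one hpos]
        exact h1
      · field_simp
  obtain ⟨s0, s0'⟩ := bnd hν₀ a c (m3 a aB) (m3 c cB)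
  obtain ⟨s1, s1'⟩ := bnd hν₁ a c (m4 a aB) (m4 c cB)
  obtain ⟨t0, t0'⟩ := bnd hμ₀ b d (m1 b bA) (m1 d dA)
  obtain ⟨t1, t1'⟩ := bnd hμ₁ b d (m2 b bA) (m2 d dA)
  obtain ⟨u0, u0', u0e⟩ := div01 s0 s0'
  obtain ⟨u1, u1', u1e⟩ := div01 s1 s1'
  obtain ⟨v0, v0', v0e⟩ := div01 t0 t0'
  obtain ⟨v1, v1', v1e⟩ := div01 t1 t1'
  obtain ⟨x, y, hx0, hx1, hy0, hy1, hx, hy⟩ := fixpt u0 u0' u1 u1' v0 v0' v1 v1'
  have M := mx_law hμ₀ hμ₁ hx0 hx1
  have N := mx_law hν₀ hν₁ hy0 hy1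
  have mM : ∀ v ∈ A, marg (mx x μ₀ μ₁) v = m v := by
    intro v hv
    have e1 := m1 v hv
    have e2 := m2 v hv
    unfold marg at e1 e2 ⊢
    rw [mx_pr, e1, e2]
    ring
  have mN : ∀ v ∈ B, marg (mx y ν₀ ν₁) v = m v := by
    intro v hv
    have e1 := m3 v hv
    have e2 := m4 v hv
    unfold marg at e1 e2 ⊢
    rw [mx_pr, e1, e2]
    ring
  refine ⟨mx x μ₀ μ₁, mx y ν₀ ν₁, M, N, mM, mN, fun T => ?_⟩
  refine tr_same M N hS h1 h2 h3 h4 ?_ ?_ ?_ ?_ ?_ ?_ T
  · rw [mM a aA, mN a aB]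
  · rw [mM b bA, mN b bB]
  · rw [mM c cA, mN c cB]
  · rw [mM d dA, mN d dB]
  · rw [mx_pr, mx_pr, p1, p2]
    rw [← u0e, ← u1e]
    have : x * min (m a) (m c) = ((1 - y) * (pr ν₀ (fun I => a ∈ I ∧ c ∈ I) / min (m a) (m c)) +
        y * (pr ν₁ (fun I => a ∈ I ∧ c ∈ I) / min (m a) (m c))) * min (m a) (m c) := by
      rw [← hx]
    linarith
  · rw [mx_pr, mx_pr, p3, p4]
    rw [← v0e, ← v1e]
    have : y * min (m b) (m d) = ((1 - x) * (pr μ₀ (fun I => b ∈ I ∧ d ∈ I) / min (m b) (m d)) +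
        x * (pr μ₁ (fun I => b ∈ I ∧ d ∈ I) / min (m b) (m d))) * min (m b) (m d) := by
      rw [← hy]
    linarith

end G4

end DS
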