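import Pool.Agent.Work.MP_0890ba_co.DS.Leaf
import Pool.Agent.Work.MP_0890ba_co.DS.Ext
import Pool.Agent.Work.MP_0890ba_co.DS.Star

/-!
# A neighbour of `z` in a minimal counterexample does not have degree six
-/

set_option linter.unusedSectionVars false

namespace DS

open Finset Classical

variable {V : Type}

namespace Sv

/-- The union bound. -/
theorem hit_insert [Fintype V] {μ : Finset V → ℝ} (h0 : ∀ I, 0 ≤ μ I) (K : Set V) (v : V) :
    hit μ (insert v K) ≤ marg μ v + hit μ K := by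
  unfold hit marg pr
  rw [← sum_add_distrib]
  refine sum_le_sum fun I _ => ?_
  by_cases h : ∃ x ∈ I, x ∈ insert v K
  · rw [if_pos h]
    obtain ⟨x, hx, hxv | hxK⟩ := h
    · rw [if_pos (hxv ▸ hx)]
      exact le_add_of_nonneg_right (by split_ifs; exacts [h0 I, le_rfl])
    · rw [if_pos (⟨x, hx, hxK⟩ : ∃ x ∈ I, x ∈ K)]
      exact le_add_of_nonneg_left (by split_ifs; exacts [h0 I, le_rfl])
  · rw [if_neg h]
    exact add_nonneg (by split_ifs; exacts [h0 I, le_rfl]) (by split_ifs; exacts [h0 I, le_rfl])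

/-- The event grows. -/
theorem hit_mono [Fintype V] {G : SimpleGraph V} {X : Set V} {μ : Finset V → ℝ}
    (h : IsLaw G X μ) {K K' : Set V} (hK : ∀ x ∈ K, x ∈ X → x ∈ K') : hit μ K ≤ hit μ K' := by
  unfold hit pr
  refine sum_le_sum fun I _ => ?_
  by_cases h0 : μ I = 0
  · rw [h0]
    simp
  by_cases h1 : ∃ x ∈ I, x ∈ K
  · obtain ⟨x, hx, hxK⟩ := h1
    rw [if_pos ⟨x, hx, hxK⟩, if_pos ⟨x, hx, hK x hxK (h.sub I h0 x hx)⟩]
  · rw [if_neg h1]
    split_ifs
    exacts [h.nonneg I, le_rfl]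

theorem nd_le (G : SimpleGraph V) (z : V) (K : Set V) : nd G z K ≤ (1 + kap) / 4 := by
  have : (0 : ℝ) < kap := by norm_num [kap]
  unfold nd
  split_ifs
  · exact le_rfl
  · linarith

end Sv

/-- A neighbour of `z` whose link has no chord does not have degree `6`. -/
theorem Min.seven' [Fintype V] {G : SimpleGraph V} {z : V} (hm : Min G z) (v : V)
    (hv : G.Adj z v) (h6 : 6 ≤ dg G v) (hl : ∃ (k : ℕ) (w : ZMod k → V), CLink G v k w) :
    7 ≤ dg G v := by
  by_contra h7
  have hdv : dg G v = 6 := by omega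
  obtain ⟨k, w, hcl⟩ := hl
  have hw := hcl.toLink
  have hk : k = 6 := by rw [← hw.dg_eq, hdv]
  subst hk
  obtain ⟨i₀, hi₀⟩ := (hw.nb z).1 hv.symm
  have hc := hcl.rot i₀
  set y : ZMod 6 → V := fun j => w (j + i₀) with hy
  have y0 : y 0 = z := by rw [hy]; simpa using hi₀
  have hne : ∀ i j : ZMod 6, i ≠ j → y i ≠ y j := fun i j hij h => hij (hc.inj h)
  have hna : ∀ i j : ZMod 6, j ≠ i + 1 → i ≠ j + 1 → ¬G.Adj (y i) (y j) := fun i j h1 h2 h => by
    rcases hc.cl i j h with h3 | h3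
    exacts [h1 h3, h2 h3]
  have hvz : v ≠ z := hv.ne'
  let J : Finset V := {y 1, y 3, y 5}
  obtain ⟨μ, hμ, hmar, hJ, -⟩ := hm.star hvz ∅ (fun u hu => absurd hu (notMem_empty u))
    (fun u hu => absurd hu (notMem_empty u)) J
    (fun x hx => by
      have : ∃ i : ZMod 6, i ≠ 0 ∧ x = y i := by
        simp only [J, mem_insert, mem_singleton] at hx
        rcases hx with h | h | h
        exacts [⟨1, by decide, h⟩, ⟨3, by decide, h⟩, ⟨5, by decide, h⟩]
      obtain ⟨i, hi, rfl⟩ := this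
      exact ⟨hc.adj_nb i, fun h => hne i 0 hi (h.trans y0.symm), notMem_empty _⟩)
    (fun a ha b hb => by
      simp only [J, mem_insert, mem_singleton] at ha hb
      rcases ha with rfl | rfl | rfl <;> rcases hb with rfl | rfl | rfl <;>
        exact hna _ _ (by decide) (by decide))
    (fun _ => ∅) (fun u hu => absurd hu (notMem_empty u))
    (fun u hu => absurd hu (notMem_empty u)) (fun u hu => absurd hu (notMem_empty u))
  have hset : {x | x ≠ z ∧ x ≠ v ∧ x ∉ (∅ : Finset V)} = {x | x ≠ z ∧ x ≠ v} := by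
    ext x
    simp
  rw [hset] at hμ
  have hm4 : ∀ i : ZMod 6, i ≠ 0 → (1 : ZMod 6) ≠ i → (5 : ZMod 6) ≠ i →
      marg μ (y i) = (1 + kap) / 5 := by
    intro i h0 h1 h5
    rw [hmar (y i) (fun h => hne i 0 h0 (h.trans y0.symm)) (hc.ne i) (notMem_empty _)]
    unfold need
    rw [if_neg]
    rw [← y0]
    refine hna 0 i (fun h => h1 (by rw [h]; ring)) (fun h => h5 ?_)
    have : i = -1 := by linear_combination -h
    rw [this]
    decide
  have h1 : hit μ {x | G.Adj v x} ≤ hit μ (insert (y 2) (insert (y 4) (J : Set V))) := by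
    refine Sv.hit_mono hμ fun x hx hxz => ?_
    obtain ⟨i, rfl⟩ := (hc.nb x).1 hx
    have hi : i ≠ 0 := fun h => hxz.1 (by rw [h, y0])
    have h6 : ∀ i : ZMod 6, i ≠ 0 → i = 1 ∨ i = 2 ∨ i = 3 ∨ i = 4 ∨ i = 5 := by decide
    rcases h6 i hi with rfl | rfl | rfl | rfl | rfl <;> simp [J]
  have h2 := Sv.hit_insert hμ.nonneg (insert (y 4) (J : Set V)) (y 2)
  have h3 := Sv.hit_insert hμ.nonneg (J : Set V) (y 4)
  rw [hm4 2 (by decide) (by decide) (by decide)] at h2
  rw [hm4 4 (by decide) (by decide) (by decide)] at h3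
  have h4 := Sv.nd_le G z (J : Set V)
  refine hm.bad (ext_zero hvz hμ (fun x h5 h6 => hmar x h5 h6 (notMem_empty _)) ?_)
  have h5 : need G z v = (1 + kap) / 4 := by
    unfold need
    rw [if_pos hv]
  have h6 : kap = 1 / 100 := rfl
  rw [h5]
  rw [h6] at h2 h3 h4 ⊢
  linarith

end DS
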