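import Pool.Agent.Work.MP_0890ba_co.DS.Seven

/-!
# A neighbour of `z` in a minimal counterexample has degree at least six
-/

set_option linter.unusedSectionVars false

namespace DS

open Finset Classical

variable {V : Type}

namespace Sx

/-- The star without leaves. -/
theorem star0 [Fintype V] {G : SimpleGraph V} {z : V} (hm : Min G z) {v : V} (hvz : v ≠ z)
    (J : Finset V) (hJ : ∀ x ∈ J, G.Adj v x ∧ x ≠ z) (hJJ : ∀ a ∈ J, ∀ b ∈ J, ¬G.Adj a b) :
    ∃ μ, IsLaw G {x | x ≠ z ∧ x ≠ v} μ ∧ (∀ x, x ≠ z → x ≠ v → marg μ x = need G z x) ∧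
      hit μ (J : Set V) ≤ (1 + kap) / 4 := by
  obtain ⟨μ, hμ, hmar, h1, -⟩ := hm.star hvz ∅ (fun u hu => absurd hu (notMem_empty u))
    (fun u hu => absurd hu (notMem_empty u)) J
    (fun x hx => ⟨(hJ x hx).1, (hJ x hx).2, notMem_empty _⟩) hJJ
    (fun _ => ∅) (fun u hu => absurd hu (notMem_empty u))
    (fun u hu => absurd hu (notMem_empty u)) (fun u hu => absurd hu (notMem_empty u))
  have hset : {x | x ≠ z ∧ x ≠ v ∧ x ∉ (∅ : Finset V)} = {x | x ≠ z ∧ x ≠ v} := by
    ext x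
    simp
  rw [hset] at hμ
  exact ⟨μ, hμ, fun x h5 h6 => hmar x h5 h6 (notMem_empty _), h1.trans (Sv.nd_le G z _)⟩

theorem need_le (G : SimpleGraph V) (z x : V) : need G z x ≤ (1 + kap) / 4 := by
  have : (0 : ℝ) < kap := by norm_num [kap]
  unfold need
  split_ifs
  · exact le_rfl
  · linarith

end Sx

/-- A neighbour of `z` does not have degree at most `5`. -/
theorem Min.six' [Fintype V] {G : SimpleGraph V} {z : V} (hm : Min G z) (v : V)
    (hv : G.Adj z v) (hl : ∃ (k : ℕ) (w : ZMod k → V), Link G v k w)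
    (hch : ∀ (k : ℕ) (w : ZMod k → V), Link G v k w → ∀ i j, G.Adj (w i) (w j) →
      j = i + 1 ∨ i = j + 1 ∨ (G.Adj z (w i) ∧ G.Adj z (w j))) :
    6 ≤ dg G v := by
  by_contra h6
  obtain ⟨k, w, hw⟩ := hl
  have hk : dg G v = k := hw.dg_eq
  have h3 := hw.three
  have hvz : v ≠ z := hv.ne'
  obtain ⟨i₀, hi₀⟩ := (hw.nb z).1 hv.symm
  have hc := hw.rot i₀
  set y : ZMod k → V := fun j => w (j + i₀) with hy
  have y0 : y 0 = z := by rw [hy]; simpa using hi₀
  have hne : ∀ i j : ZMod k, i ≠ j → y i ≠ y j := fun i j hij h => hij (hc.inj h)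
  have hz : ∀ i : ZMod k, i ≠ 1 → i + 1 ≠ 0 → ¬G.Adj z (y i) := by
    intro i h1 h2 h
    have h' : G.Adj (y 0) (y i) := by rw [y0]; exact h
    rcases hch k y hc 0 i h' with h3 | h3 | h3
    · exact h1 (by rw [h3, zero_add])
    · exact h2 h3.symm
    · rw [y0] at h3
      exact G.loopless.irrefl z h3.1
  have hyz : ∀ i : ZMod k, i ≠ 0 → y i ≠ z := fun i hi h => hne i 0 hi (h.trans y0.symm)
  have hvneed : need G z v = (1 + kap) / 4 := by
    unfold need
    rw [if_pos hv]
  have hneed4 : ∀ i : ZMod k, i ≠ 1 → i + 1 ≠ 0 → need G z (y i) = (1 + kap) / 5 := by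
    intro i h1 h2
    unfold need
    rw [if_neg (hz i h1 h2)]
  have hkap : kap = 1 / 100 := rfl
  have hk5 : k = 3 ∨ k = 4 ∨ k = 5 := by omega
  rcases hk5 with rfl | rfl | rfl
  · obtain ⟨μ, hμ, hmar, hJ⟩ := Sx.star0 hm hvz {y 1}
      (fun x hx => by
        rw [mem_singleton.1 hx]
        exact ⟨hc.adj_nb 1, hyz 1 (by decide)⟩)
      (fun a ha b hb => by
        rw [mem_singleton.1 ha, mem_singleton.1 hb]
        exact G.loopless.irrefl _)
    have h1 : hit μ {x | G.Adj v x} ≤ hit μ (insert (y 2) ((({y 1} : Finset V)) : Set V)) := by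
      refine Sv.hit_mono hμ fun x hx hxz => ?_
      obtain ⟨i, rfl⟩ := (hc.nb x).1 hx
      have hi : i ≠ 0 := fun h => hxz.1 (by rw [h, y0])
      have h6 : ∀ i : ZMod 3, i ≠ 0 → i = 1 ∨ i = 2 := by decide
      rcases h6 i hi with rfl | rfl <;> simp
    have h2 := Sv.hit_insert hμ.nonneg ((({y 1} : Finset V)) : Set V) (y 2)
    rw [hmar (y 2) (hyz 2 (by decide)) (hc.ne 2)] at h2
    have h4 := Sx.need_le G z (y 2)
    refine hm.bad (ext_zero hvz hμ hmar ?_)
    rw [hvneed]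
    rw [hkap] at h4 hJ ⊢
    linarith
  · obtain ⟨μ, hμ, hmar, hJ⟩ := Sx.star0 hm hvz {y 1}
      (fun x hx => by
        rw [mem_singleton.1 hx]
        exact ⟨hc.adj_nb 1, hyz 1 (by decide)⟩)
      (fun a ha b hb => by
        rw [mem_singleton.1 ha, mem_singleton.1 hb]
        exact G.loopless.irrefl _)
    have h1 : hit μ {x | G.Adj v x} ≤
        hit μ (insert (y 2) (insert (y 3) ((({y 1} : Finset V)) : Set V))) := by
      refine Sv.hit_mono hμ fun x hx hxz => ?_
      obtain ⟨i, rfl⟩ := (hc.nb x).1 hx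
      have hi : i ≠ 0 := fun h => hxz.1 (by rw [h, y0])
      have h6 : ∀ i : ZMod 4, i ≠ 0 → i = 1 ∨ i = 2 ∨ i = 3 := by decide
      rcases h6 i hi with rfl | rfl | rfl <;> simp
    have h2 := Sv.hit_insert hμ.nonneg (insert (y 3) ((({y 1} : Finset V)) : Set V)) (y 2)
    have h3 := Sv.hit_insert hμ.nonneg ((({y 1} : Finset V)) : Set V) (y 3)
    rw [hmar (y 2) (hyz 2 (by decide)) (hc.ne 2), hneed4 2 (by decide) (by decide)] at h2
    rw [hmar (y 3) (hyz 3 (by decide)) (hc.ne 3)] at h3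
    have h4 := Sx.need_le G z (y 3)
    refine hm.bad (ext_zero hvz hμ hmar ?_)
    rw [hvneed]
    rw [hkap] at h2 h4 hJ ⊢
    linarith
  · obtain ⟨μ, hμ, hmar, hJ⟩ := Sx.star0 hm hvz {y 1, y 3}
      (fun x hx => by
        rcases mem_insert.1 hx with rfl | hx
        · exact ⟨hc.adj_nb 1, hyz 1 (by decide)⟩
        · rw [mem_singleton.1 hx]
          exact ⟨hc.adj_nb 3, hyz 3 (by decide)⟩)
      (fun a ha b hb h => by
        have h13 : ¬G.Adj (y 1) (y 3) := fun h => by
          rcases hch 5 y hc 1 3 h with h3 | h3 | h3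
          · exact absurd h3 (by decide)
          · exact absurd h3 (by decide)
          · exact hz 3 (by decide) (by decide) h3.2
        simp only [mem_insert, mem_singleton] at ha hb
        rcases ha with rfl | rfl <;> rcases hb with rfl | rfl
        · exact G.loopless.irrefl _ h
        · exact h13 h
        · exact h13 h.symm
        · exact G.loopless.irrefl _ h)
    have h1 : hit μ {x | G.Adj v x} ≤
        hit μ (insert (y 2) (insert (y 4) ((({y 1, y 3} : Finset V)) : Set V))) := by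
      refine Sv.hit_mono hμ fun x hx hxz => ?_
      obtain ⟨i, rfl⟩ := (hc.nb x).1 hx
      have hi : i ≠ 0 := fun h => hxz.1 (by rw [h, y0])
      have h6 : ∀ i : ZMod 5, i ≠ 0 → i = 1 ∨ i = 2 ∨ i = 3 ∨ i = 4 := by decide
      rcases h6 i hi with rfl | rfl | rfl | rfl <;> simp
    have h2 := Sv.hit_insert hμ.nonneg (insert (y 4) ((({y 1, y 3} : Finset V)) : Set V)) (y 2)
    have h3 := Sv.hit_insert hμ.nonneg ((({y 1, y 3} : Finset V)) : Set V) (y 4)
    rw [hmar (y 2) (hyz 2 (by decide)) (hc.ne 2), hneed4 2 (by decide) (by decide)] at h2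
    rw [hmar (y 4) (hyz 4 (by decide)) (hc.ne 4)] at h3
    have h4 := Sx.need_le G z (y 4)
    refine hm.bad (ext_zero hvz hμ hmar ?_)
    rw [hvneed]
    rw [hkap] at h2 h4 hJ ⊢
    linarith

end DS
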