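import Pool.Agent.Work.MP_0890ba_co.DS.Seven
import Pool.Agent.Work.MP_0890ba_co.DS.Tri
import Pool.Agent.Work.MP_0890ba_co.DS.Sep

/-!
# Neighbours of `z` in a minimal counterexample: degree at least six, or seven
-/

set_option linter.unusedSectionVars false

namespace DS

open Finset Classical

variable {V : Type}

theorem Min.six_of [Fintype V] {G : SimpleGraph V} {z : V} (hm : Min G z) (v : V)
    (hv : G.Adj z v) (h5 : 5 ≤ dg G v) : 6 ≤ dg G v := by
  by_contra h6
  have hdv : dg G v = 5 := by omega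
  have hcard := hm.card
  obtain ⟨k, w, hw⟩ := exists_link hm.pl hm.max (by omega) hm.conn hm.conn2 v
  have hk : k = 5 := by rw [← hw.dg_eq, hdv]
  subst hk
  obtain ⟨i₀, hi₀⟩ := (hw.nb z).1 hv.symm
  have hc := hw.rot i₀
  set y : ZMod 5 → V := fun j => w (j + i₀) with hy
  have y0 : y 0 = z := by rw [hy]; simpa using hi₀
  have hne : ∀ i j : ZMod 5, i ≠ j → y i ≠ y j := fun i j hij h => hij (hc.inj h)
  have hz2 : ∀ i : ZMod 5, i ≠ 1 → (0 : ZMod 5) ≠ i + 1 → ¬G.Adj z (y i) := fun i h1 h2 h => by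
    rw [← y0] at h
    rcases hm.chord v 5 y hc 0 i h with h3 | h3 | h3
    · exact h1 (by rw [h3, zero_add])
    · exact h2 h3
    · rw [y0] at h3
      exact G.irrefl h3.2.2.1
  have h13 : ¬G.Adj (y 1) (y 3) := fun h => by
    rcases hm.chord v 5 y hc 1 3 h with h3 | h3 | h3
    · exact absurd h3 (by decide)
    · exact absurd h3 (by decide)
    · exact hz2 3 (by decide) (by decide) h3.2.2.2
  have hvz : v ≠ z := hv.ne'
  let J : Finset V := {y 1, y 3}
  obtain ⟨μ, hμ, hmar, hJ, -⟩ := hm.star hvz ∅ (fun u hu => absurd hu (notMem_empty u))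
    (fun u hu => absurd hu (notMem_empty u)) J
    (fun x hx => by
      have : ∃ i : ZMod 5, i ≠ 0 ∧ x = y i := by
        simp only [J, mem_insert, mem_singleton] at hx
        rcases hx with h | h
        exacts [⟨1, by decide, h⟩, ⟨3, by decide, h⟩]
      obtain ⟨i, hi, rfl⟩ := this
      exact ⟨hc.adj_nb i, fun h => hne i 0 hi (h.trans y0.symm), notMem_empty _⟩)
    (fun a ha b hb => by
      simp only [J, mem_insert, mem_singleton] at ha hb
      rcases ha with rfl | rfl <;> rcases hb with rfl | rfl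
      exacts [G.irrefl, h13, fun h => h13 h.symm, G.irrefl])
    (fun _ => ∅) (fun u hu => absurd hu (notMem_empty u))
    (fun u hu => absurd hu (notMem_empty u)) (fun u hu => absurd hu (notMem_empty u))
  have hset : {x | x ≠ z ∧ x ≠ v ∧ x ∉ (∅ : Finset V)} = {x | x ≠ z ∧ x ≠ v} := by
    ext x
    simp
  rw [hset] at hμ
  have hkap : kap = 1 / 100 := rfl
  have hm2 : marg μ (y 2) = (1 + kap) / 5 := by
    rw [hmar (y 2) (fun h => hne 2 0 (by decide) (h.trans y0.symm)) (hc.ne 2) (notMem_empty _)]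
    unfold need
    rw [if_neg (hz2 2 (by decide) (by decide))]
  have hm4 : marg μ (y 4) ≤ (1 + kap) / 4 := by
    rw [hmar (y 4) (fun h => hne 4 0 (by decide) (h.trans y0.symm)) (hc.ne 4) (notMem_empty _)]
    unfold need
    split_ifs
    · exact le_rfl
    · rw [hkap]
      norm_num
  have h1 : hit μ {x | G.Adj v x} ≤ hit μ (insert (y 2) (insert (y 4) (J : Set V))) := by
    refine Sv.hit_mono hμ fun x hx hxz => ?_
    obtain ⟨i, rfl⟩ := (hc.nb x).1 hx
    have hi : i ≠ 0 := fun h => hxz.1 (by rw [h, y0])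
    have h6 : ∀ i : ZMod 5, i ≠ 0 → i = 1 ∨ i = 2 ∨ i = 3 ∨ i = 4 := by decide
    rcases h6 i hi with rfl | rfl | rfl | rfl <;> simp [J]
  have h2 := Sv.hit_insert hμ.nonneg (insert (y 4) (J : Set V)) (y 2)
  have h3 := Sv.hit_insert hμ.nonneg (J : Set V) (y 4)
  have h4 := Sv.nd_le G z (J : Set V)
  refine hm.bad (ext_zero hvz hμ (fun x h5 h6 => hmar x h5 h6 (notMem_empty _)) ?_)
  have h5 : need G z v = (1 + kap) / 4 := by
    unfold need
    rw [if_pos hv]
  rw [h5]
  rw [hkap] at hm2 hm4 h4 ⊢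
  linarith

theorem Min.seven_of [Fintype V] {G : SimpleGraph V} {z : V} (hm : Min G z) (hz : 4 ≤ dg G z)
    (v : V) (hv : G.Adj z v) (h5 : 5 ≤ dg G v) : 7 ≤ dg G v := by
  have hcard := hm.card
  obtain ⟨k, w, hw⟩ := exists_link hm.pl hm.max (by omega) hm.conn hm.conn2 v
  exact hm.seven' v hv (hm.six_of v hv h5) ⟨k, w, hm.clink v (fun h => by omega) k w hw⟩

end DS
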