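import Pool.Agent.Work.MP_0890ba_co.DS.Defs

/-!
# From laws to tickets

A law of independent sets with real probabilities is rounded to a uniform choice among `N` tickets.
-/

set_option linter.unusedSectionVars false

namespace DS

open Finset Classical

/-- There are `N` tickets such that every set `I` is on at least `c I` of them. -/
theorem tk_exists {X : Type} [Fintype X] (c : Finset X → ℕ) (N : ℕ) (hc : ∑ I, c I ≤ N) :
    ∃ J : Fin N → Finset X, (∀ ω, J ω = ∅ ∨ c (J ω) ≠ 0) ∧
      ∀ v, ∑ I, (if v ∈ I then c I else 0) ≤ (univ.filter fun ω => v ∈ J ω).card := by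
  have hcard : Fintype.card (Σ I : Finset X, Fin (c I)) ≤ Fintype.card (Fin N) := by
    rw [Fintype.card_sigma, Fintype.card_fin]
    simpa using hc
  obtain ⟨e⟩ := Function.Embedding.nonempty_of_card_le hcard
  refine ⟨fun ω => if h : ∃ x, e x = ω then (Classical.choose h).1 else ∅, ?_, ?_⟩
  · intro ω
    by_cases h : ∃ x, e x = ω
    · right
      simp only [dif_pos h]
      intro h0
      have := (Classical.choose h).2.2
      omega
    · left
      simp only [dif_neg h]
  · intro v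
    have h1 : ∑ I, (if v ∈ I then c I else 0) =
        (univ.filter fun x : (Σ I : Finset X, Fin (c I)) => v ∈ x.1).card := by
      have h2 : (univ.filter fun x : (Σ I : Finset X, Fin (c I)) => v ∈ x.1) =
          (univ.filter fun I : Finset X => v ∈ I).sigma fun I => (univ : Finset (Fin (c I))) := by
        ext x
        simp
      rw [h2, card_sigma, sum_filter]
      simp
    rw [h1, ← card_map e]
    apply card_le_card
    intro ω hω
    rw [mem_map] at hω
    obtain ⟨x, hx, rfl⟩ := hω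
    rw [mem_filter] at hx ⊢
    refine ⟨mem_univ _, ?_⟩
    have h : ∃ y, e y = e x := ⟨x, rfl⟩
    have h3 : Classical.choose h = x := e.injective (Classical.choose_spec h)
    change v ∈ (if h : ∃ y, e y = e x then (Classical.choose h).1 else ∅ : Finset X)
    rw [dif_pos h, h3]
    exact hx.2

/-- For the random choices of the two hub theorem: with gain `1 / 200`. -/
theorem tickets_of_fine (n : ℕ)
    (hF : ∀ (V : Type) [Fintype V] (G : SimpleGraph V) (z : V), Pln G → Fine G z) :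
    ∃ N : ℕ, 0 < N ∧ ∀ (V : Type) [Fintype V] (G : SimpleGraph V)
    (z : V), Fintype.card V ≤ n → Pln G → ∃ I : Fin N → Set V,
      (∀ ω, z ∉ I ω ∧ ∀ u ∈ I ω, ∀ v ∈ I ω, ¬G.Adj u v) ∧
      (∀ v, G.Adj z v → 201 * N ≤ 800 * (univ.filter fun ω => v ∈ I ω).card) ∧
      ∀ v, v ≠ z → 201 * N ≤ 1000 * (univ.filter fun ω => v ∈ I ω).card := by
  refine ⟨1000 * 2 ^ n, by positivity, ?_⟩
  intro V _ G z hn hG
  obtain ⟨μ, hμ, hm⟩ := hF V G z hG
  set N : ℕ := 1000 * 2 ^ n with hN
  have hNpos : (0 : ℝ) ≤ N := Nat.cast_nonneg _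
  have hc : ∑ I : Finset V, ⌊(N : ℝ) * μ I⌋₊ ≤ N := by
    have h1 : ((∑ I : Finset V, ⌊(N : ℝ) * μ I⌋₊ : ℕ) : ℝ) ≤ N := by
      push_cast
      calc ∑ I : Finset V, ((⌊(N : ℝ) * μ I⌋₊ : ℕ) : ℝ) ≤ ∑ I : Finset V, (N : ℝ) * μ I :=
            sum_le_sum fun I _ => Nat.floor_le (mul_nonneg hNpos (hμ.nonneg I))
        _ = N := by rw [← mul_sum, hμ.sum, mul_one]
    exact_mod_cast h1
  obtain ⟨J, hJ, hJc⟩ := tk_exists (fun I : Finset V => ⌊(N : ℝ) * μ I⌋₊) N hc
  have hpos : ∀ ω, J ω = ∅ ∨ μ (J ω) ≠ 0 := by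
    intro ω
    rcases hJ ω with h | h
    · exact Or.inl h
    · right
      intro h0
      apply h
      simp only [h0, mul_zero, Nat.floor_zero]
  have hcount : ∀ v, (N : ℝ) * marg μ v - 2 ^ n ≤ ((univ.filter fun ω => v ∈ J ω).card : ℝ) := by
    intro v
    have h1 : ((∑ I : Finset V, (if v ∈ I then ⌊(N : ℝ) * μ I⌋₊ else 0) : ℕ) : ℝ) ≤
        ((univ.filter fun ω => v ∈ J ω).card : ℝ) := by exact_mod_cast hJc v
    refine le_trans ?_ h1
    push_cast
    have h2 : (N : ℝ) * marg μ v - ∑ _I : Finset V, (1 : ℝ) ≤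
        ∑ I : Finset V, (if v ∈ I then ((⌊(N : ℝ) * μ I⌋₊ : ℕ) : ℝ) else 0) := by
      rw [marg, pr, mul_sum, ← sum_sub_distrib]
      apply sum_le_sum
      intro I _
      by_cases h : v ∈ I
      · simp only [if_pos h]
        have := Nat.lt_floor_add_one ((N : ℝ) * μ I)
        linarith
      · simp only [if_neg h]
        linarith
    have h3 : ∑ _I : Finset V, (1 : ℝ) ≤ 2 ^ n := by
      rw [sum_const, card_univ, Fintype.card_finset, nsmul_eq_mul, mul_one]
      have : 2 ^ Fintype.card V ≤ 2 ^ n := Nat.pow_le_pow_right (by norm_num) hn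
      exact_mod_cast this
    linarith
  have hNr : (N : ℝ) = 1000 * 2 ^ n := by rw [hN]; push_cast; ring
  obtain ⟨I, hI⟩ : ∃ I : Fin N → Set V, ∀ ω v, v ∈ J ω ↔ v ∈ I ω :=
    ⟨fun ω => {v | v ∈ J ω}, fun _ _ => Iff.rfl⟩
  have hIc : ∀ v, (univ.filter fun ω => v ∈ J ω) = (univ.filter fun ω => v ∈ I ω) := fun v =>
    filter_congr fun ω _ => hI ω v
  refine ⟨I, ?_, ?_, ?_⟩
  · intro ω
    rcases hpos ω with h | h
    · have h0 : ∀ v, v ∉ I ω := by
        intro v hv
        rw [← hI, h] at hv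
        exact notMem_empty v hv
      exact ⟨h0 z, fun u hu => absurd hu (h0 u)⟩
    · refine ⟨fun hz => ?_, fun u hu v hv =>
        hμ.ind _ h u ((hI ω u).2 hu) v ((hI ω v).2 hv)⟩
      have := hμ.sub _ h z ((hI ω z).2 hz)
      exact this rfl
  · intro v hv
    have h1 := hcount v
    have hvz : v ≠ z := hv.ne'
    rw [hm v hvz, need, if_pos hv, kap] at h1
    have h2 : (201 : ℝ) * N ≤ 800 * ((univ.filter fun ω => v ∈ J ω).card : ℝ) := by
      have h3 : (0 : ℝ) ≤ 2 ^ n := by positivity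
      rw [hNr] at h1 ⊢
      nlinarith
    have h4 : 201 * N ≤ 800 * (univ.filter fun ω => v ∈ J ω).card := by exact_mod_cast h2
    rw [hIc v] at h4
    exact h4
  · intro v hvz
    have h1 := hcount v
    have h0 : (1 + kap) / 5 ≤ need G z v := by
      rw [need, kap]
      split_ifs <;> norm_num
    rw [hm v hvz] at h1
    have h2 : (201 : ℝ) * N ≤ 1000 * ((univ.filter fun ω => v ∈ J ω).card : ℝ) := by
      have h3 : (0 : ℝ) ≤ 2 ^ n := by positivity
      have h5 : (N : ℝ) * ((1 + kap) / 5) ≤ N * need G z v := mul_le_mul_of_nonneg_left h0 hNpos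
      rw [kap] at h5
      rw [hNr] at h1 h5 ⊢
      nlinarith
    have h4 : 201 * N ≤ 1000 * (univ.filter fun ω => v ∈ J ω).card := by exact_mod_cast h2
    rw [hIc v] at h4
    exact h4

end DS
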